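import Mathlib

/-!
# UNil forms over an edge of a tree: definitions

`Λ = MonoidAlgebra A G`.  Types are `Bool`: `false = X` (directed edge pointing to `v`),
`true = Y` (pointing to `u`).  All matrices act on ROWS (row vector times matrix).
-/

open MonoidAlgebra

namespace Pool.Agent.Lib.MP_98022b_UN

universe u v

/-- an anti-involution of the group ring `A[G]` which inverts supports -/
structure BarStr (A : Type u) (G : Type v) [CommRing A] [Group G] where
  bar : MonoidAlgebra A G → MonoidAlgebra A G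
  add' : ∀ x y, bar (x + y) = bar x + bar y
  mul' : ∀ x y, bar (x * y) = bar y * bar x
  inv' : ∀ x, bar (bar x) = x
  supp' : ∀ x g, (bar x).coeff g ≠ 0 → x.coeff g⁻¹ ≠ 0

/-- the supports of the entries of forms: `F` the edge group, `S σ ρ` the group elements `g` such
that the directed edge `g e_ρ` may follow `e_σ` in a reduced path -/
structure EdgeSys (G : Type v) [Group G] where
  F : Subgroup G
  S : Bool → Bool → Set G
  left' : ∀ {σ ρ : Bool} {f g : G}, f ∈ F → g ∈ S σ ρ → f * g ∈ S σ ρ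
  right' : ∀ {σ ρ : Bool} {f g : G}, g ∈ S σ ρ → f ∈ F → g * f ∈ S σ ρ
  inv' : ∀ {σ ρ : Bool} {g : G}, g ∈ S σ ρ → g⁻¹ ∈ S (!ρ) (!σ)

section
variable {A : Type u} {G : Type v} [CommRing A] [Group G]

/-- reduced paths with `m` turns -/
def EdgeSys.P (E : EdgeSys G) : ℕ → Bool → Bool → Set G
  | 0, σ, τ => {g | g ∈ E.F ∧ σ = τ}
  | m + 1, σ, τ => {g | ∃ ρ : Bool, ∃ s ∈ E.S σ ρ, ∃ t ∈ E.P m ρ τ, s * t = g}

/-- the first edge of a reduced path is determined by its end -/
def EdgeSys.Geo (E : EdgeSys G) : Prop :=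
  ∀ (m : ℕ) (σ τ ρ ρ' : Bool) (s s' t t' : G), s ∈ E.S σ ρ → t ∈ E.P m ρ τ →
    s' ∈ E.S σ ρ' → t' ∈ E.P m ρ' τ → s * t = s' * t' → ρ = ρ' ∧ s⁻¹ * s' ∈ E.F

/-- the conjugate transpose -/
def adj (β : BarStr A G) {I J : Type} (M : Matrix I J (MonoidAlgebra A G)) :
    Matrix J I (MonoidAlgebra A G) := fun j i => β.bar (M i j)

/-- typed support condition: entry `(i,j)` is supported in `P m (s i) (t j)` -/
def OnT (E : EdgeSys G) {I J : Type} (s : I → Bool) (t : J → Bool) (m : ℕ)
    (M : Matrix I J (MonoidAlgebra A G)) : Prop :=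
  ∀ i j g, (M i j).coeff g ≠ 0 → g ∈ E.P m (s i) (t j)

/-- all entries are supported in the subgroup `F` -/
def OnF (F : Subgroup G) {I J : Type} (M : Matrix I J (MonoidAlgebra A G)) : Prop :=
  ∀ i j g, (M i j).coeff g ≠ 0 → g ∈ F

open Classical in
/-- restriction of an element of the group ring to a subset of the group -/
noncomputable def res (U : Set G) (x : MonoidAlgebra A G) : MonoidAlgebra A G :=
  MonoidAlgebra.ofCoeff (x.coeff.filter (fun g => g ∈ U))

/-- entrywise restriction -/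
noncomputable def resM {I J : Type} (U : I → J → Set G) (M : Matrix I J (MonoidAlgebra A G)) :
    Matrix I J (MonoidAlgebra A G) := fun i j => res (U i j) (M i j)

/-- typed restriction to words of length `m` -/
noncomputable def resT (E : EdgeSys G) {I J : Type} (s : I → Bool) (t : J → Bool) (m : ℕ)
    (M : Matrix I J (MonoidAlgebra A G)) : Matrix I J (MonoidAlgebra A G) :=
  fun i j => res (E.P m (s i) (t j)) (M i j)

/-- component at the right coset `F g`:  `res_F (x g⁻¹)` -/
noncomputable def cR (F : Subgroup G) (g : G) {I J : Type} (M : Matrix I J (MonoidAlgebra A G)) :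
    Matrix I J (MonoidAlgebra A G) := fun i j => res (F : Set G) (M i j * single g⁻¹ 1)

/-- component at the left coset `g F`:  `res_F (g⁻¹ x)` -/
noncomputable def cL (F : Subgroup G) (g : G) {I J : Type} (M : Matrix I J (MonoidAlgebra A G)) :
    Matrix I J (MonoidAlgebra A G) := fun i j => res (F : Set G) (single g⁻¹ 1 * M i j)

/-- the rows of `ω` generate the left kernel of `D` (over `A[G]`) -/
def GenL {n J K : Type} [Fintype n] [Fintype J] (ω : Matrix n J (MonoidAlgebra A G))
    (D : Matrix J K (MonoidAlgebra A G)) : Prop :=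
  ω * D = 0 ∧ ∀ x : Matrix Unit J (MonoidAlgebra A G), x * D = 0 →
    ∃ κ : Matrix Unit n (MonoidAlgebra A G), x = κ * ω

/-- `f` is a (matrix of) functional(s) on the row space of `ζ` -/
def Fnl {r K c : Type} [Fintype r] (ζ : Matrix r K (MonoidAlgebra A G))
    (f : Matrix r c (MonoidAlgebra A G)) : Prop :=
  ∀ κ : Matrix Unit r (MonoidAlgebra A G), κ * ζ = 0 → κ * f = 0

/-- the functional `f` is represented (extends to the ambient free module) -/
def Rep {r K c : Type} [Fintype K] (ζ : Matrix r K (MonoidAlgebra A G))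
    (f : Matrix r c (MonoidAlgebra A G)) : Prop :=
  ∃ p : Matrix K c (MonoidAlgebra A G), f = ζ * p

/-- the projector on the indices of type `τ` -/
noncomputable def eT (A : Type u) (G : Type v) [CommRing A] [Group G] {K : Type} [DecidableEq K]
    (t : K → Bool) (τ : Bool) :
    Matrix K K (MonoidAlgebra A G) := Matrix.diagonal fun k => if t k = τ then 1 else 0

/-- the ring-theoretic facts about `A[F]` which are used -/
structure RF (A : Type u) {G : Type v} [CommRing A] [Group G] (F : Subgroup G) : Prop where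
  c1 : ∀ (J K : Type) [Fintype J] [Fintype K] (D : Matrix J K (MonoidAlgebra A G)), OnF F D →
    ∃ (n : ℕ) (ω : Matrix (Fin n) J (MonoidAlgebra A G)), OnF F ω ∧ GenL ω D
  c2 : ∀ (J K : Type) [Fintype J] [Fintype K] (D : Matrix J K (MonoidAlgebra A G)), OnF F D →
    ∃ (a : A) (Q : Matrix J J (MonoidAlgebra A G)), a ≠ 0 ∧ OnF F Q ∧ Q * D = 0 ∧
      ∀ y : Matrix Unit J (MonoidAlgebra A G), y * D = 0 → y * Q = a • y
  c3 : ∀ (p : A), Prime p → ∀ (n J K : Type) [Fintype n] [Fintype J] [Fintype K]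
    (ω : Matrix n J (MonoidAlgebra A G)) (D : Matrix J K (MonoidAlgebra A G)),
    OnF F ω → OnF F D → GenL ω D →
    ∃ (s : A) (M : Matrix n n (MonoidAlgebra A G)), ¬ p ∣ s ∧ OnF F M ∧ M * ω = s • ω ∧ Fnl ω M
  c4 : ∀ (n J K L : Type) [Fintype n] [Fintype J] [Fintype K] [Fintype L]
    (ω : Matrix n J (MonoidAlgebra A G)) (D : Matrix J K (MonoidAlgebra A G))
    (D2 : Matrix K L (MonoidAlgebra A G)),
    OnF F ω → OnF F D → OnF F D2 → GenL ω D → GenL D D2 →
    ∃ M : Matrix n n (MonoidAlgebra A G), OnF F M ∧ M * ω = ω ∧ Fnl ω M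

/-- `J` is the standard hyperbolic matrix for a fixed point free type-reversing involution `sw`:
`J i (sw i) = 1` if `i` has type `X = false` and `ε` if `i` has type `Y = true` -/
def HJ (ε : ℤ) {K : Type} [DecidableEq K] (t : K → Bool)
    (J : Matrix K K (MonoidAlgebra A G)) : Prop :=
  ∃ sw : K → K, (∀ k, sw (sw k) = k) ∧ (∀ k, t (sw k) = !t k) ∧
    ∀ i j, J i j = if j = sw i then (if t i then ((ε : ℤ) : MonoidAlgebra A G) else 1) else 0

/-- UNil forms -/
structure TF (E : EdgeSys G) (β : BarStr A G) (ε : ℤ) {K : Type} [Fintype K] [DecidableEq K]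
    (t : K → Bool) (J T : Matrix K K (MonoidAlgebra A G)) : Prop where
  hJ : HJ ε t J
  on : OnT E t t 1 T
  form : T * J = J * adj β T
  nil : ∃ N : ℕ, T ^ N = 0

/-- metabolic forms: a typed idempotent over `A[F]` whose row space is a `T`-invariant
Lagrangian -/
def Metab (E : EdgeSys G) (β : BarStr A G) {K : Type} [Fintype K] [DecidableEq K]
    (t : K → Bool) (J T : Matrix K K (MonoidAlgebra A G)) : Prop :=
  ∃ Q : Matrix K K (MonoidAlgebra A G), OnT E t t 0 Q ∧ Q * Q = Q ∧ Q * T * (1 - Q) = 0 ∧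
    Q * J = J * (1 - adj β Q)

/-- stably metabolic forms -/
def SMetab (E : EdgeSys G) (β : BarStr A G) (ε : ℤ) {K : Type} [Fintype K] [DecidableEq K]
    (t : K → Bool) (J T : Matrix K K (MonoidAlgebra A G)) : Prop :=
  ∃ (K' : Type) (_ : Fintype K') (_ : DecidableEq K') (t' : K' → Bool)
    (J' T' : Matrix K' K' (MonoidAlgebra A G)), TF E β ε t' J' T' ∧ Metab E β t' J' T' ∧
    Metab E β (Sum.elim t t') (Matrix.fromBlocks J 0 0 J') (Matrix.fromBlocks T 0 0 T')

/-- a stage: a `T`-invariant typed submodule `Z = Λζ` with `Z = Z^⊥` -/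
structure IsStage (E : EdgeSys G) (β : BarStr A G) {K r : Type} [Fintype K] [DecidableEq K]
    [Fintype r] [DecidableEq r] (t : K → Bool) (J T : Matrix K K (MonoidAlgebra A G))
    (s : r → Bool) (ζ : Matrix r K (MonoidAlgebra A G)) (θ : Matrix r r (MonoidAlgebra A G)) :
    Prop where
  ζ_on : OnT E s t 0 ζ
  θ_on : OnT E s s 1 θ
  comm : ζ * T = θ * ζ
  lag : GenL ζ (J * adj β ζ)

/-- the type `σ` part of `θ^m f` is represented for every functional `f` over `A[F]` -/
def PP (E : EdgeSys G) {K r : Type} [Fintype K] [Fintype r] [DecidableEq r]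
    (s : r → Bool) (ζ : Matrix r K (MonoidAlgebra A G)) (θ : Matrix r r (MonoidAlgebra A G))
    (m : ℕ) (σ : Bool) : Prop :=
  ∀ (τ : Bool) (f : Matrix r Unit (MonoidAlgebra A G)), OnT E s (fun _ => τ) 0 f → Fnl ζ f →
    Rep ζ (eT A G s σ * (θ ^ m * f))

/-- the divisibility property of a matrix of functionals `φ` -/
def AVP {K r ι : Type} [Fintype K] [Fintype r] [Fintype ι]
    (ζ : Matrix r K (MonoidAlgebra A G)) (φ : Matrix r ι (MonoidAlgebra A G)) : Prop :=
  ∀ a : A, a ≠ 0 → ∀ h : Matrix Unit ι (MonoidAlgebra A G),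
    (∀ (l : Matrix ι Unit (MonoidAlgebra A G)) (x : Matrix K Unit (MonoidAlgebra A G)),
      φ * l = ζ * x → ∃ y : Matrix Unit Unit (MonoidAlgebra A G), h * l = a • y) →
    ∃ h' : Matrix Unit ι (MonoidAlgebra A G), h = a • h'

/-- the functionals used in one step, for the type `τ` and level `n`: all type `τ` components of
`θ^n f`, `f` a functional over `A[F]` -/
structure IsComp (E : EdgeSys G) {K r ι : Type} [Fintype K] [Fintype r] [DecidableEq r]
    [Fintype ι] (t : K → Bool) (s : r → Bool) (ζ : Matrix r K (MonoidAlgebra A G))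
    (θ : Matrix r r (MonoidAlgebra A G)) (n : ℕ) (τ : Bool)
    (φ : Matrix r ι (MonoidAlgebra A G)) (b : Matrix K ι (MonoidAlgebra A G)) : Prop where
  φ_on : OnT E s (fun _ => τ) 0 φ
  b_on : OnT E t (fun _ => τ) 1 b
  fnl : Fnl ζ φ
  eq : θ * φ = ζ * b
  avp : AVP ζ φ
  gen : ∀ (τ' : Bool) (f : Matrix r Unit (MonoidAlgebra A G)), OnT E s (fun _ => τ') 0 f →
    Fnl ζ f → ∃ l : Matrix ι Unit (MonoidAlgebra A G), eT A G s τ * (θ ^ n * f) = φ * l

end

end Pool.Agent.Lib.MP_98022b_UN
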