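import Mathlib
import Pool.Agent.Lib.MP_98022b_UN.Defs

/-! Task B1: API of the anti-involution and of `adj`, `HJ`. -/

open MonoidAlgebra

namespace Pool.Agent.Lib.MP_98022b_UN

universe u v
variable {A : Type u} {G : Type v} [CommRing A] [Group G] (β : BarStr A G)

/-- the involution as an additive map -/
noncomputable def AdjAux.barHom : MonoidAlgebra A G →+ MonoidAlgebra A G :=
  AddMonoidHom.mk' β.bar β.add'

theorem bar_zero : β.bar 0 = 0 := map_zero (AdjAux.barHom β)
theorem bar_neg (x) : β.bar (-x) = -β.bar x := map_neg (AdjAux.barHom β) x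
theorem bar_sub (x y) : β.bar (x - y) = β.bar x - β.bar y := map_sub (AdjAux.barHom β) x y
theorem bar_sum {ι : Type*} (s : Finset ι) (f : ι → MonoidAlgebra A G) :
    β.bar (∑ i ∈ s, f i) = ∑ i ∈ s, β.bar (f i) := map_sum (AdjAux.barHom β) f s
theorem bar_one : β.bar 1 = 1 := by
  have h := β.mul' 1 (β.bar 1)
  rw [one_mul, β.inv', one_mul] at h
  exact h.symm
theorem bar_zsmul (n : ℤ) (x) : β.bar (n • x) = n • β.bar x :=
  map_zsmul (AdjAux.barHom β) n x
theorem bar_intCast (n : ℤ) : β.bar (n : MonoidAlgebra A G) = (n : MonoidAlgebra A G) := by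
  rw [← zsmul_one, bar_zsmul, bar_one]
theorem bar_eq_zero {x} (h : β.bar x = 0) : x = 0 := by
  rw [← β.inv' x, h, bar_zero]

theorem AdjAux.smul_eq (a : A) (x : MonoidAlgebra A G) : a • x = single 1 a * x := by
  ext g
  rw [coeff_single_one_mul]
  rfl
theorem AdjAux.smul_eq' (a : A) (x : MonoidAlgebra A G) : a • x = x * single 1 a := by
  ext g
  rw [coeff_mul_single_one, mul_comm]
  rfl

/-- the involution induced on the coefficients -/
theorem bar_smul [Nontrivial A] (a : A) : ∃ a' : A, (a ≠ 0 → a' ≠ 0) ∧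
    (∀ x : MonoidAlgebra A G, β.bar (a • x) = a' • β.bar x) ∧
    (∀ x : MonoidAlgebra A G, β.bar (a' • x) = a • β.bar x) := by
  classical
  set a' : A := (β.bar (single 1 a)).coeff 1 with ha'
  have key : β.bar (single 1 a) = single 1 a' := by
    ext g
    by_cases hg : g = 1
    · subst hg
      rw [← ha', coeff_single, Finsupp.single_eq_same]
    · rw [coeff_single, Finsupp.single_apply, if_neg (fun h => hg h.symm)]
      by_contra hc
      have := β.supp' _ _ hc
      rw [coeff_single, Finsupp.single_apply, if_neg] at this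
      · exact this rfl
      · intro h
        exact hg (inv_eq_one.1 h.symm)
  refine ⟨a', ?_, ?_, ?_⟩
  · intro ha h0
    rw [h0] at key
    have h1 : β.bar (single 1 a) = 0 := by
      rw [key]; ext g; simp
    have h2 := bar_eq_zero β h1
    exact ha (single_eq_zero.1 h2)
  · intro x
    rw [AdjAux.smul_eq, β.mul', key, ← AdjAux.smul_eq']
  · intro x
    rw [AdjAux.smul_eq, β.mul', ← key, β.inv', ← AdjAux.smul_eq']

section
variable {I J K L : Type}

theorem adj_zero : adj β (0 : Matrix I J (MonoidAlgebra A G)) = 0 := by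
  funext i j
  exact bar_zero β
theorem adj_add (M N : Matrix I J (MonoidAlgebra A G)) :
    adj β (M + N) = adj β M + adj β N := by
  funext i j
  exact β.add' _ _
theorem adj_sub (M N : Matrix I J (MonoidAlgebra A G)) :
    adj β (M - N) = adj β M - adj β N := by
  funext i j
  exact bar_sub β _ _
theorem adj_neg (M : Matrix I J (MonoidAlgebra A G)) : adj β (-M) = -adj β M := by
  funext i j
  exact bar_neg β _
theorem adj_zsmul (n : ℤ) (M : Matrix I J (MonoidAlgebra A G)) :
    adj β (n • M) = n • adj β M := by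
  funext i j
  exact bar_zsmul β _ _
theorem adj_adj (M : Matrix I J (MonoidAlgebra A G)) : adj β (adj β M) = M := by
  funext i j
  exact β.inv' _
theorem adj_inj {M N : Matrix I J (MonoidAlgebra A G)} (h : adj β M = adj β N) : M = N := by
  rw [← adj_adj β M, h, adj_adj]
theorem adj_eq_zero {M : Matrix I J (MonoidAlgebra A G)} (h : adj β M = 0) : M = 0 := by
  rw [← adj_adj β M, h, adj_zero]
theorem adj_mul [Fintype J] (M : Matrix I J (MonoidAlgebra A G))
    (N : Matrix J K (MonoidAlgebra A G)) : adj β (M * N) = adj β N * adj β M := by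
  funext k i
  show β.bar ((M * N) i k) = (adj β N * adj β M) k i
  rw [Matrix.mul_apply, Matrix.mul_apply, bar_sum]
  exact Finset.sum_congr rfl fun j _ => β.mul' _ _
theorem adj_one [DecidableEq I] : adj β (1 : Matrix I I (MonoidAlgebra A G)) = 1 := by
  funext i j
  show β.bar ((1 : Matrix I I (MonoidAlgebra A G)) j i) = (1 : Matrix I I (MonoidAlgebra A G)) i j
  rw [Matrix.one_apply, Matrix.one_apply]
  by_cases h : i = j
  · rw [if_pos h, if_pos h.symm, bar_one]
  · rw [if_neg h, if_neg (Ne.symm h), bar_zero]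
theorem adj_eT [DecidableEq K] (t : K → Bool) (τ : Bool) :
    adj β (eT A G t τ : Matrix K K (MonoidAlgebra A G)) = eT A G t τ := by
  funext i j
  show β.bar ((eT A G t τ : Matrix K K (MonoidAlgebra A G)) j i) =
    (eT A G t τ : Matrix K K (MonoidAlgebra A G)) i j
  unfold eT
  rw [Matrix.diagonal_apply, Matrix.diagonal_apply]
  by_cases h : i = j
  · subst h
    rw [if_pos rfl]
    split_ifs
    · exact bar_one β
    · exact bar_zero β
  · rw [if_neg h, if_neg (Ne.symm h), bar_zero]
theorem adj_fromBlocks (M : Matrix I K (MonoidAlgebra A G)) (N : Matrix I L (MonoidAlgebra A G))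
    (P : Matrix J K (MonoidAlgebra A G)) (Q : Matrix J L (MonoidAlgebra A G)) :
    adj β (Matrix.fromBlocks M N P Q) =
      Matrix.fromBlocks (adj β M) (adj β P) (adj β N) (adj β Q) := by
  funext i j
  rcases i with i | i <;> rcases j with j | j <;> rfl
theorem adj_fromCols (M : Matrix I K (MonoidAlgebra A G)) (N : Matrix I L (MonoidAlgebra A G)) :
    adj β (Matrix.fromCols M N) = Matrix.fromRows (adj β M) (adj β N) := by
  funext i j
  rcases i with i | i <;> rfl
theorem adj_fromRows (M : Matrix I K (MonoidAlgebra A G)) (N : Matrix J K (MonoidAlgebra A G)) :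
    adj β (Matrix.fromRows M N) = Matrix.fromCols (adj β M) (adj β N) := by
  funext i j
  rcases j with j | j <;> rfl
theorem adj_smul [Nontrivial A] (a : A) : ∃ a' : A, (a ≠ 0 → a' ≠ 0) ∧
    (∀ M : Matrix I J (MonoidAlgebra A G), adj β (a • M) = a' • adj β M) ∧
    (∀ M : Matrix I J (MonoidAlgebra A G), adj β (a' • M) = a • adj β M) ∧
    (∀ M : Matrix J I (MonoidAlgebra A G), adj β (a • M) = a' • adj β M) ∧
    (∀ M : Matrix J I (MonoidAlgebra A G), adj β (a' • M) = a • adj β M) := by
  obtain ⟨a', h1, h2, h3⟩ := bar_smul β a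
  refine ⟨a', h1, ?_, ?_, ?_, ?_⟩
  · intro M; funext i j; exact h2 _
  · intro M; funext i j; exact h3 _
  · intro M; funext i j; exact h2 _
  · intro M; funext i j; exact h3 _

/-- right kernels: adjoint form of `GenL` (matrix form) -/
theorem GenL.mat {n J K c : Type} [Fintype n] [Fintype J]
    {ω : Matrix n J (MonoidAlgebra A G)} {D : Matrix J K (MonoidAlgebra A G)} (h : GenL ω D)
    (x : Matrix c J (MonoidAlgebra A G)) (hx : x * D = 0) :
    ∃ κ : Matrix c n (MonoidAlgebra A G), x = κ * ω := by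
  have hrow : ∀ i : c, ∃ κ : Matrix Unit n (MonoidAlgebra A G),
      (Matrix.of fun (_ : Unit) j => x i j) = κ * ω := by
    intro i
    apply h.2
    ext u k
    have h1 := congrFun (congrFun hx i) k
    rw [Matrix.mul_apply] at h1
    rw [Matrix.mul_apply]
    exact congrArg (fun z => MonoidAlgebra.coeff z _) h1
  choose κ hκ using hrow
  refine ⟨Matrix.of fun i l => κ i () l, ?_⟩
  funext i j
  have h1 := congrFun (congrFun (hκ i) ()) j
  rw [Matrix.mul_apply] at h1
  rw [Matrix.mul_apply]
  exact h1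

theorem Fnl.mat {r K c d : Type} [Fintype r] {ζ : Matrix r K (MonoidAlgebra A G)}
    {f : Matrix r c (MonoidAlgebra A G)} (h : Fnl ζ f) (κ : Matrix d r (MonoidAlgebra A G))
    (hκ : κ * ζ = 0) : κ * f = 0 := by
  funext i k
  have h1 : (Matrix.of fun (_ : Unit) j => κ i j) * ζ = 0 := by
    funext u k
    have h1 := congrFun (congrFun hκ i) k
    rw [Matrix.mul_apply] at h1 ⊢
    exact h1
  have h2 := congrFun (congrFun (h _ h1) ()) k
  rw [Matrix.mul_apply] at h2 ⊢
  exact h2

/-- a matrix is a functional iff its columns are -/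
theorem fnl_of_cols {r K c : Type} [Fintype r] {ζ : Matrix r K (MonoidAlgebra A G)}
    {f : Matrix r c (MonoidAlgebra A G)}
    (h : ∀ j, Fnl ζ (fun i (_ : Unit) => f i j)) : Fnl ζ f := by
  intro κ hκ
  funext u j
  have h2 : (κ * Matrix.of (fun i (_ : Unit) => f i j)) u () = 0 :=
    congrFun (congrFun (h j κ hκ) u) ()
  rw [Matrix.mul_apply] at h2 ⊢
  exact h2
theorem Fnl.col {r K c : Type} [Fintype r] {ζ : Matrix r K (MonoidAlgebra A G)}
    {f : Matrix r c (MonoidAlgebra A G)} (h : Fnl ζ f) (j : c) :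
    Fnl ζ (fun i (_ : Unit) => f i j) := by
  intro κ hκ
  funext u v
  show (κ * Matrix.of (fun i (_ : Unit) => f i j)) u v = 0
  have h2 := congrFun (congrFun (h κ hκ) u) j
  rw [Matrix.mul_apply] at h2 ⊢
  exact h2
theorem rep_of_cols {r K c : Type} [Fintype K] {ζ : Matrix r K (MonoidAlgebra A G)}
    {f : Matrix r c (MonoidAlgebra A G)}
    (h : ∀ j, Rep ζ (fun i (_ : Unit) => f i j)) : Rep ζ f := by
  choose p hp using h
  refine ⟨Matrix.of fun k j => p j k (), ?_⟩
  funext i j
  have h2 := congrFun (congrFun (hp j) i) ()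
  rw [Matrix.mul_apply] at h2 ⊢
  exact h2
end

section
variable {K : Type} [DecidableEq K] (t : K → Bool)
theorem eT_add (τ : Bool) : (eT A G t τ + eT A G t (!τ) : Matrix K K (MonoidAlgebra A G)) = 1 := by
  unfold eT
  rw [Matrix.diagonal_add, ← Matrix.diagonal_one]
  congr 1
  funext k
  cases t k <;> cases τ <;> simp
theorem eT_mul_self [Fintype K] (τ : Bool) :
    (eT A G t τ * eT A G t τ : Matrix K K (MonoidAlgebra A G)) = eT A G t τ := by
  unfold eT
  rw [Matrix.diagonal_mul_diagonal]
  congr 1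
  funext k
  cases t k <;> cases τ <;> simp
theorem eT_mul_not [Fintype K] (τ : Bool) :
    (eT A G t τ * eT A G t (!τ) : Matrix K K (MonoidAlgebra A G)) = 0 := by
  unfold eT
  rw [Matrix.diagonal_mul_diagonal, ← Matrix.diagonal_zero]
  congr 1
  funext k
  cases t k <;> cases τ <;> simp
theorem eT_not_mul [Fintype K] (τ : Bool) :
    (eT A G t (!τ) * eT A G t τ : Matrix K K (MonoidAlgebra A G)) = 0 := by
  unfold eT
  rw [Matrix.diagonal_mul_diagonal, ← Matrix.diagonal_zero]
  congr 1
  funext k
  cases t k <;> cases τ <;> simp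
theorem eT_mul_apply [Fintype K] {L : Type} (τ : Bool) (M : Matrix K L (MonoidAlgebra A G))
    (i : K) (j : L) : (eT A G t τ * M : Matrix K L (MonoidAlgebra A G)) i j =
      if t i = τ then M i j else 0 := by
  unfold eT
  rw [Matrix.diagonal_mul]
  split_ifs
  · exact one_mul _
  · exact zero_mul _
theorem mul_eT_apply [Fintype K] {L : Type} (τ : Bool) (M : Matrix L K (MonoidAlgebra A G))
    (i : L) (j : K) : (M * eT A G t τ : Matrix L K (MonoidAlgebra A G)) i j =
      if t j = τ then M i j else 0 := by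
  unfold eT
  rw [Matrix.mul_diagonal]
  split_ifs
  · exact mul_one _
  · exact mul_zero _
end

section
variable {ε : ℤ} {K L : Type} [DecidableEq K] [DecidableEq L]

theorem HJ.sq [Fintype K] (hε : ε = 1 ∨ ε = -1) {t : K → Bool}
    {J : Matrix K K (MonoidAlgebra A G)} (h : HJ ε t J) : J * J = ε • 1 := by
  obtain ⟨sw, h1, h2, h3⟩ := h
  funext i k
  rw [Matrix.mul_apply]
  have e1 : ∑ j, J i j * J j k = J i (sw i) * J (sw i) k := by
    refine Finset.sum_eq_single _ (fun j _ hj => ?_) (fun h => absurd (Finset.mem_univ _) h)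
    rw [h3 i j, if_neg hj, zero_mul]
  rw [e1, h3, h3, if_pos rfl, h1, h2]
  show _ = ε • (1 : Matrix K K (MonoidAlgebra A G)) i k
  rw [Matrix.one_apply]
  by_cases hk : k = i
  · rw [if_pos hk, if_pos hk.symm]
    cases t i <;> simp
  · rw [if_neg hk, if_neg (Ne.symm hk), mul_zero, smul_zero]
theorem HJ.adj (hε : ε = 1 ∨ ε = -1) {t : K → Bool}
    {J : Matrix K K (MonoidAlgebra A G)} (h : HJ ε t J) :
    Pool.Agent.Lib.MP_98022b_UN.adj β J = ε • J := by
  obtain ⟨sw, h1, h2, h3⟩ := h
  funext i j
  show β.bar (J j i) = ε • J i j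
  rw [h3, h3]
  have hij : i = sw j ↔ j = sw i := by
    constructor
    · rintro rfl; exact (h1 j).symm
    · rintro rfl; exact (h1 i).symm
  by_cases hj : j = sw i
  · rw [if_pos hj, if_pos (hij.2 hj), hj, h2]
    cases t i
    · simp [bar_intCast]
    · have : ε * ε = 1 := by rcases hε with rfl | rfl <;> norm_num
      simp only [Bool.not_true, Bool.false_eq_true, if_false, if_true, bar_one, zsmul_eq_mul]
      rw [← Int.cast_mul, this, Int.cast_one]
  · rw [if_neg hj, if_neg (fun h => hj (hij.1 h)), bar_zero, smul_zero]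
theorem HJ.eT_mul [Fintype K] {t : K → Bool} {J : Matrix K K (MonoidAlgebra A G)}
    (h : HJ ε t J) (τ : Bool) : eT A G t τ * J = J * eT A G t (!τ) := by
  obtain ⟨sw, h1, h2, h3⟩ := h
  funext i j
  rw [eT_mul_apply, mul_eT_apply, h3]
  by_cases hj : j = sw i
  · rw [if_pos hj, hj, h2]
    cases t i <;> cases τ <;> simp
  · rw [if_neg hj]; simp
theorem HJ.sum {t : K → Bool} {J : Matrix K K (MonoidAlgebra A G)} {t' : L → Bool}
    {J' : Matrix L L (MonoidAlgebra A G)} (h : HJ ε t J) (h' : HJ ε t' J') :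
    HJ ε (Sum.elim t t') (Matrix.fromBlocks J 0 0 J') := by
  obtain ⟨sw, h1, h2, h3⟩ := h
  obtain ⟨sw', h1', h2', h3'⟩ := h'
  refine ⟨Sum.map sw sw', ?_, ?_, ?_⟩
  · rintro (k | k)
    · simp [h1]
    · simp [h1']
  · rintro (k | k)
    · simp [h2]
    · simp [h2']
  · rintro (i | i) (j | j)
    · simp only [Matrix.fromBlocks_apply₁₁, h3, Sum.map_inl, Sum.inl.injEq, Sum.elim_inl]
      by_cases hj : j = sw i
      · rw [if_pos hj, if_pos hj]
        rfl
      · rw [if_neg hj, if_neg hj]
    · simp
    · simp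
    · simp only [Matrix.fromBlocks_apply₂₂, h3', Sum.map_inr, Sum.inr.injEq, Sum.elim_inr]
      by_cases hj : j = sw' i
      · rw [if_pos hj, if_pos hj]
        rfl
      · rw [if_neg hj, if_neg hj]
theorem HJ.on {t : K → Bool} {J : Matrix K K (MonoidAlgebra A G)} (h : HJ ε t J)
    (E : EdgeSys G) : OnT E t (fun k => !t k) 0 J := by
  classical
  obtain ⟨sw, h1, h2, h3⟩ := h
  intro i j g hg
  rw [h3] at hg
  have key : ∀ n : ℤ, (n : MonoidAlgebra A G).coeff g ≠ 0 → g ∈ E.F := by
    intro n hn
    by_cases h1 : g = 1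
    · rw [h1]; exact E.F.one_mem
    · exfalso
      apply hn
      rw [← zsmul_one, coeff_smul, Finsupp.smul_apply, one_def, coeff_single,
        Finsupp.single_apply, if_neg (fun h => h1 h.symm), smul_zero]
  by_cases hj : j = sw i
  · rw [if_pos hj] at hg
    refine ⟨?_, by rw [hj]; show t i = !t (sw i); rw [h2]; simp⟩
    cases hti : t i
    · rw [hti] at hg
      apply key 1
      simpa using hg
    · rw [hti] at hg
      apply key ε
      simpa using hg
  · rw [if_neg hj] at hg
    exact absurd rfl hg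
/-- the standard example, `ι ⊕ ι` with the first summand of type `τ` -/
theorem HJ.std {ι : Type} [DecidableEq ι] (τ : Bool) (ε : ℤ) :
    HJ (A := A) (G := G) ε (Sum.elim (fun _ : ι => τ) (fun _ : ι => !τ))
      (Matrix.fromBlocks 0 (if τ then (ε : ℤ) • 1 else 1) (if τ then 1 else (ε : ℤ) • 1) 0) := by
  refine ⟨Sum.swap, fun k => Sum.swap_swap k, ?_, ?_⟩
  · rintro (k | k) <;> simp
  · rintro (i | i) (j | j)
    · simp
    · cases τ
      · simp only [Bool.false_eq_true, if_false, Matrix.fromBlocks_apply₁₂, Sum.elim_inl,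
          Sum.swap_inl, Sum.inr.injEq]
        rw [Matrix.one_apply]
        by_cases h : i = j
        · rw [if_pos h, if_pos h.symm]
        · rw [if_neg h, if_neg (Ne.symm h)]
      · simp only [if_true, Matrix.fromBlocks_apply₁₂, Sum.elim_inl,
          Sum.swap_inl, Sum.inr.injEq]
        show ε • (1 : Matrix ι ι (MonoidAlgebra A G)) i j = _
        rw [Matrix.one_apply]
        by_cases h : i = j
        · rw [if_pos h, if_pos h.symm, zsmul_one]
        · rw [if_neg h, if_neg (Ne.symm h), smul_zero]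
    · cases τ
      · simp only [Bool.false_eq_true, if_false, Matrix.fromBlocks_apply₂₁, Sum.elim_inr,
          Sum.swap_inr, Sum.inl.injEq, Bool.not_false, if_true]
        show ε • (1 : Matrix ι ι (MonoidAlgebra A G)) i j = _
        rw [Matrix.one_apply]
        by_cases h : i = j
        · rw [if_pos h, if_pos h.symm, zsmul_one]
        · rw [if_neg h, if_neg (Ne.symm h), smul_zero]
      · simp only [if_true, Matrix.fromBlocks_apply₂₁, Sum.elim_inr,
          Sum.swap_inr, Sum.inl.injEq, Bool.not_true, Bool.false_eq_true, if_false]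
        rw [Matrix.one_apply]
        by_cases h : i = j
        · rw [if_pos h, if_pos h.symm]
        · rw [if_neg h, if_neg (Ne.symm h)]
    · simp
end

end Pool.Agent.Lib.MP_98022b_UN
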