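import Mathlib
import Pool.Agent.Lib.MP_98022b_UN.Defs
import Pool.Agent.Lib.MP_98022b_UN.AdjL

/-! Task B2a: API of `EdgeSys.P`, `OnT`, `OnF`. -/

open MonoidAlgebra

namespace Pool.Agent.Lib.MP_98022b_UN

universe u v
variable {A : Type u} {G : Type v} [CommRing A] [Group G]

section
variable (E : EdgeSys G)

theorem P_zero {σ τ : Bool} {g : G} : g ∈ E.P 0 σ τ ↔ g ∈ E.F ∧ σ = τ := Iff.rfl
theorem P_succ {m : ℕ} {σ τ : Bool} {g : G} :
    g ∈ E.P (m + 1) σ τ ↔ ∃ ρ, ∃ s ∈ E.S σ ρ, ∃ t ∈ E.P m ρ τ, s * t = g := Iff.rfl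
theorem P_one {σ τ : Bool} {g : G} : g ∈ E.P 1 σ τ ↔ g ∈ E.S σ τ := by
  constructor
  · rintro ⟨ρ, s, hs, t, ⟨ht, rfl⟩, rfl⟩
    exact E.right' hs ht
  · intro h
    exact ⟨τ, g, h, 1, ⟨E.F.one_mem, rfl⟩, mul_one g⟩
theorem P_left {m : ℕ} {σ τ : Bool} {f g : G} (hf : f ∈ E.F) (hg : g ∈ E.P m σ τ) :
    f * g ∈ E.P m σ τ := by
  cases m with
  | zero => exact ⟨E.F.mul_mem hf hg.1, hg.2⟩
  | succ m =>
    obtain ⟨ρ, s, hs, t, ht, rfl⟩ := hg
    exact ⟨ρ, f * s, E.left' hf hs, t, ht, by rw [mul_assoc]⟩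
theorem P_right {m : ℕ} {σ τ : Bool} {f g : G} (hg : g ∈ E.P m σ τ) (hf : f ∈ E.F) :
    g * f ∈ E.P m σ τ := by
  induction m generalizing σ g with
  | zero => exact ⟨E.F.mul_mem hg.1 hf, hg.2⟩
  | succ m ih =>
    obtain ⟨ρ, s, hs, t, ht, rfl⟩ := hg
    exact ⟨ρ, s, hs, t * f, ih ht, by rw [mul_assoc]⟩
theorem P_mul {m n : ℕ} {σ ρ τ : Bool} {g h : G} (hg : g ∈ E.P m σ ρ) (hh : h ∈ E.P n ρ τ) :
    g * h ∈ E.P (m + n) σ τ := by
  induction m generalizing σ g with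
  | zero =>
    obtain ⟨hg, rfl⟩ := hg
    rw [zero_add]
    exact P_left E hg hh
  | succ m ih =>
    obtain ⟨ρ', s, hs, t, ht, rfl⟩ := hg
    rw [Nat.succ_add_eq_add_succ]
    exact ⟨ρ', s, hs, t * h, ih ht, by rw [mul_assoc]⟩
theorem P_succ' {m : ℕ} {σ τ : Bool} {g : G} :
    g ∈ E.P (m + 1) σ τ ↔ ∃ ρ, ∃ t ∈ E.P m σ ρ, ∃ s ∈ E.S ρ τ, t * s = g := by
  constructor
  · intro h
    induction m generalizing σ g with
    | zero =>
      exact ⟨σ, 1, ⟨E.F.one_mem, rfl⟩, g, (P_one E).1 h, one_mul g⟩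
    | succ m ih =>
      obtain ⟨ρ, s, hs, t, ht, rfl⟩ := h
      obtain ⟨ρ', t', ht', s', hs', rfl⟩ := ih ht
      exact ⟨ρ', s * t', ⟨ρ, s, hs, t', ht', rfl⟩, s', hs', by rw [mul_assoc]⟩
  · rintro ⟨ρ, t, ht, s, hs, rfl⟩
    exact P_mul E ht ((P_one E).2 hs)
theorem P_inv {m : ℕ} {σ τ : Bool} {g : G} (hg : g ∈ E.P m σ τ) :
    g⁻¹ ∈ E.P m (!τ) (!σ) := by
  induction m generalizing σ g with
  | zero =>
    obtain ⟨hg, rfl⟩ := hg
    exact ⟨E.F.inv_mem hg, rfl⟩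
  | succ m ih =>
    obtain ⟨ρ, s, hs, t, ht, rfl⟩ := hg
    rw [mul_inv_rev]
    exact (P_succ' E).2 ⟨!ρ, t⁻¹, ih ht, s⁻¹, E.inv' hs, rfl⟩
/-- unique last edge -/
theorem EdgeSys.Geo.last {E : EdgeSys G} (h : E.Geo) {m : ℕ} {σ τ ρ ρ' : Bool} {s s' t t' : G}
    (ht : t ∈ E.P m σ ρ) (hs : s ∈ E.S ρ τ) (ht' : t' ∈ E.P m σ ρ') (hs' : s' ∈ E.S ρ' τ)
    (e : t * s = t' * s') : ρ = ρ' ∧ s * s'⁻¹ ∈ E.F := by
  have := h m (!τ) (!σ) (!ρ) (!ρ') s⁻¹ s'⁻¹ t⁻¹ t'⁻¹ (E.inv' hs) (P_inv E ht) (E.inv' hs')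
    (P_inv E ht') (by rw [← mul_inv_rev, ← mul_inv_rev, e])
  obtain ⟨h1, h2⟩ := this
  rw [inv_inv] at h2
  exact ⟨by simpa using h1, h2⟩
end

namespace OnAux

theorem supp_mul {x y : MonoidAlgebra A G} {g : G} (h : (x * y).coeff g ≠ 0) :
    ∃ a b, x.coeff a ≠ 0 ∧ y.coeff b ≠ 0 ∧ a * b = g := by
  classical
  by_contra hc
  push Not at hc
  apply h
  rw [coeff_mul, Finsupp.sum]
  refine Finset.sum_eq_zero fun a ha => ?_
  rw [Finsupp.sum]
  refine Finset.sum_eq_zero fun b hb => ?_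
  rw [if_neg (hc a b (Finsupp.mem_support_iff.1 ha) (Finsupp.mem_support_iff.1 hb))]

theorem supp_sum {ι : Type*} {s : Finset ι} {f : ι → MonoidAlgebra A G} {g : G}
    (h : (∑ i ∈ s, f i).coeff g ≠ 0) : ∃ i ∈ s, (f i).coeff g ≠ 0 := by
  by_contra hc
  push Not at hc
  apply h
  rw [coeff_sum, Finsupp.finsetSum_apply]
  exact Finset.sum_eq_zero hc

theorem supp_one {g : G} (h : (1 : MonoidAlgebra A G).coeff g ≠ 0) : g = 1 := by
  classical
  by_contra hc
  apply h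
  rw [one_def, coeff_single_apply, if_neg (fun h => hc h.symm)]

theorem supp_add {x y : MonoidAlgebra A G} {g : G} (h : (x + y).coeff g ≠ 0) :
    x.coeff g ≠ 0 ∨ y.coeff g ≠ 0 := by
  by_contra hc
  push Not at hc
  apply h
  rw [coeff_add, Finsupp.add_apply, hc.1, hc.2, add_zero]

theorem supp_neg {x : MonoidAlgebra A G} {g : G} (h : (-x).coeff g ≠ 0) :
    x.coeff g ≠ 0 := by
  intro hc
  apply h
  rw [coeff_neg, Finsupp.neg_apply, hc, neg_zero]

theorem supp_sub {x y : MonoidAlgebra A G} {g : G} (h : (x - y).coeff g ≠ 0) :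
    x.coeff g ≠ 0 ∨ y.coeff g ≠ 0 := by
  by_contra hc
  push Not at hc
  apply h
  rw [coeff_sub, Finsupp.sub_apply, hc.1, hc.2, sub_zero]

theorem supp_smul {a : A} {x : MonoidAlgebra A G} {g : G} (h : (a • x).coeff g ≠ 0) :
    x.coeff g ≠ 0 := by
  intro hc
  apply h
  rw [coeff_smul, Finsupp.smul_apply, hc, smul_zero]

theorem supp_zsmul {a : ℤ} {x : MonoidAlgebra A G} {g : G} (h : (a • x).coeff g ≠ 0) :
    x.coeff g ≠ 0 := by
  intro hc
  apply h
  rw [coeff_smul, Finsupp.smul_apply, hc, smul_zero]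

end OnAux

section
variable {E : EdgeSys G} {I J K L : Type} {s : I → Bool} {t : J → Bool} {w : K → Bool}
  {w' : L → Bool} {m n : ℕ}

theorem OnT.zero : OnT E s t m (0 : Matrix I J (MonoidAlgebra A G)) :=
  fun _ _ _ h => absurd rfl h
theorem OnT.add {M N : Matrix I J (MonoidAlgebra A G)} (hM : OnT E s t m M)
    (hN : OnT E s t m N) : OnT E s t m (M + N) := fun i j g h =>
  (OnAux.supp_add h).elim (hM i j g) (hN i j g)
theorem OnT.sub {M N : Matrix I J (MonoidAlgebra A G)} (hM : OnT E s t m M)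
    (hN : OnT E s t m N) : OnT E s t m (M - N) := fun i j g h =>
  (OnAux.supp_sub h).elim (hM i j g) (hN i j g)
theorem OnT.neg {M : Matrix I J (MonoidAlgebra A G)} (hM : OnT E s t m M) :
    OnT E s t m (-M) := fun i j g h => hM i j g (OnAux.supp_neg h)
theorem OnT.zsmul {M : Matrix I J (MonoidAlgebra A G)} (hM : OnT E s t m M) (n : ℤ) :
    OnT E s t m (n • M) := fun i j g h => hM i j g (OnAux.supp_zsmul h)
theorem OnT.smul {M : Matrix I J (MonoidAlgebra A G)} (hM : OnT E s t m M) (a : A) :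
    OnT E s t m (a • M) := fun i j g h => hM i j g (OnAux.supp_smul h)
theorem OnT.mul [Fintype J] {M : Matrix I J (MonoidAlgebra A G)}
    {N : Matrix J K (MonoidAlgebra A G)} (hM : OnT E s t m M) (hN : OnT E t w n N) :
    OnT E s w (m + n) (M * N) := fun i k g h => by
  rw [Matrix.mul_apply] at h
  obtain ⟨j, -, hj⟩ := OnAux.supp_sum h
  obtain ⟨a, b, ha, hb, rfl⟩ := OnAux.supp_mul hj
  exact P_mul E (hM i j a ha) (hN j k b hb)
theorem OnT.mul0 [Fintype J] {M : Matrix I J (MonoidAlgebra A G)}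
    {N : Matrix J K (MonoidAlgebra A G)} (hM : OnT E s t 0 M) (hN : OnT E t w n N) :
    OnT E s w n (M * N) := by
  have := OnT.mul hM hN
  rwa [zero_add] at this
theorem OnT.one [DecidableEq I] : OnT E s s 0 (1 : Matrix I I (MonoidAlgebra A G)) :=
  fun i j g h => by
  rw [Matrix.one_apply] at h
  split_ifs at h with hij
  · subst hij
    rw [OnAux.supp_one h]
    exact ⟨E.F.one_mem, rfl⟩
  · exact absurd rfl h
theorem OnT.pow [Fintype I] [DecidableEq I] {M : Matrix I I (MonoidAlgebra A G)}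
    (hM : OnT E s s 1 M) (m : ℕ) : OnT E s s m (M ^ m) := by
  induction m with
  | zero => rw [pow_zero]; exact OnT.one
  | succ m ih => rw [pow_succ]; exact OnT.mul ih hM
theorem OnT.eT [DecidableEq I] (σ : Bool) :
    OnT E s s 0 (Pool.Agent.Lib.MP_98022b_UN.eT A G s σ : Matrix I I (MonoidAlgebra A G)) :=
  fun i j g h => by
  unfold Pool.Agent.Lib.MP_98022b_UN.eT at h
  rw [Matrix.diagonal_apply] at h
  split_ifs at h with hij h2
  · subst hij
    rw [OnAux.supp_one h]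
    exact ⟨E.F.one_mem, rfl⟩
  · exact absurd rfl h
  · exact absurd rfl h
theorem OnT.adj (β : BarStr A G) {M : Matrix I J (MonoidAlgebra A G)} (hM : OnT E s t m M) :
    OnT E (fun j => !t j) (fun i => !s i) m (Pool.Agent.Lib.MP_98022b_UN.adj β M) :=
  fun j i g h => by
  have := P_inv E (hM i j _ (β.supp' _ _ h))
  rwa [inv_inv] at this
theorem OnT.adj' (β : BarStr A G) {M : Matrix I J (MonoidAlgebra A G)}
    (hM : OnT E (fun i => !s i) (fun j => !t j) m M) :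
    OnT E t s m (Pool.Agent.Lib.MP_98022b_UN.adj β M) := fun j i g h => by
  have := P_inv E (hM i j _ (β.supp' _ _ h))
  rwa [inv_inv, Bool.not_not, Bool.not_not] at this
theorem OnT.onF {M : Matrix I J (MonoidAlgebra A G)} (hM : OnT E s t 0 M) : OnF E.F M :=
  fun i j g h => (hM i j g h).1
theorem OnT.eq_zero {M : Matrix I J (MonoidAlgebra A G)} (hM : OnT E s t 0 M) {i : I} {j : J}
    (h : s i ≠ t j) : M i j = 0 := by
  ext g
  by_contra hc
  exact h (hM i j g hc).2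
/-- a typed matrix over `A[F]` commutes with the type projectors -/
theorem OnT.eT_mul [Fintype I] [DecidableEq I] [Fintype J] [DecidableEq J]
    {M : Matrix I J (MonoidAlgebra A G)} (hM : OnT E s t 0 M) (σ : Bool) :
    Pool.Agent.Lib.MP_98022b_UN.eT A G s σ * M = M * Pool.Agent.Lib.MP_98022b_UN.eT A G t σ := by
  funext i j
  unfold Pool.Agent.Lib.MP_98022b_UN.eT
  rw [Matrix.diagonal_mul, Matrix.mul_diagonal]
  by_cases hij : s i = t j
  · rw [hij]
    split_ifs <;> simp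
  · rw [hM.eq_zero hij, mul_zero, zero_mul]
theorem OnF.onT {M : Matrix I J (MonoidAlgebra A G)} (hM : OnF E.F M)
    (h : ∀ i j, s i ≠ t j → M i j = 0) : OnT E s t 0 M := fun i j g hg => by
  refine ⟨hM i j g hg, ?_⟩
  by_contra hc
  exact hg (by rw [h i j hc]; rfl)
theorem OnT.blocks {M : Matrix I K (MonoidAlgebra A G)} {N : Matrix I L (MonoidAlgebra A G)}
    {P : Matrix J K (MonoidAlgebra A G)} {Q : Matrix J L (MonoidAlgebra A G)}
    (h1 : OnT E s w m M) (h2 : OnT E s w' m N) (h3 : OnT E t w m P) (h4 : OnT E t w' m Q) :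
    OnT E (Sum.elim s t) (Sum.elim w w') m (Matrix.fromBlocks M N P Q) := by
  rintro (i | i) (j | j) g h
  · exact h1 i j g h
  · exact h2 i j g h
  · exact h3 i j g h
  · exact h4 i j g h
theorem OnT.cols {M : Matrix I K (MonoidAlgebra A G)} {N : Matrix I L (MonoidAlgebra A G)}
    (h1 : OnT E s w m M) (h2 : OnT E s w' m N) :
    OnT E s (Sum.elim w w') m (Matrix.fromCols M N) := by
  rintro i (j | j) g h
  · exact h1 i j g h
  · exact h2 i j g h
theorem OnT.rows {M : Matrix I K (MonoidAlgebra A G)} {N : Matrix J K (MonoidAlgebra A G)}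
    (h1 : OnT E s w m M) (h2 : OnT E t w m N) :
    OnT E (Sum.elim s t) w m (Matrix.fromRows M N) := by
  rintro (i | i) j g h
  · exact h1 i j g h
  · exact h2 i j g h

theorem OnF.zero (F : Subgroup G) : OnF F (0 : Matrix I J (MonoidAlgebra A G)) :=
  fun _ _ _ h => absurd rfl h
theorem OnF.one (F : Subgroup G) [DecidableEq I] :
    OnF F (1 : Matrix I I (MonoidAlgebra A G)) := fun i j g h => by
  rw [Matrix.one_apply] at h
  split_ifs at h with hij
  · rw [OnAux.supp_one h]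
    exact F.one_mem
  · exact absurd rfl h
theorem OnF.add {F : Subgroup G} {M N : Matrix I J (MonoidAlgebra A G)} (hM : OnF F M)
    (hN : OnF F N) : OnF F (M + N) := fun i j g h =>
  (OnAux.supp_add h).elim (hM i j g) (hN i j g)
theorem OnF.sub {F : Subgroup G} {M N : Matrix I J (MonoidAlgebra A G)} (hM : OnF F M)
    (hN : OnF F N) : OnF F (M - N) := fun i j g h =>
  (OnAux.supp_sub h).elim (hM i j g) (hN i j g)
theorem OnF.neg {F : Subgroup G} {M : Matrix I J (MonoidAlgebra A G)} (hM : OnF F M) :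
    OnF F (-M) := fun i j g h => hM i j g (OnAux.supp_neg h)
theorem OnF.smul {F : Subgroup G} {M : Matrix I J (MonoidAlgebra A G)} (hM : OnF F M) (a : A) :
    OnF F (a • M) := fun i j g h => hM i j g (OnAux.supp_smul h)
theorem OnF.mul {F : Subgroup G} [Fintype J] {M : Matrix I J (MonoidAlgebra A G)}
    {N : Matrix J K (MonoidAlgebra A G)} (hM : OnF F M) (hN : OnF F N) : OnF F (M * N) :=
  fun i k g h => by
  rw [Matrix.mul_apply] at h
  obtain ⟨j, -, hj⟩ := OnAux.supp_sum h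
  obtain ⟨a, b, ha, hb, rfl⟩ := OnAux.supp_mul hj
  exact F.mul_mem (hM i j a ha) (hN j k b hb)
theorem OnF.adj {F : Subgroup G} (β : BarStr A G) {M : Matrix I J (MonoidAlgebra A G)}
    (hM : OnF F M) : OnF F (Pool.Agent.Lib.MP_98022b_UN.adj β M) := fun j i g h => by
  have := F.inv_mem (hM i j _ (β.supp' _ _ h))
  rwa [inv_inv] at this
end

end Pool.Agent.Lib.MP_98022b_UN
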