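import Mathlib
import Pool.Agent.Lib.MP_98022b_UN.Defs
import Pool.Agent.Lib.MP_98022b_UN.AdjL
import Pool.Agent.Lib.MP_98022b_UN.OnL1

/-! Task B2b: API of `res`, `resM`, `resT`. -/

open MonoidAlgebra

namespace Pool.Agent.Lib.MP_98022b_UN

universe u v
variable {A : Type u} {G : Type v} [CommRing A] [Group G]

section
theorem res_coeff_mem {U : Set G} {x : MonoidAlgebra A G} {g : G} (h : g ∈ U) :
    (res U x).coeff g = x.coeff g := by
  classical
  unfold res
  rw [coeff_ofCoeff, Finsupp.filter_apply_pos _ _ h]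
theorem res_coeff_not_mem {U : Set G} {x : MonoidAlgebra A G} {g : G} (h : g ∉ U) :
    (res U x).coeff g = 0 := by
  classical
  unfold res
  rw [coeff_ofCoeff, Finsupp.filter_apply_neg _ _ h]
theorem res_zero (U : Set G) : res U (0 : MonoidAlgebra A G) = 0 := by
  ext g
  by_cases h : g ∈ U
  · rw [res_coeff_mem h]
  · rw [res_coeff_not_mem h]; rfl
theorem res_add (U : Set G) (x y : MonoidAlgebra A G) : res U (x + y) = res U x + res U y := by
  ext g
  rw [coeff_add, Finsupp.add_apply]
  by_cases h : g ∈ U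
  · rw [res_coeff_mem h, res_coeff_mem h, res_coeff_mem h, coeff_add, Finsupp.add_apply]
  · rw [res_coeff_not_mem h, res_coeff_not_mem h, res_coeff_not_mem h, add_zero]
theorem res_neg (U : Set G) (x : MonoidAlgebra A G) : res U (-x) = -res U x := by
  ext g
  rw [coeff_neg, Finsupp.neg_apply]
  by_cases h : g ∈ U
  · rw [res_coeff_mem h, res_coeff_mem h, coeff_neg, Finsupp.neg_apply]
  · rw [res_coeff_not_mem h, res_coeff_not_mem h, neg_zero]
theorem res_sub (U : Set G) (x y : MonoidAlgebra A G) : res U (x - y) = res U x - res U y := by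
  rw [sub_eq_add_neg, res_add, res_neg, ← sub_eq_add_neg]
theorem res_smul (U : Set G) (a : A) (x : MonoidAlgebra A G) : res U (a • x) = a • res U x := by
  ext g
  rw [coeff_smul, Finsupp.smul_apply]
  by_cases h : g ∈ U
  · rw [res_coeff_mem h, res_coeff_mem h, coeff_smul, Finsupp.smul_apply]
  · rw [res_coeff_not_mem h, res_coeff_not_mem h, smul_zero]
theorem res_sum {ι : Type*} (U : Set G) (s : Finset ι) (f : ι → MonoidAlgebra A G) :
    res U (∑ i ∈ s, f i) = ∑ i ∈ s, res U (f i) := by
  classical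
  induction s using Finset.induction_on with
  | empty => rw [Finset.sum_empty, Finset.sum_empty, res_zero]
  | insert a s ha ih => rw [Finset.sum_insert ha, Finset.sum_insert ha, res_add, ih]
theorem res_supp (U : Set G) (x : MonoidAlgebra A G) (g : G) (h : (res U x).coeff g ≠ 0) :
    g ∈ U ∧ x.coeff g ≠ 0 := by
  by_cases hg : g ∈ U
  · rw [res_coeff_mem hg] at h
    exact ⟨hg, h⟩
  · exact absurd (res_coeff_not_mem hg) h
theorem res_eq_self {U : Set G} {x : MonoidAlgebra A G} (h : ∀ g, x.coeff g ≠ 0 → g ∈ U) :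
    res U x = x := by
  ext g
  by_cases hg : g ∈ U
  · rw [res_coeff_mem hg]
  · rw [res_coeff_not_mem hg]
    by_contra hc
    exact hg (h g (Ne.symm hc))

namespace OnAux

theorem res_of_not {U : Set G} {x : MonoidAlgebra A G} (h : ∀ g, x.coeff g ≠ 0 → g ∉ U) :
    res U x = 0 := by
  ext g
  by_cases hg : g ∈ U
  · rw [res_coeff_mem hg]
    by_contra hc
    exact h g hc hg
  · rw [res_coeff_not_mem hg]; rfl

end OnAux

theorem res_mul_left {F : Subgroup G} {U : Set G} (hU : ∀ f ∈ F, ∀ g ∈ U, f * g ∈ U)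
    {z : MonoidAlgebra A G} (hz : ∀ g, z.coeff g ≠ 0 → g ∈ F) (x : MonoidAlgebra A G) :
    res U (z * x) = z * res U x := by
  have hd : x = res U x + (x - res U x) := by abel
  conv_lhs => rw [hd, mul_add, res_add]
  have h1 : res U (z * res U x) = z * res U x := by
    apply res_eq_self
    intro g hg
    obtain ⟨a, b, ha, hb, rfl⟩ := OnAux.supp_mul hg
    exact hU a (hz a ha) b (res_supp U x b hb).1
  have h2 : res U (z * (x - res U x)) = 0 := by
    apply OnAux.res_of_not
    intro g hg hgU
    obtain ⟨a, b, ha, hb, rfl⟩ := OnAux.supp_mul hg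
    have hbU : b ∈ U := by
      have := hU a⁻¹ (F.inv_mem (hz a ha)) _ hgU
      rwa [inv_mul_cancel_left] at this
    apply hb
    rw [coeff_sub, Finsupp.sub_apply, res_coeff_mem hbU, sub_self]
  rw [h1, h2, add_zero]
theorem res_mul_right {F : Subgroup G} {U : Set G} (hU : ∀ f ∈ F, ∀ g ∈ U, g * f ∈ U)
    {z : MonoidAlgebra A G} (hz : ∀ g, z.coeff g ≠ 0 → g ∈ F) (x : MonoidAlgebra A G) :
    res U (x * z) = res U x * z := by
  have hd : x = res U x + (x - res U x) := by abel
  conv_lhs => rw [hd, add_mul, res_add]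
  have h1 : res U (res U x * z) = res U x * z := by
    apply res_eq_self
    intro g hg
    obtain ⟨a, b, ha, hb, rfl⟩ := OnAux.supp_mul hg
    exact hU b (hz b hb) a (res_supp U x a ha).1
  have h2 : res U ((x - res U x) * z) = 0 := by
    apply OnAux.res_of_not
    intro g hg hgU
    obtain ⟨a, b, ha, hb, rfl⟩ := OnAux.supp_mul hg
    have haU : a ∈ U := by
      have := hU b⁻¹ (F.inv_mem (hz b hb)) _ hgU
      rwa [mul_inv_cancel_right] at this
    apply ha
    rw [coeff_sub, Finsupp.sub_apply, res_coeff_mem haU, sub_self]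
  rw [h1, h2, add_zero]

variable {E : EdgeSys G} {I J K L : Type} {s : I → Bool} {t : J → Bool} {w : K → Bool}
  {m n : ℕ}

/-- restriction of the columns to sets depending on the type of the row and on the column -/
theorem resM_mul_left [Fintype J] {z : Matrix I J (MonoidAlgebra A G)} (hz : OnT E s t 0 z)
    (U : Bool → K → Set G) (hU : ∀ σ k, ∀ f ∈ E.F, ∀ g ∈ U σ k, f * g ∈ U σ k)
    (p : Matrix J K (MonoidAlgebra A G)) :
    resM (fun i k => U (s i) k) (z * p) = z * resM (fun j k => U (t j) k) p := by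
  funext i k
  show res (U (s i) k) ((z * p) i k) = (z * resM (fun j k => U (t j) k) p) i k
  rw [Matrix.mul_apply, Matrix.mul_apply, res_sum]
  refine Finset.sum_congr rfl fun j _ => ?_
  by_cases hij : s i = t j
  · show res (U (s i) k) (z i j * p j k) = z i j * res (U (t j) k) (p j k)
    rw [hij]
    exact res_mul_left (hU (t j) k) (fun g hg => (hz i j g hg).1) _
  · rw [hz.eq_zero hij, zero_mul, zero_mul, res_zero]
theorem resM_mul_right [Fintype J] {z : Matrix J K (MonoidAlgebra A G)} (hz : OnT E t w 0 z)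
    (U : I → Bool → Set G) (hU : ∀ i τ, ∀ f ∈ E.F, ∀ g ∈ U i τ, g * f ∈ U i τ)
    (p : Matrix I J (MonoidAlgebra A G)) :
    resM (fun i k => U i (w k)) (p * z) = resM (fun i j => U i (t j)) p * z := by
  funext i k
  show res (U i (w k)) ((p * z) i k) = (resM (fun i j => U i (t j)) p * z) i k
  rw [Matrix.mul_apply, Matrix.mul_apply, res_sum]
  refine Finset.sum_congr rfl fun j _ => ?_
  by_cases hjk : t j = w k
  · show res (U i (w k)) (p i j * z j k) = res (U i (t j)) (p i j) * z j k
    rw [hjk]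
    exact res_mul_right (hU i (w k)) (fun g hg => (hz j k g hg).1) _
  · rw [hz.eq_zero hjk, mul_zero, mul_zero, res_zero]
theorem resT_on (M : Matrix I J (MonoidAlgebra A G)) : OnT E s t m (resT E s t m M) :=
  fun _ _ g h => (res_supp _ _ g h).1
theorem resT_of_on {M : Matrix I J (MonoidAlgebra A G)} (hM : OnT E s t m M) :
    resT E s t m M = M := by
  funext i j
  exact res_eq_self (hM i j)
theorem resT_mul_left [Fintype J] {z : Matrix I J (MonoidAlgebra A G)} (hz : OnT E s t 0 z)
    (p : Matrix J K (MonoidAlgebra A G)) :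
    resT E s w m (z * p) = z * resT E t w m p :=
  resM_mul_left hz (fun σ k => E.P m σ (w k)) (fun _ _ _ hf _ hg => P_left E hf hg) p
theorem resT_mul_right [Fintype J] {z : Matrix J K (MonoidAlgebra A G)} (hz : OnT E t w 0 z)
    (p : Matrix I J (MonoidAlgebra A G)) :
    resT E s w m (p * z) = resT E s t m p * z :=
  resM_mul_right hz (fun i τ => E.P m (s i) τ) (fun _ _ _ hf _ hg => P_right E hg hf) p
/-- a row in the row space of `ζ` with given supports has coefficients with these supports -/
theorem rows_on [Fintype J] {z : Matrix J K (MonoidAlgebra A G)} (hz : OnT E t w 0 z)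
    {x : Matrix I K (MonoidAlgebra A G)} (hx : OnT E s w m x)
    {κ : Matrix I J (MonoidAlgebra A G)} (h : x = κ * z) :
    ∃ κ' : Matrix I J (MonoidAlgebra A G), OnT E s t m κ' ∧ x = κ' * z := by
  refine ⟨resT E s t m κ, resT_on κ, ?_⟩
  rw [← resT_mul_right hz, ← h, resT_of_on hx]
theorem Rep.on [Fintype J] {z : Matrix I J (MonoidAlgebra A G)} (hz : OnT E s t 0 z)
    {f : Matrix I K (MonoidAlgebra A G)} (hf : OnT E s w m f) (h : Rep z f) :
    ∃ p : Matrix J K (MonoidAlgebra A G), OnT E t w m p ∧ f = z * p := by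
  obtain ⟨p, hp⟩ := h
  refine ⟨resT E t w m p, resT_on p, ?_⟩
  rw [← resT_mul_left hz, ← hp, resT_of_on hf]
end

end Pool.Agent.Lib.MP_98022b_UN
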