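import Mathlib
import Pool.Agent.Lib.MP_98022b_UN.Defs
import Pool.Agent.Lib.MP_98022b_UN.AdjL
import Pool.Agent.Lib.MP_98022b_UN.OnL1
import Pool.Agent.Lib.MP_98022b_UN.OnL2

/-! Task B3: coset components (flatness of `A[G]` over `A[F]`). -/

open MonoidAlgebra

namespace Pool.Agent.Lib.MP_98022b_UN

set_option linter.unusedSectionVars false

universe u v
variable {A : Type u} {G : Type v} [CommRing A] [Group G] {F : Subgroup G}
  {I J K L n r c : Type}

theorem CosL_cR_coeff_mem (g : G) (M : Matrix I J (MonoidAlgebra A G)) (i : I) (j : J) {h : G}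
    (hh : h ∈ F) : (cR F g M i j).coeff h = (M i j).coeff (h * g) := by
  have h1 : (cR F g M i j).coeff h = (M i j * single g⁻¹ (1 : A)).coeff h :=
    res_coeff_mem (U := (F : Set G)) hh
  rw [h1, coeff_mul_single_apply, inv_inv, mul_one]

theorem CosL_cL_coeff_mem (g : G) (M : Matrix I J (MonoidAlgebra A G)) (i : I) (j : J) {h : G}
    (hh : h ∈ F) : (cL F g M i j).coeff h = (M i j).coeff (g * h) := by
  have h1 : (cL F g M i j).coeff h = (single g⁻¹ (1 : A) * M i j).coeff h :=
    res_coeff_mem (U := (F : Set G)) hh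
  rw [h1, coeff_single_mul_apply, inv_inv, one_mul]

theorem CosL_cR_coeff_not_mem (g : G) (M : Matrix I J (MonoidAlgebra A G)) (i : I) (j : J) {h : G}
    (hh : h ∉ F) : (cR F g M i j).coeff h = 0 :=
  res_coeff_not_mem (U := (F : Set G)) hh

theorem CosL_cL_coeff_not_mem (g : G) (M : Matrix I J (MonoidAlgebra A G)) (i : I) (j : J) {h : G}
    (hh : h ∉ F) : (cL F g M i j).coeff h = 0 :=
  res_coeff_not_mem (U := (F : Set G)) hh

theorem cR_onF (g : G) (M : Matrix I J (MonoidAlgebra A G)) : OnF F (cR F g M) := by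
  intro i j h hh
  by_contra hn
  exact hh (CosL_cR_coeff_not_mem g M i j hn)

theorem cL_onF (g : G) (M : Matrix I J (MonoidAlgebra A G)) : OnF F (cL F g M) := by
  intro i j h hh
  by_contra hn
  exact hh (CosL_cL_coeff_not_mem g M i j hn)

theorem cR_mul [Fintype J] {z : Matrix I J (MonoidAlgebra A G)} (hz : OnF F z) (g : G)
    (p : Matrix J K (MonoidAlgebra A G)) : cR F g (z * p) = z * cR F g p := by
  funext i k
  rw [Matrix.mul_apply]
  change res (F : Set G) ((z * p) i k * single g⁻¹ (1 : A)) =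
    ∑ j, z i j * res (F : Set G) (p j k * single g⁻¹ (1 : A))
  rw [Matrix.mul_apply, Finset.sum_mul, res_sum]
  refine Finset.sum_congr rfl fun j _ => ?_
  rw [mul_assoc]
  exact res_mul_left (F := F) (U := (F : Set G)) (fun f hf g hg => F.mul_mem hf hg)
    (fun g hg => hz i j g hg) _

theorem cL_mul [Fintype J] {z : Matrix J K (MonoidAlgebra A G)} (hz : OnF F z) (g : G)
    (p : Matrix I J (MonoidAlgebra A G)) : cL F g (p * z) = cL F g p * z := by
  funext i k
  rw [Matrix.mul_apply]
  change res (F : Set G) (single g⁻¹ (1 : A) * (p * z) i k) =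
    ∑ j, res (F : Set G) (single g⁻¹ (1 : A) * p i j) * z j k
  rw [Matrix.mul_apply, Finset.mul_sum, res_sum]
  refine Finset.sum_congr rfl fun j _ => ?_
  rw [← mul_assoc]
  exact res_mul_right (F := F) (U := (F : Set G)) (fun f hf g hg => F.mul_mem hg hf)
    (fun g hg => hz j k g hg) _

theorem cR_zero (g : G) : cR F g (0 : Matrix I J (MonoidAlgebra A G)) = 0 := by
  funext i j
  change res (F : Set G) ((0 : MonoidAlgebra A G) * single g⁻¹ (1 : A)) = 0
  rw [zero_mul, res_zero]

theorem cL_zero (g : G) : cL F g (0 : Matrix I J (MonoidAlgebra A G)) = 0 := by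
  funext i j
  change res (F : Set G) (single g⁻¹ (1 : A) * (0 : MonoidAlgebra A G)) = 0
  rw [mul_zero, res_zero]

theorem cR_smul (a : A) (g : G) (M : Matrix I J (MonoidAlgebra A G)) :
    cR F g (a • M) = a • cR F g M := by
  funext i j
  change res (F : Set G) ((a • M i j) * single g⁻¹ (1 : A)) =
    a • res (F : Set G) (M i j * single g⁻¹ (1 : A))
  rw [smul_mul_assoc, res_smul]

theorem cL_smul (a : A) (g : G) (M : Matrix I J (MonoidAlgebra A G)) :
    cL F g (a • M) = a • cL F g M := by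
  funext i j
  change res (F : Set G) (single g⁻¹ (1 : A) * (a • M i j)) =
    a • res (F : Set G) (single g⁻¹ (1 : A) * M i j)
  rw [mul_smul_comm, res_smul]

theorem cR_coeff_one (g : G) (M : Matrix I J (MonoidAlgebra A G)) (i : I) (j : J) :
    (cR F g M i j).coeff 1 = (M i j).coeff g := by
  rw [CosL_cR_coeff_mem g M i j F.one_mem, one_mul]

theorem cL_coeff_one (g : G) (M : Matrix I J (MonoidAlgebra A G)) (i : I) (j : J) :
    (cL F g M i j).coeff 1 = (M i j).coeff g := by
  rw [CosL_cL_coeff_mem g M i j F.one_mem, mul_one]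

theorem CosL_sum_apply {ι : Type v} (T : Finset ι) (f : ι → Matrix I J (MonoidAlgebra A G))
    (i : I) (j : J) : (∑ g ∈ T, f g : Matrix I J (MonoidAlgebra A G)) i j = ∑ g ∈ T, f g i j :=
  Matrix.sum_apply i j T f

/-- right translation of the entries -/
noncomputable def CosL_R (g : G) (M : Matrix I J (MonoidAlgebra A G)) :
    Matrix I J (MonoidAlgebra A G) := fun i j => M i j * single g 1

/-- left translation of the entries -/
noncomputable def CosL_L (g : G) (M : Matrix I J (MonoidAlgebra A G)) :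
    Matrix I J (MonoidAlgebra A G) := fun i j => single g 1 * M i j

theorem CosL_R_mul [Fintype J] (g : G) (z : Matrix I J (MonoidAlgebra A G))
    (p : Matrix J K (MonoidAlgebra A G)) : CosL_R g (z * p) = z * CosL_R g p := by
  funext i k
  rw [Matrix.mul_apply]
  change (z * p) i k * single g 1 = ∑ j, z i j * (p j k * single g 1)
  rw [Matrix.mul_apply, Finset.sum_mul]
  refine Finset.sum_congr rfl fun j _ => ?_
  rw [mul_assoc]

theorem CosL_L_mul [Fintype J] (g : G) (p : Matrix I J (MonoidAlgebra A G))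
    (z : Matrix J K (MonoidAlgebra A G)) : CosL_L g (p * z) = CosL_L g p * z := by
  funext i k
  rw [Matrix.mul_apply]
  change single g 1 * (p * z) i k = ∑ j, (single g 1 * p i j) * z j k
  rw [Matrix.mul_apply, Finset.mul_sum]
  refine Finset.sum_congr rfl fun j _ => ?_
  rw [mul_assoc]

/-- representatives of the classes which meet a finite set -/
theorem CosL_reps {X : Type v} (R : Setoid X) (S : Finset X) :
    ∃ T : Finset X, (∀ g ∈ T, ∀ h ∈ T, R g h → g = h) ∧ (∀ g ∈ T, ∃ s ∈ S, R g s) ∧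
      ∀ s ∈ S, ∃ g ∈ T, R g s := by
  classical
  have h0 : ∀ s : X, R (Quotient.mk R s).out s := fun s => Quotient.mk_out s
  refine ⟨S.image fun s => (Quotient.mk R s).out, ?_, ?_, ?_⟩
  · intro g hg h hh hgh
    obtain ⟨s, hs, rfl⟩ := Finset.mem_image.1 hg
    obtain ⟨s', hs', rfl⟩ := Finset.mem_image.1 hh
    have h1 : R s s' := R.trans (R.symm (h0 s)) (R.trans hgh (h0 s'))
    have h2 : Quotient.mk R s = Quotient.mk R s' := Quotient.sound h1
    rw [h2]
  · intro g hg
    obtain ⟨s, hs, rfl⟩ := Finset.mem_image.1 hg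
    exact ⟨s, hs, h0 s⟩
  · intro s hs
    exact ⟨_, Finset.mem_image_of_mem _ hs, h0 s⟩

open Classical in
/-- the support of a matrix -/
noncomputable def CosL_supp [Fintype I] [Fintype J] (M : Matrix I J (MonoidAlgebra A G)) :
    Finset G :=
  Finset.univ.biUnion fun i => Finset.univ.biUnion fun j => (M i j).coeff.support

theorem CosL_mem_supp [Fintype I] [Fintype J] (M : Matrix I J (MonoidAlgebra A G)) (g : G) :
    g ∈ CosL_supp M ↔ ∃ i j, (M i j).coeff g ≠ 0 := by
  simp [CosL_supp]

/-- finite decomposition along right cosets: `T` is a finite set of representatives of distinct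
right cosets, each representative having a nonzero component of `M` in its coset -/
theorem cR_decomp [Fintype I] [Fintype J] (F : Subgroup G) (M : Matrix I J (MonoidAlgebra A G)) :
    ∃ T : Finset G, (∀ g ∈ T, ∀ h ∈ T, g * h⁻¹ ∈ F → g = h) ∧
      (∀ g ∈ T, ∃ f ∈ F, ∃ i j, (M i j).coeff (f * g) ≠ 0) ∧
      M = ∑ g ∈ T, fun i j => cR F g M i j * single g 1 := by
  classical
  obtain ⟨T, h1, h2, h3⟩ := CosL_reps (QuotientGroup.rightRel F) (CosL_supp M)
  have hrel : ∀ x y : G, (QuotientGroup.rightRel F) x y ↔ y * x⁻¹ ∈ F := fun x y =>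
    QuotientGroup.rightRel_apply
  refine ⟨T, fun g hg h hh hgh => ?_, fun g hg => ?_, ?_⟩
  · exact (h1 h hh g hg ((hrel h g).2 hgh)).symm
  · obtain ⟨s, hs, hgs⟩ := h2 g hg
    obtain ⟨i, j, hij⟩ := (CosL_mem_supp M s).1 hs
    refine ⟨s * g⁻¹, (hrel g s).1 hgs, i, j, ?_⟩
    rwa [inv_mul_cancel_right]
  · change M = ∑ g ∈ T, CosL_R g (cR F g M)
    funext i j
    apply coeff_injective
    ext x
    rw [CosL_sum_apply, coeff_sum, Finsupp.finsetSum_apply]
    have hterm : ∀ g ∈ T, (CosL_R g (cR F g M) i j).coeff x =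
        if x * g⁻¹ ∈ F then (M i j).coeff x else 0 := by
      intro g _
      change (cR F g M i j * single g (1 : A)).coeff x = _
      rw [coeff_mul_single_apply, mul_one]
      split_ifs with h
      · rw [CosL_cR_coeff_mem g M i j h, inv_mul_cancel_right]
      · rw [CosL_cR_coeff_not_mem g M i j h]
    rw [Finset.sum_congr rfl hterm]
    by_cases hx : (M i j).coeff x = 0
    · simp [hx]
    · obtain ⟨g, hg, hgx⟩ := h3 x ((CosL_mem_supp M x).2 ⟨i, j, hx⟩)
      rw [Finset.sum_eq_single g]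
      · rw [if_pos ((hrel g x).1 hgx)]
      · intro g' hg' hne
        rw [if_neg]
        intro h
        apply hne
        exact h1 g' hg' g hg ((QuotientGroup.rightRel F).trans ((hrel g' x).2 h)
          ((QuotientGroup.rightRel F).symm hgx))
      · intro h
        exact absurd hg h

theorem cL_decomp [Fintype I] [Fintype J] (F : Subgroup G) (M : Matrix I J (MonoidAlgebra A G)) :
    ∃ T : Finset G, (∀ g ∈ T, ∀ h ∈ T, g⁻¹ * h ∈ F → g = h) ∧
      (∀ g ∈ T, ∃ f ∈ F, ∃ i j, (M i j).coeff (g * f) ≠ 0) ∧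
      M = ∑ g ∈ T, fun i j => single g 1 * cL F g M i j := by
  classical
  obtain ⟨T, h1, h2, h3⟩ := CosL_reps (QuotientGroup.leftRel F) (CosL_supp M)
  have hrel : ∀ x y : G, (QuotientGroup.leftRel F) x y ↔ x⁻¹ * y ∈ F := fun x y =>
    QuotientGroup.leftRel_apply
  refine ⟨T, fun g hg h hh hgh => ?_, fun g hg => ?_, ?_⟩
  · exact h1 g hg h hh ((hrel g h).2 hgh)
  · obtain ⟨s, hs, hgs⟩ := h2 g hg
    obtain ⟨i, j, hij⟩ := (CosL_mem_supp M s).1 hs
    refine ⟨g⁻¹ * s, (hrel g s).1 hgs, i, j, ?_⟩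
    rwa [mul_inv_cancel_left]
  · change M = ∑ g ∈ T, CosL_L g (cL F g M)
    funext i j
    apply coeff_injective
    ext x
    rw [CosL_sum_apply, coeff_sum, Finsupp.finsetSum_apply]
    have hterm : ∀ g ∈ T, (CosL_L g (cL F g M) i j).coeff x =
        if g⁻¹ * x ∈ F then (M i j).coeff x else 0 := by
      intro g _
      change (single g (1 : A) * cL F g M i j).coeff x = _
      rw [coeff_single_mul_apply, one_mul]
      split_ifs with h
      · rw [CosL_cL_coeff_mem g M i j h, mul_inv_cancel_left]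
      · rw [CosL_cL_coeff_not_mem g M i j h]
    rw [Finset.sum_congr rfl hterm]
    by_cases hx : (M i j).coeff x = 0
    · simp [hx]
    · obtain ⟨g, hg, hgx⟩ := h3 x ((CosL_mem_supp M x).2 ⟨i, j, hx⟩)
      rw [Finset.sum_eq_single g]
      · rw [if_pos ((hrel g x).1 hgx)]
      · intro g' hg' hne
        rw [if_neg]
        intro h
        apply hne
        exact h1 g' hg' g hg ((QuotientGroup.leftRel F).trans ((hrel g' x).2 h)
          ((QuotientGroup.leftRel F).symm hgx))
      · intro h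
        exact absurd hg h

/-- a functional is represented if all its right coset components are -/
theorem rep_of_cR [Fintype J] {z : Matrix I J (MonoidAlgebra A G)} (hz : OnF F z)
    {f : Matrix I K (MonoidAlgebra A G)} (h : ∀ g, Rep z (cR F g f)) [Fintype I] [Fintype K] :
    Rep z f := by
  obtain ⟨T, _, _, hT⟩ := cR_decomp F f
  choose p hp using h
  refine ⟨∑ g ∈ T, CosL_R g (p g), ?_⟩
  have hT' : f = ∑ g ∈ T, CosL_R g (cR F g f) := hT
  rw [Matrix.mul_sum]
  refine hT'.trans (Finset.sum_congr rfl fun g _ => ?_)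
  rw [hp g, CosL_R_mul]

/-- a row is in the row space of `ω` if all its left coset components are -/
theorem row_of_cL [Fintype n] [Fintype J] {ω : Matrix n J (MonoidAlgebra A G)} (hω : OnF F ω)
    [Fintype c] {x : Matrix c J (MonoidAlgebra A G)}
    (h : ∀ g, ∃ κ : Matrix c n (MonoidAlgebra A G), cL F g x = κ * ω) :
    ∃ κ : Matrix c n (MonoidAlgebra A G), x = κ * ω := by
  obtain ⟨T, _, _, hT⟩ := cL_decomp F x
  choose p hp using h
  refine ⟨∑ g ∈ T, CosL_L g (p g), ?_⟩
  have hT' : x = ∑ g ∈ T, CosL_L g (cL F g x) := hT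
  rw [Matrix.sum_mul]
  refine hT'.trans (Finset.sum_congr rfl fun g _ => ?_)
  rw [hp g, CosL_L_mul]

/-- all left components zero -/
theorem eq_zero_of_cL [Fintype I] [Fintype J] {x : Matrix I J (MonoidAlgebra A G)}
    (h : ∀ g, cL F g x = 0) : x = 0 := by
  funext i j
  apply coeff_injective
  ext g
  rw [← cL_coeff_one (F := F) g x i j, h g]
  rfl

theorem eq_zero_of_cR [Fintype I] [Fintype J] {x : Matrix I J (MonoidAlgebra A G)}
    (h : ∀ g, cR F g x = 0) : x = 0 := by
  funext i j
  apply coeff_injective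
  ext g
  rw [← cR_coeff_one (F := F) g x i j, h g]
  rfl

/-- a functional over `A[F]` is a functional over `A[G]` -/
theorem fnl_of_onF [Fintype r] [Fintype K] [Fintype c] {ζ : Matrix r K (MonoidAlgebra A G)}
    {f : Matrix r c (MonoidAlgebra A G)} (hζ : OnF F ζ) (hf : OnF F f)
    (h : ∀ κ : Matrix Unit r (MonoidAlgebra A G), OnF F κ → κ * ζ = 0 → κ * f = 0) :
    Fnl ζ f := by
  intro κ hκ
  refine eq_zero_of_cL (F := F) fun g => ?_
  rw [cL_mul hf]
  refine h _ (cL_onF g κ) ?_
  rw [← cL_mul hζ, hκ, cL_zero]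

/-- generation over `A[F]` implies generation over `A[G]` -/
theorem genL_of_onF [Fintype n] [Fintype J] [Fintype K] {ω : Matrix n J (MonoidAlgebra A G)}
    {D : Matrix J K (MonoidAlgebra A G)} (hω : OnF F ω) (hD : OnF F D) (h0 : ω * D = 0)
    (h : ∀ x : Matrix Unit J (MonoidAlgebra A G), OnF F x → x * D = 0 →
      ∃ κ : Matrix Unit n (MonoidAlgebra A G), x = κ * ω) : GenL ω D := by
  refine ⟨h0, fun x hx => row_of_cL hω fun g => h _ (cL_onF g x) ?_⟩
  rw [← cL_mul hD, hx, cL_zero]

/-- components of functionals are functionals -/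
theorem Fnl.cR [Fintype r] [Fintype K] [Fintype c] {ζ : Matrix r K (MonoidAlgebra A G)}
    {f : Matrix r c (MonoidAlgebra A G)} (hζ : OnF F ζ) (h : Fnl ζ f) (g : G) :
    Fnl ζ (Pool.Agent.Lib.MP_98022b_UN.cR F g f) := by
  intro κ hκ
  refine eq_zero_of_cL (F := F) fun g' => ?_
  rw [cL_mul (cR_onF g f), ← cR_mul (cL_onF g' κ)]
  have h1 : cL F g' κ * f = 0 := by
    refine h _ ?_
    rw [← cL_mul hζ, hκ, cL_zero]
  rw [h1, cR_zero]

/-- divisibility by a constant can be checked on coefficients -/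
theorem dvd_of_coeff {a : A} {M : Matrix I J (MonoidAlgebra A G)}
    (h : ∀ i j g, a ∣ (M i j).coeff g) : ∃ N : Matrix I J (MonoidAlgebra A G), M = a • N := by
  classical
  let q : A → A := fun x => if h : x ≠ 0 ∧ a ∣ x then h.2.choose else 0
  have hq0 : q 0 = 0 := by simp [q]
  have hq : ∀ x, a ∣ x → a * q x = x := by
    intro x hx
    by_cases hx0 : x = 0
    · rw [hx0, hq0, mul_zero]
    · have : q x = hx.choose := dif_pos ⟨hx0, hx⟩
      rw [this]
      exact hx.choose_spec.symm
  refine ⟨fun i j => MonoidAlgebra.ofCoeff ((M i j).coeff.mapRange q hq0), ?_⟩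
  funext i j
  apply coeff_injective
  ext g
  exact (hq _ (h i j g)).symm

theorem dvd_coeff {a : A} {M N : Matrix I J (MonoidAlgebra A G)} (h : M = a • N) (i : I) (j : J)
    (g : G) : a ∣ (M i j).coeff g := by
  rw [h]
  exact ⟨(N i j).coeff g, rfl⟩

theorem smul_cancel [IsDomain A] {a : A} (ha : a ≠ 0) {M N : Matrix I J (MonoidAlgebra A G)}
    (h : a • M = a • N) : M = N := by
  funext i j
  apply coeff_injective
  ext g
  have h1 : a * (M i j).coeff g = a * (N i j).coeff g :=
    congrArg (fun P : Matrix I J (MonoidAlgebra A G) => (P i j).coeff g) h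
  exact mul_left_cancel₀ ha h1

theorem dvd_of_prime [IsDomain A] {p s : A} (hp : Prime p) (hs : ¬ p ∣ s)
    {M N : Matrix I J (MonoidAlgebra A G)} (h : s • M = p • N) :
    ∃ N' : Matrix I J (MonoidAlgebra A G), M = p • N' := by
  refine dvd_of_coeff fun i j g => ?_
  have h1 : s * (M i j).coeff g = p * (N i j).coeff g :=
    congrArg (fun P : Matrix I J (MonoidAlgebra A G) => (P i j).coeff g) h
  have h2 : p ∣ s * (M i j).coeff g := ⟨_, h1⟩
  exact (hp.dvd_or_dvd h2).resolve_left hs

end Pool.Agent.Lib.MP_98022b_UN
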