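import Mathlib
import Pool.Agent.Lib.MP_98022b_UN.Defs

/-! Definitions for the step construction. -/

open MonoidAlgebra

namespace Pool.Agent.Lib.MP_98022b_UN

universe u v
variable {A : Type u} {G : Type v} [CommRing A] [Group G]

/-- input of a step: matrix of functionals `Φ` (columns of type `τ`), indexed by a hyperbolic
index `L`; `B` represents `θ Φ` -/
structure StepIn (E : EdgeSys G) (ε : ℤ) {K r L : Type} [Fintype K]
    [Fintype r] [Fintype L] [DecidableEq L] (t : K → Bool)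
    (s : r → Bool) (ζ : Matrix r K (MonoidAlgebra A G)) (θ : Matrix r r (MonoidAlgebra A G))
    (τ : Bool) (t2 : L → Bool) (J2 : Matrix L L (MonoidAlgebra A G))
    (Φ : Matrix r L (MonoidAlgebra A G)) (B : Matrix K L (MonoidAlgebra A G)) : Prop where
  hJ2 : HJ ε t2 J2
  Φ_on : OnT E s t2 0 Φ
  Φ_e : Φ * eT A G t2 τ = Φ
  B_on : OnT E t t2 1 B
  B_e : B * eT A G t2 τ = B
  fnl : Fnl ζ Φ
  eq : θ * Φ = ζ * B
  avp : ∀ a : A, a ≠ 0 → ∀ h : Matrix Unit L (MonoidAlgebra A G), h * eT A G t2 τ = h →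
    (∀ (l : Matrix L Unit (MonoidAlgebra A G)) (x : Matrix K Unit (MonoidAlgebra A G)),
      Φ * l = ζ * x → ∃ y : Matrix Unit Unit (MonoidAlgebra A G), h * l = a • y) →
    ∃ h' : Matrix Unit L (MonoidAlgebra A G), h = a • h'

/-- `[ν1, ν2]` generates the type `!τ` part of the orthogonal of `[ζ, -Φ]` -/
structure IsNu (E : EdgeSys G) (β : BarStr A G) {K r L q : Type} [Fintype K] [DecidableEq K]
    [Fintype r] [Fintype L] [DecidableEq L] [Fintype q] (t : K → Bool)
    (J : Matrix K K (MonoidAlgebra A G)) (ζ : Matrix r K (MonoidAlgebra A G))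
    (τ : Bool) (t2 : L → Bool) (J2 : Matrix L L (MonoidAlgebra A G))
    (Φ : Matrix r L (MonoidAlgebra A G)) (ν1 : Matrix q K (MonoidAlgebra A G))
    (ν2 : Matrix q L (MonoidAlgebra A G)) : Prop where
  on1 : OnT E (fun _ => !τ) t 0 ν1
  on2 : OnT E (fun _ => !τ) t2 0 ν2
  perp : ν1 * (J * adj β ζ) = ν2 * (J2 * adj β Φ)
  gen : ∀ (x : Matrix Unit K (MonoidAlgebra A G)) (y : Matrix Unit L (MonoidAlgebra A G)),
    x * eT A G t (!τ) = x → y * eT A G t2 (!τ) = y → x * (J * adj β ζ) = y * (J2 * adj β Φ) →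
    ∃ κ : Matrix Unit q (MonoidAlgebra A G), x = κ * ν1 ∧ y = κ * ν2

/-- the two conditions which allow to perform the step -/
structure Good {L q : Type} [Fintype L] [DecidableEq L] [Fintype q]
    (τ : Bool) (t2 : L → Bool) (ν2 : Matrix q L (MonoidAlgebra A G)) : Prop where
  inj : ∀ η : Matrix L Unit (MonoidAlgebra A G), eT A G t2 (!τ) * η = η → ν2 * η = 0 → η = 0
  ext : ∀ f : Matrix q Unit (MonoidAlgebra A G),
    (∀ κ : Matrix Unit q (MonoidAlgebra A G), κ * ν2 = 0 → κ * f = 0) →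
    ∃ η : Matrix L Unit (MonoidAlgebra A G), eT A G t2 (!τ) * η = η ∧ f = ν2 * η

/-- the matrix `B♯` -/
noncomputable def sharp (β : BarStr A G) (ε : ℤ) {K L : Type} [Fintype K] [Fintype L]
    (J : Matrix K K (MonoidAlgebra A G)) (J2 : Matrix L L (MonoidAlgebra A G))
    (B : Matrix K L (MonoidAlgebra A G)) : Matrix L K (MonoidAlgebra A G) :=
  ε • (J2 * adj β B * J)

/-- output of the algebraic part of a step -/
structure StepOut (E : EdgeSys G) (β : BarStr A G) (ε : ℤ) {K r L q : Type} [Fintype K]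
    [DecidableEq K] [Fintype r] [Fintype L] [DecidableEq L] [Fintype q] (t : K → Bool)
    (J T : Matrix K K (MonoidAlgebra A G)) (s : r → Bool) (ζ : Matrix r K (MonoidAlgebra A G))
    (τ : Bool) (t2 : L → Bool) (J2 : Matrix L L (MonoidAlgebra A G))
    (Φ : Matrix r L (MonoidAlgebra A G)) (B : Matrix K L (MonoidAlgebra A G))
    (ν1 : Matrix q K (MonoidAlgebra A G)) (ν2 : Matrix q L (MonoidAlgebra A G))
    (D : Matrix L L (MonoidAlgebra A G)) (κ1 : Matrix q r (MonoidAlgebra A G)) : Prop where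
  D_on : OnT E t2 t2 1 D
  κ_on : OnT E (fun _ => !τ) s 1 κ1
  D_left : eT A G t2 (!τ) * D = D
  D_right : D * eT A G t2 τ = D
  D_form : D * J2 = J2 * adj β D
  eq1 : ν1 * T - ν2 * sharp β ε J J2 B = κ1 * ζ
  eq2 : ν2 * D - ν1 * B = -(κ1 * Φ)

/-- explicit description of the matrix `φ` of components of `θ^n Gm` -/
structure IsCompIdx (E : EdgeSys G) {K r γ ι : Type} [Fintype K] [Fintype r] [DecidableEq r]
    [Fintype γ] [DecidableEq γ] [Fintype ι] (s : r → Bool) (ζ : Matrix r K (MonoidAlgebra A G))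
    (θ : Matrix r r (MonoidAlgebra A G)) (n : ℕ) (τ : Bool) (sγ : γ → Bool)
    (Gm : Matrix r γ (MonoidAlgebra A G)) (jx : ι → γ) (tx : ι → G)
    (φ : Matrix r ι (MonoidAlgebra A G)) : Prop where
  G_on : OnT E s sγ 0 Gm
  G_fnl : Fnl ζ Gm
  G_gen : ∀ f : Matrix r Unit (MonoidAlgebra A G), OnF E.F f → Fnl ζ f →
    ∃ μ : Matrix γ Unit (MonoidAlgebra A G), OnF E.F μ ∧ f = Gm * μ
  tx_mem : ∀ l, tx l ∈ E.P n τ (sγ (jx l))
  dist : ∀ l l', jx l = jx l' → tx l * (tx l')⁻¹ ∈ E.F → l = l'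
  φ_eq : ∀ i l, φ i l = if s i = τ then cR E.F (tx l) (θ ^ n * Gm) i (jx l) else 0
  sum : ∀ i j, (eT A G s τ * (θ ^ n * Gm) : Matrix r γ (MonoidAlgebra A G)) i j =
    ∑ l, if jx l = j then φ i l * single (tx l) 1 else 0

/-- the sign change on the types -/
noncomputable def sgn (A : Type u) (G : Type v) [CommRing A] [Group G] {K : Type} [DecidableEq K]
    (t : K → Bool) : Matrix K K (MonoidAlgebra A G) := eT A G t false - eT A G t true

/-- the negative form -/
noncomputable def negT {K : Type} [Fintype K] [DecidableEq K] (t : K → Bool)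
    (T : Matrix K K (MonoidAlgebra A G)) : Matrix K K (MonoidAlgebra A G) :=
  sgn A G t * T * sgn A G t

end Pool.Agent.Lib.MP_98022b_UN
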