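import Mathlib
import Pool.Agent.Lib.MP_98022b_UN.Defs2

/-! Explicit forms: definitions. -/

open MonoidAlgebra

namespace Pool.Agent.Lib.MP_98022b_UN

universe u v
variable {A : Type u} {G : Type v} [CommRing A] [Group G]

/-- the standard type function on `n ⊕ n` -/
def stdT (n : Type) : n ⊕ n → Bool := Sum.elim (fun _ => false) (fun _ => true)

/-- the standard hyperbolic matrix on `n ⊕ n` -/
noncomputable def stdJ (A : Type u) (G : Type v) [CommRing A] [Group G] (ε : ℤ) (n : Type)
    [DecidableEq n] : Matrix (n ⊕ n) (n ⊕ n) (MonoidAlgebra A G) :=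
  Matrix.fromBlocks 0 1 (ε • (1 : Matrix n n (MonoidAlgebra A G))) 0

/-- entries supported in `U` -/
def Supp (U : Set G) {I J : Type} (M : Matrix I J (MonoidAlgebra A G)) : Prop :=
  ∀ i j g, (M i j).coeff g ≠ 0 → g ∈ U

/-- explicit `ε`-symmetric UNil forms -/
structure SForm (E : EdgeSys G) (β : BarStr A G) (ε : ℤ) {n : Type} [Fintype n] [DecidableEq n]
    (b a c : Matrix n n (MonoidAlgebra A G)) : Prop where
  hb : Supp (E.S false false) b
  ha : Supp (E.S false true) a
  hc : Supp (E.S true false) c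
  ea : adj β a = ε • a
  ec : adj β c = ε • c
  nil : ∃ N : ℕ, (Matrix.fromBlocks b a c (adj β b)) ^ N = 0

/-- explicit metabolic forms -/
def SMet (E : EdgeSys G) (β : BarStr A G) {n : Type} [Fintype n] [DecidableEq n]
    (b a c : Matrix n n (MonoidAlgebra A G)) : Prop :=
  ∃ P : Matrix n n (MonoidAlgebra A G), OnF E.F P ∧ P * P = P ∧ P * b * (1 - P) = 0 ∧
    P * a * adj β P = 0 ∧ adj β (1 - P) * c * (1 - P) = 0

end Pool.Agent.Lib.MP_98022b_UN
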