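import Mathlib
import Pool.Agent.Lib.MP_98022b_UN.ExplDefs
import Pool.Agent.Lib.MP_98022b_UN.AdjL
import Pool.Agent.Lib.MP_98022b_UN.OnL2

/-! Task E4: unique quadratic refinements in the absence of 2-torsion. -/

open MonoidAlgebra

namespace Pool.Agent.Lib.MP_98022b_UN

universe u v
variable {A : Type u} {G : Type v} [CommRing A] [Group G] {β : BarStr A G} {ε : ℤ}
  {n : Type} [Fintype n]

/-- a set on which inversion acts freely has a half -/
theorem E4Aux.exists_half_set {U : Set G} (hU : ∀ g ∈ U, g⁻¹ ∈ U ∧ g⁻¹ ≠ g) :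
    ∃ V : Set G, (∀ g ∈ V, g ∈ U) ∧ (∀ g ∈ V, g⁻¹ ∉ V) ∧ (∀ g ∈ U, g ∈ V ∨ g⁻¹ ∈ V) := by
  classical
  obtain ⟨r, hr⟩ := exists_wellFoundedLT G
  refine ⟨{g | g ∈ U ∧ g < g⁻¹}, fun g hg => hg.1, ?_, ?_⟩
  · rintro g ⟨_, h1⟩ ⟨_, h2⟩
    rw [inv_inv] at h2
    exact lt_asymm h1 h2
  · intro g hg
    obtain ⟨h1, h2⟩ := hU g hg
    rcases lt_or_gt_of_ne h2 with h3 | h3
    · right
      refine ⟨h1, ?_⟩
      rw [inv_inv]
      exact h3
    · left
      exact ⟨hg, h3⟩

/-- if inversion acts freely on `U`, every `ε`-hermitian matrix supported in `U` is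
`x + ε x*` with `x` supported in `U` -/
theorem exists_half (hε : ε = 1 ∨ ε = -1) {U : Set G} (hU : ∀ g ∈ U, g⁻¹ ∈ U ∧ g⁻¹ ≠ g)
    {z : Matrix n n (MonoidAlgebra A G)} (hz : Supp U z) (h : adj β z = ε • z) :
    ∃ x : Matrix n n (MonoidAlgebra A G), Supp U x ∧ z = x + ε • adj β x := by
  obtain ⟨V, hV1, hV2, hV3⟩ := E4Aux.exists_half_set hU
  refine ⟨fun i j => res V (z i j), ?_, ?_⟩
  · intro i j g hg
    exact hV1 g (res_supp V _ g hg).1
  · funext i j
    show z i j = res V (z i j) + ε • β.bar (res V (z j i))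
    have hb : β.bar (z j i) = ε • z i j := congrFun (congrFun h i) j
    have hεε : ε * ε = 1 := by rcases hε with rfl | rfl <;> norm_num
    have hsub : ∀ g, (z j i).coeff g ≠ 0 → g ∈ U := fun g hg => hz j i g hg
    ext g
    rw [coeff_add, Finsupp.add_apply, coeff_smul, Finsupp.smul_apply]
    by_cases hgV : g ∈ V
    · have h0 : (β.bar (res V (z j i))).coeff g = 0 := by
        by_contra hc
        have h1 := β.supp' _ _ hc
        exact hV2 g hgV (res_supp V _ _ h1).1
      rw [h0, smul_zero, add_zero, res_coeff_mem hgV]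
    · rw [res_coeff_not_mem hgV, zero_add]
      by_cases hgV' : g⁻¹ ∈ V
      · have h2 : (β.bar (z j i - res V (z j i))).coeff g = 0 := by
          by_contra hc
          have h1 := β.supp' _ _ hc
          apply h1
          rw [coeff_sub, Finsupp.sub_apply, res_coeff_mem hgV', sub_self]
        rw [bar_sub, coeff_sub, Finsupp.sub_apply, sub_eq_zero, hb, coeff_smul,
          Finsupp.smul_apply] at h2
        rw [← h2, smul_smul, hεε, one_smul]
      · have hgU : g ∉ U := by
          intro hg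
          rcases hV3 g hg with h1 | h1
          · exact hgV h1
          · exact hgV' h1
        have h3 : (z i j).coeff g = 0 := by
          by_contra hc
          exact hgU (hz i j g hc)
        have h4 : (β.bar (res V (z j i))).coeff g = 0 := by
          by_contra hc
          have h1 := β.supp' _ _ hc
          exact hgV' (res_supp V _ _ h1).1
        rw [h3, h4, smul_zero]

end Pool.Agent.Lib.MP_98022b_UN
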