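import Mathlib
import Pool.Agent.Lib.MP_98022b_UN.Defs
import Pool.Agent.Lib.MP_98022b_UN.CosL

open MonoidAlgebra

namespace Pool.Agent.Lib.MP_98022b_UN

universe u v w

section
variable {A : Type u} [CommRing A] {H : Type w} {G : Type v} [Group H] [Group G]
  (e : H →* G) (he : Function.Injective e)

/-- the map of group rings -/
noncomputable def r7f : MonoidAlgebra A H →+* MonoidAlgebra A G :=
  MonoidAlgebra.mapDomainRingHom A e

include he in
theorem r7f_inj : Function.Injective (r7f (A := A) e) :=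
  MonoidAlgebra.mapDomain_injective he

theorem r7f_smul (a : A) (x : MonoidAlgebra A H) : r7f e (a • x) = a • r7f e x := by
  change MonoidAlgebra.mapDomain e (a • x) = a • MonoidAlgebra.mapDomain e x
  apply MonoidAlgebra.coeff_injective
  change Finsupp.mapDomain e (a • x.coeff) = a • Finsupp.mapDomain e x.coeff
  rw [Finsupp.mapDomain_smul]

theorem r7_onF {I J : Type} (M : Matrix I J (MonoidAlgebra A H)) :
    OnF e.range (M.map (r7f e)) := by
  classical
  intro i j g hg
  change (Finsupp.mapDomain e (M i j).coeff) g ≠ 0 at hg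
  have h1 := Finsupp.mapDomain_support (Finsupp.mem_support_iff.2 hg)
  obtain ⟨x, _, hx⟩ := Finset.mem_image.1 h1
  exact ⟨x, hx⟩

include he in
theorem r7_pull {I J : Type} (M : Matrix I J (MonoidAlgebra A G)) (hM : OnF e.range M) :
    ∃ M₀ : Matrix I J (MonoidAlgebra A H), M₀.map (r7f e) = M := by
  refine ⟨fun i j => MonoidAlgebra.comapDomain e he (M i j), ?_⟩
  ext1 i j
  change MonoidAlgebra.mapDomain e (MonoidAlgebra.comapDomain e he (M i j)) = M i j
  apply MonoidAlgebra.mapDomain_comapDomain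
  intro g hg
  exact hM i j g (Finsupp.mem_support_iff.1 hg)

include he in
theorem r7_map_inj {I J : Type} {M N : Matrix I J (MonoidAlgebra A H)}
    (h : M.map (r7f e) = N.map (r7f e)) : M = N := by
  ext1 i j
  apply r7f_inj e he
  exact congrFun (congrFun h i) j

theorem r7_map_zero {I J : Type} : (0 : Matrix I J (MonoidAlgebra A H)).map (r7f e) = 0 := by
  ext1 i j
  simp

theorem r7_map_smul {I J : Type} (a : A) (M : Matrix I J (MonoidAlgebra A H)) :
    (a • M).map (r7f e) = a • M.map (r7f e) := by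
  ext1 i j
  exact r7f_smul e a (M i j)

/-- the component at the trivial coset -/
theorem r7_cL_one {F : Subgroup G} {I J : Type} {M : Matrix I J (MonoidAlgebra A G)}
    (hM : OnF F M) : cL F 1 M = M := by
  classical
  ext i j g
  simp only [cL, inv_one, res]
  rw [← MonoidAlgebra.one_def, one_mul]
  change (Finsupp.filter _ _) g = _
  rw [Finsupp.filter_apply]
  split_ifs with h1
  · rfl
  · by_contra h2
    exact h1 (hM i j g (Ne.symm h2))

include he in
theorem r7_genL_down {n J K : Type} [Fintype n] [Fintype J]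
    {ω : Matrix n J (MonoidAlgebra A H)} {D : Matrix J K (MonoidAlgebra A H)}
    (h : GenL (ω.map (r7f e)) (D.map (r7f e))) : GenL ω D := by
  constructor
  · apply r7_map_inj e he
    rw [Matrix.map_mul, h.1, r7_map_zero]
  · intro x hx
    obtain ⟨κ, hκ⟩ := h.2 (x.map (r7f e)) (by rw [← Matrix.map_mul, hx, r7_map_zero])
    have h1 : x.map (r7f e) = cL e.range 1 κ * ω.map (r7f e) := by
      rw [← cL_mul (r7_onF e ω), ← hκ, r7_cL_one (r7_onF e x)]
    obtain ⟨κ₀, hκ₀⟩ := r7_pull e he (cL e.range 1 κ) (cL_onF 1 κ)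
    refine ⟨κ₀, r7_map_inj e he ?_⟩
    rw [h1, Matrix.map_mul, hκ₀]

include he in
theorem r7_genL_up {n J K : Type} [Fintype n] [Fintype J] [Fintype K]
    {ω : Matrix n J (MonoidAlgebra A H)} {D : Matrix J K (MonoidAlgebra A H)}
    (h : GenL ω D) : GenL (ω.map (r7f e)) (D.map (r7f e)) := by
  apply genL_of_onF (r7_onF e ω) (r7_onF e D)
  · rw [← Matrix.map_mul, h.1, r7_map_zero]
  · intro x hx hxD
    obtain ⟨x₀, rfl⟩ := r7_pull e he x hx
    obtain ⟨κ, hκ⟩ := h.2 x₀ (by
      apply r7_map_inj e he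
      rw [Matrix.map_mul, hxD, r7_map_zero])
    exact ⟨κ.map (r7f e), by rw [hκ, Matrix.map_mul]⟩

include he in
theorem r7_fnl_up {r K c : Type} [Fintype r] [Fintype K] [Fintype c]
    {ζ : Matrix r K (MonoidAlgebra A H)} {f : Matrix r c (MonoidAlgebra A H)} (h : Fnl ζ f) :
    Fnl (ζ.map (r7f e)) (f.map (r7f e)) := by
  apply fnl_of_onF (r7_onF e ζ) (r7_onF e f)
  intro κ hκ hκζ
  obtain ⟨κ₀, rfl⟩ := r7_pull e he κ hκ
  rw [← Matrix.map_mul, h κ₀ ?_, r7_map_zero]
  apply r7_map_inj e he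
  rw [Matrix.map_mul, hκζ, r7_map_zero]

theorem r7_top {I J : Type} (M : Matrix I J (MonoidAlgebra A H)) : OnF (⊤ : Subgroup H) M :=
  fun _ _ _ _ => Subgroup.mem_top _
end

/-- R7: transfer along an injective homomorphism -/
theorem RF.transfer {A : Type u} [CommRing A] {H : Type w} {G : Type v} [Group H] [Group G]
    (e : H →* G) (he : Function.Injective e) (h : RF A (⊤ : Subgroup H)) :
    RF A e.range := by
  classical
  refine ⟨?_, ?_, ?_, ?_⟩
  · intro J K _ _ D hD
    obtain ⟨D, rfl⟩ := r7_pull e he D hD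
    obtain ⟨n, ω, _, h1⟩ := h.c1 J K D (r7_top D)
    exact ⟨n, ω.map (r7f e), r7_onF e ω, r7_genL_up e he h1⟩
  · intro J K _ _ D hD
    obtain ⟨D, rfl⟩ := r7_pull e he D hD
    obtain ⟨a, Q, ha, _, hQ, hy⟩ := h.c2 J K D (r7_top D)
    refine ⟨a, Q.map (r7f e), ha, r7_onF e Q, ?_, ?_⟩
    · rw [← Matrix.map_mul, hQ, r7_map_zero]
    · have h1 : Fnl D (Q - a • (1 : Matrix J J (MonoidAlgebra A H))) := by
        intro κ hκ
        rw [Matrix.mul_sub, hy κ hκ, Matrix.mul_smul, Matrix.mul_one, sub_self]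
      have h2 := r7_fnl_up e he h1
      intro y hyD
      have h3 := h2 y hyD
      have h4 : (Q - a • (1 : Matrix J J (MonoidAlgebra A H))).map (r7f e) =
          Q.map (r7f e) - a • (1 : Matrix J J (MonoidAlgebra A G)) := by
        have h5 : (a • (1 : Matrix J J (MonoidAlgebra A H))).map (r7f e) =
            a • (1 : Matrix J J (MonoidAlgebra A G)) := by
          rw [r7_map_smul, Matrix.map_one _ (map_zero _) (map_one _)]
        rw [← h5]
        ext1 i j
        exact map_sub (r7f e) _ _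
      rw [h4, Matrix.mul_sub, Matrix.mul_smul, Matrix.mul_one] at h3
      exact sub_eq_zero.1 h3
  · intro p hp n J K _ _ _ ω D hω hD hg
    obtain ⟨D, rfl⟩ := r7_pull e he D hD
    obtain ⟨ω, rfl⟩ := r7_pull e he ω hω
    obtain ⟨s, M, hs, _, h1, h2⟩ := h.c3 p hp n J K ω D (r7_top ω) (r7_top D)
      (r7_genL_down e he hg)
    refine ⟨s, M.map (r7f e), hs, r7_onF e M, ?_, r7_fnl_up e he h2⟩
    rw [← Matrix.map_mul, h1, r7_map_smul]
  · intro n J K L _ _ _ _ ω D D2 hω hD hD2 hg hg2
    obtain ⟨D, rfl⟩ := r7_pull e he D hD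
    obtain ⟨D2, rfl⟩ := r7_pull e he D2 hD2
    obtain ⟨ω, rfl⟩ := r7_pull e he ω hω
    obtain ⟨M, _, h1, h2⟩ := h.c4 n J K L ω D D2 (r7_top ω) (r7_top D) (r7_top D2)
      (r7_genL_down e he hg) (r7_genL_down e he hg2)
    refine ⟨M.map (r7f e), r7_onF e M, ?_, r7_fnl_up e he h2⟩
    rw [← Matrix.map_mul, h1]

end Pool.Agent.Lib.MP_98022b_UN
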