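import Mathlib
import Pool.Agent.Lib.MP_98022b_UN.Defs

/-! Task G1: the edge system of an edge of a tree. -/

namespace Pool.Agent.Lib.MP_98022b_UN

universe u v

section
variable {V : Type u} {G : Type v} [Group G] [MulAction G V]

/-- the supports for the edge `{p, q}`: `false` = directed edge from `p` to `q`, `true` = directed
edge from `q` to `p` -/
def treeS (p q : V) : Bool → Bool → Set G
  | false, false => {g | g • p = q}
  | false, true => {g | g • q = q ∧ g • p ≠ p}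
  | true, false => {g | g • p = p ∧ g • q ≠ q}
  | true, true => {g | g • q = p}

/-- the edge system of an edge -/
def treeSys (p q : V) : EdgeSys G where
  F := MulAction.stabilizer G p ⊓ MulAction.stabilizer G q
  S := treeS p q
  left' := by
    intro σ ρ f g hf hg
    obtain ⟨h1, h2⟩ := Subgroup.mem_inf.1 hf
    rw [MulAction.mem_stabilizer_iff] at h1 h2
    rcases σ <;> rcases ρ <;> simp only [treeS, Set.mem_setOf_eq] at hg ⊢
    · rw [mul_smul, hg, h2]
    · refine ⟨by rw [mul_smul, hg.1, h2], fun h => hg.2 ?_⟩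
      rw [mul_smul] at h
      have := congrArg (fun x => f⁻¹ • x) h
      simp only [inv_smul_smul] at this
      rw [this, inv_smul_eq_iff, h1]
    · refine ⟨by rw [mul_smul, hg.1, h1], fun h => hg.2 ?_⟩
      rw [mul_smul] at h
      have := congrArg (fun x => f⁻¹ • x) h
      simp only [inv_smul_smul] at this
      rw [this, inv_smul_eq_iff, h2]
    · rw [mul_smul, hg, h1]
  right' := by
    intro σ ρ f g hg hf
    obtain ⟨h1, h2⟩ := Subgroup.mem_inf.1 hf
    rw [MulAction.mem_stabilizer_iff] at h1 h2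
    rcases σ <;> rcases ρ <;> simp only [treeS, Set.mem_setOf_eq] at hg ⊢ <;>
      simp only [mul_smul, h1, h2] <;> exact hg
  inv' := by
    intro σ ρ g hg
    rcases σ <;> rcases ρ <;> simp only [treeS, Set.mem_setOf_eq, Bool.not_false,
      Bool.not_true] at hg ⊢
    · rw [inv_smul_eq_iff, hg]
    · exact ⟨by rw [inv_smul_eq_iff, hg.1], fun h => hg.2 (by rw [inv_smul_eq_iff] at h; exact h.symm)⟩
    · exact ⟨by rw [inv_smul_eq_iff, hg.1], fun h => hg.2 (by rw [inv_smul_eq_iff] at h; exact h.symm)⟩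
    · rw [inv_smul_eq_iff, hg]

/-- in a tree the neighbour closer to a given vertex is unique -/
theorem Tree_unique {Γ : SimpleGraph V} (hΓ : Γ.IsTree) {z y y' x : V} (h1 : Γ.Adj z y)
    (h2 : Γ.Adj z y') (h3 : Γ.dist y x + 1 = Γ.dist z x) (h4 : Γ.dist y' x + 1 = Γ.dist z x) :
    y = y' := by
  obtain ⟨w, hw⟩ := hΓ.connected.exists_walk_length_eq_dist y x
  obtain ⟨w', hw'⟩ := hΓ.connected.exists_walk_length_eq_dist y' x
  have hp : (SimpleGraph.Walk.cons h1 w).IsPath :=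
    SimpleGraph.Walk.isPath_of_length_eq_dist _ (by rw [SimpleGraph.Walk.length_cons, hw, h3])
  have hp' : (SimpleGraph.Walk.cons h2 w').IsPath :=
    SimpleGraph.Walk.isPath_of_length_eq_dist _ (by rw [SimpleGraph.Walk.length_cons, hw', h4])
  have h5 := congrArg Subtype.val (hΓ.isAcyclic.path_unique ⟨_, hp⟩ ⟨_, hp'⟩)
  have h6 := congrArg SimpleGraph.Walk.snd h5
  simpa using h6

theorem Tree_dist_le {Γ : SimpleGraph V} (hΓ : Γ.IsTree)
    (hadj : ∀ (g : G) (x y : V), Γ.Adj x y → Γ.Adj (g • x) (g • y)) (g : G) (x y : V) :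
    Γ.dist (g • x) (g • y) ≤ Γ.dist x y := by
  obtain ⟨w, hw⟩ := hΓ.connected.exists_walk_length_eq_dist x y
  let f : Γ →g Γ := ⟨fun v => g • v, fun {a b} h => hadj g a b h⟩
  have h1 : Γ.dist (g • x) (g • y) ≤ (w.map f).length := SimpleGraph.dist_le (w.map f)
  rwa [SimpleGraph.Walk.length_map, hw] at h1

theorem Tree_dist_smul {Γ : SimpleGraph V} (hΓ : Γ.IsTree)
    (hadj : ∀ (g : G) (x y : V), Γ.Adj x y → Γ.Adj (g • x) (g • y)) (g : G) (x y : V) :
    Γ.dist (g • x) (g • y) = Γ.dist x y := by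
  refine le_antisymm (Tree_dist_le hΓ hadj g x y) ?_
  have h1 := Tree_dist_le hΓ hadj g⁻¹ (g • x) (g • y)
  rwa [inv_smul_smul, inv_smul_smul] at h1

/-- the first vertex of the directed edge of type `σ` -/
def Tree_a (p q : V) : Bool → V
  | false => p
  | true => q

/-- the second vertex of the directed edge of type `σ` -/
def Tree_b (p q : V) : Bool → V
  | false => q
  | true => p

theorem Tree_mem_S {p q : V} (hinv : ∀ g : G, ¬ (g • p = q ∧ g • q = p)) {σ ρ : Bool} {g : G}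
    (h : g ∈ (treeSys p q : EdgeSys G).S σ ρ) :
    g • Tree_a p q ρ = Tree_b p q σ ∧ g • Tree_b p q ρ ≠ Tree_a p q σ := by
  have h' : g ∈ treeS p q σ ρ := h
  rcases σ <;> rcases ρ
  · have h2 : g • p = q := h'
    exact ⟨h2, fun h3 => hinv g ⟨h2, h3⟩⟩
  · have h2 : g • q = q ∧ g • p ≠ p := h'
    exact h2
  · have h2 : g • p = p ∧ g • q ≠ q := h'
    exact h2
  · have h2 : g • q = p := h'
    exact ⟨h2, fun h3 => hinv g ⟨h3, h2⟩⟩

/-- distances along reduced paths -/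
theorem Tree_dist {Γ : SimpleGraph V} (hΓ : Γ.IsTree)
    (hadj : ∀ (g : G) (x y : V), Γ.Adj x y → Γ.Adj (g • x) (g • y)) {p q : V}
    (hpq : Γ.Adj p q) (hinv : ∀ g : G, ¬ (g • p = q ∧ g • q = p)) (m : ℕ) (σ τ : Bool) (g : G)
    (hg : g ∈ (treeSys p q : EdgeSys G).P m σ τ) :
    Γ.dist (Tree_a p q σ) (g • Tree_b p q τ) = m + 1 ∧
      Γ.dist (Tree_b p q σ) (g • Tree_b p q τ) = m := by
  have hab : ∀ σ, Γ.Adj (Tree_a p q σ) (Tree_b p q σ) := by
    intro σ
    rcases σ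
    · exact hpq
    · exact hpq.symm
  induction m generalizing σ g with
  | zero =>
    obtain ⟨h1, h2⟩ : g ∈ (treeSys p q : EdgeSys G).F ∧ σ = τ := hg
    subst h2
    have h3 : g • p = p ∧ g • q = q := by
      obtain ⟨h3, h4⟩ := Subgroup.mem_inf.1 h1
      exact ⟨h3, h4⟩
    have h4 : g • Tree_b p q σ = Tree_b p q σ := by
      rcases σ
      · exact h3.2
      · exact h3.1
    rw [h4, SimpleGraph.dist_self]
    exact ⟨by rw [(SimpleGraph.dist_eq_one_iff_adj).2 (hab σ)], rfl⟩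
  | succ m ih =>
    obtain ⟨ρ, s, hs, t, ht, rfl⟩ : ∃ ρ : Bool, ∃ s ∈ (treeSys p q : EdgeSys G).S σ ρ,
      ∃ t ∈ (treeSys p q : EdgeSys G).P m ρ τ, s * t = g := hg
    obtain ⟨h1, h2⟩ := ih ρ t ht
    obtain ⟨h3, h4⟩ := Tree_mem_S hinv hs
    have h5 : Γ.dist (Tree_b p q σ) ((s * t) • Tree_b p q τ) = m + 1 := by
      rw [← h3, mul_smul, Tree_dist_smul hΓ hadj, h1]
    have h6 : Γ.dist (s • Tree_b p q ρ) ((s * t) • Tree_b p q τ) = m := by
      rw [mul_smul, Tree_dist_smul hΓ hadj, h2]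
    have h7 : Γ.Adj (Tree_b p q σ) (s • Tree_b p q ρ) := by
      rw [← h3]
      exact hadj s _ _ (hab ρ)
    refine ⟨?_, h5⟩
    rcases hΓ.dist_eq_dist_add_one_of_adj ((s * t) • Tree_b p q τ) (hab σ) with h8 | h8
    · rw [SimpleGraph.dist_comm, h8, SimpleGraph.dist_comm, h5]
    · exfalso
      apply h4
      refine Tree_unique hΓ h7 (hab σ).symm (x := (s * t) • Tree_b p q τ) ?_ ?_
      · rw [h6, h5]
      · rw [SimpleGraph.dist_comm, ← h8, SimpleGraph.dist_comm]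

/-- G1 -/
theorem treeSys_geo {Γ : SimpleGraph V} (hΓ : Γ.IsTree)
    (hadj : ∀ (g : G) (x y : V), Γ.Adj x y → Γ.Adj (g • x) (g • y)) {p q : V}
    (hpq : Γ.Adj p q) (hinv : ∀ g : G, ¬ (g • p = q ∧ g • q = p)) :
    (treeSys p q : EdgeSys G).Geo := by
  intro m σ τ ρ ρ' s s' t t' hs ht hs' ht' he
  have hab : ∀ σ, Γ.Adj (Tree_a p q σ) (Tree_b p q σ) := by
    intro σ
    rcases σ
    · exact hpq
    · exact hpq.symm
  obtain ⟨h1, h2⟩ := Tree_dist hΓ hadj hpq hinv m ρ τ t ht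
  obtain ⟨h1', h2'⟩ := Tree_dist hΓ hadj hpq hinv m ρ' τ t' ht'
  obtain ⟨h3, h4⟩ := Tree_mem_S hinv hs
  obtain ⟨h3', h4'⟩ := Tree_mem_S hinv hs'
  have h5 : Γ.dist (Tree_b p q σ) ((s * t) • Tree_b p q τ) = m + 1 := by
    rw [← h3, mul_smul, Tree_dist_smul hΓ hadj, h1]
  have h6 : Γ.dist (s • Tree_b p q ρ) ((s * t) • Tree_b p q τ) = m := by
    rw [mul_smul, Tree_dist_smul hΓ hadj, h2]
  have h6' : Γ.dist (s' • Tree_b p q ρ') ((s * t) • Tree_b p q τ) = m := by
    rw [he, mul_smul, Tree_dist_smul hΓ hadj, h2']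
  have h7 : Γ.Adj (Tree_b p q σ) (s • Tree_b p q ρ) := by
    rw [← h3]
    exact hadj s _ _ (hab ρ)
  have h7' : Γ.Adj (Tree_b p q σ) (s' • Tree_b p q ρ') := by
    rw [← h3']
    exact hadj s' _ _ (hab ρ')
  have h8 : s • Tree_b p q ρ = s' • Tree_b p q ρ' :=
    Tree_unique hΓ h7 h7' (by rw [h6, h5]) (by rw [h6', h5])
  have h9 : (s⁻¹ * s') • Tree_b p q ρ' = Tree_b p q ρ := by
    rw [mul_smul, ← h8, inv_smul_smul]
  have h10 : (s⁻¹ * s') • Tree_a p q ρ' = Tree_a p q ρ := by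
    rw [mul_smul, h3', ← h3, inv_smul_smul]
  have hmem : ∀ g : G, g • p = p → g • q = q → g ∈ (treeSys p q : EdgeSys G).F :=
    fun g h h' => Subgroup.mem_inf.2 ⟨h, h'⟩
  rcases ρ <;> rcases ρ'
  · exact ⟨rfl, hmem _ h10 h9⟩
  · exact absurd ⟨h9, h10⟩ (hinv _)
  · exact absurd ⟨h10, h9⟩ (hinv _)
  · exact ⟨rfl, hmem _ h9 h10⟩

end

end Pool.Agent.Lib.MP_98022b_UN
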