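import Mathlib
import Pool.Agent.Lib.MP_98022b_UN.Defs

/-! Task E1: the standard anti-involution. -/

open MonoidAlgebra

namespace Pool.Agent.Lib.MP_98022b_UN

universe u v
variable {A : Type u} {G : Type v} [CommRing A] [StarRing A] [Group G]

/-- the involution `Σ a_g g ↦ Σ w(g) star(a_g) g⁻¹` -/
noncomputable def barw (w : G →* ℤˣ) (x : MonoidAlgebra A G) : MonoidAlgebra A G :=
  x.coeff.sum fun g a => single g⁻¹ (((w g : ℤˣ) : ℤ) • star a)

theorem barw_coeff (w : G →* ℤˣ) (x : MonoidAlgebra A G) (g : G) :
    (barw w x).coeff g = ((w g⁻¹ : ℤˣ) : ℤ) • star (x.coeff g⁻¹) := by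
  classical
  unfold barw
  rw [Finsupp.sum, coeff_sum, Finsupp.finsetSum_apply]
  rw [Finset.sum_eq_single g⁻¹]
  · rw [coeff_single, inv_inv, Finsupp.single_eq_same]
  · intro h _ hh
    rw [coeff_single, Finsupp.single_apply, if_neg]
    intro h2
    exact hh (by rw [← h2, inv_inv])
  · intro h
    rw [Finsupp.notMem_support_iff.1 h, star_zero, smul_zero, single_zero, coeff_zero]
    rfl

theorem barw_add (w : G →* ℤˣ) (x y : MonoidAlgebra A G) :
    barw w (x + y) = barw w x + barw w y := by
  ext g
  rw [coeff_add, Finsupp.add_apply, barw_coeff, barw_coeff, barw_coeff, coeff_add,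
    Finsupp.add_apply, star_add, smul_add]

theorem barw_single (w : G →* ℤˣ) (g : G) (a : A) :
    barw w (single g a) = single g⁻¹ (((w g : ℤˣ) : ℤ) • star a) := by
  unfold barw
  rw [coeff_single, Finsupp.sum_single_index]
  rw [star_zero, smul_zero, single_zero]

theorem barw_zero (w : G →* ℤˣ) : barw w (0 : MonoidAlgebra A G) = 0 := by
  have := barw_add w (0 : MonoidAlgebra A G) 0
  rw [add_zero] at this
  exact left_eq_add.1 this

theorem barw_mul (w : G →* ℤˣ) (x y : MonoidAlgebra A G) :
    barw w (x * y) = barw w y * barw w x := by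
  induction x using MonoidAlgebra.induction_linear with
  | zero => rw [zero_mul, barw_zero, mul_zero]
  | add x x' hx hx' => rw [add_mul, barw_add, barw_add, hx, hx', mul_add]
  | single g a =>
    induction y using MonoidAlgebra.induction_linear with
    | zero => rw [mul_zero, barw_zero, zero_mul]
    | add y y' hy hy' => rw [mul_add, barw_add, barw_add, hy, hy', add_mul]
    | single h b =>
      rw [single_mul_single, barw_single, barw_single, barw_single, single_mul_single,
        mul_inv_rev, map_mul, star_mul, Units.val_mul]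
      congr 1
      rw [smul_mul_smul_comm, mul_comm ((w g : ℤˣ) : ℤ)]

theorem barw_inv (w : G →* ℤˣ) (x : MonoidAlgebra A G) : barw w (barw w x) = x := by
  ext g
  rw [barw_coeff, barw_coeff, inv_inv, star_zsmul, star_star, smul_smul, map_inv]
  have : (((w g)⁻¹ : ℤˣ) : ℤ) * ((w g : ℤˣ) : ℤ) = 1 := by
    rw [← Units.val_mul, inv_mul_cancel, Units.val_one]
  rw [this, one_smul]

/-- it is an anti-involution inverting supports -/
noncomputable def barStr (w : G →* ℤˣ) : BarStr A G where
  bar := barw w
  add' := barw_add w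
  mul' := barw_mul w
  inv' := barw_inv w
  supp' := by
    intro x g h h2
    apply h
    rw [barw_coeff, h2, star_zero, smul_zero]

end Pool.Agent.Lib.MP_98022b_UN
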