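import Mathlib
import Pool.Agent.Lib.MP_98022b_UN.ExplDefs
import Pool.Agent.Lib.MP_98022b_UN.OnL1
import Pool.Agent.Lib.MP_98022b_UN.OnL2

/-! Task E2: explicit forms and typed forms. -/

open MonoidAlgebra

namespace Pool.Agent.Lib.MP_98022b_UN

universe u v
variable {A : Type u} {G : Type v} [CommRing A] [Group G] {E : EdgeSys G} {β : BarStr A G}
  {ε : ℤ} {n : Type} [Fintype n] [DecidableEq n]

theorem e2_sq (hε : ε = 1 ∨ ε = -1) {I J : Type} (M : Matrix I J (MonoidAlgebra A G)) :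
    ε • (ε • M) = M := by
  rcases hε with h | h
  · rw [h, one_smul, one_smul]
  · rw [h, neg_smul, one_smul, neg_smul, one_smul, neg_neg]

theorem e2_inj (hε : ε = 1 ∨ ε = -1) {I J : Type} {M N : Matrix I J (MonoidAlgebra A G)}
    (h : ε • M = ε • N) : M = N := by
  rw [← e2_sq hε M, h, e2_sq hε N]

/-- the standard hyperbolic matrix -/
theorem hj_stdJ : HJ (A := A) (G := G) ε (stdT n) (stdJ A G ε n) := by
  refine ⟨Sum.swap, fun k => Sum.swap_swap k, ?_, ?_⟩
  · rintro (k | k) <;> rfl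
  · rintro (i | i) (j | j)
    · simp [stdJ]
    · simp [stdJ, stdT, Matrix.one_apply, eq_comm]
    · simp only [stdJ, stdT, Matrix.fromBlocks_apply₂₁, Matrix.smul_apply, Matrix.one_apply,
        Sum.swap_inr, Sum.inl.injEq, Sum.elim_inr, if_true]
      by_cases h : i = j
      · rw [if_pos h, if_pos h.symm, zsmul_eq_mul, mul_one]
      · rw [if_neg h, if_neg (fun h' => h h'.symm), smul_zero]
    · simp [stdJ]

/-- supports of the transposed block -/
theorem supp_adj {b : Matrix n n (MonoidAlgebra A G)} (h : Supp (E.S false false) b) :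
    Supp (E.S true true) (adj β b) := by
  intro i j g hg
  have h1 := h j i _ (β.supp' _ _ hg)
  have h2 := E.inv' h1
  rw [inv_inv] at h2
  exact h2

theorem one_sub_blocks {m : Type} [DecidableEq m] (P : Matrix n n (MonoidAlgebra A G))
    (R : Matrix m m (MonoidAlgebra A G)) :
    (1 : Matrix (n ⊕ m) (n ⊕ m) (MonoidAlgebra A G)) - Matrix.fromBlocks P 0 0 R =
      Matrix.fromBlocks (1 - P) 0 0 (1 - R) := by
  rw [← Matrix.fromBlocks_one, sub_eq_add_neg, Matrix.fromBlocks_neg, Matrix.fromBlocks_add]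
  simp [sub_eq_add_neg]

theorem tf_of_sform (hε : ε = 1 ∨ ε = -1) {b a c : Matrix n n (MonoidAlgebra A G)}
    (h : SForm E β ε b a c) :
    TF E β ε (stdT n) (stdJ A G ε n) (Matrix.fromBlocks b a c (adj β b)) := by
  refine ⟨hj_stdJ, ?_, ?_, h.nil⟩
  · rintro (i | i) (j | j) g hg
    · exact (P_one E).2 (h.hb i j g hg)
    · exact (P_one E).2 (h.ha i j g hg)
    · exact (P_one E).2 (h.hc i j g hg)
    · exact (P_one E).2 (supp_adj h.hb i j g hg)
  · rw [adj_fromBlocks, adj_adj, h.ea, h.ec, stdJ, Matrix.fromBlocks_multiply,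
      Matrix.fromBlocks_multiply]
    simp only [Matrix.zero_mul, Matrix.mul_zero, Matrix.mul_one, Matrix.one_mul, add_zero,
      zero_add, Matrix.mul_smul, Matrix.smul_mul, e2_sq hε, smul_zero]

theorem smet_of_metab (hε : ε = 1 ∨ ε = -1) {b a c : Matrix n n (MonoidAlgebra A G)}
    (h : Metab E β (stdT n) (stdJ A G ε n) (Matrix.fromBlocks b a c (adj β b))) :
    SMet E β b a c := by
  obtain ⟨Q, hQ, hQQ, hQT, hQJ⟩ := h
  set P : Matrix n n (MonoidAlgebra A G) := Q.toBlocks₁₁ with hP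
  set R : Matrix n n (MonoidAlgebra A G) := Q.toBlocks₂₂ with hR
  have h12 : Q.toBlocks₁₂ = 0 := by
    refine Matrix.ext fun i j => ?_
    exact hQ.eq_zero (i := Sum.inl i) (j := Sum.inr j) (by simp [stdT])
  have h21 : Q.toBlocks₂₁ = 0 := by
    refine Matrix.ext fun i j => ?_
    exact hQ.eq_zero (i := Sum.inr i) (j := Sum.inl j) (by simp [stdT])
  have hQe : Q = Matrix.fromBlocks P 0 0 R := by
    rw [← Matrix.fromBlocks_toBlocks Q, h12, h21]
  rw [hQe, adj_fromBlocks, adj_zero, one_sub_blocks, stdJ, Matrix.fromBlocks_multiply,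
    Matrix.fromBlocks_multiply] at hQJ
  simp only [Matrix.zero_mul, Matrix.mul_zero, Matrix.mul_one, Matrix.one_mul, add_zero,
    zero_add, Matrix.mul_smul, Matrix.smul_mul] at hQJ
  rw [Matrix.fromBlocks_inj] at hQJ
  obtain ⟨-, h1, h2, -⟩ := hQJ
  have h3 : R = 1 - adj β P := e2_inj hε h2
  have h4 : (1 : Matrix n n (MonoidAlgebra A G)) - R = adj β P := by
    rw [h3, sub_sub_cancel]
  rw [hQe, Matrix.fromBlocks_multiply, Matrix.fromBlocks_inj] at hQQ
  rw [hQe, one_sub_blocks, Matrix.fromBlocks_multiply, Matrix.fromBlocks_multiply,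
    ← Matrix.fromBlocks_zero, Matrix.fromBlocks_inj] at hQT
  simp only [Matrix.zero_mul, Matrix.mul_zero, add_zero, zero_add] at hQQ hQT
  obtain ⟨t1, t2, t3, -⟩ := hQT
  refine ⟨P, ?_, hQQ.1, t1, ?_, ?_⟩
  · intro i j g hg
    exact hQ.onF (Sum.inl i) (Sum.inl j) g hg
  · rw [← h4]
    exact t2
  · rw [adj_sub, adj_one, ← h3]
    exact t3

end Pool.Agent.Lib.MP_98022b_UN
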