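import Mathlib
import Pool.Agent.Lib.MP_98022b_UN.ExplDefs
import Pool.Agent.Lib.MP_98022b_UN.OnL1
import Pool.Agent.Lib.MP_98022b_UN.OnL2

/-! Task E3: every typed form is, up to reindexing, an explicit form. -/

open MonoidAlgebra

namespace Pool.Agent.Lib.MP_98022b_UN

universe u v
variable {A : Type u} {G : Type v} [CommRing A] [Group G] {E : EdgeSys G} {β : BarStr A G}
  {ε : ℤ}

theorem E3Aux.exists_equiv {K : Type} {t : K → Bool} {sw : K → K} (h1 : ∀ k, sw (sw k) = k)
    (h2 : ∀ k, t (sw k) = !t k) :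
    ∃ e : K ≃ {k : K // t k = false} ⊕ {k : K // t k = false},
      (∀ a : {k : K // t k = false}, e.symm (Sum.inl a) = a) ∧
      (∀ a : {k : K // t k = false}, e.symm (Sum.inr a) = sw a) := by
  classical
  have h3 : ∀ k, ¬ t k = false → t (sw k) = false := by
    intro k hk
    rw [h2]
    cases hh : t k
    · exact absurd hh hk
    · rfl
  refine ⟨⟨fun k => if h : t k = false then Sum.inl ⟨k, h⟩ else Sum.inr ⟨sw k, h3 k h⟩,
    fun x => Sum.elim (fun a => a.1) (fun a => sw a.1) x, ?_, ?_⟩, fun a => rfl, fun a => rfl⟩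
  · intro k
    by_cases hk : t k = false
    · simp [hk]
    · simp only [hk]
      exact h1 k
  · rintro (⟨a, ha⟩ | ⟨a, ha⟩)
    · simp [ha]
    · have : ¬ t (sw a) = false := by
        rw [h2, ha]; decide
      refine (dif_neg this).trans ?_
      exact congrArg Sum.inr (Subtype.ext (h1 a))

theorem E3Aux.reindex_pow {K L : Type} [Fintype K] [DecidableEq K] [Fintype L] [DecidableEq L]
    (e : K ≃ L) (T : Matrix K K (MonoidAlgebra A G)) (N : ℕ) :
    (Matrix.reindex e e T) ^ N = Matrix.reindex e e (T ^ N) := by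
  induction N with
  | zero => rw [pow_zero, pow_zero]; simp
  | succ N ih =>
    rw [pow_succ, pow_succ, ih]
    simp only [Matrix.reindex_apply]
    rw [Matrix.submatrix_mul_equiv]

theorem sform_of_tf (hε : ε = 1 ∨ ε = -1) {K : Type} [Fintype K] [DecidableEq K] {t : K → Bool}
    {J T : Matrix K K (MonoidAlgebra A G)} (h : TF E β ε t J T) :
    ∃ (m : Type) (_ : Fintype m) (_ : DecidableEq m) (e : K ≃ m ⊕ m)
      (b a c : Matrix m m (MonoidAlgebra A G)), SForm E β ε b a c ∧
      (∀ k, t (e.symm k) = stdT m k) ∧ Matrix.reindex e e J = stdJ A G ε m ∧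
      Matrix.reindex e e T = Matrix.fromBlocks b a c (adj β b) := by
  obtain ⟨sw, h1, h2, h3⟩ := h.hJ
  obtain ⟨e, he1, he2⟩ := E3Aux.exists_equiv h1 h2
  have hεε : ε * ε = 1 := by rcases hε with rfl | rfl <;> norm_num
  have ht : ∀ k, t (e.symm k) = stdT _ k := by
    rintro (a | a)
    · rw [he1]; exact a.2
    · rw [he2, h2, a.2]; rfl
  have hJ : Matrix.reindex e e J = stdJ A G ε {k : K // t k = false} := by
    ext1 x y
    rw [Matrix.reindex_apply, Matrix.submatrix_apply, h3]
    rcases x with a | a <;> rcases y with b | b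
    · rw [he1, he1, if_neg]
      · rfl
      · intro hc
        have := congrArg t hc
        rw [h2, a.2, b.2] at this
        exact absurd this (by decide)
    · rw [he1, he2, a.2]
      show _ = (1 : Matrix _ _ (MonoidAlgebra A G)) a b
      rw [Matrix.one_apply]
      by_cases hab : a = b
      · rw [if_pos hab, if_pos (by rw [hab])]
        rfl
      · rw [if_neg hab, if_neg]
        intro hc
        apply hab
        have := congrArg sw hc
        rw [h1, h1] at this
        exact Subtype.ext this.symm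
    · rw [he1, he2, h1, h2, a.2]
      show _ = ε • (1 : Matrix _ _ (MonoidAlgebra A G)) a b
      rw [Matrix.one_apply]
      by_cases hab : a = b
      · rw [if_pos hab, if_pos (by rw [hab]), zsmul_one]
        rfl
      · rw [if_neg hab, if_neg, smul_zero]
        intro hc
        exact hab (Subtype.ext hc.symm)
    · rw [he2, he2, h1, if_neg]
      · rfl
      · intro hc
        have := congrArg t hc
        rw [h2, a.2, b.2] at this
        exact absurd this (by decide)
  set T' := Matrix.reindex e e T with hT'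
  have hform : T' * stdJ A G ε _ = stdJ A G ε _ * adj β T' := by
    rw [← hJ, hT']
    have : adj β (Matrix.reindex e e T) = Matrix.reindex e e (adj β T) := rfl
    rw [this]
    simp only [Matrix.reindex_apply]
    rw [Matrix.submatrix_mul_equiv, Matrix.submatrix_mul_equiv, h.form]
  have hblk : T' = Matrix.fromBlocks T'.toBlocks₁₁ T'.toBlocks₁₂ T'.toBlocks₂₁ T'.toBlocks₂₂ :=
    (Matrix.fromBlocks_toBlocks T').symm
  rw [hblk, adj_fromBlocks, stdJ, Matrix.fromBlocks_multiply, Matrix.fromBlocks_multiply,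
    Matrix.fromBlocks_inj] at hform
  simp only [Matrix.mul_zero, Matrix.mul_one, Matrix.one_mul, Matrix.zero_mul, zero_add,
    add_zero, Matrix.mul_smul, Matrix.smul_mul] at hform
  obtain ⟨f1, f2, f3, f4⟩ := hform
  have hd : T'.toBlocks₂₂ = adj β T'.toBlocks₁₁ := by
    rw [f2, adj_adj]
  have hon : ∀ x y g, (T' x y).coeff g ≠ 0 → g ∈ E.S (stdT _ x) (stdT _ y) := by
    intro x y g hg
    have := h.on (e.symm x) (e.symm y) g hg
    rw [ht, ht, P_one] at this
    exact this
  refine ⟨{k : K // t k = false}, inferInstance, inferInstance, e, T'.toBlocks₁₁, T'.toBlocks₁₂,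
    T'.toBlocks₂₁, ⟨?_, ?_, ?_, ?_, ?_, ?_⟩, ht, hJ, ?_⟩
  · intro i j g hg
    exact hon (Sum.inl i) (Sum.inl j) g hg
  · intro i j g hg
    exact hon (Sum.inl i) (Sum.inr j) g hg
  · intro i j g hg
    exact hon (Sum.inr i) (Sum.inl j) g hg
  · exact f1.symm
  · have f5 : ε • T'.toBlocks₂₁ = ε • (ε • adj β T'.toBlocks₂₁) := congrArg (fun M => ε • M) f4
    rw [smul_smul, hεε, one_smul] at f5
    exact f5.symm
  · obtain ⟨N, hN⟩ := h.nil
    refine ⟨N, ?_⟩
    rw [← hd, ← hblk, hT', E3Aux.reindex_pow, hN]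
    rfl
  · rw [← hd, ← hblk]

end Pool.Agent.Lib.MP_98022b_UN
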