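import Mathlib
import Pool.Agent.Lib.MP_98022b_UN.Defs2
import Pool.Agent.Lib.MP_98022b_UN.OnL1
import Pool.Agent.Lib.MP_98022b_UN.OnL2


open MonoidAlgebra

namespace Pool.Agent.Lib.MP_98022b_UN

universe u v
variable {A : Type u} {G : Type v} [CommRing A] [IsDomain A] [Group G]
  {E : EdgeSys G} {β : BarStr A G} {ε : ℤ}

namespace W1

omit [IsDomain A] in
theorem sgn_sq {K : Type} [Fintype K] [DecidableEq K] (t : K → Bool) :
    sgn A G t * sgn A G t = 1 := by
  have h1 := eT_mul_self (A := A) (G := G) t false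
  have h2 := eT_mul_self (A := A) (G := G) t true
  have h3 := eT_mul_not (A := A) (G := G) t false
  have h4 := eT_mul_not (A := A) (G := G) t true
  have h5 := eT_add (A := A) (G := G) t false
  simp only [Bool.not_false, Bool.not_true] at h3 h4 h5
  unfold sgn
  rw [sub_mul, mul_sub, mul_sub, h1, h2, h3, h4, ← h5]
  abel

omit [IsDomain A] in
theorem sgn_J {K : Type} [Fintype K] [DecidableEq K] {t : K → Bool}
    {J : Matrix K K (MonoidAlgebra A G)} (hJ : HJ ε t J) :
    sgn A G t * J = -(J * sgn A G t) := by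
  have h1 := hJ.eT_mul false
  have h2 := hJ.eT_mul true
  simp only [Bool.not_false, Bool.not_true] at h1 h2
  unfold sgn
  rw [sub_mul, mul_sub, h1, h2]
  abel

omit [IsDomain A] in
theorem adj_sgn (β : BarStr A G) {K : Type} [DecidableEq K] (t : K → Bool) :
    adj β (sgn A G t) = sgn A G t := by
  unfold sgn
  rw [adj_sub, adj_eT, adj_eT]

omit [IsDomain A] in
theorem sgn_on {K : Type} [DecidableEq K] (t : K → Bool) : OnT E t t 0 (sgn A G t) :=
  OnT.sub (OnT.eT false) (OnT.eT true)

omit [IsDomain A] in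
theorem negT_pow {K : Type} [Fintype K] [DecidableEq K] (t : K → Bool)
    (T : Matrix K K (MonoidAlgebra A G)) (n : ℕ) : negT t T ^ n = negT t (T ^ n) := by
  induction n with
  | zero =>
    unfold negT
    rw [pow_zero, pow_zero, mul_one, sgn_sq]
  | succ n ih =>
    rw [pow_succ, ih, pow_succ]
    unfold negT
    calc sgn A G t * T ^ n * sgn A G t * (sgn A G t * T * sgn A G t) =
        sgn A G t * T ^ n * (sgn A G t * sgn A G t) * T * sgn A G t := by
          simp only [mul_assoc]
      _ = sgn A G t * (T ^ n * T) * sgn A G t := by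
          rw [sgn_sq, mul_one, ← mul_assoc (sgn A G t) (T ^ n) T]

end W1

open W1

/-- W1 -/
theorem tf_neg {K : Type} [Fintype K] [DecidableEq K] {t : K → Bool}
    {J T : Matrix K K (MonoidAlgebra A G)} (hT : TF E β ε t J T) :
    TF E β ε t J (negT t T) := by
  refine ⟨hT.hJ, ?_, ?_, ?_⟩
  · have h1 := OnT.mul (OnT.mul0 (sgn_on (A := A) (E := E) t) hT.on) (sgn_on (A := A) (E := E) t)
    exact h1
  · have hJ := sgn_J hT.hJ
    unfold negT
    rw [adj_mul, adj_mul, adj_sgn]
    calc sgn A G t * T * sgn A G t * J = sgn A G t * T * (sgn A G t * J) := by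
          rw [mul_assoc (sgn A G t * T)]
      _ = -(sgn A G t * (T * J) * sgn A G t) := by
          rw [hJ, mul_neg]
          simp only [mul_assoc]
      _ = -(sgn A G t * J * adj β T * sgn A G t) := by
          rw [hT.form]
          simp only [mul_assoc]
      _ = J * (sgn A G t * (adj β T * sgn A G t)) := by
          rw [hJ, neg_mul, neg_mul, neg_neg]
          simp only [mul_assoc]
  · obtain ⟨N, hN⟩ := hT.nil
    refine ⟨N, ?_⟩
    rw [negT_pow, hN]
    unfold negT
    rw [mul_zero, zero_mul]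
theorem tf_sum {K L : Type} [Fintype K] [DecidableEq K] [Fintype L] [DecidableEq L]
    {t : K → Bool} {J T : Matrix K K (MonoidAlgebra A G)} {t' : L → Bool}
    {J' T' : Matrix L L (MonoidAlgebra A G)}
    (hT : TF E β ε t J T) (hT' : TF E β ε t' J' T') :
    TF E β ε (Sum.elim t t') (Matrix.fromBlocks J 0 0 J') (Matrix.fromBlocks T 0 0 T') := by
  refine ⟨HJ.sum hT.hJ hT'.hJ, OnT.blocks hT.on OnT.zero OnT.zero hT'.on, ?_, ?_⟩
  · rw [adj_fromBlocks, Matrix.fromBlocks_multiply, Matrix.fromBlocks_multiply, adj_zero,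
      adj_zero, hT.form, hT'.form]
    simp only [Matrix.mul_zero, Matrix.zero_mul, add_zero, zero_add]
  · obtain ⟨N, hN⟩ := hT.nil
    obtain ⟨N', hN'⟩ := hT'.nil
    refine ⟨N + N', ?_⟩
    rw [Matrix.fromBlocks_diagonal_pow, pow_add, hN, pow_add, hN', zero_mul, mul_zero,
      Matrix.fromBlocks_zero]
theorem metab_sum {K L : Type} [Fintype K] [DecidableEq K] [Fintype L] [DecidableEq L]
    {t : K → Bool} {J T : Matrix K K (MonoidAlgebra A G)} {t' : L → Bool}
    {J' T' : Matrix L L (MonoidAlgebra A G)}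
    (hT : Metab E β t J T) (hT' : Metab E β t' J' T') :
    Metab E β (Sum.elim t t') (Matrix.fromBlocks J 0 0 J') (Matrix.fromBlocks T 0 0 T') := by
  obtain ⟨Q, q1, q2, q3, q4⟩ := hT
  obtain ⟨Q', q1', q2', q3', q4'⟩ := hT'
  have hsub : ∀ (X : Matrix K K (MonoidAlgebra A G)) (Y : Matrix L L (MonoidAlgebra A G)),
      1 - Matrix.fromBlocks X 0 0 Y = Matrix.fromBlocks (1 - X) 0 0 (1 - Y) := by
    intro X Y
    rw [← Matrix.fromBlocks_one, sub_eq_add_neg, Matrix.fromBlocks_neg, Matrix.fromBlocks_add,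
      neg_zero, neg_zero, add_zero, add_zero, ← sub_eq_add_neg, ← sub_eq_add_neg]
  refine ⟨Matrix.fromBlocks Q 0 0 Q', OnT.blocks q1 OnT.zero OnT.zero q1', ?_, ?_, ?_⟩
  · rw [Matrix.fromBlocks_multiply]
    simp only [Matrix.mul_zero, Matrix.zero_mul, add_zero, zero_add, q2, q2']
  · rw [Matrix.fromBlocks_multiply, hsub, Matrix.fromBlocks_multiply]
    simp only [Matrix.mul_zero, Matrix.zero_mul, add_zero, zero_add, q3, q3']
    rw [Matrix.fromBlocks_zero]
  · rw [adj_fromBlocks, adj_zero, adj_zero, hsub, Matrix.fromBlocks_multiply,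
      Matrix.fromBlocks_multiply]
    simp only [Matrix.mul_zero, Matrix.zero_mul, add_zero, zero_add, q4, q4']
theorem metab_reindex {K L : Type} [Fintype K] [DecidableEq K] [Fintype L] [DecidableEq L]
    (e : K ≃ L) {t : K → Bool} {J T : Matrix K K (MonoidAlgebra A G)}
    (hT : Metab E β t J T) :
    Metab E β (fun l => t (e.symm l)) (Matrix.reindex e e J) (Matrix.reindex e e T) := by
  obtain ⟨Q, q1, q2, q3, q4⟩ := hT
  have hmul : ∀ X Y : Matrix K K (MonoidAlgebra A G),
      Matrix.reindex e e X * Matrix.reindex e e Y = Matrix.reindex e e (X * Y) := by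
    intro X Y
    simp only [Matrix.reindex_apply]
    exact Matrix.submatrix_mul_equiv _ _ _ _ _
  have hone : ∀ X : Matrix K K (MonoidAlgebra A G),
      1 - Matrix.reindex e e X = Matrix.reindex e e (1 - X) := by
    intro X
    simp only [Matrix.reindex_apply]
    rw [Matrix.submatrix_sub, Pi.sub_apply, Pi.sub_apply, Matrix.submatrix_one_equiv]
  have hadj : adj β (Matrix.reindex e e Q) = Matrix.reindex e e (adj β Q) := rfl
  refine ⟨Matrix.reindex e e Q, fun i j g h => q1 _ _ g h, ?_, ?_, ?_⟩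
  · rw [hmul, q2]
  · rw [hmul, hone, hmul, q3]
    rfl
  · rw [hadj, hone, hmul, hmul, q4]

end Pool.Agent.Lib.MP_98022b_UN
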