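import Mathlib
import Pool.Agent.Lib.MP_98022b_UN.E2
import Pool.Agent.Lib.MP_98022b_UN.E3
import Pool.Agent.Lib.MP_98022b_UN.W1

/-! Task E5: from the typed to the explicit statement. -/

open MonoidAlgebra

namespace Pool.Agent.Lib.MP_98022b_UN

universe u v

section
variable {A : Type u} {G : Type v} [CommRing A] [Group G]

/-- the four summands in the other order -/
theorem reindex_four {n m : Type} (b a c d : Matrix n n (MonoidAlgebra A G))
    (b' a' c' d' : Matrix m m (MonoidAlgebra A G)) :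
    Matrix.reindex (Equiv.sumSumSumComm n n m m) (Equiv.sumSumSumComm n n m m)
      (Matrix.fromBlocks (Matrix.fromBlocks b a c d) 0 0 (Matrix.fromBlocks b' a' c' d')) =
    Matrix.fromBlocks (Matrix.fromBlocks b 0 0 b') (Matrix.fromBlocks a 0 0 a')
      (Matrix.fromBlocks c 0 0 c') (Matrix.fromBlocks d 0 0 d') := by
  refine Matrix.ext fun i j => ?_
  rcases i with (i | i) | (i | i) <;> rcases j with (j | j) | (j | j) <;> rfl

theorem blocks_pow {K L : Type} [Fintype K] [DecidableEq K] [Fintype L] [DecidableEq L]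
    (T : Matrix K K (MonoidAlgebra A G)) (T' : Matrix L L (MonoidAlgebra A G)) (N : ℕ) :
    (Matrix.fromBlocks T 0 0 T') ^ N = Matrix.fromBlocks (T ^ N) 0 0 (T' ^ N) := by
  induction N with
  | zero => rw [pow_zero, pow_zero, pow_zero, Matrix.fromBlocks_one]
  | succ N ih =>
    rw [pow_succ, ih, Matrix.fromBlocks_multiply]
    simp [pow_succ]

theorem reindex_pow {K L : Type} [Fintype K] [DecidableEq K] [Fintype L] [DecidableEq L]
    (e : K ≃ L) (T : Matrix K K (MonoidAlgebra A G)) (N : ℕ) :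
    (Matrix.reindex e e T) ^ N = Matrix.reindex e e (T ^ N) := by
  induction N with
  | zero =>
    rw [pow_zero, pow_zero]
    simp
  | succ N ih =>
    rw [pow_succ, ih, pow_succ]
    simp only [Matrix.reindex_apply]
    rw [Matrix.submatrix_mul_equiv]

theorem stdJ_four (ε : ℤ) {n m : Type} [DecidableEq n] [DecidableEq m] :
    Matrix.reindex (Equiv.sumSumSumComm n n m m) (Equiv.sumSumSumComm n n m m)
      (Matrix.fromBlocks (stdJ A G ε n) 0 0 (stdJ A G ε m)) = stdJ A G ε (n ⊕ m) := by
  rw [stdJ, stdJ, reindex_four, stdJ, Matrix.fromBlocks_zero, ← Matrix.fromBlocks_one,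
    Matrix.fromBlocks_smul]
  simp

end

variable {A : Type u} {G : Type v} [CommRing A] [IsDomain A] [Group G] {E : EdgeSys G}
  {β : BarStr A G} {ε : ℤ} {n : Type} [Fintype n] [DecidableEq n]

theorem sform_sum {m : Type} [Fintype m] [DecidableEq m] {b a c : Matrix n n (MonoidAlgebra A G)}
    {b' a' c' : Matrix m m (MonoidAlgebra A G)} (h : SForm E β ε b a c)
    (h' : SForm E β ε b' a' c') :
    SForm E β ε (Matrix.fromBlocks b 0 0 b') (Matrix.fromBlocks a 0 0 a')
      (Matrix.fromBlocks c 0 0 c') := by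
  have hs : ∀ {U : Set G} {x : Matrix n n (MonoidAlgebra A G)}
      {y : Matrix m m (MonoidAlgebra A G)}, Supp U x → Supp U y →
      Supp U (Matrix.fromBlocks x 0 0 y) := by
    intro U x y hx hy
    rintro (i | i) (j | j) g hg
    · exact hx i j g hg
    · exact absurd rfl hg
    · exact absurd rfl hg
    · exact hy i j g hg
  refine ⟨hs h.hb h'.hb, hs h.ha h'.ha, hs h.hc h'.hc, ?_, ?_, ?_⟩
  · rw [adj_fromBlocks, h.ea, h'.ea, adj_zero, adj_zero, Matrix.fromBlocks_smul, smul_zero,
      smul_zero]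
  · rw [adj_fromBlocks, h.ec, h'.ec, adj_zero, adj_zero, Matrix.fromBlocks_smul, smul_zero,
      smul_zero]
  · obtain ⟨N, hN⟩ := h.nil
    obtain ⟨N', hN'⟩ := h'.nil
    refine ⟨N + N', ?_⟩
    rw [adj_fromBlocks, adj_zero, adj_zero, ← reindex_four, reindex_pow, blocks_pow, pow_add,
      pow_add _ N N', hN, hN', zero_mul, mul_zero, Matrix.fromBlocks_zero]
    simp

theorem expl_of_smetab (hε : ε = 1 ∨ ε = -1) {b a c : Matrix n n (MonoidAlgebra A G)}
    (h : SMetab E β ε (stdT n) (stdJ A G ε n) (Matrix.fromBlocks b a c (adj β b))) :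
    ∃ (m : Type) (_ : Fintype m) (_ : DecidableEq m) (b' a' c' : Matrix m m (MonoidAlgebra A G)),
      SForm E β ε b' a' c' ∧ SMet E β b' a' c' ∧
      SMet E β (Matrix.fromBlocks b 0 0 b') (Matrix.fromBlocks a 0 0 a')
        (Matrix.fromBlocks c 0 0 c') := by
  obtain ⟨K', _, _, t', J', T', hT, hM, hS⟩ := h
  obtain ⟨m, hm1, hm2, e, b', a', c', hF, ht, hJe, hTe⟩ := sform_of_tf hε hT
  refine ⟨m, hm1, hm2, b', a', c', hF, ?_, ?_⟩
  · have h1 := metab_reindex e hM
    rw [hJe, hTe] at h1
    have h2 : (fun l => t' (e.symm l)) = stdT m := funext ht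
    rw [h2] at h1
    exact smet_of_metab hε h1
  · have h1 := metab_reindex ((Equiv.sumCongr (Equiv.refl (n ⊕ n)) e).trans
      (Equiv.sumSumSumComm n n m m)) hS
    have h2 : ∀ (X : Matrix (n ⊕ n) (n ⊕ n) (MonoidAlgebra A G))
        (Y : Matrix K' K' (MonoidAlgebra A G)),
        Matrix.reindex ((Equiv.sumCongr (Equiv.refl (n ⊕ n)) e).trans
          (Equiv.sumSumSumComm n n m m)) ((Equiv.sumCongr (Equiv.refl (n ⊕ n)) e).trans
          (Equiv.sumSumSumComm n n m m)) (Matrix.fromBlocks X 0 0 Y) =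
        Matrix.reindex (Equiv.sumSumSumComm n n m m) (Equiv.sumSumSumComm n n m m)
          (Matrix.fromBlocks X 0 0 (Matrix.reindex e e Y)) := by
      intro X Y
      refine Matrix.ext fun i j => ?_
      rcases i with (i | i) | (i | i) <;> rcases j with (j | j) | (j | j) <;> rfl
    have h3 : (fun l => Sum.elim (stdT n) t' (((Equiv.sumCongr (Equiv.refl (n ⊕ n)) e).trans
          (Equiv.sumSumSumComm n n m m)).symm l)) = stdT (n ⊕ m) := by
      funext l
      rcases l with (l | l) | (l | l)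
      · rfl
      · exact ht (Sum.inl l)
      · rfl
      · exact ht (Sum.inr l)
    rw [h2, h2, h3, hJe, hTe, stdJ_four, reindex_four] at h1
    refine smet_of_metab hε ?_
    rw [adj_fromBlocks, adj_zero, adj_zero]
    exact h1

end Pool.Agent.Lib.MP_98022b_UN
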