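import Mathlib


namespace Pool.Agent.Lib.MP_98022b_UN

universe u v w
variable {α : Type w} [DecidableEq α]

/-- a letter as an element of the free group -/
def ltr (y : α × Bool) : FreeGroup α := FreeGroup.mk [y]

namespace R1

theorem toWord_single (y : α × Bool) : (FreeGroup.mk [y]).toWord = [y] := by
  rw [FreeGroup.toWord_mk, FreeGroup.reduce_singleton]

theorem norm_eq (g : FreeGroup α) : g.norm = g.toWord.length := rfl

theorem norm_single (y : α × Bool) : (FreeGroup.mk [y]).norm = 1 := by
  rw [norm_eq, toWord_single]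
  rfl

omit [DecidableEq α] in
theorem ltr_inv (y : α × Bool) : (ltr y)⁻¹ = FreeGroup.mk [(y.1, !y.2)] := by
  unfold ltr
  rw [FreeGroup.inv_mk]
  rfl

/-- No cancellation. -/
theorem toWord_mul_of {a b : FreeGroup α}
    (h : ∀ x ∈ a.toWord.getLast?, ∀ y ∈ b.toWord.head?, x.1 = y.1 → x.2 = y.2) :
    (a * b).toWord = a.toWord ++ b.toWord := by
  rw [FreeGroup.toWord_mul]
  exact FreeGroup.IsReduced.reduce_eq
    (List.IsChain.append FreeGroup.isReduced_toWord FreeGroup.isReduced_toWord h)

theorem norm_mul_of {a b : FreeGroup α}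
    (h : ∀ x ∈ a.toWord.getLast?, ∀ y ∈ b.toWord.head?, x.1 = y.1 → x.2 = y.2) :
    (a * b).norm = a.norm + b.norm := by
  rw [norm_eq, toWord_mul_of h, List.length_append]
  rfl

/-- The last letter. -/
theorem last_spec {g : FreeGroup α} {l : List (α × Bool)} {y : α × Bool}
    (h : g.toWord = l ++ [y]) : (g * (ltr y)⁻¹).norm + 1 = g.norm ∧
      ∀ y' : α × Bool, y' ≠ y → (g * (ltr y')⁻¹).norm = g.norm + 1 := by
  constructor
  · have h1 : g * (ltr y)⁻¹ = FreeGroup.mk l := by
      rw [← FreeGroup.mk_toWord (x := g), h, ← FreeGroup.mul_mk]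
      unfold ltr
      rw [mul_inv_cancel_right]
    have h2 : (FreeGroup.mk l).toWord = l := by
      rw [FreeGroup.toWord_mk]
      refine FreeGroup.IsReduced.reduce_eq ?_
      have h3 := FreeGroup.isReduced_toWord (x := g)
      rw [h] at h3
      exact List.IsChain.left_of_append h3
    rw [h1, norm_eq, h2, norm_eq, h, List.length_append]
    rfl
  · intro y' hy'
    rw [ltr_inv, norm_mul_of, norm_single]
    rw [h, toWord_single]
    intro x hx z hz h1
    rw [List.getLast?_append_of_ne_nil _ (by simp)] at hx
    simp only [List.getLast?_singleton, Option.mem_def, Option.some.injEq, List.head?_cons] at hx hz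
    subst hx
    subst hz
    simp only at h1 ⊢
    by_contra hne
    apply hy'
    refine Prod.ext h1.symm ?_
    revert hne
    cases y.2 <;> cases y'.2 <;> simp

end R1

open R1

/-- R1: the last letter -/
theorem exists_last {g : FreeGroup α} (hg : g ≠ 1) :
    ∃ y : α × Bool, (g * (ltr y)⁻¹).norm + 1 = g.norm ∧
      ∀ y' : α × Bool, y' ≠ y → (g * (ltr y')⁻¹).norm = g.norm + 1 := by
  rcases List.eq_nil_or_concat' g.toWord with h | ⟨l, y, h⟩
  · exact absurd (FreeGroup.toWord_eq_nil_iff.1 h) hg
  · exact ⟨y, last_spec h⟩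

/-- R1: if `p` is near to `g` and to another `h` not farther from `1` than `g`, then `p` is near
to the parent of `g` -/
theorem near_parent {g h p : FreeGroup α} {y : α × Bool} {N : ℕ}
    (hy : (g * (ltr y)⁻¹).norm < g.norm) (hne : h ≠ g) (hle : h.norm ≤ g.norm)
    (h1 : (g⁻¹ * p).norm ≤ N) (h2 : (h⁻¹ * p).norm ≤ N) :
    ((g * (ltr y)⁻¹)⁻¹ * p).norm ≤ N := by
  set q := g⁻¹ * p with hq
  set k := g⁻¹ * h with hk
  have hk1 : k ≠ 1 := by
    intro h0
    rw [hk, inv_mul_eq_one] at h0
    exact hne h0.symm
  have egk : g * k = h := by rw [hk, mul_inv_cancel_left]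
  have ekq : k⁻¹ * q = h⁻¹ * p := by
    rw [hk, hq, mul_inv_rev, inv_inv, mul_assoc, mul_inv_cancel_left]
  have eyq : (g * (ltr y)⁻¹)⁻¹ * p = ltr y * q := by
    rw [hq, mul_inv_rev, inv_inv, mul_assoc]
  -- the last letter of `g` is `y`
  have hgy : g.toWord.getLast? = some y := by
    rcases List.eq_nil_or_concat' g.toWord with h0 | ⟨l, z, h0⟩
    · rw [norm_eq g, h0] at hy
      exact absurd hy (Nat.not_lt_zero _)
    · rcases eq_or_ne y z with rfl | hz
      · rw [h0, List.getLast?_append_of_ne_nil _ (by simp)]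
        rfl
      · have := (last_spec h0).2 y hz
        omega
  -- the first letter of `k` is inverse to `y`
  have hk2 : ∃ l, k.toWord = (y.1, !y.2) :: l := by
    by_contra hcon
    have h3 : (g * k).norm = g.norm + k.norm := by
      refine norm_mul_of ?_
      intro x hx z hz hxz
      rw [hgy, Option.mem_def, Option.some.injEq] at hx
      subst hx
      cases hkw : k.toWord with
      | nil => rw [hkw] at hz; simp at hz
      | cons a l =>
        rw [hkw] at hz
        simp only [List.head?_cons, Option.mem_def, Option.some.injEq] at hz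
        subst hz
        by_contra hne2
        apply hcon
        refine ⟨l, ?_⟩
        rw [hkw]
        congr 1
        refine Prod.ext hxz.symm ?_
        simp only
        revert hne2
        cases y.2 <;> cases a.2 <;> simp
    rw [egk] at h3
    have h4 : k.norm ≠ 0 := fun h0 => hk1 (FreeGroup.norm_eq_zero.1 h0)
    omega
  obtain ⟨lk, hlk⟩ := hk2
  have hkinv : k⁻¹.toWord.getLast? = some y := by
    rw [FreeGroup.toWord_inv, hlk, FreeGroup.invRev_cons,
      List.getLast?_append_of_ne_nil _ (by simp [FreeGroup.invRev])]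
    simp [FreeGroup.invRev]
  rw [eyq]
  by_cases hqs : ∃ l, q.toWord = (y.1, !y.2) :: l
  · obtain ⟨l, hl⟩ := hqs
    have h3 : ltr y * q = FreeGroup.mk l := by
      have h4 : q = (ltr y)⁻¹ * FreeGroup.mk l := by
        rw [ltr_inv, FreeGroup.mul_mk, ← FreeGroup.mk_toWord (x := q), hl]
        rfl
      rw [h4, mul_inv_cancel_left]
    rw [h3]
    refine FreeGroup.norm_mk_le.trans ?_
    rw [norm_eq, hl, List.length_cons] at h1
    omega
  · have h3 : (k⁻¹ * q).norm = k⁻¹.norm + q.norm := by
      refine norm_mul_of ?_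
      intro x hx z hz hxz
      rw [hkinv, Option.mem_def, Option.some.injEq] at hx
      subst hx
      cases hqw : q.toWord with
      | nil => rw [hqw] at hz; simp at hz
      | cons a l =>
        rw [hqw] at hz
        simp only [List.head?_cons, Option.mem_def, Option.some.injEq] at hz
        subst hz
        by_contra hne2
        apply hqs
        refine ⟨l, ?_⟩
        rw [hqw]
        congr 1
        refine Prod.ext hxz.symm ?_
        simp only
        revert hne2
        cases y.2 <;> cases a.2 <;> simp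
    rw [ekq, FreeGroup.norm_inv_eq] at h3
    have h4 : k.norm ≠ 0 := fun h0 => hk1 (FreeGroup.norm_eq_zero.1 h0)
    have h5 : (ltr y * q).norm ≤ (ltr y).norm + q.norm := FreeGroup.norm_mul_le _ _
    have h6 : (ltr y).norm = 1 := norm_single y
    omega

end Pool.Agent.Lib.MP_98022b_UN
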