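import Mathlib
import Pool.Agent.Lib.MP_98022b_UN.R1


namespace Pool.Agent.Lib.MP_98022b_UN

universe u v w
variable {α : Type w} [DecidableEq α]

variable {N : Type v} [AddCommGroup N] (ρ : FreeGroup α →* AddMonoid.End N)

/-- the boundary map of the tree complex: the edge `(x,h)` with label `m` is mapped to
`h ⊗ m - h x ⊗ x⁻¹ m` -/
noncomputable def bd (z : (α × FreeGroup α) →₀ N) : FreeGroup α →₀ N :=
  z.sum fun p m => Finsupp.single p.2 m -
    Finsupp.single (p.2 * FreeGroup.of p.1) (ρ (FreeGroup.of p.1)⁻¹ m)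

namespace R2

theorem rho_mul (g h : FreeGroup α) (m : N) : ρ (g * h) m = ρ g (ρ h m) := by
  rw [map_mul]
  rfl

theorem rho_inv (g : FreeGroup α) (m : N) : ρ g (ρ g⁻¹ m) = m := by
  rw [← rho_mul, mul_inv_cancel, map_one]
  rfl

theorem rho_inv' (g : FreeGroup α) (m : N) : ρ g⁻¹ (ρ g m) = m := by
  rw [← rho_mul, inv_mul_cancel, map_one]
  rfl

theorem rho_inj (g : FreeGroup α) {m : N} (h : ρ g m = 0) : m = 0 := by
  rw [← rho_inv' ρ g m, h, map_zero]

/-- The boundary of one edge. -/
noncomputable def bd1 (p : α × FreeGroup α) : N →+ (FreeGroup α →₀ N) :=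
  Finsupp.singleAddHom p.2 - (Finsupp.singleAddHom (p.2 * FreeGroup.of p.1)).comp
    (ρ (FreeGroup.of p.1)⁻¹ : N →+ N)

theorem bd1_apply (p : α × FreeGroup α) (m : N) : bd1 ρ p m = Finsupp.single p.2 m -
    Finsupp.single (p.2 * FreeGroup.of p.1) (ρ (FreeGroup.of p.1)⁻¹ m) := rfl

theorem bd_eq (z : (α × FreeGroup α) →₀ N) : bd ρ z = Finsupp.liftAddHom (bd1 ρ) z := rfl

theorem bd_add (z z' : (α × FreeGroup α) →₀ N) : bd ρ (z + z') = bd ρ z + bd ρ z' := by
  rw [bd_eq, bd_eq, bd_eq, map_add]

theorem bd_neg (z : (α × FreeGroup α) →₀ N) : bd ρ (-z) = -bd ρ z := by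
  rw [bd_eq, bd_eq, map_neg]

theorem bd_single (p : α × FreeGroup α) (m : N) : bd ρ (Finsupp.single p m) =
    Finsupp.single p.2 m - Finsupp.single (p.2 * FreeGroup.of p.1) (ρ (FreeGroup.of p.1)⁻¹ m) := by
  rw [bd_eq, Finsupp.liftAddHom_apply_single, bd1_apply]

/-- The augmentation. -/
noncomputable def aug : (FreeGroup α →₀ N) →+ N :=
  Finsupp.liftAddHom fun h => (ρ h : N →+ N)

theorem aug_eq (w : FreeGroup α →₀ N) : (w.sum fun h m => ρ h m) = aug ρ w := rfl

theorem aug_single (g : FreeGroup α) (m : N) : aug ρ (Finsupp.single g m) = ρ g m := by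
  unfold aug
  rw [Finsupp.liftAddHom_apply_single]
  rfl

theorem aug_bd (z : (α × FreeGroup α) →₀ N) : aug ρ (bd ρ z) = 0 := by
  induction z using Finsupp.induction_linear with
  | zero => rw [bd_eq, map_zero, map_zero]
  | add z z' h h' => rw [bd_add, map_add, h, h', add_zero]
  | single p m =>
    rw [bd_single, map_sub, aug_single, aug_single, rho_mul, rho_inv, sub_self]

/-- The edge `p` joins `g` and `g * (ltr y)⁻¹`. -/
def Inc (p : α × FreeGroup α) (g : FreeGroup α) (y : α × Bool) : Prop :=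
  (p.2 = g ∧ y = (p.1, false)) ∨ (p.2 * FreeGroup.of p.1 = g ∧ y = (p.1, true))

omit [DecidableEq α] in
theorem ltr_true (x : α) : ltr (x, true) = FreeGroup.of x := rfl

omit [DecidableEq α] in
theorem ltr_false (x : α) : (ltr (x, false))⁻¹ = FreeGroup.of x := by
  rw [R1.ltr_inv]
  rfl

omit [DecidableEq α] in
theorem Inc.unique {p q : α × FreeGroup α} {g : FreeGroup α} {y : α × Bool} (h : Inc p g y)
    (h' : Inc q g y) : p = q := by
  rcases h with ⟨h1, h2⟩ | ⟨h1, h2⟩ <;> rcases h' with ⟨k1, k2⟩ | ⟨k1, k2⟩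
  · rw [h2, Prod.mk.injEq] at k2
    exact Prod.ext k2.1 (h1.trans k1.symm)
  · rw [h2, Prod.mk.injEq] at k2
    exact absurd k2.2 (by decide)
  · rw [h2, Prod.mk.injEq] at k2
    exact absurd k2.2 (by decide)
  · rw [h2, Prod.mk.injEq] at k2
    refine Prod.ext k2.1 ?_
    rw [← k1, ← k2.1] at h1
    exact mul_right_cancel h1

/-- The distance of the farther end. -/
def far (p : α × FreeGroup α) : ℕ := max p.2.norm (p.2 * FreeGroup.of p.1).norm

theorem Inc.far {p : α × FreeGroup α} {g : FreeGroup α} {y : α × Bool} (h : Inc p g y) :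
    far p = max g.norm (g * (ltr y)⁻¹).norm := by
  unfold R2.far
  rcases h with ⟨h1, h2⟩ | ⟨h1, h2⟩
  · rw [h2, ltr_false, h1]
  · rw [h2, ltr_true, ← h1, mul_inv_cancel_right, max_comm]

/-- Every edge has a farther end. -/
theorem exists_far (p : α × FreeGroup α) : ∃ g y, Inc p g y ∧
    (g * (ltr y)⁻¹).norm < g.norm := by
  by_cases h1 : p.2 * (ltr (p.1, false))⁻¹ = 1
  · -- the head is `1`
    refine ⟨p.2, (p.1, false), Or.inl ⟨rfl, rfl⟩, ?_⟩
    rw [h1, FreeGroup.norm_one, Nat.pos_iff_ne_zero, ne_eq, FreeGroup.norm_eq_zero]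
    intro h2
    rw [h2, one_mul, ltr_false] at h1
    exact FreeGroup.of_ne_one _ h1
  · rw [ltr_false] at h1
    obtain ⟨y, hy1, hy2⟩ := exists_last h1
    rcases eq_or_ne (p.1, true) y with h2 | h2
    · refine ⟨p.2 * FreeGroup.of p.1, y, Or.inr ⟨rfl, h2.symm⟩, ?_⟩
      omega
    · refine ⟨p.2, (p.1, false), Or.inl ⟨rfl, rfl⟩, ?_⟩
      have h3 := hy2 _ h2
      rw [ltr_true, mul_inv_cancel_right] at h3
      rw [ltr_false]
      omega

/-- The last letter is determined. -/
theorem last_unique {g : FreeGroup α} {y y' : α × Bool} (h : (g * (ltr y)⁻¹).norm < g.norm)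
    (h' : y' ≠ y) : (g * (ltr y')⁻¹).norm = g.norm + 1 := by
  have hg : g ≠ 1 := by
    rintro rfl
    rw [FreeGroup.norm_one] at h
    exact Nat.not_lt_zero _ h
  obtain ⟨z, hz1, hz2⟩ := exists_last hg
  rcases eq_or_ne y z with rfl | hne
  · exact hz2 y' h'
  · have := hz2 y hne
    omega

/-- An edge with a boundary which is not zero at `g` is incident to `g`. -/
theorem inc_of_ne {p : α × FreeGroup α} {g : FreeGroup α} {m : N} (h : bd1 ρ p m g ≠ 0) :
    ∃ y, Inc p g y := by
  classical
  rw [bd1_apply, Finsupp.sub_apply, Finsupp.single_apply, Finsupp.single_apply] at h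
  by_cases h1 : p.2 = g
  · exact ⟨_, Or.inl ⟨h1, rfl⟩⟩
  · by_cases h2 : p.2 * FreeGroup.of p.1 = g
    · exact ⟨_, Or.inr ⟨h2, rfl⟩⟩
    · rw [if_neg h1, if_neg h2, sub_zero] at h
      exact absurd rfl h

/-- The boundary of an incident edge is not zero. -/
theorem ne_of_inc {p : α × FreeGroup α} {g : FreeGroup α} {y : α × Bool} {m : N} (h : Inc p g y)
    (h0 : bd1 ρ p m g = 0) : m = 0 := by
  classical
  have hx : p.2 ≠ p.2 * FreeGroup.of p.1 := fun h2 =>
    FreeGroup.of_ne_one p.1 (mul_eq_left.1 h2.symm)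
  rw [bd1_apply, Finsupp.sub_apply, Finsupp.single_apply, Finsupp.single_apply] at h0
  rcases h with ⟨h1, -⟩ | ⟨h1, -⟩
  · rw [if_pos h1, if_neg (fun h2 => hx (h1.trans h2.symm)), sub_zero] at h0
    exact h0
  · rw [if_neg (fun h2 => hx (h2.trans h1.symm)), if_pos h1, zero_sub, neg_eq_zero] at h0
    exact rho_inj ρ _ h0

end R2

open R2

/-- R2 -/
theorem bd_injective (z : (α × FreeGroup α) →₀ N) (h : bd ρ z = 0) : z = 0 := by
  classical
  by_contra hz
  obtain ⟨e, he, hmax⟩ := Finset.exists_max_image z.support R2.far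
    (Finsupp.support_nonempty_iff.2 hz)
  obtain ⟨g, y, hinc, hy⟩ := exists_far e
  have h1 : bd ρ z g = bd1 ρ e (z e) g := by
    rw [bd_eq, Finsupp.liftAddHom_apply, Finsupp.sum, Finsupp.finsetSum_apply]
    refine Finset.sum_eq_single e (fun p hp hpe => ?_) fun h2 => absurd he h2
    by_contra hne
    obtain ⟨y', hinc'⟩ := inc_of_ne ρ hne
    have hyy : y' ≠ y := by
      rintro rfl
      exact hpe (hinc'.unique hinc)
    have h2 := last_unique hy hyy
    have h3 := hmax p hp
    rw [hinc'.far, hinc.far, h2, max_eq_left hy.le] at h3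
    have := le_max_right g.norm (g.norm + 1)
    omega
  rw [h, Finsupp.zero_apply] at h1
  exact (Finsupp.mem_support_iff.1 he) (ne_of_inc ρ hinc h1.symm)

/-- the ball property -/
def BP (M0 : AddSubgroup N) : Prop :=
  ∀ w : FreeGroup α →₀ N, (∀ h, w h ∈ M0) → (w.sum fun h m => ρ h m) = 0 →
    ∀ (g : FreeGroup α) (y : α × Bool), (∀ h, w h ≠ 0 → h.norm ≤ g.norm) →
      (g * (ltr y)⁻¹).norm < g.norm → ρ (ltr y) (w g) ∈ M0

theorem bp_top : BP ρ (⊤ : AddSubgroup N) := fun _ _ _ _ _ _ _ => trivial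

/-- the augmentation kills boundaries -/
theorem sum_bd (z : (α × FreeGroup α) →₀ N) : ((bd ρ z).sum fun h m => ρ h m) = 0 :=
  aug_bd ρ z

/-- R2 -/
theorem bd_exact {M0 : AddSubgroup N} (hBP : BP ρ M0) (w : FreeGroup α →₀ N)
    (hw : ∀ h, w h ∈ M0) (h0 : (w.sum fun h m => ρ h m) = 0) :
    ∃ z : (α × FreeGroup α) →₀ N,
      (∀ p, z p ∈ M0 ∧ ρ (FreeGroup.of p.1)⁻¹ (z p) ∈ M0) ∧ bd ρ z = w := by
  classical
  obtain ⟨n, hn⟩ : ∃ n, n = ∑ h ∈ w.support, (h.norm + 1) := ⟨_, rfl⟩
  induction n using Nat.strong_induction_on generalizing w with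
  | _ n ih =>
    by_cases hw0 : w = 0
    · refine ⟨0, fun p => ?_, ?_⟩
      · rw [Finsupp.zero_apply, map_zero]
        exact ⟨M0.zero_mem, M0.zero_mem⟩
      · rw [hw0, bd_eq, map_zero]
    obtain ⟨g, hg, hmax⟩ := Finset.exists_max_image w.support FreeGroup.norm
      (Finsupp.support_nonempty_iff.2 hw0)
    have hmax' : ∀ h, w h ≠ 0 → h.norm ≤ g.norm := fun h hh =>
      hmax h (Finsupp.mem_support_iff.2 hh)
    have hg1 : g ≠ 1 := by
      rintro rfl
      have h1 : w = Finsupp.single 1 (w 1) := by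
        ext h
        rw [Finsupp.single_apply]
        split_ifs with h2
        · rw [h2]
        · by_contra h3
          have := hmax' h h3
          rw [FreeGroup.norm_one, Nat.le_zero, FreeGroup.norm_eq_zero] at this
          exact h2 this.symm
      rw [aug_eq, h1, aug_single, map_one] at h0
      exact (Finsupp.mem_support_iff.1 hg) h0
    obtain ⟨y, hy, -⟩ := exists_last hg1
    have hm := hBP w hw h0 g y hmax' (by omega)
    set g' := g * (ltr y)⁻¹ with hg'
    set m' := ρ (ltr y) (w g) with hm'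
    -- the edge between `g` and its parent
    have hz1 : ∃ z1 : (α × FreeGroup α) →₀ N,
        (∀ p, z1 p ∈ M0 ∧ ρ (FreeGroup.of p.1)⁻¹ (z1 p) ∈ M0) ∧
        bd ρ z1 = Finsupp.single g (w g) - Finsupp.single g' m' := by
      rcases y with ⟨x, _ | _⟩
      · refine ⟨Finsupp.single (x, g) (w g), fun p => ?_, ?_⟩
        · rw [Finsupp.single_apply]
          split_ifs with h2
          · rw [← h2]
            refine ⟨hw g, ?_⟩
            have h3 : (FreeGroup.of x)⁻¹ = ltr (x, false) := by rw [← ltr_false, inv_inv]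
            simp only
            rw [h3]
            exact hm
          · rw [map_zero]
            exact ⟨M0.zero_mem, M0.zero_mem⟩
        · rw [bd_single, hg', hm', ltr_false]
          have h3 : (FreeGroup.of x)⁻¹ = ltr (x, false) := by rw [← ltr_false, inv_inv]
          simp only
          rw [h3]
      · refine ⟨-Finsupp.single (x, g') m', fun p => ?_, ?_⟩
        · rw [Finsupp.neg_apply, Finsupp.single_apply]
          split_ifs with h2
          · rw [← h2, map_neg]
            refine ⟨M0.neg_mem hm, M0.neg_mem ?_⟩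
            simp only
            rw [hm', ltr_true, rho_inv']
            exact hw g
          · rw [neg_zero, map_zero]
            exact ⟨M0.zero_mem, M0.zero_mem⟩
        · rw [bd_neg, bd_single, neg_sub]
          simp only
          rw [hm', hg', ltr_true, rho_inv', inv_mul_cancel_right]
    obtain ⟨z1, hz1a, hz1b⟩ := hz1
    set w' := w - bd ρ z1 with hw'
    have hw'e : ∀ h, w' h = (if h = g then 0 else w h) + (if h = g' then m' else 0) := by
      intro h
      rw [hw', hz1b, Finsupp.sub_apply, Finsupp.sub_apply, Finsupp.single_apply,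
        Finsupp.single_apply]
      by_cases h2 : g = h
      · subst h2
        rw [if_pos rfl, if_pos rfl]
        split_ifs with h3 h4 h4
        · abel
        · exact absurd h3.symm h4
        · exact absurd h4.symm h3
        · abel
      · rw [if_neg h2, if_neg (Ne.symm h2)]
        split_ifs with h3 h4 h4
        · abel
        · exact absurd h3.symm h4
        · exact absurd h4.symm h3
        · abel
    have hlt : ∑ h ∈ w'.support, (h.norm + 1) < n := by
      have hsub : w'.support ⊆ insert g' (w.support.erase g) := by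
        intro h hh
        rw [Finsupp.mem_support_iff, hw'e h] at hh
        rw [Finset.mem_insert, Finset.mem_erase, Finsupp.mem_support_iff]
        by_contra hcon
        push Not at hcon
        obtain ⟨h2, h3⟩ := hcon
        apply hh
        rw [if_neg h2, add_zero]
        split_ifs with h4
        · rfl
        · exact h3 h4
      have h2 : ∑ h ∈ w'.support, (h.norm + 1) ≤
          ∑ h ∈ insert g' (w.support.erase g), (h.norm + 1) :=
        Finset.sum_le_sum_of_subset hsub
      have h3 : ∑ h ∈ insert g' (w.support.erase g), (h.norm + 1) ≤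
          (g'.norm + 1) + ∑ h ∈ w.support.erase g, (h.norm + 1) := by
        by_cases h4 : g' ∈ w.support.erase g
        · rw [Finset.insert_eq_of_mem h4]
          exact Nat.le_add_left _ _
        · rw [Finset.sum_insert h4]
      have h4 : (g.norm + 1) + ∑ h ∈ w.support.erase g, (h.norm + 1) = n := by
        rw [hn, ← Finset.add_sum_erase _ _ hg]
      omega
    obtain ⟨z', hz'a, hz'b⟩ := ih _ hlt w' (by
      intro h
      rw [hw'e h]
      refine M0.add_mem ?_ ?_
      · split_ifs
        · exact M0.zero_mem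
        · exact hw h
      · split_ifs
        · exact hm
        · exact M0.zero_mem) (by
      rw [aug_eq, hw', map_sub, aug_bd, sub_zero]
      exact h0) rfl
    refine ⟨z' + z1, fun p => ?_, ?_⟩
    · rw [Finsupp.add_apply, map_add]
      exact ⟨M0.add_mem (hz'a p).1 (hz1a p).1, M0.add_mem (hz'a p).2 (hz1a p).2⟩
    · rw [bd_add, hz'b, hw']
      abel

end Pool.Agent.Lib.MP_98022b_UN
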