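import Mathlib
import Pool.Agent.Lib.MP_98022b_UN.R2
open MonoidAlgebra

namespace Pool.Agent.Lib.MP_98022b_UN

universe u v w x

section
variable {A : Type u} [CommRing A] {α : Type u} [DecidableEq α]
  {N : Type u} [AddCommGroup N] [Module (MonoidAlgebra A (FreeGroup α)) N] [Module A N]
  [IsScalarTower A (MonoidAlgebra A (FreeGroup α)) N]

/-- the action of the group on a module over the group ring -/
noncomputable def actHom (A : Type u) [CommRing A] (α : Type u) (N : Type u) [AddCommGroup N]
    [Module (MonoidAlgebra A (FreeGroup α)) N] : FreeGroup α →* AddMonoid.End N where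
  toFun g := DistribSMul.toAddMonoidHom N (single g (1 : A) : MonoidAlgebra A (FreeGroup α))
  map_one' := by
    ext n
    change (single 1 (1 : A) : MonoidAlgebra A (FreeGroup α)) • n = n
    rw [← MonoidAlgebra.one_def, one_smul]
  map_mul' g h := by
    ext n
    change (single (g * h) (1 : A) : MonoidAlgebra A (FreeGroup α)) • n =
      (single g (1 : A) : MonoidAlgebra A (FreeGroup α)) •
        ((single h (1 : A) : MonoidAlgebra A (FreeGroup α)) • n)
    rw [← mul_smul, MonoidAlgebra.single_mul_single, one_mul]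

omit [DecidableEq α] in
/-- scalars from `A` act through the group ring -/
theorem smul_eq_single (c : A) (m : N) :
    c • m = (single 1 c : MonoidAlgebra A (FreeGroup α)) • m := by
  rw [← one_smul (MonoidAlgebra A (FreeGroup α)) m, ← smul_assoc, MonoidAlgebra.one_def,
    ← mul_smul]
  simp

/-- `M_x = {m ∈ M0 | x⁻¹ m ∈ M0}` -/
def edgeSub (M0 : Submodule A N) (x : α) : Submodule A N where
  carrier := {m | m ∈ M0 ∧
    (single (FreeGroup.of x)⁻¹ (1 : A) : MonoidAlgebra A (FreeGroup α)) • m ∈ M0}
  add_mem' := fun ha hb => ⟨M0.add_mem ha.1 hb.1, by rw [smul_add]; exact M0.add_mem ha.2 hb.2⟩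
  zero_mem' := ⟨M0.zero_mem, by rw [smul_zero]; exact M0.zero_mem⟩
  smul_mem' := fun c m hm => ⟨M0.smul_mem c hm.1, by
    have : (single (FreeGroup.of x)⁻¹ (1 : A) : MonoidAlgebra A (FreeGroup α)) • c • m =
        c • (single (FreeGroup.of x)⁻¹ (1 : A) : MonoidAlgebra A (FreeGroup α)) • m := by
      rw [smul_eq_single (α := α) c m, smul_eq_single (α := α) c, ← mul_smul, ← mul_smul]
      simp
    rw [this]; exact M0.smul_mem c hm.2⟩
end

section
variable {A : Type u} [CommRing A] {α : Type u} [DecidableEq α] {k : ℕ}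

/-- the elements of `M` supported in the ball of radius `n` -/
def ballSub (M : Submodule (MonoidAlgebra A (FreeGroup α))
    (Fin k → MonoidAlgebra A (FreeGroup α))) (n : ℕ) :
    Submodule A (Fin k → MonoidAlgebra A (FreeGroup α)) where
  carrier := {m | m ∈ M ∧ ∀ i g, (m i).coeff g ≠ 0 → g.norm ≤ n}
  add_mem' := fun {a b} ha hb => ⟨M.add_mem ha.1 hb.1, fun i g h => by
    by_contra hc
    apply h
    have h1 : (a i).coeff g = 0 := by
      by_contra h'; exact hc (ha.2 i g h')
    have h2 : (b i).coeff g = 0 := by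
      by_contra h'; exact hc (hb.2 i g h')
    simp [h1, h2]⟩
  zero_mem' := ⟨M.zero_mem, fun i g h => absurd rfl h⟩
  smul_mem' := fun c m hm => ⟨by
    have : c • m = (single 1 c : MonoidAlgebra A (FreeGroup α)) • m := by
      ext i g
      simp [MonoidAlgebra.coeff_single_one_mul]
    rw [this]; exact M.smul_mem _ hm.1, fun i g h => by
    apply hm.2 i g
    intro h'
    apply h
    simp [h']⟩
end

end Pool.Agent.Lib.MP_98022b_UN
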