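import Mathlib

open MonoidAlgebra

namespace Pool.Agent.Lib.MP_98022b_UN

universe u v w x

/-- lifting a map with projective source through a map with a larger range -/
private theorem exists_lift_range {S : Type u} [Ring S] {P Q N : Type v} [AddCommGroup P]
    [Module S P] [AddCommGroup Q] [Module S Q] [AddCommGroup N] [Module S N]
    [Module.Projective S Q] (f : P →ₗ[S] N) (g : Q →ₗ[S] N)
    (h : LinearMap.range g ≤ LinearMap.range f) : ∃ φ : Q →ₗ[S] P, ∀ q, f (φ q) = g q := by
  obtain ⟨φ, hφ⟩ := Module.projective_lifting_property f.rangeRestrict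
    (g.codRestrict (LinearMap.range f) (fun q => h ⟨q, rfl⟩)) f.surjective_rangeRestrict
  refine ⟨φ, fun q => ?_⟩
  have := LinearMap.congr_fun hφ q
  exact congrArg Subtype.val this

/-- Schanuel: projectivity -/
theorem schanuel_projective {S : Type u} [Ring S] {P Q N : Type v} [AddCommGroup P]
    [Module S P] [AddCommGroup Q] [Module S Q] [AddCommGroup N] [Module S N]
    [Module.Projective S P] [Module.Projective S Q] (f : P →ₗ[S] N) (g : Q →ₗ[S] N)
    (h : LinearMap.range f = LinearMap.range g) (hf : Module.Projective S (LinearMap.ker f)) :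
    Module.Projective S (LinearMap.ker g) := by
  obtain ⟨φ, hφ⟩ := exists_lift_range f g h.ge
  obtain ⟨ψ, hψ⟩ := exists_lift_range g f h.le
  let i : LinearMap.ker g →ₗ[S] Q × LinearMap.ker f :=
    (LinearMap.ker g).subtype.prod
      ((-(φ ∘ₗ (LinearMap.ker g).subtype)).codRestrict (LinearMap.ker f) (by
        intro k
        have hk : g k.1 = 0 := k.2
        simp [hφ, hk]))
  let s : Q × LinearMap.ker f →ₗ[S] LinearMap.ker g :=
    (LinearMap.fst S Q (LinearMap.ker f) -
      ψ ∘ₗ (φ ∘ₗ LinearMap.fst S Q (LinearMap.ker f) +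
        (LinearMap.ker f).subtype ∘ₗ LinearMap.snd S Q (LinearMap.ker f))).codRestrict
      (LinearMap.ker g) (by
        rintro ⟨q, k⟩
        have hk : f k.1 = 0 := k.2
        simp only [LinearMap.mem_ker, LinearMap.sub_apply, LinearMap.fst_apply,
          LinearMap.comp_apply, LinearMap.add_apply, LinearMap.snd_apply,
          Submodule.subtype_apply, map_sub, map_add, hψ, hφ, hk]
        simp)
  refine Module.Projective.of_split i s ?_
  ext k
  simp [i, s]

end Pool.Agent.Lib.MP_98022b_UN
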