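import Mathlib
import Pool.Agent.Lib.MP_98022b_UN.ModDefs
import Pool.Agent.Lib.MP_98022b_UN.R0
open MonoidAlgebra

namespace Pool.Agent.Lib.MP_98022b_UN

universe u v w x
set_option linter.unusedSectionVars false

namespace R3a

open TensorProduct

section
variable {A : Type u} [CommRing A] {S : Type u} [Ring S] [Algebra A S]
  {M N : Type u} [AddCommGroup M] [Module A M] [AddCommGroup N] [Module S N] [Module A N]
  [IsScalarTower A S N]

/-- extension of scalars of a linear map (noncommutative algebra) -/
noncomputable def lbc (l : M →ₗ[A] N) : S ⊗[A] M →ₗ[S] N :=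
  AlgebraTensorModule.lift (LinearMap.toSpanSingleton S (M →ₗ[A] N) l)

theorem lbc_tmul (l : M →ₗ[A] N) (s : S) (m : M) : lbc (S := S) l (s ⊗ₜ m) = s • l m := by
  simp [lbc]

theorem range_lbc (l : M →ₗ[A] N) :
    LinearMap.range (lbc (S := S) l) = Submodule.span S (Set.range l) := by
  apply le_antisymm
  · rintro _ ⟨t, rfl⟩
    induction t using TensorProduct.induction_on with
    | zero => simp
    | tmul s m =>
      rw [lbc_tmul]
      exact Submodule.smul_mem _ _ (Submodule.subset_span ⟨m, rfl⟩)
    | add a b ha hb => rw [map_add]; exact add_mem ha hb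
  · rw [Submodule.span_le]
    rintro _ ⟨m, rfl⟩
    exact ⟨1 ⊗ₜ m, by rw [lbc_tmul, one_smul]⟩

end

section
variable {A : Type u} [CommRing A] {H : Type u} [DecidableEq H]
  {M : Type u} [AddCommGroup M] [Module A M]

/-- coordinates in the induced module -/
noncomputable def tc (A H M : Type u) [CommRing A] [DecidableEq H] [AddCommGroup M]
    [Module A M] : MonoidAlgebra A H ⊗[A] M ≃ₗ[A] (H →₀ M) :=
  (TensorProduct.congr (MonoidAlgebra.coeffLinearEquiv A) (LinearEquiv.refl A M)) ≪≫ₗ
    TensorProduct.finsuppScalarLeft A M H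

theorem tc_single (g : H) (a : A) (m : M) :
    tc A H M ((single g a : MonoidAlgebra A H) ⊗ₜ m) = Finsupp.single g (a • m) := by
  ext h
  simp only [tc, LinearEquiv.trans_apply, TensorProduct.congr_tmul, LinearEquiv.refl_apply,
    TensorProduct.finsuppScalarLeft_apply_tmul_apply, MonoidAlgebra.coeffLinearEquiv_apply,
    MonoidAlgebra.coeff_single, Finsupp.single_apply]
  split_ifs <;> simp

end

section
variable {A : Type u} [CommRing A] {α : Type u} [DecidableEq α]
  {N : Type u} [AddCommGroup N] [Module (MonoidAlgebra A (FreeGroup α)) N] [Module A N]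
  [IsScalarTower A (MonoidAlgebra A (FreeGroup α)) N]

theorem actHom_apply (g : FreeGroup α) (n : N) :
    actHom A α N g n = (single g (1 : A) : MonoidAlgebra A (FreeGroup α)) • n := rfl

theorem single_smul_comm (g : FreeGroup α) (a : A) (n : N) :
    (single g (1 : A) : MonoidAlgebra A (FreeGroup α)) • a • n =
      a • (single g (1 : A) : MonoidAlgebra A (FreeGroup α)) • n := by
  rw [smul_eq_single (α := α) a n, smul_eq_single (α := α) a, ← mul_smul, ← mul_smul]
  simp

theorem single_smul_eq (g : FreeGroup α) (a : A) (n : N) :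
    (single g a : MonoidAlgebra A (FreeGroup α)) • n =
      (single g (1 : A) : MonoidAlgebra A (FreeGroup α)) • a • n := by
  rw [smul_eq_single (α := α) a n, ← mul_smul]
  simp

/-- `m ↦ x⁻¹ m` from `M_x` to `M0` -/
noncomputable def invm (M0 : Submodule A N) (x : α) : edgeSub M0 x →ₗ[A] M0 where
  toFun m := ⟨(single (FreeGroup.of x)⁻¹ (1 : A) : MonoidAlgebra A (FreeGroup α)) • m.1, m.2.2⟩
  map_add' a b := by
    apply Subtype.ext
    simp only [Submodule.coe_add, smul_add]
  map_smul' c m := by
    apply Subtype.ext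
    simp only [Submodule.coe_smul, RingHom.id_apply]
    exact single_smul_comm _ _ _

/-- the inclusion of `M_x` in `M0` -/
noncomputable def incl (M0 : Submodule A N) (x : α) : edgeSub M0 x →ₗ[A] M0 :=
  Submodule.inclusion (fun _ h => h.1)

/-- the boundary on the summand of `x` -/
noncomputable def d1x (M0 : Submodule A N) (x : α) :
    edgeSub M0 x →ₗ[A] MonoidAlgebra A (FreeGroup α) ⊗[A] M0 :=
  (TensorProduct.mk A (MonoidAlgebra A (FreeGroup α)) M0 1) ∘ₗ incl M0 x -
    (TensorProduct.mk A (MonoidAlgebra A (FreeGroup α)) M0 (single (FreeGroup.of x) 1)) ∘ₗ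
      invm M0 x

/-- the boundary on the direct sum -/
noncomputable def d1 (M0 : Submodule A N) :
    (Π₀ x : α, edgeSub M0 x) →ₗ[A] MonoidAlgebra A (FreeGroup α) ⊗[A] M0 :=
  DFinsupp.lsum A (fun x => d1x M0 x)

/-- the boundary -/
noncomputable def f1 (M0 : Submodule A N) :
    MonoidAlgebra A (FreeGroup α) ⊗[A] (Π₀ x : α, edgeSub M0 x) →ₗ[MonoidAlgebra A (FreeGroup α)]
      MonoidAlgebra A (FreeGroup α) ⊗[A] M0 :=
  lbc (d1 M0)

/-- the augmentation -/
noncomputable def f0 (M0 : Submodule A N) :
    MonoidAlgebra A (FreeGroup α) ⊗[A] M0 →ₗ[MonoidAlgebra A (FreeGroup α)] N :=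
  lbc M0.subtype

/-- coordinates of degree 0 -/
noncomputable def t0 (M0 : Submodule A N) :
    MonoidAlgebra A (FreeGroup α) ⊗[A] M0 →ₗ[A] (FreeGroup α →₀ N) :=
  (Finsupp.mapRange.linearMap M0.subtype) ∘ₗ (tc A (FreeGroup α) M0).toLinearMap

theorem t0_injective (M0 : Submodule A N) : Function.Injective (t0 (α := α) M0) := by
  intro a b h
  apply (tc A (FreeGroup α) M0).injective
  ext g
  have := DFunLike.congr_fun h g
  simpa [t0] using this

theorem t0_mem (M0 : Submodule A N) (t) (g : FreeGroup α) : t0 M0 t g ∈ M0 := by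
  simp [t0]

theorem t0_single (M0 : Submodule A N) (g : FreeGroup α) (a : A) (m : M0) :
    t0 M0 ((single g a : MonoidAlgebra A (FreeGroup α)) ⊗ₜ m) =
      Finsupp.single g (a • (m : N)) := by
  simp [t0, tc_single]

/-- the comparison on finitely supported functions -/
noncomputable def phi (M0 : Submodule A N) :
    (FreeGroup α →₀ (Π₀ x : α, edgeSub M0 x)) →ₗ[A] ((α × FreeGroup α) →₀ N) :=
  Finsupp.lsum A (fun h => DFinsupp.lsum A
    (fun x => (Finsupp.lsingle (x, h)) ∘ₗ (edgeSub M0 x).subtype))

theorem phi_single (M0 : Submodule A N) (h : FreeGroup α) (x : α) (m : edgeSub M0 x) :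
    phi M0 (Finsupp.single h (DFinsupp.single x m)) = Finsupp.single (x, h) (m : N) := by
  simp [phi]

theorem phi_apply (M0 : Submodule A N) (u : FreeGroup α →₀ (Π₀ x : α, edgeSub M0 x))
    (h : FreeGroup α) (x : α) : phi M0 u (x, h) = ((u h) x : N) := by
  induction u using Finsupp.induction_linear with
  | zero => simp
  | add u v hu hv => simp [hu, hv]
  | single g d =>
    induction d using DFinsupp.induction with
    | h0 => simp
    | ha y m d _ _ ih =>
      rw [Finsupp.single_add, map_add, Finsupp.add_apply, ih, phi_single, Finsupp.add_apply,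
        DFinsupp.add_apply, Submodule.coe_add]
      congr 1
      by_cases hg : g = h
      · subst hg
        by_cases hy : y = x
        · subst hy
          simp
        · rw [Finsupp.single_eq_of_ne (by simpa using fun h => hy h.symm),
            Finsupp.single_eq_same, DFinsupp.single_eq_of_ne (by simpa using fun h => hy h.symm)]
          simp
      · rw [Finsupp.single_eq_of_ne (by simp; intro _ h'; exact hg h'.symm),
          Finsupp.single_eq_of_ne (by intro h'; exact hg h'.symm)]
        simp

/-- coordinates of degree 1 -/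
noncomputable def t1 (M0 : Submodule A N) :
    MonoidAlgebra A (FreeGroup α) ⊗[A] (Π₀ x : α, edgeSub M0 x) →ₗ[A]
      ((α × FreeGroup α) →₀ N) :=
  (phi M0) ∘ₗ (tc A (FreeGroup α) (Π₀ x : α, edgeSub M0 x)).toLinearMap

theorem t1_single (M0 : Submodule A N) (g : FreeGroup α) (a : A) (x : α) (m : edgeSub M0 x) :
    t1 M0 ((single g a : MonoidAlgebra A (FreeGroup α)) ⊗ₜ (DFinsupp.single x m)) =
      Finsupp.single (x, g) (a • (m : N)) := by
  rw [t1, LinearMap.comp_apply, LinearEquiv.coe_coe, tc_single, ← DFinsupp.single_smul,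
    phi_single]
  rfl

theorem t1_injective (M0 : Submodule A N) : Function.Injective (t1 (α := α) M0) := by
  intro a b h
  apply (tc A (FreeGroup α) (Π₀ x : α, edgeSub M0 x)).injective
  ext g x
  have := DFunLike.congr_fun h (x, g)
  simpa only [t1, LinearMap.comp_apply, LinearEquiv.coe_coe, phi_apply] using this

theorem bd_add (z z' : (α × FreeGroup α) →₀ N) :
    bd (actHom A α N) (z + z') = bd (actHom A α N) z + bd (actHom A α N) z' := by
  unfold bd
  refine Finsupp.sum_add_index' ?_ ?_
  · intro p; simp
  · intro p a b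
    rw [map_add, Finsupp.single_add, Finsupp.single_add]
    abel

theorem bd_zero : bd (actHom A α N) 0 = 0 := by simp [bd]

theorem bd_single (x : α) (h : FreeGroup α) (n : N) :
    bd (actHom A α N) (Finsupp.single (x, h) n) = Finsupp.single h n -
      Finsupp.single (h * FreeGroup.of x)
        ((single (FreeGroup.of x)⁻¹ (1 : A) : MonoidAlgebra A (FreeGroup α)) • n) := by
  rw [bd, Finsupp.sum_single_index]
  · rfl
  · simp

/-- the coordinates intertwine the two boundaries -/
theorem t0_f1 (M0 : Submodule A N) (t) :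
    t0 M0 (f1 (α := α) M0 t) = bd (actHom A α N) (t1 M0 t) := by
  induction t using TensorProduct.induction_on with
  | zero => simp [bd_zero]
  | add a b ha hb => rw [map_add, map_add, map_add, bd_add, ha, hb]
  | tmul s d =>
    induction s using MonoidAlgebra.induction_linear with
    | zero => simp [bd_zero]
    | add s s' hs hs' => rw [TensorProduct.add_tmul, map_add, map_add, map_add, bd_add, hs, hs']
    | single h a =>
      induction d using DFinsupp.induction with
      | h0 => simp [bd_zero]
      | ha x m d _ _ ih =>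
        rw [TensorProduct.tmul_add, map_add, map_add, map_add, bd_add, ih, t1_single, bd_single]
        congr 1
        rw [f1, lbc_tmul, d1, DFinsupp.lsum_single, d1x, LinearMap.sub_apply, smul_sub,
          LinearMap.comp_apply, LinearMap.comp_apply, TensorProduct.mk_apply,
          TensorProduct.mk_apply, TensorProduct.smul_tmul', TensorProduct.smul_tmul',
          smul_eq_mul, smul_eq_mul, mul_one, MonoidAlgebra.single_mul_single, mul_one, map_sub,
          t0_single, t0_single, single_smul_comm]
        rfl

theorem f0_eq (M0 : Submodule A N) (t) :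
    f0 (α := α) M0 t = (t0 M0 t).sum fun h m => actHom A α N h m := by
  have hadd : ∀ z z' : FreeGroup α →₀ N, ((z + z').sum fun h m => actHom A α N h m) =
      (z.sum fun h m => actHom A α N h m) + (z'.sum fun h m => actHom A α N h m) := by
    intro z z'
    refine Finsupp.sum_add_index' ?_ ?_
    · intro p; simp
    · intro p a b; rw [map_add]
  induction t using TensorProduct.induction_on with
  | zero => simp
  | add a b ha hb => rw [map_add, map_add, hadd, ha, hb]
  | tmul s m =>
    induction s using MonoidAlgebra.induction_linear with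
    | zero => simp
    | add s s' hs hs' => rw [TensorProduct.add_tmul, map_add, map_add, hadd, hs, hs']
    | single h a =>
      rw [t0_single, Finsupp.sum_single_index (by simp), actHom_apply, f0, lbc_tmul,
        single_smul_eq]
      rfl

theorem f1_injective (M0 : Submodule A N) : Function.Injective (f1 (α := α) M0) := by
  rw [injective_iff_map_eq_zero]
  intro t ht
  apply t1_injective M0
  rw [map_zero]
  apply bd_injective (actHom A α N)
  rw [← t0_f1, ht, map_zero]

theorem ker_f0 (M0 : Submodule A N) (hBP : BP (actHom A α N) M0.toAddSubgroup) :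
    LinearMap.ker (f0 (α := α) M0) = LinearMap.range (f1 (α := α) M0) := by
  apply le_antisymm
  · intro t ht
    rw [LinearMap.mem_ker, f0_eq] at ht
    obtain ⟨z, hz, hzt⟩ := bd_exact (actHom A α N) hBP (t0 M0 t) (fun h => t0_mem M0 t h) ht
    refine ⟨z.support.sum fun p => (single p.2 (1 : A) : MonoidAlgebra A (FreeGroup α)) ⊗ₜ
      (DFinsupp.single p.1 (⟨z p, hz p⟩ : edgeSub M0 p.1)), ?_⟩
    apply t0_injective M0
    rw [t0_f1, ← hzt]
    congr 1
    rw [map_sum]
    conv_rhs => rw [← Finsupp.sum_single z]
    refine Finset.sum_congr rfl fun p _ => ?_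
    rw [t1_single, one_smul]
  · rintro _ ⟨t, rfl⟩
    rw [LinearMap.mem_ker, f0_eq, t0_f1]
    exact sum_bd (actHom A α N) _

end

end R3a

section
variable {A : Type u} [CommRing A] {α : Type u} [DecidableEq α]
  {N : Type u} [AddCommGroup N] [Module (MonoidAlgebra A (FreeGroup α)) N] [Module A N]
  [IsScalarTower A (MonoidAlgebra A (FreeGroup α)) N]

/-- R3a: projectivity of kernels -/
theorem ker_projective_of_BP (M0 : Submodule A N) (hBP : BP (actHom A α N) M0.toAddSubgroup)
    (hP : Module.Projective A M0) (hPx : ∀ x : α, Module.Projective A (edgeSub M0 x))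
    {Q : Type u} [AddCommGroup Q] [Module (MonoidAlgebra A (FreeGroup α)) Q]
    [Module.Projective (MonoidAlgebra A (FreeGroup α)) Q]
    (f : Q →ₗ[MonoidAlgebra A (FreeGroup α)] N)
    (hf : LinearMap.range f = Submodule.span (MonoidAlgebra A (FreeGroup α)) (M0 : Set N)) :
    Module.Projective (MonoidAlgebra A (FreeGroup α)) (LinearMap.ker f) := by
  refine schanuel_projective (R3a.f0 (α := α) M0) f ?_ ?_
  · rw [hf, R3a.f0, R3a.range_lbc]
    congr 1
    simp
  · rw [R3a.ker_f0 M0 hBP]
    exact Module.Projective.of_equiv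
      (LinearEquiv.ofInjective (R3a.f1 (α := α) M0) (R3a.f1_injective M0))

end

end Pool.Agent.Lib.MP_98022b_UN
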