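import Mathlib
import Pool.Agent.Lib.MP_98022b_UN.ModDefs
open MonoidAlgebra

namespace Pool.Agent.Lib.MP_98022b_UN

universe u v w x

section
variable {A : Type u} [CommRing A] {α : Type u} [DecidableEq α]
  {N : Type u} [AddCommGroup N] [Module (MonoidAlgebra A (FreeGroup α)) N] [Module A N]
  [IsScalarTower A (MonoidAlgebra A (FreeGroup α)) N]

/-- the element `∑ m_j z_j` written as a finitely supported function on the group -/
noncomputable def r3W {p : ℕ} (m : Fin p → N) :
    (Fin p → MonoidAlgebra A (FreeGroup α)) →ₗ[A] (FreeGroup α →₀ N) :=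
  ∑ j, (Finsupp.mapRange.linearMap (LinearMap.toSpanSingleton A N (m j))) ∘ₗ
    (MonoidAlgebra.coeffLinearEquiv (S := A) (M := FreeGroup α) A).toLinearMap ∘ₗ
      (LinearMap.proj j)

omit [DecidableEq α] [Module (MonoidAlgebra A (FreeGroup α)) N]
  [IsScalarTower A (MonoidAlgebra A (FreeGroup α)) N] in
theorem r3W_apply {p : ℕ} (m : Fin p → N) (z : Fin p → MonoidAlgebra A (FreeGroup α))
    (g : FreeGroup α) : r3W m z g = ∑ j, (z j).coeff g • m j := by
  simp [r3W, LinearMap.sum_apply, Finsupp.finsetSum_apply]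

omit [DecidableEq α] in
theorem r3_single_smul (g : FreeGroup α) (c : A) (n : N) :
    (single g c : MonoidAlgebra A (FreeGroup α)) • n = actHom A α N g (c • n) := by
  rw [smul_eq_single (α := α) c n]
  change _ = (single g (1 : A) : MonoidAlgebra A (FreeGroup α)) •
    ((single 1 c : MonoidAlgebra A (FreeGroup α)) • n)
  rw [← mul_smul, single_mul_single]
  simp

omit [DecidableEq α] [Module A N] [IsScalarTower A (MonoidAlgebra A (FreeGroup α)) N] in
theorem r3_smul_eq_sum (r : MonoidAlgebra A (FreeGroup α)) (n : N) (s : Finset (FreeGroup α))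
    (hs : r.coeff.support ⊆ s) :
    r • n = ∑ g ∈ s, (single g (r.coeff g) : MonoidAlgebra A (FreeGroup α)) • n := by
  rw [← Finset.sum_smul]
  congr 1
  conv_lhs => rw [← MonoidAlgebra.sum_coeff_single r]
  rw [Finsupp.sum_of_support_subset _ hs]
  intro i _
  simp

omit [DecidableEq α] in
theorem r3_sum_W {p : ℕ} (m : Fin p → N) (z : Fin p → MonoidAlgebra A (FreeGroup α)) :
    ((r3W m z).sum fun h n => actHom A α N h n) = ∑ j, z j • m j := by
  classical
  let s : Finset (FreeGroup α) := Finset.univ.biUnion fun j => (z j).coeff.support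
  have hs : ∀ j, (z j).coeff.support ⊆ s := fun j =>
    Finset.subset_biUnion_of_mem (fun j => (z j).coeff.support) (Finset.mem_univ j)
  have h1 : (r3W m z).support ⊆ s := by
    intro g hg
    rw [Finsupp.mem_support_iff, r3W_apply] at hg
    obtain ⟨j, _, hj⟩ := Finset.exists_ne_zero_of_sum_ne_zero hg
    apply hs j
    rw [Finsupp.mem_support_iff]
    intro h
    rw [h, zero_smul] at hj
    exact hj rfl
  rw [Finsupp.sum_of_support_subset _ h1 _ (fun i _ => map_zero _)]
  have h2 : ∀ j, z j • m j = ∑ g ∈ s, actHom A α N g ((z j).coeff g • m j) := by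
    intro j
    rw [r3_smul_eq_sum (z j) (m j) s (hs j)]
    exact Finset.sum_congr rfl fun g _ => r3_single_smul _ _ _
  simp only [h2]
  rw [Finset.sum_comm]
  refine Finset.sum_congr rfl fun g _ => ?_
  rw [r3W_apply, map_sum]

/-- transfer of finite generation between two presentations with the same range -/
theorem r3_transfer {R : Type u} [Ring R] {k p : ℕ} {N : Type v} [AddCommGroup N] [Module R N]
    (f : (Fin k → R) →ₗ[R] N) (h : (Fin p → R) →ₗ[R] N)
    (hr : LinearMap.range f = LinearMap.range h) (hh : (LinearMap.ker h).FG) :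
    (LinearMap.ker f).FG := by
  classical
  have h1 : ∀ j : Fin p, ∃ u : Fin k → R, f u = h (Pi.single j 1) := fun j => by
    have : h (Pi.single j 1) ∈ LinearMap.range f := hr ▸ LinearMap.mem_range_self h _
    exact this
  have h2 : ∀ i : Fin k, ∃ u : Fin p → R, h u = f (Pi.single i 1) := fun i => by
    have : f (Pi.single i 1) ∈ LinearMap.range h := hr ▸ LinearMap.mem_range_self f _
    exact this
  choose u hu using h1
  choose v hv using h2
  let φ : (Fin p → R) →ₗ[R] (Fin k → R) := (Pi.basisFun R (Fin p)).constr ℕ u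
  let ψ : (Fin k → R) →ₗ[R] (Fin p → R) := (Pi.basisFun R (Fin k)).constr ℕ v
  have hφ : f ∘ₗ φ = h := by
    apply (Pi.basisFun R (Fin p)).ext
    intro j
    rw [LinearMap.comp_apply, Module.Basis.constr_basis, hu, Pi.basisFun_apply]
  have hψ : h ∘ₗ ψ = f := by
    apply (Pi.basisFun R (Fin k)).ext
    intro j
    rw [LinearMap.comp_apply, Module.Basis.constr_basis, hv, Pi.basisFun_apply]
  have hφ' : ∀ y, f (φ y) = h y := fun y => LinearMap.congr_fun hφ y
  have hψ' : ∀ y, h (ψ y) = f y := fun y => LinearMap.congr_fun hψ y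
  have key : LinearMap.ker f = (LinearMap.ker h).map φ ⊔
      LinearMap.range (LinearMap.id - φ ∘ₗ ψ) := by
    apply le_antisymm
    · intro y hy
      rw [LinearMap.mem_ker] at hy
      have : y = φ (ψ y) + (LinearMap.id - φ ∘ₗ ψ : (Fin k → R) →ₗ[R] _) y := by
        simp
      rw [this]
      refine Submodule.add_mem_sup ⟨ψ y, ?_, rfl⟩ ⟨y, rfl⟩
      change h (ψ y) = 0
      rw [hψ', hy]
    · rw [sup_le_iff]
      constructor
      · rintro _ ⟨y, hy, rfl⟩
        change f (φ y) = 0
        rw [hφ']
        exact hy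
      · rintro _ ⟨y, rfl⟩
        rw [LinearMap.mem_ker, LinearMap.sub_apply, LinearMap.id_apply, LinearMap.comp_apply,
          map_sub, hφ', hψ', sub_self]
  rw [key]
  refine Submodule.FG.sup (hh.map φ) ?_
  rw [LinearMap.range_eq_map]
  exact (Module.Finite.fg_top).map _

/-- scalars into the group ring, coordinatewise -/
noncomputable def r3c (A : Type u) [CommRing A] (α : Type u) (p : ℕ) :
    (Fin p → A) →ₗ[A] (Fin p → MonoidAlgebra A (FreeGroup α)) :=
  LinearMap.pi fun j => (Algebra.linearMap A (MonoidAlgebra A (FreeGroup α))) ∘ₗ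
    (LinearMap.proj j)

omit [DecidableEq α] in
theorem r3c_apply (p : ℕ) (a : Fin p → A) (j : Fin p) :
    (r3c A α p a) j = (single 1 (a j) : MonoidAlgebra A (FreeGroup α)) := rfl

/-- R3b: finite generation of kernels -/
theorem ker_fg_of_BP [Finite α] [IsNoetherianRing A] (M0 : Submodule A N)
    (hBP : BP (actHom A α N) M0.toAddSubgroup) (hP : M0.FG) {k : ℕ}
    (f : (Fin k → MonoidAlgebra A (FreeGroup α)) →ₗ[MonoidAlgebra A (FreeGroup α)] N)
    (hf : LinearMap.range f = Submodule.span (MonoidAlgebra A (FreeGroup α)) (M0 : Set N)) :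
    (LinearMap.ker f).FG := by
  classical
  obtain ⟨p, m, hm⟩ := Submodule.fg_iff_exists_fin_generating_family.1 hP
  -- the presentation by the generators of `M0`
  let T : (Fin p → A) →ₗ[A] N := (Pi.basisFun A (Fin p)).constr ℕ m
  have hT : ∀ a, T a = ∑ j, a j • m j := fun a => by
    rw [Module.Basis.constr_apply_fintype]; simp
  have hTr : LinearMap.range T = M0 := by
    rw [← hm]
    change LinearMap.range ((Pi.basisFun A (Fin p)).constr ℕ m) = _
    rw [Module.Basis.constr_range]
  let h : (Fin p → MonoidAlgebra A (FreeGroup α)) →ₗ[MonoidAlgebra A (FreeGroup α)] N :=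
    (Pi.basisFun (MonoidAlgebra A (FreeGroup α)) (Fin p)).constr ℕ m
  have hh : ∀ z, h z = ∑ j, z j • m j := fun z => by
    rw [Module.Basis.constr_apply_fintype]; simp
  have hhr : LinearMap.range h = Submodule.span (MonoidAlgebra A (FreeGroup α)) (M0 : Set N) := by
    change LinearMap.range ((Pi.basisFun (MonoidAlgebra A (FreeGroup α)) (Fin p)).constr ℕ m) = _
    rw [Module.Basis.constr_range, ← hm]
    exact (Submodule.span_span_of_tower A (MonoidAlgebra A (FreeGroup α)) _).symm
  refine r3_transfer f h (hf.trans hhr.symm) ?_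
  -- relations of the `A`-module
  let c := r3c A α p
  have hc : ∀ a, h (c a) = T a := fun a => by
    rw [hh, hT]
    refine Finset.sum_congr rfl fun j _ => ?_
    rw [r3c_apply, ← smul_eq_single (α := α)]
  have hWc : ∀ (g : FreeGroup α) (a : Fin p → A),
      r3W m ((single g (1 : A) : MonoidAlgebra A (FreeGroup α)) • c a) =
        Finsupp.single g (T a) := by
    intro g a
    ext g'
    rw [r3W_apply]
    have h1 : ∀ j, (((single g (1 : A) : MonoidAlgebra A (FreeGroup α)) • c a) j).coeff g' =
        if g = g' then a j else 0 := by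
      intro j
      rw [Pi.smul_apply, smul_eq_mul, r3c_apply, single_mul_single, one_mul, mul_one,
        coeff_single, Finsupp.single_apply]
    simp only [h1]
    by_cases hg : g = g'
    · subst hg
      rw [Finsupp.single_eq_same, hT]
      simp
    · rw [Finsupp.single_eq_of_ne (Ne.symm hg)]
      simp [hg]
  -- the finitely generated pieces
  let X : α → ((Fin p → MonoidAlgebra A (FreeGroup α)) →ₗ[A]
      (Fin p → MonoidAlgebra A (FreeGroup α))) := fun x =>
    Algebra.lsmul A A _ (single (FreeGroup.of x) (1 : A) : MonoidAlgebra A (FreeGroup α))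
  let XN : α → (N →ₗ[A] N) := fun x =>
    Algebra.lsmul A A N (single (FreeGroup.of x) (1 : A) : MonoidAlgebra A (FreeGroup α))
  let E : α → Submodule A ((Fin p → A) × (Fin p → A)) := fun x =>
    LinearMap.ker ((T ∘ₗ LinearMap.fst A _ _) - ((XN x) ∘ₗ T ∘ₗ LinearMap.snd A _ _))
  let θ : α → (((Fin p → A) × (Fin p → A)) →ₗ[A] (Fin p → MonoidAlgebra A (FreeGroup α))) :=
    fun x => (c ∘ₗ LinearMap.fst A _ _) - ((X x) ∘ₗ c ∘ₗ LinearMap.snd A _ _)
  have hE : ∀ x a b, (a, b) ∈ E x ↔
      T a = (single (FreeGroup.of x) (1 : A) : MonoidAlgebra A (FreeGroup α)) • T b := by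
    intro x a b
    change T a - _ = 0 ↔ _
    rw [sub_eq_zero]
    rfl
  have hθ : ∀ x a b, θ x (a, b) =
      c a - (single (FreeGroup.of x) (1 : A) : MonoidAlgebra A (FreeGroup α)) • c b := by
    intro x a b
    rfl
  have hspanfg : ∀ L : Submodule A (Fin p → MonoidAlgebra A (FreeGroup α)), L.FG →
      (Submodule.span (MonoidAlgebra A (FreeGroup α))
        (L : Set (Fin p → MonoidAlgebra A (FreeGroup α)))).FG := by
    rintro L ⟨s, rfl⟩
    rw [Submodule.span_span_of_tower]
    exact ⟨s, rfl⟩
  let K1 : Submodule (MonoidAlgebra A (FreeGroup α)) (Fin p → MonoidAlgebra A (FreeGroup α)) :=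
    (⨆ x, Submodule.span (MonoidAlgebra A (FreeGroup α)) ((E x).map (θ x) : Set (Fin p → MonoidAlgebra A (FreeGroup α))))
      ⊔ Submodule.span (MonoidAlgebra A (FreeGroup α)) ((LinearMap.ker T).map c : Set (Fin p → MonoidAlgebra A (FreeGroup α)))
  have hK1 : K1.FG := by
    refine Submodule.FG.sup (Submodule.fg_iSup _ fun x => hspanfg _ ?_) (hspanfg _ ?_)
    · exact (IsNoetherian.noetherian (E x)).map _
    · exact (IsNoetherian.noetherian (LinearMap.ker T)).map _
  have hKE : ∀ x a b, (a, b) ∈ E x → θ x (a, b) ∈ K1 := fun x a b hab =>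
    Submodule.mem_sup_left (Submodule.mem_iSup_of_mem x (Submodule.subset_span ⟨(a, b), hab, rfl⟩))
  have hKT : ∀ a, T a = 0 → c a ∈ K1 := fun a ha =>
    Submodule.mem_sup_right (Submodule.subset_span ⟨a, ha, rfl⟩)
  suffices hker : LinearMap.ker h = K1 by rw [hker]; exact hK1
  apply le_antisymm
  · intro z hz
    rw [LinearMap.mem_ker, hh, ← r3_sum_W] at hz
    have hM0 : ∀ g, r3W m z g ∈ M0 := by
      intro g
      rw [r3W_apply, ← hm]
      exact Submodule.sum_mem _ fun j _ =>
        Submodule.smul_mem _ _ (Submodule.subset_span ⟨j, rfl⟩)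
    obtain ⟨zz, hzz, hbd⟩ := bd_exact (actHom A α N) (M0 := M0.toAddSubgroup) hBP (r3W m z)
      hM0 hz
    have hab : ∀ q : α × FreeGroup α, ∃ ab : (Fin p → A) × (Fin p → A),
        T ab.1 = zz q ∧ T ab.2 = actHom A α N (FreeGroup.of q.1)⁻¹ (zz q) := by
      intro q
      have h1 : zz q ∈ LinearMap.range T := by rw [hTr]; exact (hzz q).1
      have h2 : actHom A α N (FreeGroup.of q.1)⁻¹ (zz q) ∈ LinearMap.range T := by
        rw [hTr]; exact (hzz q).2
      obtain ⟨a, ha⟩ := h1
      obtain ⟨b, hb⟩ := h2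
      exact ⟨(a, b), ha, hb⟩
    choose ab hab1 hab2 using hab
    have habE : ∀ q, ab q ∈ E q.1 := by
      intro q
      change ((ab q).1, (ab q).2) ∈ E q.1
      rw [hE, hab1, hab2]
      change zz q = (actHom A α N (FreeGroup.of q.1)) (actHom A α N (FreeGroup.of q.1)⁻¹ (zz q))
      have h3 : (actHom A α N (FreeGroup.of q.1)) * (actHom A α N (FreeGroup.of q.1)⁻¹) = 1 := by
        rw [← map_mul, mul_inv_cancel, map_one]
      exact (DFunLike.congr_fun h3 (zz q)).symm
    let y : Fin p → MonoidAlgebra A (FreeGroup α) := ∑ q ∈ zz.support,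
      (single q.2 (1 : A) : MonoidAlgebra A (FreeGroup α)) • θ q.1 (ab q)
    have hy : y ∈ K1 := Submodule.sum_mem _ fun q _ =>
      Submodule.smul_mem _ _ (hKE q.1 (ab q).1 (ab q).2 (habE q))
    have hWy : r3W m y = r3W m z := by
      rw [← hbd, map_sum, bd, Finsupp.sum]
      refine Finset.sum_congr rfl fun q _ => ?_
      change r3W m ((single q.2 (1 : A) : MonoidAlgebra A (FreeGroup α)) •
        θ q.1 ((ab q).1, (ab q).2)) = _
      rw [hθ, smul_sub, map_sub, ← mul_smul, single_mul_single, one_mul, hWc, hWc, hab1, hab2]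
    have hz' : z - y ∈ K1 := by
      -- every coefficient is a relation
      have h1 : ∀ g, T (fun j => ((z - y) j).coeff g) = 0 := by
        intro g
        rw [hT, ← r3W_apply, map_sub, hWy, sub_self]
        rfl
      let s : Finset (FreeGroup α) := Finset.univ.biUnion fun j => ((z - y) j).coeff.support
      have h2 : z - y = ∑ g ∈ s, (single g (1 : A) : MonoidAlgebra A (FreeGroup α)) •
          c (fun j => ((z - y) j).coeff g) := by
        funext j
        rw [Finset.sum_apply]
        have h3 := r3_smul_eq_sum (N := MonoidAlgebra A (FreeGroup α)) ((z - y) j) 1 s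
          (Finset.subset_biUnion_of_mem (fun j => ((z - y) j).coeff.support) (Finset.mem_univ j))
        rw [smul_eq_mul, mul_one] at h3
        rw [h3]
        refine Finset.sum_congr rfl fun g _ => ?_
        rw [Pi.smul_apply, smul_eq_mul, smul_eq_mul, mul_one, r3c_apply, single_mul_single,
          one_mul, mul_one]
      rw [h2]
      exact Submodule.sum_mem _ fun g _ => Submodule.smul_mem _ _ (hKT _ (h1 g))
    have := K1.add_mem hz' hy
    rwa [sub_add_cancel] at this
  · refine sup_le (iSup_le fun x => ?_) ?_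
    · rw [Submodule.span_le]
      rintro _ ⟨⟨a, b⟩, hab, rfl⟩
      change h (θ x (a, b)) = 0
      rw [hθ, map_sub, map_smul, hc, hc, sub_eq_zero]
      exact (hE x a b).1 hab
    · rw [Submodule.span_le]
      rintro _ ⟨a, ha, rfl⟩
      change h (c a) = 0
      rw [hc]
      exact ha
end

end Pool.Agent.Lib.MP_98022b_UN
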