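import Mathlib
import Pool.Agent.Lib.MP_98022b_UN.ModDefs
open MonoidAlgebra

namespace Pool.Agent.Lib.MP_98022b_UN

universe u v w x

section
variable {A : Type u} [CommRing A] {α : Type u} [DecidableEq α] {k : ℕ}

omit [DecidableEq α] in
theorem r4_act_coeff (g p : FreeGroup α) (m : Fin k → MonoidAlgebra A (FreeGroup α)) (i : Fin k) :
    ((actHom A α (Fin k → MonoidAlgebra A (FreeGroup α)) g m) i).coeff p =
      (m i).coeff (g⁻¹ * p) := by
  change (((single g (1 : A) : MonoidAlgebra A (FreeGroup α)) • m) i).coeff p = _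
  rw [Pi.smul_apply, smul_eq_mul, MonoidAlgebra.coeff_single_mul_apply]
  simp

/-- R4a -/
theorem bp_ball (M : Submodule (MonoidAlgebra A (FreeGroup α))
    (Fin k → MonoidAlgebra A (FreeGroup α))) (n : ℕ) :
    BP (actHom A α (Fin k → MonoidAlgebra A (FreeGroup α))) (ballSub M n).toAddSubgroup := by
  intro w hw h0 g y hmax hlt
  change _ ∈ ballSub M n
  refine ⟨M.smul_mem _ (hw g).1, fun i p hp => ?_⟩
  rw [r4_act_coeff] at hp
  set z := g * ((ltr y)⁻¹ * p) with hz
  have h1 : ((w.sum fun h m => actHom A α (Fin k → MonoidAlgebra A (FreeGroup α)) h m) i).coeff z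
      = 0 := by rw [h0]; simp
  rw [Finsupp.sum, Finset.sum_apply, coeff_sum, Finsupp.finsetSum_apply] at h1
  have h2 : ∀ h, ((actHom A α (Fin k → MonoidAlgebra A (FreeGroup α)) h (w h)) i).coeff z =
      (w h i).coeff (h⁻¹ * z) := fun h => r4_act_coeff _ _ _ _
  simp only [h2] at h1
  have hg : (w g i).coeff (g⁻¹ * z) ≠ 0 := by
    rw [hz, inv_mul_cancel_left]; exact hp
  have hgs : g ∈ w.support := by
    rw [Finsupp.mem_support_iff]
    intro h
    rw [h] at hg
    simp at hg
  have h3 : ∃ h ∈ w.support.erase g, (w h i).coeff (h⁻¹ * z) ≠ 0 := by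
    by_contra hcon
    push Not at hcon
    rw [← Finset.add_sum_erase _ _ hgs, Finset.sum_eq_zero hcon, add_zero] at h1
    exact hg h1
  obtain ⟨h, hh, hhz⟩ := h3
  rw [Finset.mem_erase, Finsupp.mem_support_iff] at hh
  have h4 := near_parent (g := g) (h := h) (p := z) (y := y) (N := n) hlt hh.1 (hmax h hh.2)
    ((hw g).2 i _ hg) ((hw h).2 i _ hhz)
  rw [hz] at h4
  have h5 : (g * (ltr y)⁻¹)⁻¹ * (g * ((ltr y)⁻¹ * p)) = p := by group
  rwa [h5] at h4

/-- R4b -/
theorem exists_ball {M : Submodule (MonoidAlgebra A (FreeGroup α))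
    (Fin k → MonoidAlgebra A (FreeGroup α))} (hM : M.FG) :
    ∃ n, Submodule.span (MonoidAlgebra A (FreeGroup α)) (ballSub M n : Set _) = M := by
  classical
  obtain ⟨s, hs⟩ := hM
  let n := s.sup fun m => Finset.univ.sup fun i => (m i).coeff.support.sup FreeGroup.norm
  refine ⟨n, le_antisymm ?_ ?_⟩
  · rw [Submodule.span_le]
    intro x hx
    exact hx.1
  · conv_lhs => rw [← hs]
    rw [Submodule.span_le]
    intro m hm
    apply Submodule.subset_span
    refine ⟨hs ▸ Submodule.subset_span hm, fun i g hg => ?_⟩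
    calc g.norm ≤ (m i).coeff.support.sup FreeGroup.norm :=
          Finset.le_sup (f := FreeGroup.norm) (Finsupp.mem_support_iff.2 hg)
      _ ≤ Finset.univ.sup fun i => (m i).coeff.support.sup FreeGroup.norm :=
          Finset.le_sup (f := fun i => (m i).coeff.support.sup FreeGroup.norm) (Finset.mem_univ i)
      _ ≤ n := Finset.le_sup
          (f := fun m : Fin k → MonoidAlgebra A (FreeGroup α) =>
            Finset.univ.sup fun i => (m i).coeff.support.sup FreeGroup.norm) hm

theorem r4_ball_finite [Finite α] (n : ℕ) : {g : FreeGroup α | g.norm ≤ n}.Finite := by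
  have h : (FreeGroup.toWord ⁻¹' {l : List (α × Bool) | l.length ≤ n}).Finite :=
    (List.finite_length_le (α × Bool) n).preimage FreeGroup.toWord_injective.injOn
  exact h

/-- R4c: `ballSub` embeds in a finitely generated free module -/
theorem ball_fg [Finite α] [IsNoetherianRing A] (M : Submodule (MonoidAlgebra A (FreeGroup α))
    (Fin k → MonoidAlgebra A (FreeGroup α))) (n : ℕ) : (ballSub M n).FG := by
  classical
  let D := {g : FreeGroup α | g.norm ≤ n}
  have hD : Finite D := (r4_ball_finite n).to_subtype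
  let φ : (Fin k → MonoidAlgebra A (FreeGroup α)) →ₗ[A] (Fin k → D → A) :=
    LinearMap.pi fun i => LinearMap.pi fun d =>
      (Finsupp.lapply (d : FreeGroup α)) ∘ₗ
        (MonoidAlgebra.coeffLinearEquiv (S := A) (M := FreeGroup α) A).toLinearMap ∘ₗ
          (LinearMap.proj i)
  have hφ : ∀ m i d, φ m i d = (m i).coeff (d : FreeGroup α) := fun m i d => rfl
  have hinj : Function.Injective (φ ∘ₗ (ballSub M n).subtype) := by
    intro a b hab
    apply Subtype.ext
    funext i
    ext g
    by_cases hg : g.norm ≤ n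
    · exact congrFun (congrFun hab i) ⟨g, hg⟩
    · have ha : ((a : Fin k → MonoidAlgebra A (FreeGroup α)) i).coeff g = 0 := by
        by_contra h; exact hg (a.2.2 i g h)
      have hb : ((b : Fin k → MonoidAlgebra A (FreeGroup α)) i).coeff g = 0 := by
        by_contra h; exact hg (b.2.2 i g h)
      rw [ha, hb]
  have hN : IsNoetherian A (ballSub M n) := isNoetherian_of_injective _ hinj
  exact (Submodule.fg_top _).1 (hN.noetherian ⊤)

end

end Pool.Agent.Lib.MP_98022b_UN
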