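import Mathlib
import Pool.Agent.Lib.MP_98022b_UN.R3a
import Pool.Agent.Lib.MP_98022b_UN.R3b
import Pool.Agent.Lib.MP_98022b_UN.R4
open MonoidAlgebra

namespace Pool.Agent.Lib.MP_98022b_UN

universe u v w x

section
variable {A : Type u} [CommRing A] {α : Type u} [DecidableEq α] {k : ℕ}

/-- R5-1: coherence -/
theorem fg_ker [Finite α] [IsNoetherianRing A] {l : ℕ}
    (f : (Fin k → MonoidAlgebra A (FreeGroup α)) →ₗ[MonoidAlgebra A (FreeGroup α)]
      (Fin l → MonoidAlgebra A (FreeGroup α))) : (LinearMap.ker f).FG := by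
  have hM : (LinearMap.range f).FG := by
    rw [LinearMap.range_eq_map]
    exact (Module.Finite.fg_top).map _
  obtain ⟨n, hn⟩ := exists_ball hM
  exact ker_fg_of_BP (ballSub (LinearMap.range f) n) (bp_ball _ n) (ball_fg _ n) f hn.symm

end

/-- R5-2 -/
theorem range_projective_of_field {A : Type u} [Field A] {α : Type u} [DecidableEq α] {k l : ℕ}
    (f : (Fin k → MonoidAlgebra A (FreeGroup α)) →ₗ[MonoidAlgebra A (FreeGroup α)]
      (Fin l → MonoidAlgebra A (FreeGroup α))) :
    Module.Projective (MonoidAlgebra A (FreeGroup α)) (LinearMap.range f) := by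
  have h1 := ker_projective_of_BP (A := A) (α := α)
    (N := (Fin l → MonoidAlgebra A (FreeGroup α)) ⧸ LinearMap.range f) ⊤
    (fun _ _ _ _ _ _ _ => trivial) inferInstance (fun x => inferInstance)
    (LinearMap.range f).mkQ (by
      rw [Submodule.range_mkQ, Submodule.top_coe, Submodule.span_univ])
  rwa [Submodule.ker_mkQ] at h1

/-- R5-3 -/
theorem ker_projective_of_pid {A : Type u} [CommRing A] [IsDomain A] [IsPrincipalIdealRing A]
    {α : Type u} [DecidableEq α] [Finite α] {k l : ℕ}
    (f : (Fin k → MonoidAlgebra A (FreeGroup α)) →ₗ[MonoidAlgebra A (FreeGroup α)]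
      (Fin l → MonoidAlgebra A (FreeGroup α))) :
    Module.Projective (MonoidAlgebra A (FreeGroup α)) (LinearMap.ker f) := by
  have hM : (LinearMap.range f).FG := by
    rw [LinearMap.range_eq_map]
    exact (Module.Finite.fg_top).map _
  obtain ⟨n, hn⟩ := exists_ball hM
  have h0 : Module.Free A (MonoidAlgebra A (FreeGroup α)) :=
    Module.Free.of_equiv (MonoidAlgebra.coeffLinearEquiv (S := A) (M := FreeGroup α) A).symm
  have h1 : Module.IsTorsionFree A (Fin l → MonoidAlgebra A (FreeGroup α)) := inferInstance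
  have h2 : Module.Finite A (ballSub (LinearMap.range f) n) :=
    Module.Finite.iff_fg.2 (ball_fg _ n)
  have h3 : Module.IsTorsionFree A (ballSub (LinearMap.range f) n) := inferInstance
  have h4 : IsNoetherian A (ballSub (LinearMap.range f) n) := inferInstance
  refine ker_projective_of_BP (ballSub (LinearMap.range f) n) (bp_ball _ n) inferInstance
    (fun x => ?_) f hn.symm
  have h5 : edgeSub (ballSub (LinearMap.range f) n) x ≤ ballSub (LinearMap.range f) n :=
    fun m hm => hm.1
  have h6 : Module.Finite A (edgeSub (ballSub (LinearMap.range f) n) x) :=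
    Module.Finite.of_injective (Submodule.inclusion h5) (Submodule.inclusion_injective h5)
  have h7 : Module.IsTorsionFree A (edgeSub (ballSub (LinearMap.range f) n) x) := inferInstance
  exact inferInstance

/-- kernels of maps from finitely generated free modules to free modules are projective -/
theorem r5_ker {A : Type u} [CommRing A]
    (hA : ∀ (k l : ℕ) (f : (Fin k → A) →ₗ[A] (Fin l → A)),
      Module.Projective A (LinearMap.ker f)) {ι : Type v} [Finite ι] {F : Type w} [AddCommGroup F]
      [Module A F] [Module.Free A F] (φ : (ι → A) →ₗ[A] F) :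
    Module.Projective A (LinearMap.ker φ) := by
  classical
  -- a finite set of coordinates detecting the image
  let b := Module.Free.chooseBasis A F
  have := Fintype.ofFinite ι
  let s : Finset (Module.Free.ChooseBasisIndex A F) :=
    Finset.univ.biUnion fun i : ι => (b.repr (φ (Pi.single i 1))).support
  let π : F →ₗ[A] (s → A) := LinearMap.pi fun j => b.coord (j : Module.Free.ChooseBasisIndex A F)
  have hπ : LinearMap.ker (π ∘ₗ φ) = LinearMap.ker φ := by
    apply le_antisymm
    · intro x hx
      rw [LinearMap.mem_ker] at hx ⊢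
      apply b.repr.injective
      rw [map_zero]
      ext j
      by_cases hj : j ∈ s
      · exact congrFun hx ⟨j, hj⟩
      · have h1 : x = ∑ i, x i • (Pi.single i (1 : A)) := by
          funext j
          simp [Finset.sum_apply, Pi.single_apply]
        rw [h1, map_sum, map_sum, Finsupp.finsetSum_apply]
        apply Finset.sum_eq_zero
        intro i _
        rw [map_smul, map_smul, Finsupp.smul_apply]
        have h2 : (b.repr (φ (Pi.single i 1))) j = 0 := by
          by_contra h
          exact hj (Finset.mem_biUnion.2 ⟨i, Finset.mem_univ i, Finsupp.mem_support_iff.2 h⟩)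
        rw [h2, smul_zero]
    · intro x hx
      rw [LinearMap.mem_ker] at hx ⊢
      rw [LinearMap.comp_apply, hx, map_zero]
  let e1 : (Fin (Fintype.card ι) → A) ≃ₗ[A] (ι → A) :=
    LinearEquiv.funCongrLeft A A (Fintype.equivFin ι)
  let e2 : (s → A) ≃ₗ[A] (Fin (Fintype.card s) → A) :=
    LinearEquiv.funCongrLeft A A (Fintype.equivFin s).symm
  have h1 := hA _ _ (e2.toLinearMap ∘ₗ (π ∘ₗ φ) ∘ₗ e1.toLinearMap)
  have h2 : (LinearMap.ker (e2.toLinearMap ∘ₗ (π ∘ₗ φ) ∘ₗ e1.toLinearMap)).map e1.toLinearMap =
      LinearMap.ker φ := by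
    rw [← hπ]
    ext x
    simp only [Submodule.mem_map, LinearMap.mem_ker, LinearMap.comp_apply,
      LinearEquiv.coe_coe, EmbeddingLike.map_eq_zero_iff]
    constructor
    · rintro ⟨y, hy, rfl⟩
      exact hy
    · intro hx
      exact ⟨e1.symm x, by rwa [LinearEquiv.apply_symm_apply], by simp⟩
  rw [← h2]
  exact Module.Projective.of_equiv (e1.submoduleMap _)

/-- the submodule of elements of a kernel with support in a given finite set is projective -/
theorem r5_supp {A : Type u} [CommRing A]
    (hA : ∀ (k l : ℕ) (f : (Fin k → A) →ₗ[A] (Fin l → A)),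
      Module.Projective A (LinearMap.ker f))
    {α : Type u} {l m : ℕ}
    (g : (Fin l → MonoidAlgebra A (FreeGroup α)) →ₗ[MonoidAlgebra A (FreeGroup α)]
      (Fin m → MonoidAlgebra A (FreeGroup α)))
    (D : Set (FreeGroup α)) (hD : D.Finite)
    (L : Submodule A (Fin l → MonoidAlgebra A (FreeGroup α)))
    (hL : ∀ x, x ∈ L ↔ g x = 0 ∧ ∀ i p, (x i).coeff p ≠ 0 → p ∈ D) :
    Module.Projective A L := by
  classical
  have hDf : Finite D := hD.to_subtype
  have := Fintype.ofFinite D
  have h0 : Module.Free A (MonoidAlgebra A (FreeGroup α)) :=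
    Module.Free.of_equiv (MonoidAlgebra.coeffLinearEquiv (S := A) (M := FreeGroup α) A).symm
  let c : (Fin l × D → A) →ₗ[A] (Fin l → MonoidAlgebra A (FreeGroup α)) :=
    LinearMap.pi fun i => ∑ d : D,
      (MonoidAlgebra.coeffLinearEquiv (S := A) (M := FreeGroup α) A).symm.toLinearMap ∘ₗ
        (Finsupp.lsingle (d : FreeGroup α)) ∘ₗ (LinearMap.proj (i, d))
  have hc : ∀ v i, c v i = ∑ d : D, (single (d : FreeGroup α) (v (i, d)) :
      MonoidAlgebra A (FreeGroup α)) := by
    intro v i
    change (∑ d : D, _ : (Fin l × D → A) →ₗ[A] MonoidAlgebra A (FreeGroup α)) v = _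
    rw [LinearMap.sum_apply]
    rfl
  have hcc : ∀ v i (p : FreeGroup α), (c v i).coeff p =
      if h : p ∈ D then v (i, ⟨p, h⟩) else 0 := by
    intro v i p
    rw [hc, coeff_sum, Finsupp.finsetSum_apply]
    split_ifs with h
    · rw [Finset.sum_eq_single ⟨p, h⟩]
      · simp
      · intro d _ hd
        rw [coeff_single, Finsupp.single_eq_of_ne]
        intro h'
        exact hd (Subtype.ext h'.symm)
      · intro h'
        exact absurd (Finset.mem_univ _) h'
    · apply Finset.sum_eq_zero
      intro d _
      rw [coeff_single, Finsupp.single_eq_of_ne]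
      intro h'
      exact h (h' ▸ d.2)
  have hcinj : Function.Injective c := by
    intro v v' h
    funext ⟨i, d⟩
    have h1 := hcc v i d
    rw [h, hcc v' i d] at h1
    simpa using h1.symm
  have hker := r5_ker hA ((g.restrictScalars A) ∘ₗ c)
  have hmap : (LinearMap.ker ((g.restrictScalars A) ∘ₗ c)).map c = L := by
    ext x
    rw [Submodule.mem_map, hL]
    constructor
    · rintro ⟨v, hv, rfl⟩
      refine ⟨hv, fun i p hp => ?_⟩
      rw [hcc] at hp
      by_contra h
      rw [dif_neg h] at hp
      exact hp rfl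
    · rintro ⟨hx, hs⟩
      have hcx : c (fun q => (x q.1).coeff (q.2 : FreeGroup α)) = x := by
        funext i
        ext p
        rw [hcc]
        split_ifs with h
        · rfl
        · by_contra h'
          exact h (hs i p (Ne.symm h'))
      refine ⟨_, ?_, hcx⟩
      rw [LinearMap.mem_ker, LinearMap.comp_apply, hcx]
      exact hx
  rw [← hmap]
  exact Module.Projective.of_equiv (Submodule.equivMapOfInjective c hcinj _)

/-- R5-4 -/
theorem ker_projective_of_exact {A : Type u} [CommRing A]
    (hA : ∀ (k l : ℕ) (f : (Fin k → A) →ₗ[A] (Fin l → A)),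
      Module.Projective A (LinearMap.ker f))
    {α : Type u} [DecidableEq α] [Finite α] {k l m : ℕ}
    (f : (Fin k → MonoidAlgebra A (FreeGroup α)) →ₗ[MonoidAlgebra A (FreeGroup α)]
      (Fin l → MonoidAlgebra A (FreeGroup α)))
    (g : (Fin l → MonoidAlgebra A (FreeGroup α)) →ₗ[MonoidAlgebra A (FreeGroup α)]
      (Fin m → MonoidAlgebra A (FreeGroup α)))
    (hfg : LinearMap.range f = LinearMap.ker g) :
    Module.Projective (MonoidAlgebra A (FreeGroup α)) (LinearMap.ker f) := by
  have hM : (LinearMap.ker g).FG := by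
    rw [← hfg, LinearMap.range_eq_map]
    exact (Module.Finite.fg_top).map _
  obtain ⟨n, hn⟩ := exists_ball hM
  refine ker_projective_of_BP (ballSub (LinearMap.ker g) n) (bp_ball _ n) ?_
    (fun x => ?_) f (hfg.trans hn.symm)
  · refine r5_supp hA g {p | p.norm ≤ n} (r4_ball_finite n) _ fun x => ?_
    rfl
  · refine r5_supp hA g {p | p.norm ≤ n ∧ ((FreeGroup.of x)⁻¹ * p).norm ≤ n}
      ((r4_ball_finite n).subset fun p hp => hp.1) _ fun y => ?_
    constructor
    · rintro ⟨⟨h1, h2⟩, h3, h4⟩
      refine ⟨h1, fun i p hp => ⟨h2 i p hp, h4 i _ ?_⟩⟩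
      rw [Pi.smul_apply, smul_eq_mul, MonoidAlgebra.coeff_single_mul_apply]
      simpa using hp
    · rintro ⟨h1, h2⟩
      refine ⟨⟨h1, fun i p hp => (h2 i p hp).1⟩, ?_, fun i p hp => ?_⟩
      · exact Submodule.smul_mem _ _ h1
      · rw [Pi.smul_apply, smul_eq_mul, MonoidAlgebra.coeff_single_mul_apply, inv_inv, one_mul]
          at hp
        have := (h2 i _ hp).2
        rwa [inv_mul_cancel_left] at this

end Pool.Agent.Lib.MP_98022b_UN
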