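import Mathlib
import Pool.Agent.Lib.MP_98022b_UN.R5

/-! The base rings `ℤ` and `ℤ[z, z⁻¹]` satisfy the hypotheses of the vanishing theorem. -/

open MonoidAlgebra
open scoped LaurentPolynomial

namespace Pool.Agent.UNh12

universe u v

/-- kernels of matrices over a principal ideal domain are projective -/
theorem ker_projective_pid {A : Type u} [CommRing A] [IsDomain A] [IsPrincipalIdealRing A]
    (k l : ℕ) (f : (Fin k → A) →ₗ[A] (Fin l → A)) : Module.Projective A (LinearMap.ker f) := by
  infer_instance

/-- projectivity of kernels of matrices is invariant under ring isomorphisms -/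
theorem ker_projective_transport {R : Type u} {S : Type v} [Ring R] [Ring S] (e : R ≃+* S)
    (hR : ∀ (k l : ℕ) (f : (Fin k → R) →ₗ[R] (Fin l → R)), Module.Projective R (LinearMap.ker f))
    (k l : ℕ) (f : (Fin k → S) →ₗ[S] (Fin l → S)) : Module.Projective S (LinearMap.ker f) := by
  let f' : (Fin k → R) →ₗ[R] (Fin l → R) :=
    { toFun := fun x i => e.symm (f (fun j => e (x j)) i)
      map_add' := fun x y => by
        funext i
        have : (fun j => e ((x + y) j)) = (fun j => e (x j)) + fun j => e (y j) := by
          funext j; simp
        rw [this, map_add]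
        simp
      map_smul' := fun r x => by
        funext i
        have : (fun j => e ((r • x) j)) = e r • fun j => e (x j) := by
          funext j; simp
        rw [this, map_smul]
        simp }
  let _ : RingHomInvPair (e : R →+* S) (e.symm : S →+* R) := RingHomInvPair.of_ringEquiv e
  let _ : RingHomInvPair (e.symm : S →+* R) (e : R →+* S) := RingHomInvPair.symm _ _
  have hf : ∀ x : Fin k → R, f (fun j => e (x j)) = fun i => e (f' x i) := by
    intro x
    funext i
    simp [f']
  let E : LinearMap.ker f' ≃ₛₗ[(e : R →+* S)] LinearMap.ker f :=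
    { toFun := fun x => ⟨fun j => e (x.1 j), by
        rw [LinearMap.mem_ker, hf, LinearMap.mem_ker.1 x.2]
        funext i
        simp⟩
      invFun := fun y => ⟨fun j => e.symm (y.1 j), by
        rw [LinearMap.mem_ker]
        funext i
        have h1 := congrFun (hf fun j => e.symm (y.1 j)) i
        have h2 : (fun j => e (e.symm (y.1 j))) = y.1 := by funext j; simp
        rw [h2, LinearMap.mem_ker.1 y.2] at h1
        apply e.injective
        rw [← h1]
        simp⟩
      left_inv := fun x => by apply Subtype.ext; funext j; simp
      right_inv := fun y => by apply Subtype.ext; funext j; simp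
      map_add' := fun x y => by apply Subtype.ext; funext j; simp
      map_smul' := fun r x => by apply Subtype.ext; funext j; simp }
  have := hR k l f'
  exact Module.Projective.of_equiv E

/-- the free group on one letter is infinite cyclic -/
noncomputable def freeUnitEquiv : FreeGroup Unit ≃* Multiplicative ℤ :=
  MonoidHom.toMulEquiv (FreeGroup.lift fun _ => Multiplicative.ofAdd (1 : ℤ))
    (zpowersHom (FreeGroup Unit) (FreeGroup.of ()))
    (by ext; simp)
    (by
      ext
      simp)

/-- the group ring of an infinite cyclic group and the Laurent polynomials -/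
noncomputable def laurentEquiv (A : Type u) [CommRing A] :
    MonoidAlgebra A (FreeGroup Unit) ≃+* A[T;T⁻¹] :=
  (MonoidAlgebra.mapDomainRingEquiv A freeUnitEquiv).trans
      (AddMonoidAlgebra.toMultiplicative A ℤ).symm

/-- kernels of matrices over `A[z, z⁻¹]`, `A` a principal ideal domain, are projective -/
theorem ker_projective_laurent {A : Type} [CommRing A] [IsDomain A] [IsPrincipalIdealRing A]
    (k l : ℕ) (f : (Fin k → A[T;T⁻¹]) →ₗ[A[T;T⁻¹]] (Fin l → A[T;T⁻¹])) :
    Module.Projective A[T;T⁻¹] (LinearMap.ker f) :=
  ker_projective_transport (laurentEquiv A)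
    (fun _ _ f => Pool.Agent.Lib.MP_98022b_UN.ker_projective_of_pid f) k l f

theorem laurent_ufd (A : Type u) [CommRing A] [IsDomain A] [UniqueFactorizationMonoid A] :
    UniqueFactorizationMonoid A[T;T⁻¹] :=
  UniqueFactorizationMonoid.of_isLocalization
    (Submonoid.powers (Polynomial.X : Polynomial A)) A[T;T⁻¹]

theorem laurent_noetherian (A : Type u) [CommRing A] [IsNoetherianRing A] :
    IsNoetherianRing A[T;T⁻¹] :=
  IsLocalization.isNoetherianRing (Submonoid.powers (Polynomial.X : Polynomial A)) A[T;T⁻¹]
    inferInstance

/-- the involution `z ↦ z⁻¹` -/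
@[reducible] noncomputable def laurentStar (A : Type u) [CommRing A] : StarRing A[T;T⁻¹] where
  star x := LaurentPolynomial.invert x
  star_involutive := LaurentPolynomial.involutive_invert
  star_mul x y := by
    change LaurentPolynomial.invert (x * y) = _
    rw [map_mul, mul_comm]
  star_add x y := map_add _ _ _

end Pool.Agent.UNh12
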