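import Mathlib
import Pool.Agent.Lib.MP_98022b_UN.Defs
import Pool.Agent.Lib.MP_98022b_UN.AdjL
import Pool.Agent.Lib.MP_98022b_UN.R5

open MonoidAlgebra

namespace Pool.Agent.Lib.MP_98022b_UN

universe u v w

section General

/-- a matrix whose row space is projective has a projector onto its left kernel -/
theorem r6b_split {S : Type u} [Ring S] {J K : Type} [Fintype J]
    (D : Matrix J K S)
    (hD : Module.Projective S (LinearMap.range (Matrix.vecMulLinear D))) :
    ∃ Q : Matrix J J S, Q * D = 0 ∧ ∀ y : Matrix Unit J S, y * D = 0 → y * Q = y := by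
  classical
  obtain ⟨g, hg⟩ := Module.projective_lifting_property
    (Matrix.vecMulLinear D).rangeRestrict LinearMap.id
    (LinearMap.surjective_rangeRestrict (Matrix.vecMulLinear D))
  set P : (J → S) →ₗ[S] (J → S) := LinearMap.id - g ∘ₗ (Matrix.vecMulLinear D).rangeRestrict
    with hP
  have hgf : ∀ z, Matrix.vecMulLinear D (g z) = (z : K → S) := by
    intro z
    have h1 := LinearMap.congr_fun hg z
    have h2 := congrArg (Subtype.val) h1
    exact h2
  have hfP : ∀ y, Matrix.vecMulLinear D (P y) = 0 := by
    intro y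
    have h1 := hgf ((Matrix.vecMulLinear D).rangeRestrict y)
    simp only [hP, LinearMap.sub_apply, LinearMap.id_apply, LinearMap.comp_apply, map_sub]
    rw [h1]
    exact sub_self _
  have hPy : ∀ y, Matrix.vecMulLinear D y = 0 → P y = y := by
    intro y hy
    have h1 : (Matrix.vecMulLinear D).rangeRestrict y = 0 := Subtype.ext hy
    simp only [hP, LinearMap.sub_apply, LinearMap.id_apply, LinearMap.comp_apply, h1, map_zero,
      sub_zero]
  let Q : Matrix J J S := fun j => P (Pi.single j 1)
  have hQ : ∀ y : J → S, Matrix.vecMul y Q = P y := by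
    intro y
    have h1 : y = ∑ j, y j • (Pi.single j (1 : S) : J → S) := by
      ext i
      simp [Finset.sum_apply, Pi.single_apply]
    conv_rhs => rw [h1, map_sum]
    ext i
    simp only [Matrix.vecMul, dotProduct, Finset.sum_apply, map_smul, Pi.smul_apply, smul_eq_mul]
    rfl
  refine ⟨Q, ?_, ?_⟩
  · ext i j
    have h1 := congrFun (hfP (Pi.single i 1)) j
    exact h1
  · intro y hy
    ext i j
    have h1 : Matrix.vecMulLinear D (y i) = 0 := by
      ext k
      exact congrFun (congrFun hy i) k
    have h2 := hPy (y i) h1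
    rw [← hQ] at h2
    exact congrFun h2 j

/-- the map given by a matrix, reindexed -/
theorem r6b_range_equiv {S : Type u} [Ring S] {J K : Type} {k l : ℕ}
    (eJ : J ≃ Fin k) (eK : K ≃ Fin l)
    (f : (J → S) →ₗ[S] (K → S))
    (h : Module.Projective S (LinearMap.range
      ((LinearEquiv.funCongrLeft S S eK.symm).toLinearMap ∘ₗ f ∘ₗ
        (LinearEquiv.funCongrLeft S S eJ).toLinearMap))) :
    Module.Projective S (LinearMap.range f) := by
  have h1 : LinearMap.range
      ((LinearEquiv.funCongrLeft S S eK.symm).toLinearMap ∘ₗ f ∘ₗ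
        (LinearEquiv.funCongrLeft S S eJ).toLinearMap) =
      (LinearMap.range f).map (LinearEquiv.funCongrLeft S S eK.symm).toLinearMap := by
    rw [LinearMap.range_comp, LinearMap.range_comp, LinearEquiv.range, Submodule.map_top]
  rw [h1] at h
  exact Module.Projective.of_equiv
    ((LinearEquiv.funCongrLeft S S eK.symm).submoduleMap (LinearMap.range f)).symm

/-- the map given by a matrix, reindexed -/
theorem r6b_ker_equiv {S : Type u} [Ring S] {J K : Type} {k l : ℕ}
    (eJ : J ≃ Fin k) (eK : K ≃ Fin l)
    (f : (J → S) →ₗ[S] (K → S))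
    (h : Module.Projective S (LinearMap.ker
      ((LinearEquiv.funCongrLeft S S eK.symm).toLinearMap ∘ₗ f ∘ₗ
        (LinearEquiv.funCongrLeft S S eJ).toLinearMap))) :
    Module.Projective S (LinearMap.ker f) := by
  have h1 : (LinearMap.ker
      ((LinearEquiv.funCongrLeft S S eK.symm).toLinearMap ∘ₗ f ∘ₗ
        (LinearEquiv.funCongrLeft S S eJ).toLinearMap)).map
        (LinearEquiv.funCongrLeft S S eJ).toLinearMap = LinearMap.ker f := by
    ext x
    simp only [Submodule.mem_map, LinearMap.mem_ker]
    constructor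
    · rintro ⟨y, hy, rfl⟩
      have := (LinearEquiv.funCongrLeft S S eK.symm).map_eq_zero_iff.1 hy
      exact this
    · intro hx
      refine ⟨(LinearEquiv.funCongrLeft S S eJ).symm x, ?_, ?_⟩
      · have h2 : (LinearEquiv.funCongrLeft S S eJ)
            ((LinearEquiv.funCongrLeft S S eJ).symm x) = x :=
          LinearEquiv.apply_symm_apply _ _
        change (LinearEquiv.funCongrLeft S S eK.symm) (f ((LinearEquiv.funCongrLeft S S eJ)
            ((LinearEquiv.funCongrLeft S S eJ).symm x))) = 0
        rw [h2, hx, map_zero]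
      · exact LinearEquiv.apply_symm_apply (LinearEquiv.funCongrLeft S S eJ) x
  rw [← h1]
  exact Module.Projective.of_equiv
    ((LinearEquiv.funCongrLeft S S eJ).submoduleMap _)

end General

section Clear

variable {A : Type u} [CommRing A] {B : Type u} [CommRing B] [Algebra A B] {G : Type v} [Group G]

/-- clearing denominators -/
theorem r6b_clear (M : Submonoid A) [IsLocalization M B] {I J : Type} [Finite I] [Finite J]
    (X : Matrix I J (MonoidAlgebra B G)) :
    ∃ s ∈ M, ∃ Y : Matrix I J (MonoidAlgebra A G),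
      ∀ i j, MonoidAlgebra.mapRingHom G (algebraMap A B) (Y i j) = (algebraMap A B s) • X i j := by
  classical
  have := Fintype.ofFinite I
  have := Fintype.ofFinite J
  obtain ⟨b, hb⟩ := IsLocalization.exist_integer_multiples_of_finset M
    ((Finset.univ : Finset (I × J)).biUnion fun ij =>
      (X ij.1 ij.2).coeff.support.image (X ij.1 ij.2).coeff)
  have hc : ∀ i j g, ∃ c : A, algebraMap A B c = algebraMap A B b * (X i j).coeff g ∧
      ((X i j).coeff g = 0 → c = 0) := by
    intro i j g
    by_cases h0 : (X i j).coeff g = 0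
    · exact ⟨0, by simp [h0], fun _ => rfl⟩
    · obtain ⟨c, hc⟩ := hb ((X i j).coeff g) (by
        refine Finset.mem_biUnion.2 ⟨(i, j), Finset.mem_univ _, Finset.mem_image.2 ⟨g, ?_, rfl⟩⟩
        exact Finsupp.mem_support_iff.2 h0)
      refine ⟨c, ?_, fun h => absurd h h0⟩
      rw [hc, Algebra.smul_def]
  choose c hc1 hc2 using hc
  refine ⟨b, b.2, fun i j => MonoidAlgebra.ofCoeff (Finsupp.onFinset (X i j).coeff.support
    (c i j) (fun g hg => ?_)), ?_⟩
  · rw [Finsupp.mem_support_iff]
    intro h
    exact hg (hc2 i j g h)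
  · intro i j
    ext g
    rw [MonoidAlgebra.coeff_mapRingHom]
    simp [hc1, Algebra.smul_def]

theorem r6b_inj (h : Function.Injective (algebraMap A B)) :
    Function.Injective (MonoidAlgebra.mapRingHom G (algebraMap A B)) := by
  rw [MonoidAlgebra.coe_mapRingHom]
  exact MonoidAlgebra.map_injective _ h

theorem r6b_map_smul (a : A) (x : MonoidAlgebra A G) :
    MonoidAlgebra.mapRingHom G (algebraMap A B) (a • x) =
      (algebraMap A B a) • MonoidAlgebra.mapRingHom G (algebraMap A B) x := by
  ext g
  simp [Algebra.smul_def]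

end Clear

variable {A : Type u} [CommRing A] {α : Type u} [DecidableEq α] [Finite α]

/-- R6-2 -/
theorem free_c2 [IsDomain A] (J K : Type) [Fintype J] [Fintype K]
    (D : Matrix J K (MonoidAlgebra A (FreeGroup α))) :
    ∃ (a : A) (Q : Matrix J J (MonoidAlgebra A (FreeGroup α))), a ≠ 0 ∧ Q * D = 0 ∧
      ∀ y : Matrix Unit J (MonoidAlgebra A (FreeGroup α)), y * D = 0 → y * Q = a • y := by
  classical
  set φ := MonoidAlgebra.mapRingHom (FreeGroup α) (algebraMap A (FractionRing A)) with hφ
  have hinj : Function.Injective φ := r6b_inj (IsFractionRing.injective A (FractionRing A))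
  have hproj : Module.Projective (MonoidAlgebra (FractionRing A) (FreeGroup α))
      (LinearMap.range (Matrix.vecMulLinear (D.map φ))) := by
    apply r6b_range_equiv (Fintype.equivFin J) (Fintype.equivFin K)
    exact range_projective_of_field _
  obtain ⟨Q₀, hQ₀, hQ₁⟩ := r6b_split (D.map φ) hproj
  obtain ⟨a, ha, Q, hQ⟩ := r6b_clear (A := A) (nonZeroDivisors A) Q₀
  have hQm : Q.map φ = (algebraMap A (FractionRing A) a) • Q₀ := by
    ext1 i j
    exact hQ i j
  refine ⟨a, Q, nonZeroDivisors.ne_zero ha, ?_, ?_⟩
  · have h1 : (Q * D).map φ = 0 := by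
      rw [Matrix.map_mul, hQm, Matrix.smul_mul, hQ₀, smul_zero]
    ext1 i j
    apply hinj
    rw [Matrix.zero_apply, map_zero]
    exact congrFun (congrFun h1 i) j
  · intro y hy
    have h1 : y.map φ * D.map φ = 0 := by
      rw [← Matrix.map_mul, hy]
      ext1 i j
      simp
    have h2 := hQ₁ _ h1
    have h3 : (y * Q).map φ = (a • y).map φ := by
      rw [Matrix.map_mul, hQm, Matrix.mul_smul, h2]
      ext1 i j
      exact (r6b_map_smul a (y i j)).symm
    ext1 i j
    apply hinj
    exact congrFun (congrFun h3 i) j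

end Pool.Agent.Lib.MP_98022b_UN
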