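import Mathlib
import Pool.Agent.Lib.MP_98022b_UN.Defs
import Pool.Agent.Lib.MP_98022b_UN.AdjL
import Pool.Agent.Lib.MP_98022b_UN.R5
import Pool.Agent.Lib.MP_98022b_UN.R6b

open MonoidAlgebra

namespace Pool.Agent.Lib.MP_98022b_UN

universe u v w

/-- exactness in terms of ranges and kernels -/
theorem r6a_genL_iff {A : Type u} {G : Type v} [CommRing A] [Group G] {n J K : Type} [Fintype n]
    [Fintype J] (ω : Matrix n J (MonoidAlgebra A G)) (D : Matrix J K (MonoidAlgebra A G)) :
    GenL ω D ↔ LinearMap.range (Matrix.vecMulLinear ω) =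
      LinearMap.ker (Matrix.vecMulLinear D) := by
  classical
  constructor
  · intro h
    apply le_antisymm
    · rintro _ ⟨y, rfl⟩
      rw [LinearMap.mem_ker]
      simp only [Matrix.vecMulLinear_apply, Matrix.vecMul_vecMul, h.1, Matrix.vecMul_zero]
    · intro x hx
      rw [LinearMap.mem_ker, Matrix.vecMulLinear_apply] at hx
      obtain ⟨κ, hκ⟩ := h.2 (fun _ => x) (by
        ext1 i j
        exact congrFun hx j)
      refine ⟨κ (), ?_⟩
      rw [Matrix.vecMulLinear_apply]
      exact (congrFun hκ ()).symm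
  · intro h
    constructor
    · ext1 i j
      have h1 : ω i ∈ LinearMap.ker (Matrix.vecMulLinear D) := by
        rw [← h]
        refine ⟨Pi.single i 1, ?_⟩
        rw [Matrix.vecMulLinear_apply, Matrix.single_one_vecMul]
        rfl
      exact congrFun h1 j
    · intro x hx
      have h1 : x () ∈ LinearMap.range (Matrix.vecMulLinear ω) := by
        rw [h, LinearMap.mem_ker, Matrix.vecMulLinear_apply]
        exact congrFun hx ()
      obtain ⟨y, hy⟩ := h1
      refine ⟨fun _ => y, ?_⟩
      ext1 i j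
      exact (congrFun hy j).symm

/-- the kernel of a map, reindexed -/
theorem r6a_fg_ker_equiv {S : Type u} [Ring S] {J K : Type} {k l : ℕ}
    (eJ : J ≃ Fin k) (eK : K ≃ Fin l)
    (f : (J → S) →ₗ[S] (K → S))
    (h : (LinearMap.ker
      ((LinearEquiv.funCongrLeft S S eK.symm).toLinearMap ∘ₗ f ∘ₗ
        (LinearEquiv.funCongrLeft S S eJ).toLinearMap)).FG) :
    (LinearMap.ker f).FG := by
  have h1 : (LinearMap.ker
      ((LinearEquiv.funCongrLeft S S eK.symm).toLinearMap ∘ₗ f ∘ₗ
        (LinearEquiv.funCongrLeft S S eJ).toLinearMap)).map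
        (LinearEquiv.funCongrLeft S S eJ).toLinearMap = LinearMap.ker f := by
    ext x
    simp only [Submodule.mem_map, LinearMap.mem_ker]
    constructor
    · rintro ⟨y, hy, rfl⟩
      have := (LinearEquiv.funCongrLeft S S eK.symm).map_eq_zero_iff.1 hy
      exact this
    · intro hx
      refine ⟨(LinearEquiv.funCongrLeft S S eJ).symm x, ?_, ?_⟩
      · have h2 : (LinearEquiv.funCongrLeft S S eJ)
            ((LinearEquiv.funCongrLeft S S eJ).symm x) = x :=
          LinearEquiv.apply_symm_apply _ _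
        change (LinearEquiv.funCongrLeft S S eK.symm) (f ((LinearEquiv.funCongrLeft S S eJ)
            ((LinearEquiv.funCongrLeft S S eJ).symm x))) = 0
        rw [h2, hx, map_zero]
      · exact LinearEquiv.apply_symm_apply (LinearEquiv.funCongrLeft S S eJ) x
  rw [← h1]
  exact h.map _

variable {A : Type u} [CommRing A] {α : Type u} [DecidableEq α] [Finite α]

/-- R6-1 -/
theorem free_c1 [IsNoetherianRing A] (J K : Type) [Fintype J] [Fintype K]
    (D : Matrix J K (MonoidAlgebra A (FreeGroup α))) :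
    ∃ (n : ℕ) (ω : Matrix (Fin n) J (MonoidAlgebra A (FreeGroup α))), GenL ω D := by
  have h : (LinearMap.ker (Matrix.vecMulLinear D)).FG := by
    apply r6a_fg_ker_equiv (Fintype.equivFin J) (Fintype.equivFin K)
    exact fg_ker _
  obtain ⟨n, s, hs⟩ := Submodule.fg_iff_exists_fin_generating_family.1 h
  refine ⟨n, s, (r6a_genL_iff _ _).2 ?_⟩
  rw [← hs]
  ext x
  rw [Submodule.mem_span_range_iff_exists_fun, LinearMap.mem_range]
  constructor
  · rintro ⟨y, rfl⟩
    refine ⟨y, ?_⟩
    ext1 j
    simp [Matrix.vecMul, dotProduct]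
  · rintro ⟨y, rfl⟩
    refine ⟨y, ?_⟩
    ext1 j
    simp [Matrix.vecMul, dotProduct]

end Pool.Agent.Lib.MP_98022b_UN
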