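import Mathlib
import Pool.Agent.Lib.MP_98022b_UN.Defs
import Pool.Agent.Lib.MP_98022b_UN.AdjL
import Pool.Agent.Lib.MP_98022b_UN.R5
import Pool.Agent.Lib.MP_98022b_UN.R6b

open MonoidAlgebra

namespace Pool.Agent.Lib.MP_98022b_UN

universe u v w

/-- the localisation of a noetherian domain at a prime element is a principal ideal domain -/
theorem r6c_pid {A : Type u} [CommRing A] [IsDomain A] [IsNoetherianRing A] {p : A}
    (hp : Prime p) [hP : (Ideal.span {p}).IsPrime] :
    IsPrincipalIdealRing (Localization.AtPrime (Ideal.span {p})) := by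
  have h1 : IsNoetherianRing (Localization.AtPrime (Ideal.span {p})) :=
    IsLocalization.isNoetherianRing (Ideal.span {p}).primeCompl _ inferInstance
  have h2 : (IsLocalRing.maximalIdeal (Localization.AtPrime (Ideal.span {p}))).IsPrincipal := by
    rw [← Localization.AtPrime.map_eq_maximalIdeal, Ideal.map_span, Set.image_singleton]
    exact ⟨⟨_, rfl⟩⟩
  exact ((tfae_of_isNoetherianRing_of_isLocalRing_of_isDomain
    (Localization.AtPrime (Ideal.span {p}))).out 4 0).1 h2

variable {A : Type u} [CommRing A] {α : Type u} [DecidableEq α] [Finite α]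

/-- R6-3 -/
theorem free_c3 [IsDomain A] [IsNoetherianRing A] {p : A} (hp : Prime p) (n J K : Type)
    [Fintype n] [Fintype J] [Fintype K] (ω : Matrix n J (MonoidAlgebra A (FreeGroup α)))
    (D : Matrix J K (MonoidAlgebra A (FreeGroup α))) (h : GenL ω D) :
    ∃ (s : A) (M : Matrix n n (MonoidAlgebra A (FreeGroup α))), ¬ p ∣ s ∧ M * ω = s • ω ∧
      Fnl ω M := by
  classical
  have hP : (Ideal.span {p}).IsPrime := (Ideal.span_singleton_prime hp.ne_zero).2 hp
  have hpid := r6c_pid hp
  have hdom : IsDomain (Localization.AtPrime (Ideal.span {p})) := inferInstance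
  have hle : (Ideal.span {p}).primeCompl ≤ nonZeroDivisors A :=
    Ideal.primeCompl_le_nonZeroDivisors _
  set B := Localization.AtPrime (Ideal.span {p}) with hB
  set φ := MonoidAlgebra.mapRingHom (FreeGroup α) (algebraMap A B) with hφ
  have hinj : Function.Injective φ := r6b_inj (IsLocalization.injective B hle)
  have hker : Module.Projective (MonoidAlgebra B (FreeGroup α))
      (LinearMap.ker (Matrix.vecMulLinear (D.map φ))) := by
    apply r6b_ker_equiv (Fintype.equivFin J) (Fintype.equivFin K)
    exact ker_projective_of_pid _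
  have hωD : ω.map φ * D.map φ = 0 := by
    rw [← Matrix.map_mul, h.1]
    ext1 i j
    simp
  have hrk : LinearMap.range (Matrix.vecMulLinear (ω.map φ)) =
      LinearMap.ker (Matrix.vecMulLinear (D.map φ)) := by
    apply le_antisymm
    · rintro _ ⟨y, rfl⟩
      rw [LinearMap.mem_ker]
      simp only [Matrix.vecMulLinear_apply, Matrix.vecMul_vecMul, hωD, Matrix.vecMul_zero]
    · intro x hx
      rw [LinearMap.mem_ker, Matrix.vecMulLinear_apply] at hx
      set X : Matrix Unit J (MonoidAlgebra B (FreeGroup α)) := fun _ => x with hX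
      obtain ⟨s, hs, Y, hY⟩ := r6b_clear (A := A) (Ideal.span {p}).primeCompl X
      have hYm : Y.map φ = (algebraMap A B s) • X := by
        ext1 i j
        exact hY i j
      have hXD : X * D.map φ = 0 := by
        ext1 i j
        exact congrFun hx j
      have h1 : Y * D = 0 := by
        have h2 : (Y * D).map φ = 0 := by
          rw [Matrix.map_mul, hYm, Matrix.smul_mul, hXD, smul_zero]
        ext1 i j
        apply hinj
        rw [Matrix.zero_apply, map_zero]
        exact congrFun (congrFun h2 i) j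
      obtain ⟨κ, hκ⟩ := h.2 Y h1
      obtain ⟨u, hu⟩ := IsLocalization.map_units B (⟨s, hs⟩ : (Ideal.span {p}).primeCompl)
      have h3 : X = (↑u⁻¹ : B) • (κ.map φ) * ω.map φ := by
        rw [Matrix.smul_mul, ← Matrix.map_mul, ← hκ, hYm, smul_smul]
        have h4 : (↑u⁻¹ : B) * algebraMap A B s = 1 := by
          rw [← hu]; exact u.inv_mul
        rw [h4, one_smul]
      refine ⟨((↑u⁻¹ : B) • (κ.map φ)) (), ?_⟩
      rw [Matrix.vecMulLinear_apply]
      exact (congrFun h3 ()).symm
  have hproj : Module.Projective (MonoidAlgebra B (FreeGroup α))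
      (LinearMap.range (Matrix.vecMulLinear (ω.map φ))) := by
    rw [hrk]; exact hker
  obtain ⟨Q₀, hQ₀, hQ₁⟩ := r6b_split (ω.map φ) hproj
  obtain ⟨s, hs, M, hM⟩ := r6b_clear (A := A) (Ideal.span {p}).primeCompl (1 - Q₀)
  have hMm : M.map φ = (algebraMap A B s) • (1 - Q₀) := by
    ext1 i j
    exact hM i j
  refine ⟨s, M, ?_, ?_, ?_⟩
  · intro hd
    exact hs (Ideal.mem_span_singleton.2 hd)
  · have h1 : (M * ω).map φ = (s • ω).map φ := by
      rw [Matrix.map_mul, hMm, Matrix.smul_mul, Matrix.sub_mul, Matrix.one_mul, hQ₀, sub_zero]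
      ext1 i j
      exact (r6b_map_smul s (ω i j)).symm
    ext1 i j
    apply hinj
    exact congrFun (congrFun h1 i) j
  · intro κ hκ
    have h1 : κ.map φ * ω.map φ = 0 := by
      rw [← Matrix.map_mul, hκ]
      ext1 i j
      simp
    have h2 := hQ₁ _ h1
    have h3 : (κ * M).map φ = 0 := by
      rw [Matrix.map_mul, hMm, Matrix.mul_smul, Matrix.mul_sub, h2, Matrix.mul_one, sub_self,
        smul_zero]
    ext1 i j
    apply hinj
    rw [Matrix.zero_apply, map_zero]
    exact congrFun (congrFun h3 i) j

end Pool.Agent.Lib.MP_98022b_UN
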