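import Mathlib
import Pool.Agent.Lib.MP_98022b_UN.Defs
import Pool.Agent.Lib.MP_98022b_UN.AdjL
import Pool.Agent.Lib.MP_98022b_UN.R5
import Pool.Agent.Lib.MP_98022b_UN.R6b
import Pool.Agent.Lib.MP_98022b_UN.R6a

open MonoidAlgebra

namespace Pool.Agent.Lib.MP_98022b_UN

universe u v w

/-- the exact version, reindexed -/
theorem r6d_ker_projective {A : Type u} [CommRing A]
    (hA : ∀ (k l : ℕ) (f : (Fin k → A) →ₗ[A] (Fin l → A)),
      Module.Projective A (LinearMap.ker f))
    {α : Type u} [DecidableEq α] [Finite α] {J K L : Type} [Fintype J] [Fintype K] [Fintype L]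
    (f : (J → MonoidAlgebra A (FreeGroup α)) →ₗ[MonoidAlgebra A (FreeGroup α)]
      (K → MonoidAlgebra A (FreeGroup α)))
    (g : (K → MonoidAlgebra A (FreeGroup α)) →ₗ[MonoidAlgebra A (FreeGroup α)]
      (L → MonoidAlgebra A (FreeGroup α)))
    (hfg : LinearMap.range f = LinearMap.ker g) :
    Module.Projective (MonoidAlgebra A (FreeGroup α)) (LinearMap.ker f) := by
  set S := MonoidAlgebra A (FreeGroup α) with hS
  set eJ := LinearEquiv.funCongrLeft S S (Fintype.equivFin J) with heJ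
  set eK := LinearEquiv.funCongrLeft S S (Fintype.equivFin K) with heK
  set eK' := LinearEquiv.funCongrLeft S S (Fintype.equivFin K).symm with heK'
  set eL' := LinearEquiv.funCongrLeft S S (Fintype.equivFin L).symm with heL'
  have hK1 : ∀ x, eK (eK' x) = x := fun x => eK.apply_symm_apply x
  have hK2 : ∀ x, eK' (eK x) = x := fun x => eK.symm_apply_apply x
  apply r6b_ker_equiv (Fintype.equivFin J) (Fintype.equivFin K)
  refine ker_projective_of_exact hA _ (eL'.toLinearMap ∘ₗ g ∘ₗ eK.toLinearMap) ?_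
  ext x
  rw [LinearMap.mem_range, LinearMap.mem_ker]
  constructor
  · rintro ⟨y, rfl⟩
    change eL' (g (eK (eK' (f (eJ y))))) = 0
    rw [hK1]
    have h1 : f (eJ y) ∈ LinearMap.ker g := by rw [← hfg]; exact ⟨_, rfl⟩
    rw [LinearMap.mem_ker.1 h1, map_zero]
  · intro hx
    have h1 : g (eK x) = 0 := eL'.map_eq_zero_iff.1 hx
    have h2 : eK x ∈ LinearMap.range f := by rw [hfg]; exact h1
    obtain ⟨y, hy⟩ := h2
    refine ⟨eJ.symm y, ?_⟩
    change eK' (f (eJ (eJ.symm y))) = x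
    rw [LinearEquiv.apply_symm_apply, hy, hK2]

variable {A : Type u} [CommRing A] {α : Type u} [DecidableEq α] [Finite α]

/-- R6-4 -/
theorem free_c4 (hA : ∀ (k l : ℕ) (f : (Fin k → A) →ₗ[A] (Fin l → A)),
      Module.Projective A (LinearMap.ker f)) (n J K L : Type) [Fintype n] [Fintype J]
    [Fintype K] [Fintype L] (ω : Matrix n J (MonoidAlgebra A (FreeGroup α)))
    (D : Matrix J K (MonoidAlgebra A (FreeGroup α)))
    (D2 : Matrix K L (MonoidAlgebra A (FreeGroup α))) (h : GenL ω D) (h2 : GenL D D2) :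
    ∃ M : Matrix n n (MonoidAlgebra A (FreeGroup α)), M * ω = ω ∧ Fnl ω M := by
  classical
  have h3 := r6d_ker_projective hA (Matrix.vecMulLinear D) (Matrix.vecMulLinear D2)
    ((r6a_genL_iff _ _).1 h2)
  rw [← (r6a_genL_iff _ _).1 h] at h3
  obtain ⟨Q, hQ, hQ2⟩ := r6b_split ω h3
  refine ⟨1 - Q, ?_, ?_⟩
  · rw [Matrix.sub_mul, Matrix.one_mul, hQ, sub_zero]
  · intro κ hκ
    rw [Matrix.mul_sub, hQ2 κ hκ, Matrix.mul_one, sub_self]

end Pool.Agent.Lib.MP_98022b_UN
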