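import Mathlib
import Pool.Agent.Lib.MP_98022b_UN.Defs
import Pool.Agent.Lib.MP_98022b_UN.CosL
import Pool.Agent.Lib.MP_98022b_UN.R7

open MonoidAlgebra

namespace Pool.Agent.Lib.MP_98022b_UN

universe u v w

/-- every element of a free group involves finitely many letters -/
theorem r8_word {X : Type v} (w : FreeGroup X) :
    ∃ Y : Finset X, w ∈ Subgroup.closure (FreeGroup.of '' (Y : Set X)) := by
  classical
  induction w using FreeGroup.induction_on with
  | C1 => exact ⟨∅, Subgroup.one_mem _⟩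
  | of x => exact ⟨{x}, Subgroup.subset_closure ⟨x, by simp, rfl⟩⟩
  | inv_of x h =>
    obtain ⟨Y, hY⟩ := h
    exact ⟨Y, Subgroup.inv_mem _ hY⟩
  | mul x y hx hy =>
    obtain ⟨Y, hY⟩ := hx
    obtain ⟨Z, hZ⟩ := hy
    refine ⟨Y ∪ Z, Subgroup.mul_mem _ ?_ ?_⟩
    · refine Subgroup.closure_mono (Set.image_mono ?_) hY
      rw [Finset.coe_union]; exact Set.subset_union_left
    · refine Subgroup.closure_mono (Set.image_mono ?_) hZ
      rw [Finset.coe_union]; exact Set.subset_union_right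

theorem r8_words {X : Type v} (W : Finset (FreeGroup X)) :
    ∃ Y : Finset X, ∀ w ∈ W, w ∈ Subgroup.closure (FreeGroup.of '' (Y : Set X)) := by
  classical
  choose Y hY using fun w : FreeGroup X => r8_word w
  refine ⟨W.biUnion Y, fun w hw => ?_⟩
  refine Subgroup.closure_mono (Set.image_mono ?_) (hY w)
  exact_mod_cast Finset.subset_biUnion_of_mem Y hw

/-- a finite subset of a free subgroup lies in a free subgroup of finite rank -/
theorem r8_sub {G : Type v} [Group G] (F : Subgroup G) [IsFreeGroup F] (s : Finset G)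
    (hs : ∀ g ∈ s, g ∈ F) :
    ∃ (n : ℕ) (e : FreeGroup (ULift.{u} (Fin n)) →* G), Function.Injective e ∧
      e.range ≤ F ∧ ∀ g ∈ s, g ∈ e.range := by
  classical
  obtain ⟨Y, hY⟩ := r8_words (s.attach.image fun g : {x // x ∈ s} =>
    (IsFreeGroup.mulEquiv F).symm (⟨g.1, hs g.1 g.2⟩ : F))
  let f : ULift.{u} (Fin (Fintype.card {x // x ∈ Y})) → IsFreeGroup.Generators F :=
    fun i => ((Fintype.equivFin {x // x ∈ Y}).symm i.down).val
  have hf : Function.Injective f := by
    intro i j hij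
    exact ULift.ext _ _ ((Fintype.equivFin {x // x ∈ Y}).symm.injective (Subtype.ext hij))
  have hr : Set.range f = (Y : Set (IsFreeGroup.Generators F)) := by
    ext x
    constructor
    · rintro ⟨i, rfl⟩
      exact ((Fintype.equivFin {x // x ∈ Y}).symm i.down).2
    · intro hx
      refine ⟨⟨Fintype.equivFin {x // x ∈ Y} ⟨x, hx⟩⟩, ?_⟩
      simp [f]
  refine ⟨_, F.subtype.comp ((IsFreeGroup.mulEquiv F).toMonoidHom.comp (FreeGroup.map f)),
    ?_, ?_, ?_⟩
  · intro x y hxy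
    apply FreeGroup.map_injective hf
    apply (IsFreeGroup.mulEquiv F).injective
    exact Subtype.ext hxy
  · rintro _ ⟨x, rfl⟩
    exact Subtype.property _
  · intro g hg
    have h1 := hY ((IsFreeGroup.mulEquiv F).symm ⟨g, hs g hg⟩)
      (Finset.mem_image.2 ⟨⟨g, hg⟩, Finset.mem_attach _ _, rfl⟩)
    rw [← hr, ← FreeGroup.range_map] at h1
    obtain ⟨x, hx⟩ := h1
    refine ⟨x, ?_⟩
    change ((IsFreeGroup.mulEquiv F (FreeGroup.map f x) : F) : G) = g
    rw [hx, MulEquiv.apply_symm_apply]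

/-- the same for locally free subgroups -/
theorem r8_sub' {G : Type v} [Group G] (F : Subgroup G)
    (hF : ∀ H : Subgroup G, H ≤ F → H.FG → IsFreeGroup H) (s : Finset G)
    (hs : ∀ g ∈ s, g ∈ F) :
    ∃ (n : ℕ) (e : FreeGroup (ULift.{u} (Fin n)) →* G), Function.Injective e ∧
      e.range ≤ F ∧ ∀ g ∈ s, g ∈ e.range := by
  have hle : Subgroup.closure (s : Set G) ≤ F := (Subgroup.closure_le _).2 (fun g hg => hs g hg)
  haveI := hF (Subgroup.closure (s : Set G)) hle ⟨s, rfl⟩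
  obtain ⟨n, e, he, h1, h2⟩ := r8_sub.{u} (Subgroup.closure (s : Set G)) s
    (fun g hg => Subgroup.subset_closure hg)
  exact ⟨n, e, he, h1.trans hle, h2⟩

/-- the support of a matrix -/
theorem r8_supp {A : Type u} [CommRing A] {G : Type v} [Group G] {I J : Type} [Fintype I]
    [Fintype J] (M : Matrix I J (MonoidAlgebra A G)) :
    ∃ s : Finset G, (∀ i j g, (M i j).coeff g ≠ 0 → g ∈ s) ∧
      ∀ g ∈ s, ∃ i j, (M i j).coeff g ≠ 0 := by
  classical
  refine ⟨Finset.univ.biUnion fun ij : I × J => (M ij.1 ij.2).coeff.support, ?_, ?_⟩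
  · intro i j g hg
    exact Finset.mem_biUnion.2 ⟨(i, j), Finset.mem_univ _, Finsupp.mem_support_iff.2 hg⟩
  · intro g hg
    obtain ⟨ij, _, h⟩ := Finset.mem_biUnion.1 hg
    exact ⟨ij.1, ij.2, Finsupp.mem_support_iff.1 h⟩

theorem r8_mono {A : Type u} [CommRing A] {G : Type v} [Group G] {F F' : Subgroup G}
    (h : F ≤ F') {I J : Type} {M : Matrix I J (MonoidAlgebra A G)} (hM : OnF F M) : OnF F' M :=
  fun i j g hg => h (hM i j g hg)

/-- R8: locally free groups -/
theorem rf_of_locally_free {A : Type u} [CommRing A]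
    (hR : ∀ n : ℕ, RF A (⊤ : Subgroup (FreeGroup (ULift.{u} (Fin n)))))
    {G : Type v} [Group G] (F : Subgroup G)
    (hF : ∀ H : Subgroup G, H ≤ F → H.FG → IsFreeGroup H) : RF A F := by
  classical
  refine ⟨?_, ?_, ?_, ?_⟩
  · intro J K _ _ D hD
    obtain ⟨s, hs1, hs2⟩ := r8_supp D
    obtain ⟨n, e, he, heF, hes⟩ := r8_sub'.{u} F hF s (fun g hg => by
      obtain ⟨i, j, h⟩ := hs2 g hg
      exact hD i j g h)
    obtain ⟨m, ω, h1, h2⟩ := (RF.transfer e he (hR n)).c1 J K D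
      (fun i j g hg => hes g (hs1 i j g hg))
    exact ⟨m, ω, r8_mono heF h1, h2⟩
  · intro J K _ _ D hD
    obtain ⟨s, hs1, hs2⟩ := r8_supp D
    obtain ⟨n, e, he, heF, hes⟩ := r8_sub'.{u} F hF s (fun g hg => by
      obtain ⟨i, j, h⟩ := hs2 g hg
      exact hD i j g h)
    obtain ⟨a, Q, ha, h1, h2⟩ := (RF.transfer e he (hR n)).c2 J K D
      (fun i j g hg => hes g (hs1 i j g hg))
    exact ⟨a, Q, ha, r8_mono heF h1, h2⟩
  · intro p hp r J K _ _ _ ω D hω hD hg
    obtain ⟨s, hs1, hs2⟩ := r8_supp D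
    obtain ⟨t, ht1, ht2⟩ := r8_supp ω
    obtain ⟨n, e, he, heF, hes⟩ := r8_sub'.{u} F hF (s ∪ t) (fun g hg => by
      rcases Finset.mem_union.1 hg with hg | hg
      · obtain ⟨i, j, h⟩ := hs2 g hg
        exact hD i j g h
      · obtain ⟨i, j, h⟩ := ht2 g hg
        exact hω i j g h)
    obtain ⟨a, M, ha, h1, h2⟩ := (RF.transfer e he (hR n)).c3 p hp r J K ω D
      (fun i j g hg => hes g (Finset.mem_union_right _ (ht1 i j g hg)))
      (fun i j g hg => hes g (Finset.mem_union_left _ (hs1 i j g hg))) hg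
    exact ⟨a, M, ha, r8_mono heF h1, h2⟩
  · intro r J K L _ _ _ _ ω D D2 hω hD hD2 hg hg2
    obtain ⟨s, hs1, hs2⟩ := r8_supp D
    obtain ⟨t, ht1, ht2⟩ := r8_supp ω
    obtain ⟨q, hq1, hq2⟩ := r8_supp D2
    obtain ⟨n, e, he, heF, hes⟩ := r8_sub'.{u} F hF (s ∪ t ∪ q) (fun g hg => by
      rcases Finset.mem_union.1 hg with hg | hg
      · rcases Finset.mem_union.1 hg with hg | hg
        · obtain ⟨i, j, h⟩ := hs2 g hg
          exact hD i j g h
        · obtain ⟨i, j, h⟩ := ht2 g hg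
          exact hω i j g h
      · obtain ⟨i, j, h⟩ := hq2 g hg
        exact hD2 i j g h)
    obtain ⟨M, h1, h2⟩ := (RF.transfer e he (hR n)).c4 r J K L ω D D2
      (fun i j g hg => hes g (Finset.mem_union_left _ (Finset.mem_union_right _ (ht1 i j g hg))))
      (fun i j g hg => hes g (Finset.mem_union_left _ (Finset.mem_union_left _ (hs1 i j g hg))))
      (fun i j g hg => hes g (Finset.mem_union_right _ (hq1 i j g hg))) hg hg2
    exact ⟨M, r8_mono heF h1, h2⟩

end Pool.Agent.Lib.MP_98022b_UN
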