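import Mathlib
import Pool.Agent.Lib.MP_98022b_UN.R6a
import Pool.Agent.Lib.MP_98022b_UN.R6b
import Pool.Agent.Lib.MP_98022b_UN.R6c
import Pool.Agent.Lib.MP_98022b_UN.R6d
import Pool.Agent.Lib.MP_98022b_UN.R8

open MonoidAlgebra

namespace Pool.Agent.Lib.MP_98022b_UN

universe u v w

/-- assembly of R6 - R8 -/
theorem rf_free {A : Type u} [CommRing A] [IsDomain A] [IsNoetherianRing A]
    (hA : ∀ (k l : ℕ) (f : (Fin k → A) →ₗ[A] (Fin l → A)),
      Module.Projective A (LinearMap.ker f)) {G : Type v} [Group G] (F : Subgroup G)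
    (hF : ∀ H : Subgroup G, H ≤ F → H.FG → IsFreeGroup H) : RF A F := by
  refine rf_of_locally_free (fun n => ⟨?_, ?_, ?_, ?_⟩) F hF
  · intro J K _ _ D _
    obtain ⟨n, ω, h⟩ := free_c1 J K D
    exact ⟨n, ω, fun _ _ _ _ => Subgroup.mem_top _, h⟩
  · intro J K _ _ D _
    obtain ⟨a, Q, h1, h2, h3⟩ := free_c2 J K D
    exact ⟨a, Q, h1, fun _ _ _ _ => Subgroup.mem_top _, h2, h3⟩
  · intro p hp n J K _ _ _ ω D _ _ h
    obtain ⟨s, M, h1, h2, h3⟩ := free_c3 hp n J K ω D h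
    exact ⟨s, M, h1, fun _ _ _ _ => Subgroup.mem_top _, h2, h3⟩
  · intro n J K L _ _ _ _ ω D D2 _ _ _ h h2
    obtain ⟨M, h3, h4⟩ := free_c4 hA n J K L ω D D2 h h2
    exact ⟨M, fun _ _ _ _ => Subgroup.mem_top _, h3, h4⟩

end Pool.Agent.Lib.MP_98022b_UN
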