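import Mathlib
import Pool.Agent.Lib.MP_98022b_UN.Defs2
import Pool.Agent.Lib.MP_98022b_UN.OnL1
import Pool.Agent.Lib.MP_98022b_UN.OnL2
import Pool.Agent.Lib.MP_98022b_UN.CosL

open MonoidAlgebra

namespace Pool.Agent.Lib.MP_98022b_UN

universe u v
variable {A : Type u} {G : Type v} [CommRing A] [IsDomain A] [Group G]
  {E : EdgeSys G} {β : BarStr A G} {ε : ℤ}

set_option linter.unusedSectionVars false

namespace F1

/-- type parts of a functional over `A[F]` are typed -/
theorem eT_mul_onT {r c : Type} [Fintype r] [DecidableEq r] {s : r → Bool} {σ : Bool}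
    {f : Matrix r c (MonoidAlgebra A G)} (hf : OnF E.F f) :
    OnT E s (fun _ => σ) 0 (eT A G s σ * f) := by
  refine OnF.onT (OnF.mul (OnT.eT (E := E) σ).onF hf) ?_
  intro i j hij
  rw [eT_mul_apply, if_neg hij]

theorem fnl_eT {K r c : Type} [Fintype K] [DecidableEq K] [Fintype r] [DecidableEq r]
    {t : K → Bool} {s : r → Bool} {ζ : Matrix r K (MonoidAlgebra A G)}
    (hζ : OnT E s t 0 ζ) {f : Matrix r c (MonoidAlgebra A G)} (hf : Fnl ζ f) (σ : Bool) :
    Fnl ζ (eT A G s σ * f) := by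
  intro κ hκ
  rw [← Matrix.mul_assoc]
  apply hf
  rw [Matrix.mul_assoc, hζ.eT_mul, ← Matrix.mul_assoc, hκ, Matrix.zero_mul]

theorem Rep.add {r K c : Type} [Fintype K] {ζ : Matrix r K (MonoidAlgebra A G)}
    {f g : Matrix r c (MonoidAlgebra A G)} (hf : Rep ζ f) (hg : Rep ζ g) : Rep ζ (f + g) := by
  obtain ⟨p, hp⟩ := hf
  obtain ⟨q, hq⟩ := hg
  exact ⟨p + q, by rw [Matrix.mul_add, hp, hq]⟩

/-- at level `0` every functional is represented -/
theorem rep_all {K r : Type} [Fintype K]
    [DecidableEq K] [Fintype r] [DecidableEq r] {t : K → Bool}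
    {s : r → Bool} {ζ : Matrix r K (MonoidAlgebra A G)}
    {θ : Matrix r r (MonoidAlgebra A G)} (hζ : OnT E s t 0 ζ) (hP : ∀ σ, PP E s ζ θ 0 σ)
    {f : Matrix r Unit (MonoidAlgebra A G)} (hf : Fnl ζ f) : Rep ζ f := by
  refine rep_of_cR (F := E.F) hζ.onF (fun g => ?_)
  have h1 : OnF E.F (cR E.F g f) := cR_onF g f
  have h2 : Fnl ζ (cR E.F g f) := Fnl.cR hζ.onF hf g
  have h3 : cR E.F g f = eT A G s false * cR E.F g f + eT A G s true * cR E.F g f := by
    rw [← Matrix.add_mul]
    have := eT_add (A := A) (G := G) s false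
    rw [Bool.not_false] at this
    rw [this, Matrix.one_mul]
  rw [h3]
  have key : ∀ σ, Rep ζ (eT A G s σ * cR E.F g f) := by
    intro σ
    have := hP σ σ _ (eT_mul_onT (σ := σ) h1) (fnl_eT hζ h2 σ)
    rw [pow_zero, Matrix.one_mul, ← Matrix.mul_assoc, eT_mul_self] at this
    exact this
  exact Rep.add (key false) (key true)

end F1

/-- F1: at level `0` the form is metabolic -/
theorem metab_of_stage (hRF : RF A E.F) (hε : ε = 1 ∨ ε = -1) {K r : Type} [Fintype K]
    [DecidableEq K] [Fintype r] [DecidableEq r] {t : K → Bool}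
    {J T : Matrix K K (MonoidAlgebra A G)} {s : r → Bool} {ζ : Matrix r K (MonoidAlgebra A G)}
    {θ : Matrix r r (MonoidAlgebra A G)} (hT : TF E β ε t J T)
    (hS : IsStage E β t J T s ζ θ) (hP : ∀ σ, PP E s ζ θ 0 σ) : Metab E β t J T := by
  have hεε : ε * ε = 1 := by rcases hε with h | h <;> simp [h]
  have hJJ : J * J = ε • 1 := HJ.sq hε hT.hJ
  have hJa : adj β J = ε • J := HJ.adj β hε hT.hJ
  have hJon := hT.hJ.on E
  have hζF := hS.ζ_on.onF
  -- relations
  obtain ⟨n, ν0, hν0, hgen⟩ := hRF.c1 r K ζ hζF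
  have hJF : OnF E.F J := hJon.onF
  have hD : OnF E.F (J * adj β ζ) := hJF.mul (hζF.adj β)
  have hD2 : OnF E.F (adj β ν0) := hν0.adj β
  have hgen2 : GenL (J * adj β ζ) (adj β ν0) := by
    refine ⟨?_, ?_⟩
    · rw [Matrix.mul_assoc, ← adj_mul, hgen.1, adj_zero, Matrix.mul_zero]
    · intro x hx
      have hf : Fnl ζ (adj β x) := by
        intro κ hκ
        obtain ⟨κ', hκ'⟩ := hgen.2 κ hκ
        have h1 : ν0 * adj β x = 0 := by
          apply adj_eq_zero β
          rw [adj_mul, adj_adj, hx]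
        rw [hκ', Matrix.mul_assoc, h1, Matrix.mul_zero]
      obtain ⟨p, hp⟩ := F1.rep_all hS.ζ_on hP hf
      refine ⟨ε • (adj β p * J), ?_⟩
      have h2 : x = adj β p * adj β ζ := by
        rw [← adj_mul, ← hp, adj_adj]
      rw [h2, Matrix.smul_mul, Matrix.mul_assoc, ← Matrix.mul_assoc J, hJJ, Matrix.smul_mul,
        Matrix.one_mul, Matrix.mul_smul, smul_smul, hεε, one_smul]
  obtain ⟨M, hMF, hMζ, hMf⟩ := hRF.c4 r K r (Fin n) ζ (J * adj β ζ) (adj β ν0) hζF hD hD2
    hS.lag hgen2
  -- typed part of `M`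
  have he : ∀ τ, eT A G s τ * ζ = ζ * eT A G t τ := fun τ => hS.ζ_on.eT_mul τ
  let M' : Matrix r r (MonoidAlgebra A G) :=
    eT A G s false * M * eT A G s false + eT A G s true * M * eT A G s true
  have hM'ζ : M' * ζ = ζ := by
    have h1 : ∀ τ, eT A G s τ * M * eT A G s τ * ζ = ζ * eT A G t τ := by
      intro τ
      rw [Matrix.mul_assoc, he, ← Matrix.mul_assoc, Matrix.mul_assoc (eT A G s τ), hMζ, he,
        Matrix.mul_assoc, eT_mul_self]
    change (eT A G s false * M * eT A G s false + eT A G s true * M * eT A G s true) * ζ = ζ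
    rw [Matrix.add_mul, h1, h1, ← Matrix.mul_add]
    have := eT_add (A := A) (G := G) t false
    rw [Bool.not_false] at this
    rw [this, Matrix.mul_one]
  have hM'f : Fnl ζ M' := by
    intro κ hκ
    have h1 : ∀ τ, κ * (eT A G s τ * M * eT A G s τ) = 0 := by
      intro τ
      have h2 : κ * eT A G s τ * ζ = 0 := by
        rw [Matrix.mul_assoc, he, ← Matrix.mul_assoc, hκ, Matrix.zero_mul]
      rw [← Matrix.mul_assoc, ← Matrix.mul_assoc, hMf _ h2, Matrix.zero_mul]
    change κ * (eT A G s false * M * eT A G s false + eT A G s true * M * eT A G s true) = 0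
    rw [Matrix.mul_add, h1, h1, add_zero]
  have hM'on : OnT E s s 0 M' := by
    have h1 : ∀ τ, OnT E s s 0 (eT A G s τ * M * eT A G s τ) := by
      intro τ
      refine OnF.onT (((OnT.eT (E := E) τ).onF.mul hMF).mul (OnT.eT (E := E) τ).onF) ?_
      intro i j hij
      rw [mul_eT_apply, eT_mul_apply]
      by_cases h1 : s j = τ
      · rw [if_pos h1, if_neg]
        rw [← h1]; exact hij
      · rw [if_neg h1]
    exact (h1 false).add (h1 true)
  have hrep : Rep ζ M' := by
    refine rep_of_cols (fun j => ?_)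
    exact F1.rep_all hS.ζ_on hP (hM'f.col j)
  obtain ⟨N, hN, hN'⟩ := Rep.on hS.ζ_on hM'on hrep
  -- the idempotent
  obtain ⟨Q, hQdef⟩ : ∃ Q : Matrix K K (MonoidAlgebra A G), Q = N * ζ := ⟨_, rfl⟩
  have hQon : OnT E t t 0 Q := hQdef ▸ hN.mul0 hS.ζ_on
  have hζQ : ζ * Q = ζ := by rw [hQdef, ← Matrix.mul_assoc, ← hN', hM'ζ]
  have hQQ : Q * Q = Q := by
    nth_rw 1 [hQdef]
    rw [Matrix.mul_assoc, hζQ, hQdef]
  have hQaQa : adj β Q * adj β Q = adj β Q := by rw [← adj_mul, hQQ]
  have hQJQ : Q * (J * adj β Q) = 0 := by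
    have : J * adj β Q = J * adj β ζ * adj β N := by rw [hQdef, adj_mul, Matrix.mul_assoc]
    rw [this]
    nth_rw 1 [hQdef]
    rw [Matrix.mul_assoc, ← Matrix.mul_assoc ζ, hS.lag.1, Matrix.zero_mul, Matrix.mul_zero]
  have hlag : ∀ x : Matrix K K (MonoidAlgebra A G), x * (J * adj β Q) = 0 → x * Q = x := by
    intro x hx
    have h1 : x * (J * adj β ζ) = 0 := by
      have : J * adj β ζ = J * adj β Q * adj β ζ := by
        rw [Matrix.mul_assoc, ← adj_mul, hζQ]
      rw [this, ← Matrix.mul_assoc, hx, Matrix.zero_mul]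
    obtain ⟨κ, hκ⟩ := hS.lag.mat x h1
    rw [hκ, Matrix.mul_assoc, hζQ]
  have hQae : ∀ τ, eT A G t τ * adj β Q = adj β Q * eT A G t τ := by
    intro τ
    apply adj_inj β
    rw [adj_mul, adj_mul, adj_adj, adj_eT, hQon.eT_mul]
  have hJe : ∀ τ, eT A G t τ * J = J * eT A G t (!τ) := fun τ => hT.hJ.eT_mul τ
  -- complementary part
  obtain ⟨Q1, hQ1⟩ : ∃ Q1 : Matrix K K (MonoidAlgebra A G), Q1 = 1 - ε • (J * adj β Q * J) :=
    ⟨_, rfl⟩
  have hQ1J : Q1 * J = J * (1 - adj β Q) := by
    rw [hQ1, Matrix.sub_mul, Matrix.one_mul, Matrix.smul_mul, Matrix.mul_assoc, hJJ,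
      Matrix.mul_smul, Matrix.mul_one, smul_smul, hεε, one_smul, Matrix.mul_sub, Matrix.mul_one]
  have hQ1Q1 : Q1 * Q1 = Q1 := by
    have h1 : Q1 * (J * adj β Q * J) = 0 := by
      rw [← Matrix.mul_assoc, ← Matrix.mul_assoc, hQ1J, Matrix.mul_assoc J, Matrix.sub_mul,
        Matrix.one_mul, hQaQa, sub_self, Matrix.mul_zero, Matrix.zero_mul]
    nth_rw 2 [hQ1]
    rw [Matrix.mul_sub, Matrix.mul_one, Matrix.mul_smul, h1, smul_zero, sub_zero]
  have hQaon : OnT E (fun k => !t k) (fun k => !t k) 0 (adj β Q) := hQon.adj β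
  have hJon' : OnT E (fun k => !t k) t 0 J := by
    refine OnF.onT hJF ?_
    intro i j hij
    exact hJon.eq_zero (fun h => hij (by rw [h, Bool.not_not]))
  have hQ1on : OnT E t t 0 Q1 := by
    rw [hQ1]
    exact OnT.one.sub (((hJon.mul0 hQaon).mul0 hJon').zsmul ε)
  -- the final idempotent
  obtain ⟨Q', hQ'⟩ : ∃ Q' : Matrix K K (MonoidAlgebra A G),
      Q' = eT A G t false * Q + eT A G t true * Q1 := ⟨_, rfl⟩
  have hff : (eT A G t false * eT A G t false : Matrix K K (MonoidAlgebra A G)) =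
    eT A G t false := eT_mul_self t false
  have htt : (eT A G t true * eT A G t true : Matrix K K (MonoidAlgebra A G)) =
    eT A G t true := eT_mul_self t true
  have hft : (eT A G t false * eT A G t true : Matrix K K (MonoidAlgebra A G)) = 0 :=
    eT_mul_not t false
  have htf : (eT A G t true * eT A G t false : Matrix K K (MonoidAlgebra A G)) = 0 :=
    eT_mul_not t true
  have hsum : (eT A G t false + eT A G t true : Matrix K K (MonoidAlgebra A G)) = 1 :=
    eT_add t false
  have hQe : ∀ τ, eT A G t τ * Q = Q * eT A G t τ := fun τ => hQon.eT_mul τ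
  have hQ1e : ∀ τ, eT A G t τ * Q1 = Q1 * eT A G t τ := fun τ => hQ1on.eT_mul τ
  have hJf : eT A G t false * J = J * eT A G t true := hJe false
  have hJt : eT A G t true * J = J * eT A G t false := hJe true
  have hQ'Q : Q' * Q = Q' := by
    have h1 : eT A G t true * Q1 * (J * adj β Q) = 0 := by
      rw [Matrix.mul_assoc, ← Matrix.mul_assoc Q1, hQ1J, Matrix.mul_assoc J, Matrix.sub_mul,
        Matrix.one_mul, hQaQa, sub_self, Matrix.mul_zero, Matrix.mul_zero]
    rw [hQ', Matrix.add_mul, hlag _ h1, Matrix.mul_assoc, hQQ]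
  have hQQ' : Q * Q' = Q := by
    have h1 : Q * (eT A G t true * Q1) = Q * eT A G t true := by
      rw [hQ1, Matrix.mul_sub, Matrix.mul_one, Matrix.mul_smul, Matrix.mul_sub, Matrix.mul_smul]
      have h2 : Q * (eT A G t true * (J * adj β Q * J)) = 0 := by
        rw [← Matrix.mul_assoc (eT A G t true), ← Matrix.mul_assoc (eT A G t true), hJt,
          Matrix.mul_assoc J, hQae, ← Matrix.mul_assoc J, Matrix.mul_assoc (J * adj β Q),
          ← Matrix.mul_assoc Q, hQJQ, Matrix.zero_mul]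
      rw [h2, smul_zero, sub_zero]
    rw [hQ', Matrix.mul_add, h1, hQe, ← Matrix.mul_assoc, hQQ, ← Matrix.mul_add, hsum,
      Matrix.mul_one]
  refine ⟨Q', ?_, ?_, ?_, ?_⟩
  · rw [hQ']
    exact ((OnT.eT (E := E) false).mul0 hQon).add ((OnT.eT (E := E) true).mul0 hQ1on)
  · nth_rw 1 [← hQ'Q]
    rw [Matrix.mul_assoc, hQQ', hQ'Q]
  · have h1 : Q' * T = Q' * (N * (θ * ζ)) * Q := by
      rw [Matrix.mul_assoc, Matrix.mul_assoc N, Matrix.mul_assoc θ, hζQ, ← hS.comm]
      nth_rw 1 [← hQ'Q]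
      rw [hQdef, Matrix.mul_assoc, Matrix.mul_assoc]
    rw [h1, Matrix.mul_assoc, Matrix.mul_sub, Matrix.mul_one, hQQ', sub_self, Matrix.mul_zero]
  · have hadjQ1 : adj β Q1 = 1 - ε • (J * Q * J) := by
      rw [hQ1, adj_sub, adj_one, adj_zsmul, adj_mul, adj_mul, adj_adj, hJa]
      rw [Matrix.smul_mul, Matrix.mul_smul, Matrix.mul_smul, smul_smul, smul_smul, hεε,
        one_mul, Matrix.mul_assoc]
    have hadjQ' : adj β Q' = adj β Q * eT A G t false + adj β Q1 * eT A G t true := by
      rw [hQ', adj_add, adj_mul, adj_mul, adj_eT, adj_eT]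
    have e1 : Q' * J = Q * J * eT A G t true + J * (1 - adj β Q) * eT A G t false := by
      rw [hQ', Matrix.add_mul, Matrix.mul_assoc, Matrix.mul_assoc, hQ1J]
      rw [← Matrix.mul_assoc (eT A G t false), hQe, Matrix.mul_assoc, hJf]
      rw [← Matrix.mul_assoc (eT A G t true), hJt, Matrix.mul_assoc J, Matrix.mul_sub,
        Matrix.mul_one, hQae, Matrix.mul_assoc Q]
      congr 1
      rw [Matrix.mul_assoc J, Matrix.sub_mul, Matrix.one_mul]
    have e2 : J * (1 - adj β Q') = Q * J * eT A G t true +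
        J * (1 - adj β Q) * eT A G t false := by
      rw [hadjQ', hadjQ1]
      have h3' : J * (J * Q * J * eT A G t true) = ε • (Q * J * eT A G t true) := by
        have : J * (J * Q * J * eT A G t true) = J * J * (Q * J * eT A G t true) := by
          simp only [Matrix.mul_assoc]
        rw [this, hJJ, Matrix.smul_mul, Matrix.one_mul]
      have h3 : J * ((1 - ε • (J * Q * J)) * eT A G t true) =
          J * eT A G t true - Q * J * eT A G t true := by
        rw [Matrix.sub_mul, Matrix.one_mul, Matrix.mul_sub, Matrix.smul_mul, Matrix.mul_smul,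
          h3', smul_smul, hεε, one_smul]
      have h4 : J * (1 - adj β Q) * eT A G t false =
          J * eT A G t false - J * (adj β Q * eT A G t false) := by
        rw [Matrix.mul_assoc, Matrix.sub_mul, Matrix.one_mul, Matrix.mul_sub]
      have h5 : J = J * eT A G t false + J * eT A G t true := by
        rw [← Matrix.mul_add, hsum, Matrix.mul_one]
      have h6 : J - (J * (adj β Q * eT A G t false) + (J * eT A G t true -
          Q * J * eT A G t true)) = Q * J * eT A G t true +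
          (J * eT A G t false - J * (adj β Q * eT A G t false)) := by
        have h7 : ∀ (a b c d : Matrix K K (MonoidAlgebra A G)), a + b - (c + (b - d)) =
            d + (a - c) := by intro a b c d; abel
        have h8 := h7 (J * eT A G t false) (J * eT A G t true) (J * (adj β Q * eT A G t false))
          (Q * J * eT A G t true)
        rw [← h5] at h8
        exact h8
      rw [Matrix.mul_sub, Matrix.mul_one, Matrix.mul_add, h3, h4, h6]
    rw [e1, e2]

end Pool.Agent.Lib.MP_98022b_UN
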