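import Mathlib
import Pool.Agent.Lib.MP_98022b_UN.Defs2
import Pool.Agent.Lib.MP_98022b_UN.CosL


open MonoidAlgebra

namespace Pool.Agent.Lib.MP_98022b_UN

universe u v

namespace H1Aux

variable {A : Type u} {G : Type v} [CommRing A] [Group G]

/-- congruence modulo a constant -/
def Cg (a : A) {I J : Type} (M N : Matrix I J (MonoidAlgebra A G)) : Prop :=
  ∃ y : Matrix I J (MonoidAlgebra A G), M - N = a • y

theorem Cg.rfl {a : A} {I J : Type} {M : Matrix I J (MonoidAlgebra A G)} : Cg a M M :=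
  ⟨0, by simp⟩

theorem Cg.symm {a : A} {I J : Type} {M N : Matrix I J (MonoidAlgebra A G)} (h : Cg a M N) :
    Cg a N M := by
  obtain ⟨y, hy⟩ := h
  exact ⟨-y, by rw [smul_neg, ← hy, neg_sub]⟩

theorem Cg.trans {a : A} {I J : Type} {M N P : Matrix I J (MonoidAlgebra A G)} (h : Cg a M N)
    (h' : Cg a N P) : Cg a M P := by
  obtain ⟨y, hy⟩ := h
  obtain ⟨z, hz⟩ := h'
  exact ⟨y + z, by rw [smul_add, ← hy, ← hz]; abel⟩

theorem Cg.add {a : A} {I J : Type} {M N P Q : Matrix I J (MonoidAlgebra A G)} (h : Cg a M N)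
    (h' : Cg a P Q) : Cg a (M + P) (N + Q) := by
  obtain ⟨y, hy⟩ := h
  obtain ⟨z, hz⟩ := h'
  exact ⟨y + z, by rw [smul_add, ← hy, ← hz]; abel⟩

theorem cg_zero {a : A} {I J : Type} {M : Matrix I J (MonoidAlgebra A G)} :
    Cg a M 0 ↔ ∃ y : Matrix I J (MonoidAlgebra A G), M = a • y := by
  unfold Cg
  simp

theorem Fnl_add {r K c : Type} [Fintype r] {ζ : Matrix r K (MonoidAlgebra A G)}
    {f g : Matrix r c (MonoidAlgebra A G)} (hf : Fnl ζ f) (hg : Fnl ζ g) : Fnl ζ (f + g) := by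
  intro κ hκ
  rw [Matrix.mul_add, hf κ hκ, hg κ hκ, add_zero]

theorem Fnl_zero {r K c : Type} [Fintype r] {ζ : Matrix r K (MonoidAlgebra A G)} :
    Fnl ζ (0 : Matrix r c (MonoidAlgebra A G)) := by
  intro κ _
  rw [Matrix.mul_zero]

theorem Fnl_mul {r K c d : Type} [Fintype r] [Fintype c] {ζ : Matrix r K (MonoidAlgebra A G)}
    {f : Matrix r c (MonoidAlgebra A G)} (hf : Fnl ζ f) (μ : Matrix c d (MonoidAlgebra A G)) :
    Fnl ζ (f * μ) := by
  intro κ hκ
  rw [← Matrix.mul_assoc, hf κ hκ, Matrix.zero_mul]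

theorem Fnl_self {r K c : Type} [Fintype r] [Fintype K] {ζ : Matrix r K (MonoidAlgebra A G)}
    (x : Matrix K c (MonoidAlgebra A G)) : Fnl ζ (ζ * x) := by
  intro κ hκ
  rw [← Matrix.mul_assoc, hκ, Matrix.zero_mul]

end H1Aux

open H1Aux

variable {A : Type u} {G : Type v} [CommRing A] [IsDomain A] [Group G]
  {E : EdgeSys G} {β : BarStr A G} {ε : ℤ}

/-- the prime case of H1 -/
theorem hom_lemma_prime (hRF : RF A E.F) {K r : Type} [Fintype K]
    [DecidableEq K] [Fintype r] [DecidableEq r]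
    {t : K → Bool} {J T : Matrix K K (MonoidAlgebra A G)} {s : r → Bool}
    {ζ : Matrix r K (MonoidAlgebra A G)} {θ : Matrix r r (MonoidAlgebra A G)}
    (hJ : HJ ε t J) (hS : IsStage E β t J T s ζ θ) (p : A) (hp : Prime p)
    (Θ : Matrix r Unit (MonoidAlgebra A G) → Matrix Unit Unit (MonoidAlgebra A G))
    (hadd : ∀ f g, OnF E.F f → Fnl ζ f → OnF E.F g → Fnl ζ g → Cg p (Θ (f + g)) (Θ f + Θ g))
    (hmul : ∀ f (μ : Matrix Unit Unit (MonoidAlgebra A G)), OnF E.F f → Fnl ζ f → OnF E.F μ →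
      Cg p (Θ (f * μ)) (Θ f * μ))
    (hrep : ∀ x : Matrix K Unit (MonoidAlgebra A G), OnF E.F x → Cg p (Θ (ζ * x)) 0)
    (f : Matrix r Unit (MonoidAlgebra A G)) (hf : OnF E.F f) (hf' : Fnl ζ f) :
    ∃ y, Θ f = p • y := by
  classical
  have hζF : OnF E.F ζ := hS.ζ_on.onF
  have hDF : OnF E.F (J * adj β ζ) := (hJ.on E).onF.mul (hζF.adj β)
  obtain ⟨c, M, hc, hMF, hMζ, hMf⟩ := hRF.c3 p hp r K r ζ (J * adj β ζ) hζF hDF hS.lag
  -- the columns of `M`
  let col : r → Matrix r Unit (MonoidAlgebra A G) := fun j i _ => M i j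
  have hcolF : ∀ j, OnF E.F (col j) := fun j i _ g hg => hMF i j g hg
  have hcolf : ∀ j, Fnl ζ (col j) := fun j => hMf.col j
  let ent : Matrix r Unit (MonoidAlgebra A G) → r → Matrix Unit Unit (MonoidAlgebra A G) :=
    fun f j _ _ => f j ()
  have hentF : ∀ f, OnF E.F f → ∀ j, OnF E.F (ent f j) := fun f hf j _ _ g hg => hf j () g hg
  let τ : Matrix Unit r (MonoidAlgebra A G) := fun _ j => Θ (col j) () ()
  have hsum : ∀ (f : Matrix r Unit (MonoidAlgebra A G)), OnF E.F f →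
      ∀ S : Finset r, Cg p (Θ (∑ j ∈ S, col j * ent f j)) (∑ j ∈ S, Θ (col j) * ent f j) ∧
        OnF E.F (∑ j ∈ S, col j * ent f j) ∧ Fnl ζ (∑ j ∈ S, col j * ent f j) := by
    intro f hf S
    induction S using Finset.induction_on with
    | empty =>
      refine ⟨?_, ?_, ?_⟩
      · have := hrep 0 (OnF.zero E.F)
        rw [Matrix.mul_zero] at this
        simpa using this
      · simpa using OnF.zero E.F
      · simpa using Fnl_zero
    | insert j S hj ih =>
      obtain ⟨h1, h2, h3⟩ := ih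
      have e1 : OnF E.F (col j * ent f j) := (hcolF j).mul (hentF f hf j)
      have e2 : Fnl ζ (col j * ent f j) := Fnl_mul (hcolf j) _
      rw [Finset.sum_insert hj, Finset.sum_insert hj]
      refine ⟨?_, e1.add h2, Fnl_add e2 h3⟩
      exact (hadd _ _ e1 e2 h2 h3).trans ((hmul _ _ (hcolF j) (hcolf j) (hentF f hf j)).add h1)
  have hMsum : ∀ f : Matrix r Unit (MonoidAlgebra A G), M * f = ∑ j, col j * ent f j := by
    intro f
    ext i k
    simp [Matrix.mul_apply, Matrix.sum_apply, col, ent]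
  have hτsum : ∀ f : Matrix r Unit (MonoidAlgebra A G), τ * f = ∑ j, Θ (col j) * ent f j := by
    intro f
    ext i k
    simp [Matrix.mul_apply, Matrix.sum_apply, τ, ent]
  have hkey : ∀ f : Matrix r Unit (MonoidAlgebra A G), OnF E.F f → Fnl ζ f →
      Cg p (c • Θ f) (τ * f) := by
    intro f hf hf'
    have h1 : (M - c • 1) * ζ = 0 := by
      rw [Matrix.sub_mul, hMζ, Matrix.smul_mul, Matrix.one_mul, sub_self]
    have h2 : (M - c • 1) * f = 0 := hf'.mat _ h1
    have h3 : M * f = c • f := by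
      rw [Matrix.sub_mul, Matrix.smul_mul, Matrix.one_mul] at h2
      exact sub_eq_zero.1 h2
    have h4 : f * (c • 1 : Matrix Unit Unit (MonoidAlgebra A G)) = c • f := by
      rw [Matrix.mul_smul, Matrix.mul_one]
    have h5 := hmul f (c • 1) hf hf' ((OnF.one E.F).smul c)
    rw [h4, Matrix.mul_smul, Matrix.mul_one] at h5
    have h6 := (hsum f hf Finset.univ).1
    rw [← hMsum, ← hτsum, h3] at h6
    exact h5.symm.trans h6
  -- `τ ζ` is divisible by `p`
  have hw : ∃ w : Matrix Unit K (MonoidAlgebra A G), τ * ζ = p • w := by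
    let ck : K → Matrix r Unit (MonoidAlgebra A G) := fun k i _ => ζ i k
    let ek : K → Matrix K Unit (MonoidAlgebra A G) := fun k j _ => if j = k then 1 else 0
    have hk : ∀ k : K, ∃ y : Matrix Unit Unit (MonoidAlgebra A G), τ * ck k = p • y := by
      intro k
      have e0 : ck k = ζ * ek k := by
        ext i j
        simp [Matrix.mul_apply, ck, ek]
      have e1 : OnF E.F (ek k) := by
        intro i j g hg
        exact OnF.one E.F (I := K) i k g (by simpa [Matrix.one_apply, ek] using hg)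
      have h1 := hrep _ e1
      rw [← e0] at h1
      have hfk : OnF E.F (ck k) := fun i _ g hg => hζF i k g hg
      have hfk' : Fnl ζ (ck k) := by
        rw [e0]; exact Fnl_self _
      have h2 := hkey _ hfk hfk'
      obtain ⟨y, hy⟩ := cg_zero.1 h1
      have h3 : Cg p (c • Θ (ck k)) 0 :=
        cg_zero.2 ⟨c • y, by rw [hy, smul_comm]⟩
      exact cg_zero.1 (h2.symm.trans h3)
    choose y hy using hk
    refine ⟨fun _ k => y k () (), ?_⟩
    refine Matrix.ext fun i k => ?_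
    have := congrFun (congrFun (hy k) ()) ()
    simp only [Matrix.mul_apply, Matrix.smul_apply] at this ⊢
    exact this
  obtain ⟨w, hw⟩ := hw
  have hw0 : w * (J * adj β ζ) = 0 := by
    have h1 : (τ * ζ) * (J * adj β ζ) = 0 := by
      rw [Matrix.mul_assoc, hS.lag.1, Matrix.mul_zero]
    rw [hw, Matrix.smul_mul] at h1
    have h2 : p • (w * (J * adj β ζ)) = p • 0 := by rw [h1, smul_zero]
    exact smul_cancel hp.ne_zero h2
  obtain ⟨κ, hκ⟩ := hS.lag.2 w hw0
  have h1 : (τ - p • κ) * ζ = 0 := by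
    rw [Matrix.sub_mul, hw, Matrix.smul_mul, ← hκ, sub_self]
  have h2 : (τ - p • κ) * f = 0 := hf' _ h1
  have h3 : τ * f = p • (κ * f) := by
    rw [Matrix.sub_mul, Matrix.smul_mul] at h2
    exact sub_eq_zero.1 h2
  have h4 : Cg p (c • Θ f) 0 := (hkey f hf hf').trans (cg_zero.2 ⟨_, h3⟩)
  obtain ⟨y, hy⟩ := cg_zero.1 h4
  exact dvd_of_prime hp hc hy

/-- H1: a map on the functionals over `A[F]` which is linear mod `a` and divisible by `a` on the
represented ones is divisible by `a` -/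
theorem hom_lemma [UniqueFactorizationMonoid A] (hRF : RF A E.F) {K r : Type} [Fintype K]
    [DecidableEq K] [Fintype r] [DecidableEq r]
    {t : K → Bool} {J T : Matrix K K (MonoidAlgebra A G)} {s : r → Bool}
    {ζ : Matrix r K (MonoidAlgebra A G)} {θ : Matrix r r (MonoidAlgebra A G)}
    (hJ : HJ ε t J) (hS : IsStage E β t J T s ζ θ) (a : A) (ha : a ≠ 0)
    (Θ : Matrix r Unit (MonoidAlgebra A G) → Matrix Unit Unit (MonoidAlgebra A G))
    (hadd : ∀ f g, OnF E.F f → Fnl ζ f → OnF E.F g → Fnl ζ g →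
      ∃ y, Θ (f + g) - Θ f - Θ g = a • y)
    (hmul : ∀ f (μ : Matrix Unit Unit (MonoidAlgebra A G)), OnF E.F f → Fnl ζ f → OnF E.F μ →
      ∃ y, Θ (f * μ) - Θ f * μ = a • y)
    (hrep : ∀ x : Matrix K Unit (MonoidAlgebra A G), OnF E.F x → ∃ y, Θ (ζ * x) = a • y)
    (f : Matrix r Unit (MonoidAlgebra A G)) (hf : OnF E.F f) (hf' : Fnl ζ f) :
    ∃ y, Θ f = a • y := by
  classical
  revert Θ f
  induction a using UniqueFactorizationMonoid.induction_on_prime with
  | h₁ => exact absurd rfl ha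
  | h₂ a hu =>
    intro Θ _ _ _ f _ _
    obtain ⟨u, rfl⟩ := hu
    exact ⟨(↑u⁻¹ : A) • Θ f, by rw [smul_smul, Units.mul_inv, one_smul]⟩
  | h₃ a' p ha' hp ih =>
    intro Θ hadd hmul hrep f hf hf'
    have hprime : ∀ f, OnF E.F f → Fnl ζ f → ∃ y, Θ f = p • y := by
      intro f hf hf'
      refine hom_lemma_prime hRF hJ hS p hp Θ ?_ ?_ ?_ f hf hf'
      · intro f g h1 h2 h3 h4
        obtain ⟨y, hy⟩ := hadd f g h1 h2 h3 h4
        exact ⟨a' • y, by rw [smul_smul, ← hy]; abel⟩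
      · intro f μ h1 h2 h3
        obtain ⟨y, hy⟩ := hmul f μ h1 h2 h3
        exact ⟨a' • y, by rw [smul_smul, ← hy]⟩
      · intro x hx
        obtain ⟨y, hy⟩ := hrep x hx
        exact ⟨a' • y, by rw [smul_smul, ← hy, sub_zero]⟩
    let Θ' : Matrix r Unit (MonoidAlgebra A G) → Matrix Unit Unit (MonoidAlgebra A G) :=
      fun f => if h : OnF E.F f ∧ Fnl ζ f then (hprime f h.1 h.2).choose else 0
    have hΘ' : ∀ f, OnF E.F f → Fnl ζ f → Θ f = p • Θ' f := by
      intro f h1 h2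
      have : Θ' f = (hprime f h1 h2).choose := by
        simp only [Θ']
        rw [dif_pos ⟨h1, h2⟩]
      rw [this]
      exact (hprime f h1 h2).choose_spec
    obtain ⟨y, hy⟩ := ih ha' Θ' (by
      intro f g h1 h2 h3 h4
      obtain ⟨y, hy⟩ := hadd f g h1 h2 h3 h4
      refine ⟨y, smul_cancel hp.ne_zero ?_⟩
      rw [smul_smul, ← hy, hΘ' f h1 h2, hΘ' g h3 h4, hΘ' (f + g) (h1.add h3) (Fnl_add h2 h4),
        smul_sub, smul_sub]) (by
      intro f μ h1 h2 h3
      obtain ⟨y, hy⟩ := hmul f μ h1 h2 h3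
      refine ⟨y, smul_cancel hp.ne_zero ?_⟩
      rw [smul_smul, ← hy, hΘ' f h1 h2, hΘ' (f * μ) (h1.mul h3) (Fnl_mul h2 μ),
        smul_sub, Matrix.smul_mul]) (by
      intro x hx
      obtain ⟨y, hy⟩ := hrep x hx
      refine ⟨y, smul_cancel hp.ne_zero ?_⟩
      rw [smul_smul, ← hy, hΘ' (ζ * x) (hS.ζ_on.onF.mul hx) (Fnl_self x)]) f hf hf'
    exact ⟨y, by rw [hΘ' f hf hf', hy, smul_smul]⟩

end Pool.Agent.Lib.MP_98022b_UN
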