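import Mathlib
import Pool.Agent.Lib.MP_98022b_UN.Defs2
import Pool.Agent.Lib.MP_98022b_UN.CosL
import Pool.Agent.Lib.MP_98022b_UN.H1


open MonoidAlgebra

namespace Pool.Agent.Lib.MP_98022b_UN

universe u v
variable {A : Type u} {G : Type v} [CommRing A] [IsDomain A] [Group G]
  {E : EdgeSys G} {β : BarStr A G} {ε : ℤ}

open H1Aux

/-- the case in which the row is supported in `F` -/
theorem avp_of_idx_onF [UniqueFactorizationMonoid A] (hRF : RF A E.F) {K r γ ι : Type} [Fintype K]
    [DecidableEq K] [Fintype r] [DecidableEq r] [Fintype γ] [DecidableEq γ] [Fintype ι]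
    [DecidableEq ι] {t : K → Bool} {J T : Matrix K K (MonoidAlgebra A G)} {s : r → Bool}
    {ζ : Matrix r K (MonoidAlgebra A G)} {θ : Matrix r r (MonoidAlgebra A G)}
    (hJ : HJ ε t J) (hS : IsStage E β t J T s ζ θ) (n : ℕ) (τ : Bool)
    {sγ : γ → Bool} {Gm : Matrix r γ (MonoidAlgebra A G)} {jx : ι → γ} {tx : ι → G}
    {φ : Matrix r ι (MonoidAlgebra A G)} (h : IsCompIdx E s ζ θ n τ sγ Gm jx tx φ)
    (a : A) (ha : a ≠ 0) (k : Matrix Unit ι (MonoidAlgebra A G)) (hkF : OnF E.F k)
    (hk : ∀ (l : Matrix ι Unit (MonoidAlgebra A G)) (x : Matrix K Unit (MonoidAlgebra A G)),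
      φ * l = ζ * x → ∃ y : Matrix Unit Unit (MonoidAlgebra A G), k * l = a • y) :
    ∃ k' : Matrix Unit ι (MonoidAlgebra A G), k = a • k' := by
  classical
  let lam : Matrix γ Unit (MonoidAlgebra A G) → Matrix ι Unit (MonoidAlgebra A G) :=
    fun μ l _ => single (tx l) 1 * μ (jx l) ()
  have hlam : ∀ μ : Matrix γ Unit (MonoidAlgebra A G),
      φ * lam μ = eT A G s τ * (θ ^ n * (Gm * μ)) := by
    intro μ
    have e1 : eT A G s τ * (θ ^ n * (Gm * μ)) = (eT A G s τ * (θ ^ n * Gm)) * μ := by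
      simp only [Matrix.mul_assoc]
    rw [e1]
    refine Matrix.ext fun i j => ?_
    rw [Matrix.mul_apply, Matrix.mul_apply]
    simp only [h.sum, Finset.sum_mul]
    rw [Finset.sum_comm]
    refine Finset.sum_congr rfl fun l _ => ?_
    rw [Finset.sum_eq_single (jx l)]
    · simp only [if_true, lam, mul_assoc]
    · intro b _ hb
      rw [if_neg (Ne.symm hb), zero_mul]
    · intro hb
      exact absurd (Finset.mem_univ _) hb
  let Θ : Matrix r Unit (MonoidAlgebra A G) → Matrix Unit Unit (MonoidAlgebra A G) :=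
    fun f => if hf : OnF E.F f ∧ Fnl ζ f then k * lam (h.G_gen f hf.1 hf.2).choose else 0
  have hΘ : ∀ f, OnF E.F f → Fnl ζ f → ∃ l : Matrix ι Unit (MonoidAlgebra A G),
      Θ f = k * l ∧ φ * l = eT A G s τ * (θ ^ n * f) := by
    intro f h1 h2
    refine ⟨lam (h.G_gen f h1 h2).choose, ?_, ?_⟩
    · simp only [Θ]
      rw [dif_pos ⟨h1, h2⟩]
    · rw [hlam, ← (h.G_gen f h1 h2).choose_spec.2]
  have hdiv := hom_lemma hRF hJ hS a ha Θ (by
      intro f g h1 h2 h3 h4
      obtain ⟨l1, e1, e1'⟩ := hΘ f h1 h2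
      obtain ⟨l2, e2, e2'⟩ := hΘ g h3 h4
      obtain ⟨l3, e3, e3'⟩ := hΘ (f + g) (h1.add h3) (Fnl_add h2 h4)
      rw [e1, e2, e3, ← Matrix.mul_sub, ← Matrix.mul_sub]
      refine hk _ 0 ?_
      rw [Matrix.mul_sub, Matrix.mul_sub, e1', e2', e3', Matrix.mul_add, Matrix.mul_add,
        Matrix.mul_zero]
      abel) (by
      intro f μ h1 h2 h3
      obtain ⟨l1, e1, e1'⟩ := hΘ f h1 h2
      obtain ⟨l3, e3, e3'⟩ := hΘ (f * μ) (h1.mul h3) (Fnl_mul h2 μ)
      rw [e1, e3, Matrix.mul_assoc, ← Matrix.mul_sub]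
      refine hk _ 0 ?_
      rw [Matrix.mul_sub, ← Matrix.mul_assoc, e1', e3', Matrix.mul_zero]
      simp only [Matrix.mul_assoc, sub_self]) (by
      intro x hx
      obtain ⟨l, e, e'⟩ := hΘ (ζ * x) (hS.ζ_on.onF.mul hx) (Fnl_self x)
      rw [e]
      refine hk _ (eT A G t τ * (T ^ n * x)) ?_
      have hpow : ∀ m : ℕ, θ ^ m * ζ = ζ * T ^ m := by
        intro m
        induction m with
        | zero => rw [pow_zero, pow_zero, Matrix.one_mul, Matrix.mul_one]
        | succ m ih =>
          rw [pow_succ, pow_succ, Matrix.mul_assoc, ← hS.comm, ← Matrix.mul_assoc, ih,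
            Matrix.mul_assoc]
      rw [e', ← Matrix.mul_assoc (θ ^ n), hpow, ← Matrix.mul_assoc, ← Matrix.mul_assoc,
        ← Matrix.mul_assoc, hS.ζ_on.eT_mul, ← Matrix.mul_assoc])
  -- evaluate at the columns of `Gm`
  let col : γ → Matrix r Unit (MonoidAlgebra A G) := fun j i _ => Gm i j
  have hGF : OnF E.F Gm := h.G_on.onF
  have hcolF : ∀ j, OnF E.F (col j) := fun j i _ g hg => hGF i j g hg
  have hcolf : ∀ j, Fnl ζ (col j) := fun j => h.G_fnl.col j
  let dl : γ → Matrix ι Unit (MonoidAlgebra A G) :=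
    fun j l _ => if jx l = j then single (tx l) 1 else 0
  have hdl : ∀ j, φ * dl j = eT A G s τ * (θ ^ n * col j) := by
    intro j
    refine Matrix.ext fun i u => ?_
    have e1 : (eT A G s τ * (θ ^ n * col j) : Matrix r Unit (MonoidAlgebra A G)) i u =
        (eT A G s τ * (θ ^ n * Gm) : Matrix r γ (MonoidAlgebra A G)) i j := by
      simp only [Matrix.mul_apply, col]
    rw [e1, h.sum, Matrix.mul_apply]
    refine Finset.sum_congr rfl fun l _ => ?_
    simp only [dl]
    split_ifs
    · rfl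
    · rw [mul_zero]
  have hkd : ∀ j, ∃ y : Matrix Unit Unit (MonoidAlgebra A G), k * dl j = a • y := by
    intro j
    obtain ⟨l, e, e'⟩ := hΘ (col j) (hcolF j) (hcolf j)
    obtain ⟨y, hy⟩ := hdiv (col j) (hcolF j) (hcolf j)
    obtain ⟨z, hz⟩ := hk (dl j - l) 0 (by
      rw [Matrix.mul_sub, hdl, e', sub_self, Matrix.mul_zero])
    refine ⟨z + y, ?_⟩
    rw [smul_add, ← hz, ← hy, e, Matrix.mul_sub]
    abel
  apply dvd_of_coeff
  intro i l g
  by_cases hg : g ∈ E.F
  · obtain ⟨y, hy⟩ := hkd (jx l)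
    have hd := dvd_coeff hy () () (g * tx l)
    have e : ((k * dl (jx l)) () ()).coeff (g * tx l) = (k i l).coeff g := by
      rw [Matrix.mul_apply]
      have e2 : ∀ l' : ι, (k () l' * dl (jx l) l' ()).coeff (g * tx l) =
          if l' = l then (k i l).coeff g else 0 := by
        intro l'
        by_cases hl : l' = l
        · subst hl
          simp only [dl, if_true]
          have : i = () := rfl
          subst this
          have := MonoidAlgebra.coeff_mul_single_apply (k () l') (1 : A) (tx l') (g * tx l')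
          rw [this, mul_one]
          simp
        · rw [if_neg hl]
          simp only [dl]
          split_ifs with hj
          · rw [MonoidAlgebra.coeff_mul_single_apply]
            have : (k () l').coeff (g * tx l * (tx l')⁻¹) = 0 := by
              by_contra hne
              have h1 := hkF () l' _ hne
              rw [mul_assoc] at h1
              have h2 := (E.F.mul_mem_cancel_left hg).1 h1
              exact hl (h.dist l l' hj.symm h2).symm
            rw [this, zero_mul]
          · rw [mul_zero]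
            rfl
      rw [MonoidAlgebra.coeff_sum, Finsupp.finsetSum_apply]
      rw [Finset.sum_congr rfl fun l' _ => e2 l']
      simp
    rw [e] at hd
    exact hd
  · have : (k i l).coeff g = 0 := by
      by_contra hne
      exact hg (hkF i l g hne)
    rw [this]
    exact dvd_zero a

/-- H2: the divisibility property for the matrix of components -/
theorem avp_of_idx [UniqueFactorizationMonoid A] (hRF : RF A E.F) {K r γ ι : Type} [Fintype K]
    [DecidableEq K] [Fintype r] [DecidableEq r] [Fintype γ] [DecidableEq γ] [Fintype ι]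
    [DecidableEq ι] {t : K → Bool} {J T : Matrix K K (MonoidAlgebra A G)} {s : r → Bool}
    {ζ : Matrix r K (MonoidAlgebra A G)} {θ : Matrix r r (MonoidAlgebra A G)}
    (hJ : HJ ε t J) (hS : IsStage E β t J T s ζ θ) (n : ℕ) (τ : Bool)
    {sγ : γ → Bool} {Gm : Matrix r γ (MonoidAlgebra A G)} {jx : ι → γ} {tx : ι → G}
    {φ : Matrix r ι (MonoidAlgebra A G)} (h : IsCompIdx E s ζ θ n τ sγ Gm jx tx φ) :
    AVP ζ φ := by
  classical
  intro a ha k hk
  have hφF : OnF E.F φ := by
    intro i l g hg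
    rw [h.φ_eq] at hg
    split_ifs at hg with hs
    · exact cR_onF (tx l) _ i (jx l) g hg
    · exact absurd rfl hg
  have hcomp : ∀ c : G, ∃ k' : Matrix Unit ι (MonoidAlgebra A G), cL E.F c k = a • k' := by
    intro c
    refine avp_of_idx_onF hRF hJ hS n τ h a ha (cL E.F c k) (cL_onF c k) ?_
    intro l x hlx
    obtain ⟨S, -, -, hl⟩ := cR_decomp E.F l
    have hg : ∀ g : G, ∃ y : Matrix Unit Unit (MonoidAlgebra A G),
        cL E.F c k * cR E.F g l = a • y := by
      intro g
      obtain ⟨y, hy⟩ := hk (cR E.F g l) (cR E.F g x) (by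
        rw [← cR_mul hφF, ← cR_mul hS.ζ_on.onF, hlx])
      refine ⟨cL E.F c y, ?_⟩
      rw [← cL_smul, ← hy, cL_mul (cR_onF g l)]
    choose y hy using hg
    let sg : G → Matrix Unit Unit (MonoidAlgebra A G) := fun g _ _ => single g 1
    refine ⟨∑ g ∈ S, y g * sg g, ?_⟩
    have e : l = ∑ g ∈ S, cR E.F g l * sg g := by
      conv_lhs => rw [hl]
      refine Finset.sum_congr rfl fun g _ => ?_
      refine Matrix.ext fun i j => ?_
      simp [Matrix.mul_apply, sg]
    conv_lhs => rw [e]
    rw [Matrix.mul_sum, Finset.smul_sum]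
    refine Finset.sum_congr rfl fun g _ => ?_
    rw [← Matrix.mul_assoc, hy, Matrix.smul_mul]
  apply dvd_of_coeff
  intro i j g
  obtain ⟨k', hk'⟩ := hcomp g
  have := dvd_coeff hk' i j 1
  rwa [cL_coeff_one] at this

end Pool.Agent.Lib.MP_98022b_UN
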