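import Mathlib
import Pool.Agent.Lib.MP_98022b_UN.Defs2
import Pool.Agent.Lib.MP_98022b_UN.CosL


open MonoidAlgebra

namespace Pool.Agent.Lib.MP_98022b_UN

universe u v

set_option linter.unusedSectionVars false

section
variable {A : Type u} {G : Type v} [CommRing A] [Group G]

theorem K1.supp_mul {x y : MonoidAlgebra A G} {g : G} (h : (x * y).coeff g ≠ 0) :
    ∃ a b, x.coeff a ≠ 0 ∧ y.coeff b ≠ 0 ∧ a * b = g := by
  classical
  by_contra hc
  push Not at hc
  apply h
  rw [MonoidAlgebra.coeff_mul]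
  refine Finset.sum_eq_zero fun a ha => Finset.sum_eq_zero fun b hb => ?_
  exact if_neg (hc a b (Finsupp.mem_support_iff.1 ha) (Finsupp.mem_support_iff.1 hb))

theorem K1.coeff_mul_single (x : MonoidAlgebra A G) (g h : G) :
    (x * single g 1).coeff h = x.coeff (h * g⁻¹) := by
  rw [MonoidAlgebra.coeff_mul_single_eq_coeff_mul (h * g⁻¹) (by
    intro m _; exact ⟨fun e => by rw [← e]; group, fun e => by rw [e]; group⟩), mul_one]

theorem K1.ext {x y : MonoidAlgebra A G} (h : ∀ g, x.coeff g = y.coeff g) : x = y := by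
  ext g
  exact h g

/-- restriction to the right coset `F g` -/
theorem K1.res_coset (F : Subgroup G) (g : G) (y : MonoidAlgebra A G) :
    res {h | h * g⁻¹ ∈ F} y = res (F : Set G) (y * single g⁻¹ 1) * single g 1 := by
  refine K1.ext fun h => ?_
  rw [K1.coeff_mul_single]
  by_cases hh : h * g⁻¹ ∈ F
  · rw [res_coeff_mem (U := {h | h * g⁻¹ ∈ F}) hh, res_coeff_mem (U := (F : Set G)) hh,
      K1.coeff_mul_single]
    group
  · rw [res_coeff_not_mem (U := {h | h * g⁻¹ ∈ F}) hh, res_coeff_not_mem (U := (F : Set G)) hh]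

theorem K1.res_mul {E : EdgeSys G} (hE : E.Geo) {n : ℕ} {σ ρ τ τ' : Bool}
    {a y : MonoidAlgebra A G} (ha : ∀ g, a.coeff g ≠ 0 → g ∈ E.S σ ρ)
    (hy : ∀ g, y.coeff g ≠ 0 → g ∈ E.P n ρ τ') {g : G} (hg : g ∈ E.P n τ τ') :
    res {h | h * g⁻¹ ∈ E.S σ τ} (a * y) =
      if ρ = τ then a * (res (E.F : Set G) (y * single g⁻¹ 1) * single g 1) else 0 := by
  -- if `s t` lies in the set then `ρ = τ` and `t ∈ F g`
  have key : ∀ s t, a.coeff s ≠ 0 → t ∈ E.P n ρ τ' → s * t * g⁻¹ ∈ E.S σ τ →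
      ρ = τ ∧ t * g⁻¹ ∈ E.F := by
    intro s t hs ht hst
    obtain ⟨h1, h2⟩ := hE n σ τ' ρ τ s (s * t * g⁻¹) t g (ha s hs) ht hst hg (by group)
    refine ⟨h1, ?_⟩
    have e : t * g⁻¹ = s⁻¹ * (s * t * g⁻¹) := by group
    rw [e]; exact h2
  split_ifs with hρ
  · subst hρ
    rw [← K1.res_coset]
    have e : a * y = a * res {h | h * g⁻¹ ∈ E.F} y + a * (y - res {h | h * g⁻¹ ∈ E.F} y) := by
      rw [← mul_add]; congr 1; abel
    rw [e, res_add]
    have e1 : res {h | h * g⁻¹ ∈ E.S σ ρ} (a * res {h | h * g⁻¹ ∈ E.F} y) =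
        a * res {h | h * g⁻¹ ∈ E.F} y := by
      refine res_eq_self fun h hh => ?_
      obtain ⟨s, t, hs, ht, rfl⟩ := K1.supp_mul hh
      have h1 := (res_supp _ _ _ ht).1
      have h2 : s * (t * g⁻¹) ∈ E.S σ ρ := E.right' (ha s hs) h1
      change s * t * g⁻¹ ∈ E.S σ ρ
      rw [mul_assoc]; exact h2
    have e2 : res {h | h * g⁻¹ ∈ E.S σ ρ} (a * (y - res {h | h * g⁻¹ ∈ E.F} y)) = 0 := by
      refine K1.ext fun h => ?_
      by_cases hh : h * g⁻¹ ∈ E.S σ ρ
      · rw [res_coeff_mem (U := {h | h * g⁻¹ ∈ E.S σ ρ}) hh]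
        by_contra hc
        obtain ⟨s, t, hs, ht, rfl⟩ := K1.supp_mul hc
        have hty : y.coeff t ≠ 0 := by
          intro h0
          apply ht
          rw [MonoidAlgebra.coeff_sub, Finsupp.sub_apply, h0]
          by_cases htF : t * g⁻¹ ∈ E.F
          · rw [res_coeff_mem (U := {h | h * g⁻¹ ∈ E.F}) htF, h0, sub_zero]
          · rw [res_coeff_not_mem (U := {h | h * g⁻¹ ∈ E.F}) htF, sub_zero]
        have h1 := key s t hs (hy t hty) hh
        apply ht
        rw [MonoidAlgebra.coeff_sub, Finsupp.sub_apply,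
          res_coeff_mem (U := {h | h * g⁻¹ ∈ E.F}) h1.2, sub_self]
      · rw [res_coeff_not_mem (U := {h | h * g⁻¹ ∈ E.S σ ρ}) hh]; rfl
    rw [e1, e2, add_zero]
  · refine K1.ext fun h => ?_
    by_cases hh : h * g⁻¹ ∈ E.S σ τ
    · rw [res_coeff_mem (U := {h | h * g⁻¹ ∈ E.S σ τ}) hh]
      by_contra hc
      obtain ⟨s, t, hs, ht, rfl⟩ := K1.supp_mul hc
      exact hρ (key s t hs (hy t ht) hh).1
    · rw [res_coeff_not_mem (U := {h | h * g⁻¹ ∈ E.S σ τ}) hh]; rfl
end

variable {A : Type u} {G : Type v} [CommRing A] [Nontrivial A] [Group G]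
  {E : EdgeSys G} {β : BarStr A G} {ε : ℤ}

/-- K1: `N`-condition.  The component `φ` of `θ^n f` satisfies `θ φ = ζ b`. -/
theorem comp_eq (hE : E.Geo) {K r : Type} [Fintype K] [DecidableEq K] [Fintype r] [DecidableEq r]
    {t : K → Bool} {J T : Matrix K K (MonoidAlgebra A G)} {s : r → Bool}
    {ζ : Matrix r K (MonoidAlgebra A G)} {θ : Matrix r r (MonoidAlgebra A G)}
    (hS : IsStage E β t J T s ζ θ) (n : ℕ) (hP : ∀ σ, PP E s ζ θ (n + 1) σ) (τ τ' : Bool)
    {f : Matrix r Unit (MonoidAlgebra A G)} (hf : OnT E s (fun _ => τ') 0 f) (hf' : Fnl ζ f)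
    (g : G) (hg : g ∈ E.P n τ τ') :
    ∃ b : Matrix K Unit (MonoidAlgebra A G), OnT E t (fun _ => τ) 1 b ∧
      θ * ((eT A G s τ : Matrix r r (MonoidAlgebra A G)) * cR E.F g (θ ^ n * f)) = ζ * b := by
  classical
  obtain ⟨p1, hp1⟩ := hP false τ' f hf hf'
  obtain ⟨p2, hp2⟩ := hP true τ' f hf hf'
  have hrep : θ * (θ ^ n * f) = ζ * (p1 + p2) := by
    rw [Matrix.mul_add, ← hp1, ← hp2, ← Matrix.add_mul]
    have h1 : (eT A G s false + eT A G s true : Matrix r r (MonoidAlgebra A G)) = 1 :=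
      eT_add s false
    rw [h1, Matrix.one_mul, pow_succ', Matrix.mul_assoc]
  have hθn : OnT E s (fun _ => τ') n (θ ^ n * f) := by
    have := (hS.θ_on.pow n).mul hf
    simpa using this
  set y := θ ^ n * f with hy
  let U : Bool → Set G := fun σ => {h | h * g⁻¹ ∈ E.S σ τ}
  have h1 := resM_mul_left (E := E) (K := Unit) hS.ζ_on (fun σ _ => U σ)
    (fun σ _ f hf h hh => by
      change f * h * g⁻¹ ∈ E.S σ τ
      rw [mul_assoc]; exact E.left' hf hh) (p1 + p2)
  have h2 : resM (fun i (_ : Unit) => U (s i)) (θ * y) =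
      fun i j => (θ * ((eT A G s τ : Matrix r r (MonoidAlgebra A G)) * cR E.F g y) :
        Matrix r Unit (MonoidAlgebra A G)) i j * single g 1 := by
    funext i j
    change res (U (s i)) ((θ * y : Matrix r Unit (MonoidAlgebra A G)) i j) = _
    rw [Matrix.mul_apply, res_sum, Matrix.mul_apply, Finset.sum_mul]
    refine Finset.sum_congr rfl fun k _ => ?_
    rw [K1.res_mul hE (σ := s i) (ρ := s k) (τ' := τ') (n := n)
      (fun g' hg' => (P_one E).1 (hS.θ_on i k g' hg')) (fun g' hg' => hθn k j g' hg') hg,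
      eT_mul_apply]
    split_ifs
    · rw [mul_assoc]; rfl
    · simp
  refine ⟨fun k j => resM (fun i (_ : Unit) => U (t i)) (p1 + p2) k j * single g⁻¹ 1, ?_, ?_⟩
  · intro k j h hh
    rw [P_one]
    rw [K1.coeff_mul_single, inv_inv] at hh
    have := (res_supp _ _ _ hh).1
    change h * g * g⁻¹ ∈ E.S (t k) τ at this
    simpa using this
  · have h3 : ζ * resM (fun j (_ : Unit) => U (t j)) (p1 + p2) =
        fun i j => (θ * ((eT A G s τ : Matrix r r (MonoidAlgebra A G)) * cR E.F g y) :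
          Matrix r Unit (MonoidAlgebra A G)) i j * single g 1 := by
      rw [← h1, ← hrep, h2]
    funext i j
    have h4 := congrFun (congrFun h3 i) j
    rw [Matrix.mul_apply] at h4
    change (θ * ((eT A G s τ : Matrix r r (MonoidAlgebra A G)) * cR E.F g y) :
        Matrix r Unit (MonoidAlgebra A G)) i j =
      ∑ k, ζ i k * (resM (fun i (_ : Unit) => U (t i)) (p1 + p2) k j * single g⁻¹ 1)
    have h5 : ∑ k, ζ i k * (resM (fun i (_ : Unit) => U (t i)) (p1 + p2) k j * single g⁻¹ 1) =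
        (∑ k, ζ i k * resM (fun i (_ : Unit) => U (t i)) (p1 + p2) k j) * single g⁻¹ 1 := by
      rw [Finset.sum_mul]
      exact Finset.sum_congr rfl fun k _ => (mul_assoc _ _ _).symm
    rw [h5, h4, mul_assoc, MonoidAlgebra.single_mul_single, mul_inv_cancel, mul_one,
      ← MonoidAlgebra.one_def, mul_one]

end Pool.Agent.Lib.MP_98022b_UN
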