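import Mathlib
import Pool.Agent.Lib.MP_98022b_UN.Defs2
import Pool.Agent.Lib.MP_98022b_UN.CosL


open MonoidAlgebra

namespace Pool.Agent.Lib.MP_98022b_UN

universe u v
variable {A : Type u} {G : Type v} [CommRing A] [Nontrivial A] [Group G]
  {E : EdgeSys G} {β : BarStr A G} {ε : ℤ}

set_option linter.unusedSectionVars false

theorem K2.coeff_mul_single (x : MonoidAlgebra A G) (g h : G) :
    (x * single g 1).coeff h = x.coeff (h * g⁻¹) := by
  rw [MonoidAlgebra.coeff_mul_single_eq_coeff_mul (h * g⁻¹) (by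
    intro m _; exact ⟨fun e => by rw [← e]; group, fun e => by rw [e]; group⟩), mul_one]

theorem K2.cL_one {F : Subgroup G} {I J : Type} {M : Matrix I J (MonoidAlgebra A G)}
    (hM : OnF F M) : cL F 1 M = M := by
  funext i j
  change res (F : Set G) (single (1 : G)⁻¹ 1 * M i j) = M i j
  rw [inv_one, ← MonoidAlgebra.one_def, one_mul]
  exact res_eq_self (hM i j)

theorem K2.pow_comm {K r : Type} [Fintype K] [DecidableEq K] [Fintype r] [DecidableEq r]
    {t : K → Bool} {s : r → Bool}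
    {ζ : Matrix r K (MonoidAlgebra A G)} (hζ : OnT E s t 0 ζ) (τ : Bool)
    {c : Type} {f : Matrix r c (MonoidAlgebra A G)} (hf : Fnl ζ f) :
    Fnl ζ ((eT A G s τ : Matrix r r (MonoidAlgebra A G)) * f) := by
  intro κ hκ
  rw [← Matrix.mul_assoc]
  apply hf
  rw [Matrix.mul_assoc, hζ.eT_mul, ← Matrix.mul_assoc, hκ, Matrix.zero_mul]

/-- the generating functionals -/
theorem K2.gens (hRF : RF A E.F) {K r : Type} [Fintype K] [DecidableEq K]
    [Fintype r] [DecidableEq r] {t : K → Bool} {s : r → Bool}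
    {ζ : Matrix r K (MonoidAlgebra A G)} (β : BarStr A G) (hζ : OnT E s t 0 ζ) :
    ∃ (n : ℕ) (Gm : Matrix r (Fin n × Bool) (MonoidAlgebra A G)),
      OnT E s Prod.snd 0 Gm ∧ Fnl ζ Gm ∧
      ∀ f : Matrix r Unit (MonoidAlgebra A G), OnF E.F f → Fnl ζ f →
        ∃ μ : Matrix (Fin n × Bool) Unit (MonoidAlgebra A G), OnF E.F μ ∧ f = Gm * μ := by
  classical
  obtain ⟨n0, ω0, hω0F, hω0⟩ := hRF.c1 r K ζ hζ.onF
  obtain ⟨n1, ω1, hω1F, hω1⟩ := hRF.c1 r (Fin n0) (adj β ω0) (hω0F.adj β)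
  let Gm : Matrix r (Fin n1 × Bool) (MonoidAlgebra A G) := fun i p =>
    ((eT A G s p.2 : Matrix r r (MonoidAlgebra A G)) * adj β ω1) i p.1
  have hGm : ∀ i p, Gm i p = if s i = p.2 then adj β ω1 i p.1 else 0 := fun i p =>
    eT_mul_apply s p.2 (adj β ω1) i p.1
  have hfn : Fnl ζ (adj β ω1) := by
    intro κ hκ
    obtain ⟨κ', rfl⟩ := hω0.2 κ hκ
    have h1 : ω0 * adj β ω1 = 0 := by
      rw [← adj_adj β ω0, ← adj_mul, hω1.1, adj_zero]
    rw [Matrix.mul_assoc, h1, Matrix.mul_zero]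
  refine ⟨n1, Gm, ?_, ?_, ?_⟩
  · intro i p g hg
    rw [hGm] at hg
    rw [P_zero]
    split_ifs at hg with hi
    · exact ⟨hω1F.adj β i p.1 g hg, hi⟩
    · exact absurd rfl hg
  · intro κ hκ
    funext a p
    have h1 := K2.pow_comm hζ p.2 hfn κ hκ
    have h2 := congrFun (congrFun h1 a) p.1
    exact h2
  · intro f hf hf'
    have h1 : ω0 * f = 0 := hf'.mat ω0 hω0.1
    have h2 : adj β f * adj β ω0 = 0 := by rw [← adj_mul, h1, adj_zero]
    obtain ⟨κ, hκ⟩ := hω1.2 (adj β f) h2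
    have h3 : adj β f = cL E.F 1 κ * ω1 := by
      rw [← cL_mul hω1F, ← hκ, K2.cL_one (hf.adj β)]
    have h4 : f = adj β ω1 * adj β (cL E.F 1 κ) := by
      rw [← adj_mul, ← h3, adj_adj]
    refine ⟨fun p j => adj β (cL E.F 1 κ) p.1 j, fun p j g hg =>
      (cL_onF (F := E.F) 1 κ).adj β p.1 j g hg, ?_⟩
    funext i j
    have h5 := congrFun (congrFun h4 i) j
    rw [Matrix.mul_apply] at h5
    rw [h5]
    change _ = ∑ p : Fin n1 × Bool, Gm i p * adj β (cL E.F 1 κ) p.1 j
    rw [Fintype.sum_prod_type]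
    refine Finset.sum_congr rfl fun k _ => ?_
    rw [Finset.sum_eq_single (s i)]
    · rw [hGm, if_pos rfl]
    · intro b _ hb
      rw [hGm, if_neg (fun h => hb h.symm), zero_mul]
    · intro h; exact absurd (Finset.mem_univ _) h

/-- K2: existence of the matrix of components. -/
theorem exists_compIdx (hRF : RF A E.F) {K r : Type} [Fintype K] [DecidableEq K]
    [Fintype r] [DecidableEq r]
    {t : K → Bool} {J T : Matrix K K (MonoidAlgebra A G)} {s : r → Bool}
    {ζ : Matrix r K (MonoidAlgebra A G)} {θ : Matrix r r (MonoidAlgebra A G)}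
    (β : BarStr A G) (hS : IsStage E β t J T s ζ θ) (n : ℕ) (τ : Bool) :
    ∃ (γ : Type) (_ : Fintype γ) (_ : DecidableEq γ) (ι : Type) (_ : Fintype ι)
      (_ : DecidableEq ι) (sγ : γ → Bool)
      (Gm : Matrix r γ (MonoidAlgebra A G)) (jx : ι → γ) (tx : ι → G)
      (φ : Matrix r ι (MonoidAlgebra A G)), IsCompIdx E s ζ θ n τ sγ Gm jx tx φ := by
  classical
  obtain ⟨n1, Gm, hG1, hG2, hG3⟩ := K2.gens hRF β hS.ζ_on
  have hX : OnT E s Prod.snd n (θ ^ n * Gm) := by
    have := (hS.θ_on.pow n).mul hG1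
    simpa using this
  obtain ⟨T, hT1, hT2, hT3⟩ := cR_decomp E.F
    (eT A G s τ * (θ ^ n * Gm) : Matrix r (Fin n1 × Bool) (MonoidAlgebra A G))
  let tk : Fin T.card → G := fun k => (T.equivFin.symm k).1
  let ψ : r → (Fin n1 × Bool) × Fin T.card → MonoidAlgebra A G := fun i p =>
    if s i = τ then cR E.F (tk p.2) (θ ^ n * Gm) i p.1 else 0
  let ι := {p : (Fin n1 × Bool) × Fin T.card // ∃ i, ψ i p ≠ 0}
  refine ⟨Fin n1 × Bool, inferInstance, inferInstance, ι, inferInstance, inferInstance,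
    Prod.snd, Gm, fun l => l.1.1, fun l => tk l.1.2, fun i l => ψ i l.1, hG1, hG2, hG3, ?_, ?_,
    fun _ _ => rfl, ?_⟩
  · rintro ⟨p, i, hi⟩
    have hi' : s i = τ ∧ cR E.F (tk p.2) (θ ^ n * Gm) i p.1 ≠ 0 := by
      change (if s i = τ then cR E.F (tk p.2) (θ ^ n * Gm) i p.1 else 0) ≠ 0 at hi
      split_ifs at hi with h
      · exact ⟨h, hi⟩
      · exact absurd rfl hi
    have h1 : ∃ f, (cR E.F (tk p.2) (θ ^ n * Gm) i p.1).coeff f ≠ 0 := by
      by_contra hc
      push Not at hc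
      apply hi'.2
      ext f
      exact hc f
    obtain ⟨f, hf⟩ := h1
    have h2 := res_supp _ _ _ hf
    have h3 := h2.2
    rw [K2.coeff_mul_single, inv_inv] at h3
    have h4 := hX i p.1 _ h3
    rw [hi'.1] at h4
    have h5 := P_left E (E.F.inv_mem h2.1) h4
    change tk p.2 ∈ E.P n τ p.1.2
    have e : f⁻¹ * (f * tk p.2) = tk p.2 := by group
    rw [e] at h5
    exact h5
  · rintro ⟨p, hp⟩ ⟨q, hq⟩ h1 h2
    apply Subtype.ext
    refine Prod.ext h1 ?_
    have h3 := hT1 (tk p.2) (T.equivFin.symm p.2).2 (tk q.2) (T.equivFin.symm q.2).2 h2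
    exact T.equivFin.symm.injective (Subtype.ext h3)
  · intro i j
    have h0 : (eT A G s τ * (θ ^ n * Gm) : Matrix r (Fin n1 × Bool) (MonoidAlgebra A G)) i j =
        ∑ g ∈ T, cR E.F g (eT A G s τ * (θ ^ n * Gm) :
          Matrix r (Fin n1 × Bool) (MonoidAlgebra A G)) i j * single g 1 := by
      have h := congrFun (congrFun hT3 i) j
      rw [Finset.sum_apply, Finset.sum_apply] at h
      exact h
    have h1 : ∀ g, cR E.F g (eT A G s τ * (θ ^ n * Gm) :
        Matrix r (Fin n1 × Bool) (MonoidAlgebra A G)) i j =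
        if s i = τ then cR E.F g (θ ^ n * Gm) i j else 0 := by
      intro g
      change res (E.F : Set G) ((eT A G s τ * (θ ^ n * Gm) :
        Matrix r (Fin n1 × Bool) (MonoidAlgebra A G)) i j * single g⁻¹ 1) = _
      rw [eT_mul_apply]
      split_ifs
      · rfl
      · rw [zero_mul, res_zero]
    have h2 : ∑ l : ι, (if l.1.1 = j then ψ i l.1 * single (tk l.1.2) 1 else 0) =
        ∑ p : (Fin n1 × Bool) × Fin T.card,
          (if p.1 = j then ψ i p * single (tk p.2) 1 else 0) := by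
      have h := Finset.sum_subtype (F := (inferInstance : Fintype ι))
        (Finset.univ.filter fun p : (Fin n1 × Bool) × Fin T.card =>
          ∃ i, ψ i p ≠ 0) (p := fun p => ∃ i, ψ i p ≠ 0) (by simp)
        (fun p => if p.1 = j then ψ i p * single (tk p.2) 1 else 0)
      refine Eq.trans h.symm ?_
      rw [Finset.sum_filter]
      refine Finset.sum_congr rfl fun p _ => ?_
      by_cases hp : ∃ i, ψ i p ≠ 0
      · rw [if_pos hp]
      · rw [if_neg hp]
        push Not at hp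
        rw [hp i, zero_mul, ite_self]
    rw [h0]
    refine Eq.trans ?_ h2.symm
    rw [Fintype.sum_prod_type, Finset.sum_eq_single j]
    · rw [← Finset.sum_coe_sort T]
      rw [← Equiv.sum_comp T.equivFin.symm]
      refine Finset.sum_congr rfl fun k _ => ?_
      rw [h1, if_pos rfl]
    · intro b _ hb
      refine Finset.sum_eq_zero fun k _ => ?_
      rw [if_neg hb]
    · intro h; exact absurd (Finset.mem_univ _) h

end Pool.Agent.Lib.MP_98022b_UN
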