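import Mathlib
import Pool.Agent.Lib.MP_98022b_UN.Defs2
import Pool.Agent.Lib.MP_98022b_UN.CosL
import Pool.Agent.Lib.MP_98022b_UN.K1


open MonoidAlgebra

namespace Pool.Agent.Lib.MP_98022b_UN

universe u v
variable {A : Type u} {G : Type v} [CommRing A] [Nontrivial A] [Group G]
  {E : EdgeSys G} {β : BarStr A G} {ε : ℤ}

set_option linter.unusedSectionVars false

theorem K3.comm_pow {K r : Type} [Fintype K] [DecidableEq K] [Fintype r] [DecidableEq r]
    {T : Matrix K K (MonoidAlgebra A G)}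
    {ζ : Matrix r K (MonoidAlgebra A G)} {θ : Matrix r r (MonoidAlgebra A G)}
    (h : ζ * T = θ * ζ) (n : ℕ) : θ ^ n * ζ = ζ * T ^ n := by
  induction n with
  | zero => simp
  | succ n ih => rw [pow_succ', Matrix.mul_assoc, ih, ← Matrix.mul_assoc, ← h, pow_succ',
      Matrix.mul_assoc]

theorem K3.fnl_pow {K r c : Type} [Fintype K] [DecidableEq K] [Fintype r] [DecidableEq r]
    {T : Matrix K K (MonoidAlgebra A G)}
    {ζ : Matrix r K (MonoidAlgebra A G)} {θ : Matrix r r (MonoidAlgebra A G)}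
    (h : ζ * T = θ * ζ) (n : ℕ) {f : Matrix r c (MonoidAlgebra A G)} (hf : Fnl ζ f) :
    Fnl ζ (θ ^ n * f) := by
  intro κ hκ
  rw [← Matrix.mul_assoc]
  apply hf
  rw [Matrix.mul_assoc, K3.comm_pow h, ← Matrix.mul_assoc, hκ, Matrix.zero_mul]

theorem K3.fnl_eT {K r c : Type} [Fintype K] [DecidableEq K] [Fintype r] [DecidableEq r]
    {t : K → Bool} {s : r → Bool}
    {ζ : Matrix r K (MonoidAlgebra A G)} (hζ : OnT E s t 0 ζ) (τ : Bool)
    {f : Matrix r c (MonoidAlgebra A G)} (hf : Fnl ζ f) :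
    Fnl ζ ((eT A G s τ : Matrix r r (MonoidAlgebra A G)) * f) := by
  intro κ hκ
  rw [← Matrix.mul_assoc]
  apply hf
  rw [Matrix.mul_assoc, hζ.eT_mul, ← Matrix.mul_assoc, hκ, Matrix.zero_mul]

/-- K3: everything in `IsComp` except `avp`. -/
theorem comp_of_idx (hE : E.Geo) {K r γ ι : Type} [Fintype K] [DecidableEq K]
    [Fintype r] [DecidableEq r] [Fintype γ] [DecidableEq γ] [Fintype ι] [DecidableEq ι]
    {t : K → Bool} {J T : Matrix K K (MonoidAlgebra A G)} {s : r → Bool}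
    {ζ : Matrix r K (MonoidAlgebra A G)} {θ : Matrix r r (MonoidAlgebra A G)}
    (hS : IsStage E β t J T s ζ θ) (n : ℕ) (hP : ∀ σ, PP E s ζ θ (n + 1) σ) (τ : Bool)
    {sγ : γ → Bool} {Gm : Matrix r γ (MonoidAlgebra A G)} {jx : ι → γ} {tx : ι → G}
    {φ : Matrix r ι (MonoidAlgebra A G)} (h : IsCompIdx E s ζ θ n τ sγ Gm jx tx φ) :
    OnT E s (fun _ => τ) 0 φ ∧ Fnl ζ φ ∧
    (∃ b : Matrix K ι (MonoidAlgebra A G), OnT E t (fun _ => τ) 1 b ∧ θ * φ = ζ * b) ∧
    ∀ f : Matrix r Unit (MonoidAlgebra A G), OnF E.F f → Fnl ζ f →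
      ∃ l : Matrix ι Unit (MonoidAlgebra A G), (eT A G s τ : Matrix r r (MonoidAlgebra A G)) * (θ ^ n * f) = φ * l := by
  classical
  -- the columns of `Gm` and of `φ`
  let gc : γ → Matrix r Unit (MonoidAlgebra A G) := fun j i _ => Gm i j
  have hgc : ∀ j, OnT E s (fun _ => sγ j) 0 (gc j) := fun j i _ g hg => h.G_on i j g hg
  have hgf : ∀ j, Fnl ζ (gc j) := fun j => h.G_fnl.col j
  have hcol : ∀ l, (fun i (_ : Unit) => φ i l : Matrix r Unit (MonoidAlgebra A G)) =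
      (eT A G s τ : Matrix r r (MonoidAlgebra A G)) * cR E.F (tx l) (θ ^ n * gc (jx l)) := by
    intro l
    funext i j
    rw [eT_mul_apply]
    rw [h.φ_eq i l]
    rfl
  refine ⟨?_, ?_, ?_, ?_⟩
  · intro i l g hg
    rw [P_zero]
    rw [h.φ_eq i l] at hg
    split_ifs at hg with hi
    · exact ⟨cR_onF (F := E.F) (tx l) (θ ^ n * Gm) i (jx l) g hg, hi⟩
    · exact absurd rfl hg
  · refine fnl_of_cols fun l => ?_
    rw [hcol l]
    exact K3.fnl_eT hS.ζ_on τ
      (Fnl.cR hS.ζ_on.onF (K3.fnl_pow hS.comm n (hgf (jx l))) (tx l))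
  · choose b hb hb' using fun l => comp_eq hE hS n hP τ (sγ (jx l)) (hgc (jx l)) (hgf (jx l))
      (tx l) (h.tx_mem l)
    refine ⟨fun k l => b l k (), fun k l g hg => hb l k () g hg, ?_⟩
    funext i l
    have h1 := congrFun (congrFun (hb' l) i) ()
    rw [← hcol l] at h1
    exact h1
  · intro f hf hf'
    obtain ⟨μ, hμ, rfl⟩ := h.G_gen f hf hf'
    refine ⟨fun l _ => single (tx l) 1 * μ (jx l) (), ?_⟩
    rw [← Matrix.mul_assoc (θ ^ n), ← Matrix.mul_assoc]
    funext i j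
    rw [Matrix.mul_apply]
    change _ = ∑ l, φ i l * (single (tx l) 1 * μ (jx l) ())
    have h1 : ∀ k, (eT A G s τ * (θ ^ n * Gm) : Matrix r γ (MonoidAlgebra A G)) i k * μ k j =
        ∑ l, if jx l = k then φ i l * (single (tx l) 1 * μ (jx l) ()) else 0 := by
      intro k
      rw [h.sum i k, Finset.sum_mul]
      refine Finset.sum_congr rfl fun l _ => ?_
      split_ifs with hl
      · rw [hl, mul_assoc]
      · rw [zero_mul]
    rw [Finset.sum_congr rfl fun k _ => h1 k, Finset.sum_comm]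
    refine Finset.sum_congr rfl fun l _ => ?_
    rw [Finset.sum_ite_eq]
    simp

end Pool.Agent.Lib.MP_98022b_UN
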