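import Mathlib
import Pool.Agent.Lib.MP_98022b_UN.Defs2
import Pool.Agent.Lib.MP_98022b_UN.CosL


open MonoidAlgebra

namespace Pool.Agent.Lib.MP_98022b_UN

universe u v
variable {A : Type u} {G : Type v} [CommRing A] [Nontrivial A] [Group G]
  {E : EdgeSys G} {β : BarStr A G} {ε : ℤ}

namespace P1Aux

omit [Nontrivial A] in
theorem supp_mul {x y : MonoidAlgebra A G} {g : G} (h : (x * y).coeff g ≠ 0) :
    ∃ a b, x.coeff a ≠ 0 ∧ y.coeff b ≠ 0 ∧ a * b = g := by
  classical
  by_contra hc
  push Not at hc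
  apply h
  rw [coeff_mul, Finsupp.sum]
  refine Finset.sum_eq_zero fun a ha => ?_
  rw [Finsupp.sum]
  refine Finset.sum_eq_zero fun b hb => ?_
  rw [if_neg (hc a b (Finsupp.mem_support_iff.1 ha) (Finsupp.mem_support_iff.1 hb))]

omit [Nontrivial A] in
theorem res_zero_of {U : Set G} {x : MonoidAlgebra A G} (h : ∀ g, x.coeff g ≠ 0 → g ∉ U) :
    res U x = 0 := by
  ext g
  by_cases hg : g ∈ U
  · rw [res_coeff_mem hg]
    by_contra hc
    exact h g hc hg
  · rw [res_coeff_not_mem hg]; rfl

omit [Nontrivial A] in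
theorem cL_coeff {F : Subgroup G} {I J : Type} (g : G) (M : Matrix I J (MonoidAlgebra A G))
    (i : I) (j : J) {h : G} (hh : h ∈ F) : (cL F g M i j).coeff h = (M i j).coeff (g * h) := by
  have h1 : (cL F g M i j).coeff h = (single g⁻¹ (1 : A) * M i j).coeff h :=
    res_coeff_mem (U := (F : Set G)) hh
  rw [h1, coeff_single_mul_apply, inv_inv, one_mul]

omit [Nontrivial A] in
theorem smul_mul {c r K : Type} [Fintype r] (u : MonoidAlgebra A G)
    (M : Matrix c r (MonoidAlgebra A G)) (ζ : Matrix r K (MonoidAlgebra A G)) (i : c) (j : K) :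
    ((Matrix.of fun i j => u * M i j) * ζ) i j = u * (M * ζ) i j := by
  rw [Matrix.mul_apply, Matrix.mul_apply, Finset.mul_sum]
  exact Finset.sum_congr rfl fun k _ => mul_assoc _ _ _

omit [Nontrivial A] in
/-- the main computation for one product `w_{ik} T_{kj}` -/
theorem key (hE : E.Geo) {m : ℕ} {σ ρ τ τ' : Bool} {g : G} {x y : MonoidAlgebra A G}
    (hx : ∀ a, x.coeff a ≠ 0 → a ∈ E.P m σ ρ) (hy : ∀ a, y.coeff a ≠ 0 → a ∈ E.S ρ τ') :
    res {a | g ∈ E.P m σ τ ∧ g⁻¹ * a ∈ E.S τ τ'} (x * y) =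
      if ρ = τ then single g 1 * res (E.F : Set G) (single g⁻¹ 1 * x) * y else 0 := by
  classical
  split_ifs with hρ
  · subst hρ
    by_cases hg : g ∈ E.P m σ ρ
    · set p : MonoidAlgebra A G := single g 1 * res (E.F : Set G) (single g⁻¹ 1 * x) with hp
      have hpc : ∀ a, p.coeff a = if g⁻¹ * a ∈ E.F then x.coeff a else 0 := by
        intro a
        rw [hp, coeff_single_mul_apply, one_mul]
        split_ifs with h
        · have h2 : g⁻¹ * a ∈ (E.F : Set G) := h
          rw [res_coeff_mem h2, coeff_single_mul_apply, inv_inv, one_mul, mul_inv_cancel_left]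
        · have h2 : g⁻¹ * a ∉ (E.F : Set G) := h
          rw [res_coeff_not_mem h2]
      have hd : x * y = p * y + (x - p) * y := by rw [← add_mul]; congr 1; abel
      rw [hd, res_add]
      have h1 : res {a | g ∈ E.P m σ ρ ∧ g⁻¹ * a ∈ E.S ρ τ'} (p * y) = p * y := by
        apply res_eq_self
        intro a ha
        obtain ⟨b, c, hb, hc, rfl⟩ := supp_mul ha
        refine ⟨hg, ?_⟩
        rw [hpc] at hb
        split_ifs at hb with h
        · rw [← mul_assoc]
          exact E.left' h (hy c hc)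
        · exact absurd rfl hb
      have h2 : res {a | g ∈ E.P m σ ρ ∧ g⁻¹ * a ∈ E.S ρ τ'} ((x - p) * y) = 0 := by
        apply res_zero_of
        rintro a ha ⟨-, haU⟩
        obtain ⟨b, c, hb, hc, rfl⟩ := supp_mul ha
        rw [coeff_sub, Finsupp.sub_apply, hpc] at hb
        split_ifs at hb with h
        · exact hb (sub_self _)
        · rw [sub_zero] at hb
          have h3 := hE.last (hx b hb) (hy c hc) hg haU (by rw [mul_inv_cancel_left])
          apply h
          have h4 := h3.2
          rw [mul_inv_rev, inv_inv, mul_inv_rev] at h4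
          have h5 : c * (c⁻¹ * b⁻¹ * g) = b⁻¹ * g := by group
          rw [h5] at h4
          have h6 := E.F.inv_mem h4
          rwa [mul_inv_rev, inv_inv] at h6
      rw [h1, h2, add_zero]
    · have h0 : res (E.F : Set G) (single g⁻¹ 1 * x) = 0 := by
        apply res_zero_of
        intro a ha haF
        rw [coeff_single_mul_apply, inv_inv, one_mul] at ha
        apply hg
        have h1 := P_right E (hx _ ha) (E.F.inv_mem haF)
        rwa [mul_inv_cancel_right] at h1
      rw [h0, mul_zero, zero_mul]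
      apply res_zero_of
      rintro a - ⟨h, -⟩
      exact hg h
  · apply res_zero_of
    rintro a ha ⟨hg, haU⟩
    obtain ⟨b, c, hb, hc, rfl⟩ := supp_mul ha
    exact hρ (hE.last (hx b hb) (hy c hc) hg haU (by rw [mul_inv_cancel_left])).1

end P1Aux

/-- if the row `w` (supported in words of length `m`) is mapped by `T` into the row space of `ζ`,
then so are its left coset components -/
theorem cL_mul_T_mem (hE : E.Geo) {K r c : Type} [Fintype K] [DecidableEq K] [Fintype r]
    [Fintype c] {t : K → Bool}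
    {T : Matrix K K (MonoidAlgebra A G)} (hT : OnT E t t 1 T) {s : r → Bool}
    {ζ : Matrix r K (MonoidAlgebra A G)} (hζ : OnT E s t 0 ζ) {m : ℕ} {sc : c → Bool}
    {w : Matrix c K (MonoidAlgebra A G)} (hw : OnT E sc t m w)
    {κ : Matrix c r (MonoidAlgebra A G)} (h : w * T = κ * ζ) (g : G) (τ : Bool) :
    ∃ κ' : Matrix c r (MonoidAlgebra A G), cL E.F g (w * eT A G t τ) * T = κ' * ζ := by
  classical
  set U : c → Bool → Set G := fun i τ' => {a | g ∈ E.P m (sc i) τ ∧ g⁻¹ * a ∈ E.S τ τ'} with hU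
  have hUr : ∀ i τ', ∀ f ∈ E.F, ∀ a ∈ U i τ', a * f ∈ U i τ' := by
    rintro i τ' f hf a ⟨h1, h2⟩
    refine ⟨h1, ?_⟩
    rw [← mul_assoc]
    exact E.right' h2 hf
  have h1 := resM_mul_right hζ U hUr κ
  rw [← h] at h1
  have h2 : ∀ i j, (resM (fun i k => U i (t k)) (w * T)) i j =
      single g 1 * (cL E.F g (w * eT A G t τ) * T) i j := by
    intro i j
    show res (U i (t j)) ((w * T) i j) = _
    rw [Matrix.mul_apply, Matrix.mul_apply, res_sum, Finset.mul_sum]
    refine Finset.sum_congr rfl fun k _ => ?_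
    rw [P1Aux.key hE (fun a ha => hw i k a ha) (fun a ha => (P_one E).mp (hT k j a ha))]
    have h3 : cL E.F g (w * eT A G t τ) i k =
        res (E.F : Set G) (single g⁻¹ 1 * (if t k = τ then w i k else 0)) := by
      rw [← mul_eT_apply]; rfl
    rw [h3]
    split_ifs with hk
    · rw [mul_assoc]
    · rw [mul_zero, res_zero, zero_mul, mul_zero]
  refine ⟨Matrix.of fun i j => single g⁻¹ 1 * resM (fun i k => U i (s k)) κ i j, ?_⟩
  funext i j
  have h4 : (cL E.F g (w * eT A G t τ) * T) i j =
      single g⁻¹ 1 * (single g 1 * (cL E.F g (w * eT A G t τ) * T) i j) := by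
    rw [← mul_assoc, single_mul_single, inv_mul_cancel, one_mul, ← one_def, one_mul]
  rw [h4, ← h2 i j, h1]
  exact (P1Aux.smul_mul _ _ _ i j).symm

end Pool.Agent.Lib.MP_98022b_UN
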