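import Mathlib
import Pool.Agent.Lib.MP_98022b_UN.Defs2
import Pool.Agent.Lib.MP_98022b_UN.CosL
import Pool.Agent.Lib.MP_98022b_UN.P1


open MonoidAlgebra

namespace Pool.Agent.Lib.MP_98022b_UN

universe u v
variable {A : Type u} {G : Type v} [CommRing A] [Nontrivial A] [Group G]
  {E : EdgeSys G} {β : BarStr A G} {ε : ℤ}

/-- a row of a matrix -/
def enRow {J c : Type} (x : Matrix c J (MonoidAlgebra A G)) (i : c) :
    Matrix Unit J (MonoidAlgebra A G) := fun _ j => x i j

omit [Nontrivial A] in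
/-- rowwise membership in a row space -/
theorem enlarge_rows {r K c : Type} [Fintype r] {ζ : Matrix r K (MonoidAlgebra A G)}
    {x : Matrix c K (MonoidAlgebra A G)}
    (h : ∀ i : c, ∃ κ : Matrix Unit r (MonoidAlgebra A G),
      enRow x i = κ * ζ) :
    ∃ κ : Matrix c r (MonoidAlgebra A G), x = κ * ζ := by
  choose κ hκ using h
  refine ⟨fun i j => κ i () j, ?_⟩
  ext i j : 1
  have := congrFun (congrFun (hκ i) ()) j
  rw [Matrix.mul_apply] at this
  exact this

omit [Nontrivial A] in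
/-- the row `i` of a product -/
theorem enlarge_row_mul {J K c : Type} [Fintype J] (x : Matrix c J (MonoidAlgebra A G))
    (D : Matrix J K (MonoidAlgebra A G)) (i : c) :
    enRow x i * D = enRow (x * D) i := by
  ext a b : 1
  rw [Matrix.mul_apply]
  unfold enRow
  rw [Matrix.mul_apply]

/-- one type, one level: enlarging an isotropic invariant submodule.  Condition at level `m`:
`x T^m eT τ ∈ Λζ` for all `x ∈ Z^⊥` -/
theorem enlarge (hRF : RF A E.F) (hE : E.Geo) (hε : ε = 1 ∨ ε = -1) {K r : Type} [Fintype K]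
    [DecidableEq K] [Fintype r] {t : K → Bool}
    {J T : Matrix K K (MonoidAlgebra A G)} (hT : TF E β ε t J T) {s : r → Bool}
    {ζ : Matrix r K (MonoidAlgebra A G)} (hζ : OnT E s t 0 ζ) (iso : ζ * (J * adj β ζ) = 0)
    {M : Matrix r r (MonoidAlgebra A G)} (hM : ζ * T = M * ζ) (m : ℕ)
    (hc : ∀ x : Matrix Unit K (MonoidAlgebra A G), x * (J * adj β ζ) = 0 →
      ∃ κ : Matrix Unit r (MonoidAlgebra A G), x * T ^ (m + 1) = κ * ζ) (τ : Bool) :
    ∃ (r' : Type) (_ : Fintype r') (s' : r' → Bool) (ζ' : Matrix r' K (MonoidAlgebra A G))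
      (M' : Matrix r' r' (MonoidAlgebra A G)) (N : Matrix r r' (MonoidAlgebra A G)),
      OnT E s' t 0 ζ' ∧ ζ' * (J * adj β ζ') = 0 ∧ ζ' * T = M' * ζ' ∧ ζ = N * ζ' ∧
      ∀ x : Matrix Unit K (MonoidAlgebra A G), x * (J * adj β ζ') = 0 →
        ∃ κ : Matrix Unit r' (MonoidAlgebra A G), x * T ^ m * eT A G t τ = κ * ζ' := by
  classical
  have hDon : OnT E t (fun i => !s i) 0 (J * adj β ζ) := (hT.hJ.on E).mul0 (hζ.adj β)
  obtain ⟨n, ω, hωF, hω0, hωg⟩ := hRF.c1 K r (J * adj β ζ) hDon.onF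
  -- invariance of the orthogonal
  have hTD : T * (J * adj β ζ) = (J * adj β ζ) * adj β M := by
    rw [← Matrix.mul_assoc, hT.form, Matrix.mul_assoc, ← adj_mul, hM, adj_mul, Matrix.mul_assoc]
  have hTmD : ∀ k : ℕ, T ^ k * (J * adj β ζ) = (J * adj β ζ) * adj β M ^ k := by
    intro k
    induction k with
    | zero => rw [pow_zero, pow_zero, Matrix.one_mul, Matrix.mul_one]
    | succ k ih =>
      rw [pow_succ', Matrix.mul_assoc, ih, ← Matrix.mul_assoc, hTD, Matrix.mul_assoc,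
        ← pow_succ']
  -- the typed generating matrix
  set om : Matrix (Fin n ⊕ Fin n) K (MonoidAlgebra A G) :=
    Matrix.fromRows (ω * eT A G t false) (ω * eT A G t true) with hom
  have hom_on : OnT E (Sum.elim (fun _ : Fin n => false) (fun _ : Fin n => true)) t 0 om := by
    refine OnT.rows ?_ ?_
    · refine (hωF.mul (OnT.eT (E := E) (s := t) false).onF).onT ?_
      intro i j hij
      rw [mul_eT_apply, if_neg (Ne.symm hij)]
    · refine (hωF.mul (OnT.eT (E := E) (s := t) true).onF).onT ?_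
      intro i j hij
      rw [mul_eT_apply, if_neg (Ne.symm hij)]
  have hpart : ∀ σ : Bool, ω * eT A G t σ * (J * adj β ζ) = 0 := by
    intro σ
    rw [Matrix.mul_assoc, hDon.eT_mul, ← Matrix.mul_assoc, hω0, Matrix.zero_mul]
  have hom0 : om * (J * adj β ζ) = 0 := by
    rw [hom, Matrix.fromRows_mul, hpart, hpart, Matrix.fromRows_zero]
  have homg : ∀ x : Matrix Unit K (MonoidAlgebra A G), x * (J * adj β ζ) = 0 →
      ∃ κ : Matrix Unit (Fin n ⊕ Fin n) (MonoidAlgebra A G), x = κ * om := by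
    intro x hx
    obtain ⟨κ, hκ⟩ := hωg x hx
    refine ⟨Matrix.fromCols κ κ, ?_⟩
    rw [hom, Matrix.fromCols_mul_fromRows, ← Matrix.mul_add, ← Matrix.mul_add]
    have : (eT A G t false + eT A G t true : Matrix K K (MonoidAlgebra A G)) = 1 :=
      eT_add t false
    rw [this, Matrix.mul_one, hκ]
  set w : Matrix (Fin n ⊕ Fin n) K (MonoidAlgebra A G) := om * T ^ m with hw
  have hw_on : OnT E (Sum.elim (fun _ : Fin n => false) (fun _ : Fin n => true)) t m w :=
    hom_on.mul0 (hT.on.pow m)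
  have hw0 : w * (J * adj β ζ) = 0 := by
    rw [hw, Matrix.mul_assoc, hTmD, ← Matrix.mul_assoc, hom0, Matrix.zero_mul]
  obtain ⟨κw, hκw⟩ : ∃ κ : Matrix (Fin n ⊕ Fin n) r (MonoidAlgebra A G), w * T = κ * ζ := by
    refine enlarge_rows fun i => ?_
    have h1 : enRow om i * (J * adj β ζ) = 0 := by
      rw [enlarge_row_mul, hom0]
      rfl
    obtain ⟨κ, hκ⟩ := hc _ h1
    refine ⟨κ, ?_⟩
    rw [← hκ, enlarge_row_mul, hw, Matrix.mul_assoc, ← pow_succ]
  set W : Matrix (Fin n ⊕ Fin n) K (MonoidAlgebra A G) := w * eT A G t τ with hW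
  have hW0 : W * (J * adj β ζ) = 0 := by
    rw [hW, Matrix.mul_assoc, hDon.eT_mul, ← Matrix.mul_assoc, hw0, Matrix.zero_mul]
  obtain ⟨T0, -, -, hdec⟩ := cL_decomp E.F W
  set gg : Fin T0.card → G := fun a => (T0.equivFin.symm a : G) with hgg
  set N2 : Matrix (Fin T0.card × (Fin n ⊕ Fin n)) K (MonoidAlgebra A G) :=
    fun a j => cL E.F (gg a.1) W a.2 j with hN2
  -- the new rows have type `τ`
  have hcLe : ∀ g : G, cL E.F g W * eT A G t τ = cL E.F g W := by
    intro g
    rw [← cL_mul (OnT.eT (E := E) (s := t) τ).onF, hW, Matrix.mul_assoc, eT_mul_self]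
  have hN2_on : OnT E (fun _ : Fin T0.card × (Fin n ⊕ Fin n) => τ) t 0 N2 := by
    refine OnF.onT (fun a j g hg => cL_onF (gg a.1) W a.2 j g hg) ?_
    intro a j haj
    show cL E.F (gg a.1) W a.2 j = 0
    rw [← hcLe, mul_eT_apply, if_neg (Ne.symm haj)]
  have hN2e : N2 * eT A G t τ = N2 := by
    ext a j : 1
    rw [mul_eT_apply]
    by_cases h : t j = τ
    · rw [if_pos h]
    · rw [if_neg h, hN2_on.eq_zero (Ne.symm h)]
  have hN2D : N2 * (J * adj β ζ) = 0 := by
    ext a j : 1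
    have h1 : cL E.F (gg a.1) W * (J * adj β ζ) = 0 := by
      rw [← cL_mul hDon.onF, hW0, cL_zero]
    have h2 := congrFun (congrFun h1 a.2) j
    rw [Matrix.mul_apply] at h2 ⊢
    exact h2
  have hεε : ε * ε = 1 := by rcases hε with h | h <;> rw [h] <;> norm_num
  have hDN2 : ζ * (J * adj β N2) = 0 := by
    have h1 := congrArg (adj β) hN2D
    rw [adj_mul, adj_mul, adj_adj, hT.hJ.adj β hε, adj_zero] at h1
    have h2 : ε • (ζ * (J * adj β N2)) = 0 := by
      rw [← h1, Matrix.mul_assoc, Matrix.smul_mul, Matrix.mul_smul]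
    have h3 := congrArg (fun X => ε • X) h2
    simp only [smul_zero, smul_smul, hεε, one_smul] at h3
    exact h3
  have hN2N2 : N2 * (J * adj β N2) = 0 := by
    have h1 : adj β N2 = eT A G t τ * adj β N2 := by
      conv_lhs => rw [← hN2e]
      rw [adj_mul, adj_eT]
    rw [h1, ← Matrix.mul_assoc J, ← hN2e, Matrix.mul_assoc, ← Matrix.mul_assoc (eT A G t τ),
      ← Matrix.mul_assoc (eT A G t τ) J, hT.hJ.eT_mul, Matrix.mul_assoc J, eT_not_mul,
      Matrix.mul_zero, Matrix.zero_mul, Matrix.mul_zero]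
  -- invariance
  have hinv : ∀ a : Fin T0.card, ∃ κ' : Matrix (Fin n ⊕ Fin n) r (MonoidAlgebra A G),
      cL E.F (gg a) W * T = κ' * ζ := fun a =>
    cL_mul_T_mem hE hT.on hζ hw_on hκw (gg a) τ
  choose κc hκc using hinv
  set K2 : Matrix (Fin T0.card × (Fin n ⊕ Fin n)) r (MonoidAlgebra A G) :=
    fun a j => κc a.1 a.2 j with hK2
  have hN2T : N2 * T = K2 * ζ := by
    ext a j : 1
    have h2 := congrFun (congrFun (hκc a.1) a.2) j
    rw [Matrix.mul_apply, Matrix.mul_apply] at h2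
    rw [Matrix.mul_apply, Matrix.mul_apply]
    exact h2
  -- decomposition
  set G2 : Matrix (Fin n ⊕ Fin n) (Fin T0.card × (Fin n ⊕ Fin n)) (MonoidAlgebra A G) :=
    fun i a => if i = a.2 then single (gg a.1) 1 else 0 with hG2
  have hWG : W = G2 * N2 := by
    ext i j : 1
    have h1 : W i j = ∑ g ∈ T0, single g 1 * cL E.F g W i j :=
      (congrFun (congrFun hdec i) j).trans (Matrix.sum_apply i j T0 _)
    rw [h1, Matrix.mul_apply, Fintype.sum_prod_type]
    have h2 : ∀ a : Fin T0.card, ∑ y : Fin n ⊕ Fin n, G2 i (a, y) * N2 (a, y) j =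
        single (gg a) 1 * cL E.F (gg a) W i j := by
      intro a
      rw [Finset.sum_eq_single i]
      · simp [hG2, hN2]
      · intro b _ hb
        simp only [hG2]
        rw [if_neg (Ne.symm hb), zero_mul]
      · intro h; exact absurd (Finset.mem_univ _) h
    rw [Finset.sum_congr rfl fun a _ => h2 a]
    rw [← Finset.sum_coe_sort T0]
    exact (Fintype.sum_equiv T0.equivFin.symm _ _ fun a => rfl).symm
  refine ⟨r ⊕ (Fin T0.card × (Fin n ⊕ Fin n)), inferInstance, Sum.elim s (fun _ => τ),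
    Matrix.fromRows ζ N2, Matrix.fromBlocks M 0 K2 0, Matrix.fromCols 1 0,
    hζ.rows hN2_on, ?_, ?_, ?_, ?_⟩
  · rw [adj_fromRows, Matrix.mul_fromCols, Matrix.fromRows_mul_fromCols, iso, hDN2, hN2D, hN2N2]
    exact Matrix.fromBlocks_zero
  · rw [Matrix.fromRows_mul, Matrix.fromBlocks_mul_fromRows, hM, hN2T, Matrix.zero_mul,
      Matrix.zero_mul, add_zero, add_zero]
  · rw [Matrix.fromCols_mul_fromRows, Matrix.one_mul, Matrix.zero_mul, add_zero]
  · intro x hx
    rw [adj_fromRows, Matrix.mul_fromCols, Matrix.mul_fromCols, ← Matrix.fromCols_zero] at hx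
    have hx1 := (Matrix.fromCols_ext_iff _ _ _ _).mp hx |>.1
    obtain ⟨κ, hκ⟩ := homg x hx1
    refine ⟨Matrix.fromCols 0 (κ * G2), ?_⟩
    rw [Matrix.fromCols_mul_fromRows, Matrix.zero_mul, zero_add, Matrix.mul_assoc κ, ← hWG, hW,
      hw, hκ, Matrix.mul_assoc, Matrix.mul_assoc, Matrix.mul_assoc]

end Pool.Agent.Lib.MP_98022b_UN
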