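import Mathlib
import Pool.Agent.Lib.MP_98022b_UN.Defs2
import Pool.Agent.Lib.MP_98022b_UN.CosL
import Pool.Agent.Lib.MP_98022b_UN.P1
import Pool.Agent.Lib.MP_98022b_UN.P2


open MonoidAlgebra

namespace Pool.Agent.Lib.MP_98022b_UN

universe u v
variable {A : Type u} {G : Type v} [CommRing A] [Nontrivial A] [Group G]
  {E : EdgeSys G} {β : BarStr A G} {ε : ℤ}

/-- an isotropic invariant typed submodule `Z` with `Z^⊥ T^m ⊂ Z` -/
def PreStage (E : EdgeSys G) (β : BarStr A G) {K : Type} [Fintype K] [DecidableEq K]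
    (t : K → Bool) (J T : Matrix K K (MonoidAlgebra A G)) (m : ℕ) : Prop :=
  ∃ (r : Type) (_ : Fintype r) (s : r → Bool)
      (ζ : Matrix r K (MonoidAlgebra A G)) (M : Matrix r r (MonoidAlgebra A G)),
      OnT E s t 0 ζ ∧ ζ * (J * adj β ζ) = 0 ∧ ζ * T = M * ζ ∧
      ∀ x : Matrix Unit K (MonoidAlgebra A G), x * (J * adj β ζ) = 0 →
        ∃ κ : Matrix Unit r (MonoidAlgebra A G), x * T ^ m = κ * ζ

theorem preStage_down (hRF : RF A E.F) (hE : E.Geo) (hε : ε = 1 ∨ ε = -1) {K : Type} [Fintype K]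
    [DecidableEq K] {t : K → Bool}
    {J T : Matrix K K (MonoidAlgebra A G)} (hT : TF E β ε t J T) {m : ℕ}
    (h : PreStage E β t J T (m + 1)) : PreStage E β t J T m := by
  obtain ⟨r, _, s, ζ, M, hζ, iso, hM, hc⟩ := h
  obtain ⟨r1, _, s1, ζ1, M1, N1, hζ1, iso1, hM1, hN1, hx1⟩ :=
    enlarge hRF hE hε hT hζ iso hM m hc false
  have hc1 : ∀ x : Matrix Unit K (MonoidAlgebra A G), x * (J * adj β ζ1) = 0 →
      ∃ κ : Matrix Unit r1 (MonoidAlgebra A G), x * T ^ (m + 1) = κ * ζ1 := by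
    intro x hx
    have h1 : x * (J * adj β ζ) = 0 := by
      rw [hN1, adj_mul, ← Matrix.mul_assoc J, ← Matrix.mul_assoc x, hx, Matrix.zero_mul]
    obtain ⟨κ, hκ⟩ := hc x h1
    exact ⟨κ * N1, by rw [hκ, Matrix.mul_assoc, ← hN1]⟩
  obtain ⟨r2, _, s2, ζ2, M2, N2, hζ2, iso2, hM2, hN2, hx2⟩ :=
    enlarge hRF hE hε hT hζ1 iso1 hM1 m hc1 true
  refine ⟨r2, inferInstance, s2, ζ2, M2, hζ2, iso2, hM2, fun x hx => ?_⟩
  have h1 : x * (J * adj β ζ1) = 0 := by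
    rw [hN2, adj_mul, ← Matrix.mul_assoc J, ← Matrix.mul_assoc x, hx, Matrix.zero_mul]
  obtain ⟨κ1, hκ1⟩ := hx1 x h1
  obtain ⟨κ2, hκ2⟩ := hx2 x hx
  refine ⟨κ1 * N2 + κ2, ?_⟩
  have he : (eT A G t false + eT A G t true : Matrix K K (MonoidAlgebra A G)) = 1 :=
    eT_add t false
  rw [Matrix.add_mul, Matrix.mul_assoc, ← hN2, ← hκ1, ← hκ2, ← Matrix.mul_add, he,
    Matrix.mul_one]

theorem exists_stage (hRF : RF A E.F) (hE : E.Geo) (hε : ε = 1 ∨ ε = -1) {K : Type} [Fintype K]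
    [DecidableEq K] {t : K → Bool}
    {J T : Matrix K K (MonoidAlgebra A G)} (hT : TF E β ε t J T) :
    ∃ (r : Type) (_ : Fintype r) (_ : DecidableEq r) (s : r → Bool)
      (ζ : Matrix r K (MonoidAlgebra A G)) (θ : Matrix r r (MonoidAlgebra A G)),
      IsStage E β t J T s ζ θ := by
  classical
  obtain ⟨N, hN⟩ := hT.nil
  have h0 : PreStage E β t J T N := by
    refine ⟨Empty, inferInstance, fun _ => false, 0, 0, OnT.zero, ?_, ?_, fun x _ => ⟨0, ?_⟩⟩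
    · rw [Matrix.zero_mul]
    · rw [Matrix.zero_mul, Matrix.zero_mul]
    · rw [hN, Matrix.mul_zero, Matrix.zero_mul]
  have h1 : ∀ k : ℕ, PreStage E β t J T k → PreStage E β t J T 0 := by
    intro k
    induction k with
    | zero => exact id
    | succ k ih => exact fun h => ih (preStage_down hRF hE hε hT h)
  obtain ⟨r, _, s, ζ, M, hζ, iso, hM, hc⟩ := h1 N h0
  obtain ⟨θ, hθ, hθ2⟩ := rows_on hζ (hζ.mul0 hT.on) hM
  refine ⟨r, inferInstance, Classical.decEq r, s, ζ, θ, hζ, hθ, hθ2, iso, fun x hx => ?_⟩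
  obtain ⟨κ, hκ⟩ := hc x hx
  exact ⟨κ, by rw [← hκ, pow_zero, Matrix.mul_one]⟩

end Pool.Agent.Lib.MP_98022b_UN
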