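import Mathlib
import Pool.Agent.Lib.MP_98022b_UN.Defs2
import Pool.Agent.Lib.MP_98022b_UN.CosL


open MonoidAlgebra

namespace Pool.Agent.Lib.MP_98022b_UN

universe u v
variable {A : Type u} {G : Type v} [CommRing A] [IsDomain A] [Group G]
  {E : EdgeSys G} {β : BarStr A G} {ε : ℤ}
  {K r L q : Type} [Fintype K] [DecidableEq K] [Fintype r] [DecidableEq r] [Fintype L]
  [DecidableEq L] [Fintype q] [DecidableEq q]
  {t : K → Bool} {J T : Matrix K K (MonoidAlgebra A G)} {s : r → Bool}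
  {ζ : Matrix r K (MonoidAlgebra A G)} {θ : Matrix r r (MonoidAlgebra A G)}
  {τ : Bool} {t2 : L → Bool} {J2 : Matrix L L (MonoidAlgebra A G)}
  {Φ : Matrix r L (MonoidAlgebra A G)} {B : Matrix K L (MonoidAlgebra A G)}
  {ν1 : Matrix q K (MonoidAlgebra A G)} {ν2 : Matrix q L (MonoidAlgebra A G)}
  {D : Matrix L L (MonoidAlgebra A G)} {κ1 : Matrix q r (MonoidAlgebra A G)}

set_option linter.unusedSectionVars false
set_option linter.unusedVariables false

theorem S1.on (β : BarStr A G) (hJ : HJ ε t J) (hζ : OnT E s t 0 ζ) :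
    OnT E t (fun i => !s i) 0 (J * adj β ζ) := by
  have h := (hJ.on E).mul0 (hζ.adj β)
  exact h

/-- S1 -/
theorem exists_nu (hRF : RF A E.F) (hε : ε = 1 ∨ ε = -1) (hJ : HJ ε t J)
    (hζ : OnT E s t 0 ζ) (hJ2 : HJ ε t2 J2) (hΦ : OnT E s t2 0 Φ) (τ : Bool) :
    ∃ (q : Type) (_ : Fintype q) (_ : DecidableEq q) (ν1 : Matrix q K (MonoidAlgebra A G))
      (ν2 : Matrix q L (MonoidAlgebra A G)), IsNu E β t J ζ τ t2 J2 Φ ν1 ν2 := by
  classical
  have hA := S1.on β hJ hζ
  have hB := S1.on β hJ2 hΦ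
  have hD : OnT E (Sum.elim t t2) (fun i => !s i) 0
      (Matrix.fromRows (J * adj β ζ) (-(J2 * adj β Φ))) := hA.rows hB.neg
  obtain ⟨n, ω, hωF, hω⟩ := hRF.c1 (K ⊕ L) r _ hD.onF
  have hper : (ω * (eT A G (Sum.elim t t2) (!τ) : Matrix (K ⊕ L) (K ⊕ L) (MonoidAlgebra A G))) *
      Matrix.fromRows (J * adj β ζ) (-(J2 * adj β Φ)) = 0 := by
    rw [Matrix.mul_assoc, hD.eT_mul, ← Matrix.mul_assoc, hω.1, Matrix.zero_mul]
  set ν : Matrix (Fin n) (K ⊕ L) (MonoidAlgebra A G) :=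
    ω * (eT A G (Sum.elim t t2) (!τ) : Matrix (K ⊕ L) (K ⊕ L) (MonoidAlgebra A G)) with hν
  have hνa : ∀ i k, ν i k = if Sum.elim t t2 k = !τ then ω i k else 0 := fun i k =>
    mul_eT_apply (Sum.elim t t2) (!τ) ω i k
  have hsplit : ∀ {c : Type} (x : Matrix c K (MonoidAlgebra A G))
      (y : Matrix c L (MonoidAlgebra A G)),
      Matrix.fromCols x y * Matrix.fromRows (J * adj β ζ) (-(J2 * adj β Φ)) = 0 ↔
      x * (J * adj β ζ) = y * (J2 * adj β Φ) := by
    intro c x y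
    rw [Matrix.fromCols_mul_fromRows, Matrix.mul_neg, ← sub_eq_add_neg, sub_eq_zero]
  refine ⟨Fin n, inferInstance, inferInstance, ν.toCols₁, ν.toCols₂, ?_, ?_, ?_, ?_⟩
  · intro i k g hg
    change (ν i (Sum.inl k)).coeff g ≠ 0 at hg
    rw [hνa] at hg
    rw [P_zero]
    split_ifs at hg with h
    · exact ⟨hωF i _ g hg, h.symm⟩
    · exact absurd rfl hg
  · intro i k g hg
    change (ν i (Sum.inr k)).coeff g ≠ 0 at hg
    rw [hνa] at hg
    rw [P_zero]
    split_ifs at hg with h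
    · exact ⟨hωF i _ g hg, h.symm⟩
    · exact absurd rfl hg
  · rw [← hsplit, Matrix.fromCols_toCols]
    exact hper
  · intro x y hx hy hxy
    obtain ⟨κ, hκ⟩ := hω.2 (Matrix.fromCols x y) ((hsplit x y).2 hxy)
    have h1 : Matrix.fromCols x y *
        (eT A G (Sum.elim t t2) (!τ) : Matrix (K ⊕ L) (K ⊕ L) (MonoidAlgebra A G)) =
        Matrix.fromCols x y := by
      funext i k
      rw [mul_eT_apply]
      rcases k with k | k
      · have := congrFun (congrFun hx i) k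
        rw [mul_eT_apply] at this
        exact this
      · have := congrFun (congrFun hy i) k
        rw [mul_eT_apply] at this
        exact this
    have h2 : Matrix.fromCols x y = κ * ν := by
      rw [hν, ← Matrix.mul_assoc, ← hκ, h1]
    refine ⟨κ, ?_, ?_⟩
    · have h3 := congrArg Matrix.toCols₁ h2
      rw [Matrix.toCols₁_fromCols] at h3
      rw [h3]; rfl
    · have h3 := congrArg Matrix.toCols₂ h2
      rw [Matrix.toCols₂_fromCols] at h3
      rw [h3]; rfl

end Pool.Agent.Lib.MP_98022b_UN
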