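import Mathlib
import Pool.Agent.Lib.MP_98022b_UN.Defs2
import Pool.Agent.Lib.MP_98022b_UN.CosL


open MonoidAlgebra

namespace Pool.Agent.Lib.MP_98022b_UN

universe u v
variable {A : Type u} {G : Type v} [CommRing A] [IsDomain A] [Group G]
  {E : EdgeSys G} {β : BarStr A G} {ε : ℤ}
  {K r L q : Type} [Fintype K] [DecidableEq K] [Fintype r] [DecidableEq r] [Fintype L]
  [DecidableEq L] [Fintype q] [DecidableEq q]
  {t : K → Bool} {J T : Matrix K K (MonoidAlgebra A G)} {s : r → Bool}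
  {ζ : Matrix r K (MonoidAlgebra A G)} {θ : Matrix r r (MonoidAlgebra A G)}
  {τ : Bool} {t2 : L → Bool} {J2 : Matrix L L (MonoidAlgebra A G)}
  {Φ : Matrix r L (MonoidAlgebra A G)} {B : Matrix K L (MonoidAlgebra A G)}
  {ν1 : Matrix q K (MonoidAlgebra A G)} {ν2 : Matrix q L (MonoidAlgebra A G)}
  {D : Matrix L L (MonoidAlgebra A G)} {κ1 : Matrix q r (MonoidAlgebra A G)}

set_option linter.unusedSectionVars false
set_option linter.unusedVariables false

theorem S2.eps (hε : ε = 1 ∨ ε = -1) {I J : Type} (M : Matrix I J (MonoidAlgebra A G)) :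
    ε • ε • M = M := by
  rcases hε with h | h <;> subst h <;> simp

/-- matrix form of `IsNu.gen` -/
theorem S2.gen_mat (hN : IsNu E β t J ζ τ t2 J2 Φ ν1 ν2) {c : Type}
    {x : Matrix c K (MonoidAlgebra A G)} {y : Matrix c L (MonoidAlgebra A G)}
    (hx : x * (eT A G t (!τ) : Matrix K K (MonoidAlgebra A G)) = x)
    (hy : y * (eT A G t2 (!τ) : Matrix L L (MonoidAlgebra A G)) = y)
    (h : x * (J * adj β ζ) = y * (J2 * adj β Φ)) :
    ∃ κ : Matrix c q (MonoidAlgebra A G), x = κ * ν1 ∧ y = κ * ν2 := by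
  have h1 : ∀ i : c, ∃ κ : Matrix Unit q (MonoidAlgebra A G),
      (fun (_ : Unit) k => x i k : Matrix Unit K (MonoidAlgebra A G)) = κ * ν1 ∧
      (fun (_ : Unit) k => y i k : Matrix Unit L (MonoidAlgebra A G)) = κ * ν2 := by
    intro i
    refine hN.gen _ _ ?_ ?_ ?_
    · funext a k; exact congrFun (congrFun hx i) k
    · funext a k; exact congrFun (congrFun hy i) k
    · funext a k; exact congrFun (congrFun h i) k
  choose κ hκ1 hκ2 using h1
  refine ⟨fun i k => κ i () k, ?_, ?_⟩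
  · funext i k; exact congrFun (congrFun (hκ1 i) ()) k
  · funext i k; exact congrFun (congrFun (hκ2 i) ()) k

/-- the key construction -/
theorem S2.key (hε : ε = 1 ∨ ε = -1) (hJ : HJ ε t J) (hζ : OnT E s t 0 ζ)
    (hI : StepIn E ε t s ζ θ τ t2 J2 Φ B)
    (hN : IsNu E β t J ζ τ t2 J2 Φ ν1 ν2) {c : Type} {l : Matrix L c (MonoidAlgebra A G)}
    (hl : (eT A G t2 τ : Matrix L L (MonoidAlgebra A G)) * l = l)
    {x : Matrix K c (MonoidAlgebra A G)} (hx : Φ * l = ζ * x) :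
    ∃ κ : Matrix c q (MonoidAlgebra A G), adj β l * J2 = κ * ν2 := by
  have hx' : Φ * l = ζ * ((eT A G t τ : Matrix K K (MonoidAlgebra A G)) * x) := by
    rw [← Matrix.mul_assoc, ← hζ.eT_mul, Matrix.mul_assoc, ← hx, ← Matrix.mul_assoc,
      hI.Φ_on.eT_mul, Matrix.mul_assoc, hl]
  obtain ⟨x', hx'd⟩ : ∃ x', x' = (eT A G t τ : Matrix K K (MonoidAlgebra A G)) * x := ⟨_, rfl⟩
  rw [← hx'd] at hx'
  have hex : (eT A G t τ : Matrix K K (MonoidAlgebra A G)) * x' = x' := by
    rw [hx'd, ← Matrix.mul_assoc, eT_mul_self]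
  have k1 : (adj β x' * J) * (eT A G t (!τ) : Matrix K K (MonoidAlgebra A G)) =
      adj β x' * J := by
    have h1 := hJ.eT_mul τ
    have h2 : adj β x' * (eT A G t τ : Matrix K K (MonoidAlgebra A G)) = adj β x' := by
      conv_rhs => rw [← hex, adj_mul, adj_eT]
    rw [Matrix.mul_assoc, ← h1, ← Matrix.mul_assoc, h2]
  have k2 : (adj β l * J2) * (eT A G t2 (!τ) : Matrix L L (MonoidAlgebra A G)) =
      adj β l * J2 := by
    have h1 := hI.hJ2.eT_mul τ
    have h2 : adj β l * (eT A G t2 τ : Matrix L L (MonoidAlgebra A G)) = adj β l := by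
      conv_rhs => rw [← hl, adj_mul, adj_eT]
    rw [Matrix.mul_assoc, ← h1, ← Matrix.mul_assoc, h2]
  have k3 : adj β x' * J * (J * adj β ζ) = adj β l * J2 * (J2 * adj β Φ) := by
    have e1 : adj β x' * J * (J * adj β ζ) = ε • adj β (ζ * x') := by
      rw [Matrix.mul_assoc, ← Matrix.mul_assoc J, hJ.sq hε, Matrix.smul_mul, Matrix.one_mul,
        Matrix.mul_smul, adj_mul]
    have e2 : adj β l * J2 * (J2 * adj β Φ) = ε • adj β (Φ * l) := by
      rw [Matrix.mul_assoc, ← Matrix.mul_assoc J2, hI.hJ2.sq hε, Matrix.smul_mul, Matrix.one_mul,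
        Matrix.mul_smul, adj_mul]
    rw [e1, e2, hx']
  obtain ⟨κ, _, h2⟩ := S2.gen_mat hN k1 k2 k3
  exact ⟨κ, h2⟩

/-- S2 -/
theorem good_of_step (hRF : RF A E.F) (hε : ε = 1 ∨ ε = -1) (hJ : HJ ε t J)
    (hS : IsStage E β t J T s ζ θ) (hI : StepIn E ε t s ζ θ τ t2 J2 Φ B)
    (hN : IsNu E β t J ζ τ t2 J2 Φ ν1 ν2) : Good τ t2 ν2 := by
  classical
  have hon : OnT E t (fun i => !s i) 0 (J * adj β ζ) := (hJ.on E).mul0 (hS.ζ_on.adj β)
  obtain ⟨a0, Q, ha0, hQF, hQ0, hQ⟩ := hRF.c2 K r _ hon.onF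
  obtain ⟨N, hN'⟩ := hS.lag.mat Q hQ0
  -- `ζ Q = a0 ζ`
  have hζQ : ζ * Q = a0 • ζ := by
    funext i k
    have h1 := hQ (fun (_ : Unit) k => ζ i k) (by
      funext a j; exact congrFun (congrFun hS.lag.1 i) j)
    exact congrFun (congrFun h1 ()) k
  have hΦN : a0 • Φ = ζ * (N * Φ) := by
    have h1 : (ζ * N - a0 • (1 : Matrix r r (MonoidAlgebra A G))) * ζ = 0 := by
      rw [Matrix.sub_mul, Matrix.mul_assoc, ← hN', hζQ, Matrix.smul_mul, Matrix.one_mul, sub_self]
    have h2 := hI.fnl.mat _ h1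
    rw [Matrix.sub_mul, Matrix.smul_mul, Matrix.one_mul, sub_eq_zero] at h2
    rw [← h2, Matrix.mul_assoc]
  obtain ⟨ab, hab, hb1, hb2⟩ := bar_smul β a0
  have had1 : ∀ {I J : Type} (M : Matrix I J (MonoidAlgebra A G)),
      adj β (a0 • M) = ab • adj β M := fun M => by funext i j; exact hb1 _
  have had2 : ∀ {I J : Type} (M : Matrix I J (MonoidAlgebra A G)),
      adj β (ab • M) = a0 • adj β M := fun M => by funext i j; exact hb2 _
  set e : Matrix L L (MonoidAlgebra A G) := eT A G t2 τ with he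
  set e' : Matrix L L (MonoidAlgebra A G) := eT A G t2 (!τ) with he'
  have hab0 : ab ≠ 0 := hab ha0
  have heJ : e * J2 = J2 * e' := hI.hJ2.eT_mul τ
  have hJsq : J2 * J2 = ε • 1 := hI.hJ2.sq hε
  have hJad : adj β J2 = ε • J2 := hI.hJ2.adj β hε
  have hee : e * e = e := eT_mul_self t2 τ
  have hee' : e' * e' = e' := eT_mul_self t2 (!τ)
  have hade : adj β e = e := adj_eT β t2 τ
  have hade' : adj β e' = e' := adj_eT β t2 (!τ)
  -- first application
  obtain ⟨κ0, hκ0⟩ : ∃ κ0 : Matrix L q (MonoidAlgebra A G), ab • e' = κ0 * ν2 := by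
    have h1 : e * (a0 • (e * J2)) = a0 • (e * J2) := by
      rw [Matrix.mul_smul, ← Matrix.mul_assoc, hee]
    have h2 : Φ * (a0 • (e * J2)) = ζ * (N * Φ * J2) := by
      rw [Matrix.mul_smul, ← Matrix.mul_assoc, hI.Φ_e, ← Matrix.smul_mul, hΦN,
        Matrix.mul_assoc]
    obtain ⟨κ0, h3⟩ := S2.key hε hJ hS.ζ_on hI hN h1 h2
    refine ⟨κ0, ?_⟩
    rw [← h3, had1, adj_mul, hade, hJad, Matrix.smul_mul, Matrix.smul_mul, Matrix.smul_mul,
      Matrix.mul_assoc, heJ, ← Matrix.mul_assoc, hJsq, Matrix.smul_mul, Matrix.one_mul,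
      S2.eps hε]
  constructor
  · intro η hη hν
    have h1 : ab • η = 0 := by
      have h2 : (ab • e') * η = ab • η := by rw [Matrix.smul_mul, hη]
      rw [← h2, hκ0, Matrix.mul_assoc, hν, Matrix.mul_zero]
    exact smul_cancel hab0 (by rw [h1, smul_zero])
  · intro f hf
    have hν2e : ν2 * e' = ν2 := by
      have h1 := hN.on2.eT_mul (!τ)
      rw [← h1]
      funext i j
      rw [eT_mul_apply, if_pos rfl]
    obtain ⟨η', hη'⟩ : ∃ η', η' = e' * (κ0 * f) := ⟨_, rfl⟩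
    have heη : e' * η' = η' := by rw [hη', ← Matrix.mul_assoc, hee']
    -- `ā f = ν2 η'`
    have h1 : ab • f = ν2 * η' := by
      have h2 : ((ν2 * κ0 - ab • (1 : Matrix q q (MonoidAlgebra A G))) * ν2) = 0 := by
        rw [Matrix.sub_mul, Matrix.mul_assoc, ← hκ0, Matrix.mul_smul, hν2e, Matrix.smul_mul,
          Matrix.one_mul, sub_self]
      have h3 : (ν2 * κ0 - ab • (1 : Matrix q q (MonoidAlgebra A G))) * f = 0 := by
        have hfn : Fnl ν2 f := hf
        exact hfn.mat _ h2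
      rw [Matrix.sub_mul, Matrix.smul_mul, Matrix.one_mul, sub_eq_zero] at h3
      rw [hη', ← Matrix.mul_assoc, hν2e, ← h3, Matrix.mul_assoc]
    have h7 : J2 * e = e' * J2 := by
      have := hI.hJ2.eT_mul (!τ)
      rw [Bool.not_not] at this
      exact this.symm
    have h8 : adj β η' * J2 * e = adj β η' * J2 := by
      have h2 : adj β η' * e' = adj β η' := by
        conv_rhs => rw [← heη, adj_mul, hade']
      rw [Matrix.mul_assoc, h7, ← Matrix.mul_assoc, h2]
    have hfin : ∃ h' : Matrix Unit L (MonoidAlgebra A G), adj β η' * J2 = a0 • h' := by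
      refine hI.avp a0 ha0 (adj β η' * J2) h8 ?_
      · intro l x hlx
        have h4 : e * (e * l) = e * l := by rw [← Matrix.mul_assoc, hee]
        have h5 : Φ * (e * l) = ζ * x := by rw [← Matrix.mul_assoc, hI.Φ_e, hlx]
        obtain ⟨κ, hκ⟩ := S2.key hε hJ hS.ζ_on hI hN h4 h5
        have h6 : adj β (e * l) * J2 * η' = ab • (κ * f) := by
          rw [hκ, Matrix.mul_assoc, ← h1, Matrix.mul_smul]
        have h9 := congrArg (adj β) h6
        rw [had2, adj_mul, adj_mul, adj_adj, hJad, Matrix.smul_mul, Matrix.mul_smul,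
          ← Matrix.mul_assoc, ← Matrix.mul_assoc, h8] at h9
        refine ⟨ε • adj β (κ * f), ?_⟩
        rw [smul_comm, ← h9, S2.eps hε]
    obtain ⟨h', hh'⟩ := hfin
    -- `η' = J2 h*`
    have h10 : η' = ab • (J2 * adj β h') := by
      have h11 := congrArg (adj β) hh'
      rw [had1, adj_mul, adj_adj, hJad, Matrix.smul_mul] at h11
      rw [← Matrix.mul_smul, ← h11, Matrix.mul_smul, ← Matrix.mul_assoc, hJsq, Matrix.smul_mul,
        Matrix.one_mul, S2.eps hε]
    refine ⟨e' * (J2 * adj β h'), by rw [← Matrix.mul_assoc, hee'], ?_⟩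
    rw [← Matrix.mul_assoc, hν2e]
    apply smul_cancel hab0
    rw [h1, h10, Matrix.mul_smul]

end Pool.Agent.Lib.MP_98022b_UN
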