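import Mathlib
import Pool.Agent.Lib.MP_98022b_UN.Defs2
import Pool.Agent.Lib.MP_98022b_UN.CosL

/-! Auxiliary lemmas for the step construction (S3, S4, S5). -/

open MonoidAlgebra

namespace Pool.Agent.Lib.MP_98022b_UN

universe u v
variable {A : Type u} {G : Type v} [CommRing A] [Group G]
  {E : EdgeSys G} {β : BarStr A G} {ε : ℤ}

theorem step_eps (hε : ε = 1 ∨ ε = -1) : ε * ε = 1 := by
  rcases hε with rfl | rfl <;> norm_num

theorem step_epseps (hε : ε = 1 ∨ ε = -1) {I J : Type} (M : Matrix I J (MonoidAlgebra A G)) :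
    ε • ε • M = M := by
  rw [smul_smul, step_eps hε, one_smul]

section
variable {I J K : Type} [Fintype K] [DecidableEq K]

theorem step_mul_zero (t : K → Bool) (τ : Bool) {M : Matrix I K (MonoidAlgebra A G)}
    {N : Matrix K J (MonoidAlgebra A G)} (hM : M * eT A G t τ = M)
    (hN : eT A G t (!τ) * N = N) : M * N = 0 := by
  rw [← hM, ← hN, Matrix.mul_assoc, ← Matrix.mul_assoc (eT A G t τ), eT_mul_not,
    Matrix.zero_mul, Matrix.mul_zero]

theorem step_mul_zero' (t : K → Bool) (τ : Bool) {M : Matrix I K (MonoidAlgebra A G)}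
    {N : Matrix K J (MonoidAlgebra A G)} (hM : M * eT A G t (!τ) = M)
    (hN : eT A G t τ * N = N) : M * N = 0 := by
  rw [← hM, ← hN, Matrix.mul_assoc, ← Matrix.mul_assoc (eT A G t (!τ)), eT_not_mul,
    Matrix.zero_mul, Matrix.mul_zero]

theorem step_right {t : K → Bool} {σ : Bool} {M : Matrix I K (MonoidAlgebra A G)}
    (hM : OnT E (fun _ => σ) t 0 M) : M * eT A G t σ = M := by
  refine Matrix.ext fun i j => ?_
  rw [mul_eT_apply]
  split_ifs with h
  · rfl
  · exact (hM.eq_zero (Ne.symm h)).symm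

theorem step_adj_left (β : BarStr A G) {t : K → Bool} {σ : Bool}
    {M : Matrix I K (MonoidAlgebra A G)} (hM : M * eT A G t σ = M) :
    eT A G t σ * adj β M = adj β M := by
  conv_rhs => rw [← hM, adj_mul, adj_eT]

theorem step_adj_right (β : BarStr A G) {t : K → Bool} {σ : Bool}
    {M : Matrix K I (MonoidAlgebra A G)} (hM : eT A G t σ * M = M) :
    adj β M * eT A G t σ = adj β M := by
  conv_rhs => rw [← hM, adj_mul, adj_eT]

theorem HJ.left_of_right {t : K → Bool} {J' : Matrix K K (MonoidAlgebra A G)} (h : HJ ε t J')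
    {σ : Bool} {M : Matrix K I (MonoidAlgebra A G)} (hM : eT A G t σ * M = M) :
    eT A G t (!σ) * (J' * M) = J' * M := by
  rw [← Matrix.mul_assoc, h.eT_mul, Bool.not_not, Matrix.mul_assoc, hM]

theorem HJ.right_of_left {t : K → Bool} {J' : Matrix K K (MonoidAlgebra A G)} (h : HJ ε t J')
    {σ : Bool} {M : Matrix I K (MonoidAlgebra A G)} (hM : M * eT A G t σ = M) :
    (M * J') * eT A G t (!σ) = M * J' := by
  rw [Matrix.mul_assoc, ← h.eT_mul, ← Matrix.mul_assoc, hM]

theorem HJ.on' {t : K → Bool} {J' : Matrix K K (MonoidAlgebra A G)} (h : HJ ε t J')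
    (E : EdgeSys G) : OnT E (fun k => !t k) t 0 J' := by
  intro i j g hg
  have h1 := h.on E i j g hg
  rw [P_zero] at h1 ⊢
  refine ⟨h1.1, ?_⟩
  have h2 := h1.2
  simp only at h2
  simp only [h2, Bool.not_not]
end

section
variable {K L : Type} [Fintype K] [DecidableEq K] [Fintype L] [DecidableEq L]
  {t : K → Bool} {J : Matrix K K (MonoidAlgebra A G)}
  {τ : Bool} {t2 : L → Bool} {J2 : Matrix L L (MonoidAlgebra A G)}
  {B : Matrix K L (MonoidAlgebra A G)}

theorem sharp_left (hJ2 : HJ ε t2 J2) (hB : B * eT A G t2 τ = B) :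
    eT A G t2 (!τ) * sharp β ε J J2 B = sharp β ε J J2 B := by
  unfold sharp
  rw [Matrix.mul_smul, Matrix.mul_assoc J2, hJ2.left_of_right]
  rw [← Matrix.mul_assoc, step_adj_left β hB]

theorem sharp_on (hJ : HJ ε t J) (hJ2 : HJ ε t2 J2) (hB : OnT E t t2 1 B) :
    OnT E t2 t 1 (sharp β ε J J2 B) := by
  unfold sharp
  refine OnT.zsmul ?_ ε
  exact OnT.mul (m := 1) (n := 0) (OnT.mul0 (hJ2.on E) (hB.adj β)) (hJ.on' E)

theorem adj_sharp (hε : ε = 1 ∨ ε = -1) (hJ : HJ ε t J) (hJ2 : HJ ε t2 J2) :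
    adj β (sharp β ε J J2 B) = ε • (J * B * J2) := by
  unfold sharp
  rw [adj_zsmul, adj_mul, adj_mul, adj_adj, hJ.adj β hε, hJ2.adj β hε]
  rw [Matrix.smul_mul, Matrix.mul_smul, Matrix.mul_smul, step_epseps hε, Matrix.mul_assoc]

theorem sharp_mul_J (hε : ε = 1 ∨ ε = -1) (hJ : HJ ε t J) :
    sharp β ε J J2 B * J = J2 * adj β B := by
  unfold sharp
  rw [Matrix.smul_mul, Matrix.mul_assoc, hJ.sq hε, Matrix.mul_smul, Matrix.mul_one,
    step_epseps hε]
end

end Pool.Agent.Lib.MP_98022b_UN
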