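import Mathlib
import Pool.Agent.Lib.MP_98022b_UN.StepL


open MonoidAlgebra

namespace Pool.Agent.Lib.MP_98022b_UN

universe u v
variable {A : Type u} {G : Type v} [CommRing A] [IsDomain A] [Group G]
  {E : EdgeSys G} {β : BarStr A G} {ε : ℤ}
  {K r L q : Type} [Fintype K] [DecidableEq K] [Fintype r] [DecidableEq r] [Fintype L]
  [DecidableEq L] [Fintype q] [DecidableEq q]
  {t : K → Bool} {J T : Matrix K K (MonoidAlgebra A G)} {s : r → Bool}
  {ζ : Matrix r K (MonoidAlgebra A G)} {θ : Matrix r r (MonoidAlgebra A G)}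
  {τ : Bool} {t2 : L → Bool} {J2 : Matrix L L (MonoidAlgebra A G)}
  {Φ : Matrix r L (MonoidAlgebra A G)} {B : Matrix K L (MonoidAlgebra A G)}
  {ν1 : Matrix q K (MonoidAlgebra A G)} {ν2 : Matrix q L (MonoidAlgebra A G)}
  {D : Matrix L L (MonoidAlgebra A G)} {κ1 : Matrix q r (MonoidAlgebra A G)}

theorem S3_inj (hG : Good τ t2 ν2) {c : Type} (N : Matrix L c (MonoidAlgebra A G))
    (h1 : eT A G t2 (!τ) * N = N) (h2 : ν2 * N = 0) : N = 0 := by
  refine Matrix.ext fun i j => ?_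
  have h3 := hG.inj (fun i (_ : Unit) => N i j) (by
    refine Matrix.ext fun i' _ => ?_
    exact congrFun (congrFun h1 i') j) (by
    refine Matrix.ext fun i' _ => ?_
    exact congrFun (congrFun h2 i') j)
  exact congrFun (congrFun h3 i) ()

theorem S3_ext (hG : Good τ t2 ν2) {c : Type} (f : Matrix q c (MonoidAlgebra A G))
    (h : ∀ κ : Matrix Unit q (MonoidAlgebra A G), κ * ν2 = 0 → κ * f = 0) :
    ∃ η : Matrix L c (MonoidAlgebra A G), eT A G t2 (!τ) * η = η ∧ f = ν2 * η := by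
  have h1 : ∀ j, ∃ η : Matrix L Unit (MonoidAlgebra A G), eT A G t2 (!τ) * η = η ∧
      (fun i (_ : Unit) => f i j : Matrix q Unit (MonoidAlgebra A G)) = ν2 * η := by
    intro j
    refine hG.ext _ fun κ hκ => ?_
    refine Matrix.ext fun i' _ => ?_
    exact congrFun (congrFun (h κ hκ) i') j
  choose η hη1 hη2 using h1
  refine ⟨fun i j => η j i (), ?_, ?_⟩
  · refine Matrix.ext fun i j => ?_
    exact congrFun (congrFun (hη1 j) i) ()
  · refine Matrix.ext fun i j => ?_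
    exact congrFun (congrFun (hη2 j) i) ()

/-- S3 -/
theorem exists_stepOut (hε : ε = 1 ∨ ε = -1) (hT : TF E β ε t J T)
    (hS : IsStage E β t J T s ζ θ) (hI : StepIn E ε t s ζ θ τ t2 J2 Φ B)
    (hN : IsNu E β t J ζ τ t2 J2 Φ ν1 ν2) (hG : Good τ t2 ν2) :
    ∃ (D : Matrix L L (MonoidAlgebra A G)) (κ1 : Matrix q r (MonoidAlgebra A G)),
      StepOut E β ε t J T s ζ τ t2 J2 Φ B ν1 ν2 D κ1 := by
  have hs := sharp_left (β := β) (J := J) hI.hJ2 hI.B_e
  have hsJ : sharp β ε J J2 B * J = J2 * adj β B := sharp_mul_J hε hT.hJ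
  -- `κ1`
  have hu : (ν1 * T - ν2 * sharp β ε J J2 B) * (J * adj β ζ) = 0 := by
    have e1 : T * (J * adj β ζ) = (J * adj β ζ) * adj β θ := by
      rw [← Matrix.mul_assoc, hT.form, Matrix.mul_assoc, Matrix.mul_assoc, ← adj_mul, hS.comm,
        adj_mul]
    have e2 : sharp β ε J J2 B * (J * adj β ζ) = (J2 * adj β Φ) * adj β θ := by
      rw [← Matrix.mul_assoc, hsJ, Matrix.mul_assoc, Matrix.mul_assoc, ← adj_mul, ← hI.eq,
        adj_mul]
    rw [Matrix.sub_mul, Matrix.mul_assoc ν1, e1, Matrix.mul_assoc ν2, e2,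
      ← Matrix.mul_assoc ν1, ← Matrix.mul_assoc ν2, hN.perp, sub_self]
  obtain ⟨κ0, hκ0⟩ := hS.lag.mat _ hu
  have hon : OnT E (fun _ : q => !τ) t 1 (ν1 * T - ν2 * sharp β ε J J2 B) :=
    (hN.on1.mul0 hT.on).sub (hN.on2.mul0 (sharp_on hT.hJ hI.hJ2 hI.B_on))
  obtain ⟨κ1, hκ1on, hκ1⟩ := rows_on hS.ζ_on hon hκ0
  -- `ρ`
  obtain ⟨ρ, hρ⟩ : ∃ ρ : Matrix q L (MonoidAlgebra A G), ρ = ν1 * B - κ1 * Φ := ⟨_, rfl⟩
  have hρon : OnT E (fun _ : q => !τ) t2 1 ρ := by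
    rw [hρ]
    exact (hN.on1.mul0 hI.B_on).sub (OnT.mul (m := 1) (n := 0) hκ1on hI.Φ_on)
  have hρe : ρ * eT A G t2 τ = ρ := by
    rw [hρ, Matrix.sub_mul, Matrix.mul_assoc, Matrix.mul_assoc, hI.B_e, hI.Φ_e]
  have hρker : ∀ κ : Matrix Unit q (MonoidAlgebra A G), κ * ν2 = 0 → κ * ρ = 0 := by
    intro κ hκ
    have h1 : κ * ν1 * (J * adj β ζ) = 0 := by
      rw [Matrix.mul_assoc, hN.perp, ← Matrix.mul_assoc, hκ, Matrix.zero_mul]
    obtain ⟨l, hl⟩ := hS.lag.2 _ h1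
    have h2 : (l * θ - κ * κ1) * ζ = 0 := by
      rw [Matrix.sub_mul, Matrix.mul_assoc, ← hS.comm, ← Matrix.mul_assoc, ← hl,
        Matrix.mul_assoc κ κ1, ← hκ1, Matrix.mul_sub, ← Matrix.mul_assoc κ ν1,
        ← Matrix.mul_assoc κ ν2, hκ, Matrix.zero_mul, sub_zero, sub_self]
    have h3 := hI.fnl _ h2
    rw [hρ, Matrix.mul_sub, ← Matrix.mul_assoc, hl, Matrix.mul_assoc, ← hI.eq,
      ← Matrix.mul_assoc, ← Matrix.mul_assoc, ← Matrix.sub_mul]
    exact h3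
  obtain ⟨D0, hD0, hD0'⟩ := S3_ext hG ρ hρker
  -- the typed restriction
  obtain ⟨D, hD⟩ : ∃ D : Matrix L L (MonoidAlgebra A G),
      D = resT E t2 t2 1 (D0 * eT A G t2 τ) := ⟨_, rfl⟩
  have hDon : OnT E t2 t2 1 D := by rw [hD]; exact resT_on _
  have hνD : ν2 * D = ρ := by
    rw [hD, ← resT_mul_left hN.on2, ← Matrix.mul_assoc, ← hD0', hρe]
    exact resT_of_on hρon
  have hDl : eT A G t2 (!τ) * D = D := by
    rw [hD, ← resT_mul_left (OnT.eT (!τ)), ← Matrix.mul_assoc, hD0]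
  have hDr : D * eT A G t2 τ = D := by
    rw [hD, ← resT_mul_right (OnT.eT τ), Matrix.mul_assoc, eT_mul_self]
  -- self-adjointness
  have hpa : ζ * (J * adj β ν1) = Φ * (J2 * adj β ν2) := by
    have h1 := congrArg (adj β) hN.perp
    rw [adj_mul, adj_mul, adj_mul, adj_mul, adj_adj, adj_adj, hT.hJ.adj β hε,
      hI.hJ2.adj β hε] at h1
    rw [Matrix.mul_smul, Matrix.mul_smul, Matrix.smul_mul, Matrix.smul_mul] at h1
    have h2 := congrArg (fun M => ε • M) h1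
    simp only [step_epseps hε] at h2
    rw [← Matrix.mul_assoc, ← Matrix.mul_assoc]
    exact h2
  obtain ⟨W, hW⟩ : ∃ W : Matrix q q (MonoidAlgebra A G), W = ρ * (J2 * adj β ν2) := ⟨_, rfl⟩
  have hW1 : W = ν1 * (B * (J2 * adj β ν2)) - ν1 * (T * (J * adj β ν1)) +
      ν2 * (J2 * (adj β B * adj β ν1)) := by
    have h1 : κ1 * (Φ * (J2 * adj β ν2)) = ν1 * (T * (J * adj β ν1)) -
        ν2 * (J2 * (adj β B * adj β ν1)) := by
      rw [← hpa, ← Matrix.mul_assoc, ← hκ1, Matrix.sub_mul, Matrix.mul_assoc,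
        Matrix.mul_assoc ν2, ← Matrix.mul_assoc (sharp β ε J J2 B), hsJ,
        Matrix.mul_assoc J2]
    rw [hW, hρ, Matrix.sub_mul, Matrix.mul_assoc, Matrix.mul_assoc, h1]
    abel
  have hW2 : adj β W = ε • W := by
    have e1 : adj β (ν1 * (B * (J2 * adj β ν2))) = ε • (ν2 * (J2 * (adj β B * adj β ν1))) := by
      rw [adj_mul, adj_mul, adj_mul, adj_adj, hI.hJ2.adj β hε]
      simp only [Matrix.mul_smul, Matrix.smul_mul, Matrix.mul_assoc]
    have e2 : adj β (ν2 * (J2 * (adj β B * adj β ν1))) = ε • (ν1 * (B * (J2 * adj β ν2))) := by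
      rw [adj_mul, adj_mul, adj_mul, adj_adj, adj_adj, hI.hJ2.adj β hε]
      simp only [Matrix.mul_smul, Matrix.smul_mul, Matrix.mul_assoc]
    have e3 : adj β (ν1 * (T * (J * adj β ν1))) = ε • (ν1 * (T * (J * adj β ν1))) := by
      rw [adj_mul, adj_mul, adj_mul, adj_adj, hT.hJ.adj β hε]
      simp only [Matrix.mul_smul, Matrix.smul_mul, Matrix.mul_assoc]
      rw [← Matrix.mul_assoc J, ← hT.form, Matrix.mul_assoc]
    rw [hW1, adj_add, adj_sub, e1, e2, e3]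
    rw [smul_add, smul_sub]
    abel
  have hW3 : ν2 * (J2 * adj β ρ) = W := by
    have h1 : adj β W = ε • (ν2 * (J2 * adj β ρ)) := by
      rw [hW, adj_mul, adj_mul, adj_adj, hI.hJ2.adj β hε]
      simp only [Matrix.mul_smul, Matrix.smul_mul, Matrix.mul_assoc]
    rw [hW2] at h1
    have h2 := congrArg (fun M => ε • M) h1
    simp only [step_epseps hε] at h2
    exact h2.symm
  have hform : D * J2 = J2 * adj β D := by
    obtain ⟨Q, hQ⟩ : ∃ Q : Matrix L L (MonoidAlgebra A G), Q = D * J2 - J2 * adj β D :=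
      ⟨_, rfl⟩
    have hQl : eT A G t2 (!τ) * Q = Q := by
      rw [hQ, Matrix.mul_sub, ← Matrix.mul_assoc, hDl, hI.hJ2.left_of_right (step_adj_left β hDr)]
    have h1 : ν2 * (Q * adj β ν2) = 0 := by
      rw [hQ, Matrix.sub_mul, Matrix.mul_sub, ← Matrix.mul_assoc ν2, ← Matrix.mul_assoc ν2 D,
        hνD, Matrix.mul_assoc ρ, ← hW, Matrix.mul_assoc J2, ← adj_mul, hνD, hW3, sub_self]
    have h2 : Q * adj β ν2 = 0 := S3_inj hG _ (by rw [← Matrix.mul_assoc, hQl]) h1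
    have h3 : adj β Q = -(ε • Q) := by
      rw [hQ, adj_sub, adj_mul, adj_mul, adj_adj, hI.hJ2.adj β hε]
      simp only [Matrix.mul_smul, Matrix.smul_mul, smul_sub]
      abel
    have h4 := congrArg (adj β) h2
    rw [adj_mul, adj_adj, adj_zero, h3, Matrix.mul_neg, Matrix.mul_smul, neg_eq_zero] at h4
    have h5 := congrArg (fun M => ε • M) h4
    simp only [step_epseps hε, smul_zero] at h5
    have h6 := S3_inj hG _ hQl h5
    rw [hQ] at h6
    exact sub_eq_zero.1 h6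
  refine ⟨D, κ1, ⟨hDon, hκ1on, hDl, hDr, hform, hκ1, ?_⟩⟩
  rw [hνD, hρ]
  abel

end Pool.Agent.Lib.MP_98022b_UN
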