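import Mathlib
import Pool.Agent.Lib.MP_98022b_UN.StepL


open MonoidAlgebra

namespace Pool.Agent.Lib.MP_98022b_UN

universe u v
variable {A : Type u} {G : Type v} [CommRing A] [IsDomain A] [Group G]
  {E : EdgeSys G} {β : BarStr A G} {ε : ℤ}
  {K r L q : Type} [Fintype K] [DecidableEq K] [Fintype r] [DecidableEq r] [Fintype L]
  [DecidableEq L] [Fintype q] [DecidableEq q]
  {t : K → Bool} {J T : Matrix K K (MonoidAlgebra A G)} {s : r → Bool}
  {ζ : Matrix r K (MonoidAlgebra A G)} {θ : Matrix r r (MonoidAlgebra A G)}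
  {τ : Bool} {t2 : L → Bool} {J2 : Matrix L L (MonoidAlgebra A G)}
  {Φ : Matrix r L (MonoidAlgebra A G)} {B : Matrix K L (MonoidAlgebra A G)}
  {ν1 : Matrix q K (MonoidAlgebra A G)} {ν2 : Matrix q L (MonoidAlgebra A G)}
  {D : Matrix L L (MonoidAlgebra A G)} {κ1 : Matrix q r (MonoidAlgebra A G)}

/-- powers of the new form -/
theorem S4_pow (C : Matrix L K (MonoidAlgebra A G)) (h1 : B * C = 0) (h2 : B * D = 0)
    (h3 : D * C = 0) (h4 : D * D = 0) (n : ℕ) :
    (Matrix.fromBlocks T (-B) (-C) D) ^ (n + 2) =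
      Matrix.fromBlocks (T ^ (n + 2)) (-(T ^ (n + 1) * B)) (-(C * T ^ (n + 1)))
        (C * T ^ n * B) := by
  induction n with
  | zero =>
    rw [zero_add, pow_two, Matrix.fromBlocks_multiply]
    simp only [Matrix.neg_mul, Matrix.mul_neg, neg_neg, h1, h2, h3, h4, add_zero, pow_one,
      pow_zero, Matrix.mul_one, pow_two, zero_add, neg_zero]
  | succ n ih =>
    rw [show n + 1 + 2 = (n + 2) + 1 from rfl, pow_succ, ih, Matrix.fromBlocks_multiply]
    simp only [Matrix.neg_mul, Matrix.mul_neg, neg_neg]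
    have e1 : T ^ (n + 1) * B * C = 0 := by rw [Matrix.mul_assoc, h1, Matrix.mul_zero]
    have e2 : T ^ (n + 1) * B * D = 0 := by rw [Matrix.mul_assoc, h2, Matrix.mul_zero]
    have e3 : C * T ^ n * B * C = 0 := by rw [Matrix.mul_assoc, h1, Matrix.mul_zero]
    have e4 : C * T ^ n * B * D = 0 := by rw [Matrix.mul_assoc, h2, Matrix.mul_zero]
    have e5 : C * T ^ (n + 1) * T = C * T ^ (n + 1 + 1) := by
      rw [Matrix.mul_assoc, ← pow_succ]
    rw [e1, e2, e3, e4, e5, ← pow_succ T (n + 2)]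
    simp only [add_zero, neg_zero]

/-- S4 -/
theorem tf_step (hε : ε = 1 ∨ ε = -1) (hT : TF E β ε t J T)
    (hI : StepIn E ε t s ζ θ τ t2 J2 Φ B)
    (hO : StepOut E β ε t J T s ζ τ t2 J2 Φ B ν1 ν2 D κ1) :
    TF E β ε (Sum.elim t t2) (Matrix.fromBlocks J 0 0 J2)
      (Matrix.fromBlocks T (-B) (-sharp β ε J J2 B) D) where
  hJ := HJ.sum hT.hJ hI.hJ2
  on := OnT.blocks hT.on hI.B_on.neg (sharp_on hT.hJ hI.hJ2 hI.B_on).neg hO.D_on
  form := by
    rw [adj_fromBlocks, Matrix.fromBlocks_multiply, Matrix.fromBlocks_multiply]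
    simp only [Matrix.mul_zero, Matrix.zero_mul, add_zero, zero_add, adj_neg, Matrix.mul_neg,
      Matrix.neg_mul, neg_zero]
    rw [sharp_mul_J hε hT.hJ, adj_sharp hε hT.hJ hI.hJ2, hT.form, hO.D_form]
    congr 2
    rw [Matrix.mul_smul, ← Matrix.mul_assoc, ← Matrix.mul_assoc, hT.hJ.sq hε, Matrix.smul_mul,
      Matrix.smul_mul, Matrix.one_mul, step_epseps hε]
  nil := by
    obtain ⟨N, hN⟩ := hT.nil
    have hs := sharp_left (β := β) (J := J) hI.hJ2 hI.B_e
    have h1 : B * sharp β ε J J2 B = 0 := step_mul_zero t2 τ hI.B_e hs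
    have h2 : B * D = 0 := step_mul_zero t2 τ hI.B_e hO.D_left
    have h3 : D * sharp β ε J J2 B = 0 := step_mul_zero t2 τ hO.D_right hs
    have h4 : D * D = 0 := step_mul_zero t2 τ hO.D_right hO.D_left
    refine ⟨N + 2, ?_⟩
    rw [S4_pow _ h1 h2 h3 h4, pow_add, pow_add, hN]
    simp

end Pool.Agent.Lib.MP_98022b_UN
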