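import Mathlib
import Pool.Agent.Lib.MP_98022b_UN.StepL


open MonoidAlgebra

namespace Pool.Agent.Lib.MP_98022b_UN

universe u v
variable {A : Type u} {G : Type v} [CommRing A] [IsDomain A] [Group G]
  {E : EdgeSys G} {β : BarStr A G} {ε : ℤ}
  {K r L q : Type} [Fintype K] [DecidableEq K] [Fintype r] [DecidableEq r] [Fintype L]
  [DecidableEq L] [Fintype q] [DecidableEq q]
  {t : K → Bool} {J T : Matrix K K (MonoidAlgebra A G)} {s : r → Bool}
  {ζ : Matrix r K (MonoidAlgebra A G)} {θ : Matrix r r (MonoidAlgebra A G)}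
  {τ : Bool} {t2 : L → Bool} {J2 : Matrix L L (MonoidAlgebra A G)}
  {Φ : Matrix r L (MonoidAlgebra A G)} {B : Matrix K L (MonoidAlgebra A G)}
  {ν1 : Matrix q K (MonoidAlgebra A G)} {ν2 : Matrix q L (MonoidAlgebra A G)}
  {D : Matrix L L (MonoidAlgebra A G)} {κ1 : Matrix q r (MonoidAlgebra A G)}

/-- `ν1 J ν1* = 0` -/
theorem S5_iso {I : Type} [Fintype I] [DecidableEq I] {w : I → Bool}
    {J' : Matrix I I (MonoidAlgebra A G)} (hJ : HJ ε w J') {c d : Type} {σ : Bool}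
    {M : Matrix c I (MonoidAlgebra A G)} {N : Matrix d I (MonoidAlgebra A G)}
    (hM : M * eT A G w σ = M) (hN : N * eT A G w σ = N) : M * (J' * adj β N) = 0 := by
  have h1 := hJ.left_of_right (step_adj_left β hN)
  exact step_mul_zero w σ hM h1

theorem S5_type {I c : Type} [Fintype I] [DecidableEq I] [Fintype c] [DecidableEq c]
    {w : I → Bool} {w' : c → Bool} {J' : Matrix I I (MonoidAlgebra A G)} (hJ : HJ ε w J')
    {M : Matrix c I (MonoidAlgebra A G)} (hM : OnT E w' w 0 M) (σ : Bool) :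
    eT A G w (!σ) * (J' * adj β M) = J' * adj β M * eT A G w' σ := by
  rw [← Matrix.mul_assoc, hJ.eT_mul, Bool.not_not, Matrix.mul_assoc, Matrix.mul_assoc]
  congr 1
  rw [← adj_eT β w σ, ← adj_mul, ← hM.eT_mul σ, adj_mul, adj_eT]

/-- The adjoint of the orthogonality relation. -/
theorem S5_perp_adj (hε : ε = 1 ∨ ε = -1) (hJ : HJ ε t J) (hJ2 : HJ ε t2 J2)
    (h : ν1 * (J * adj β ζ) = ν2 * (J2 * adj β Φ)) :
    ζ * (J * adj β ν1) = Φ * (J2 * adj β ν2) := by
  have h1 := congrArg (adj β) h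
  rw [adj_mul, adj_mul, adj_mul, adj_mul, adj_adj, adj_adj, hJ.adj β hε, hJ2.adj β hε] at h1
  rw [Matrix.mul_smul, Matrix.mul_smul, Matrix.smul_mul, Matrix.smul_mul] at h1
  have h2 := congrArg (fun M => ε • M) h1
  simp only [step_epseps hε] at h2
  rw [← Matrix.mul_assoc, ← Matrix.mul_assoc]
  exact h2

/-- S5 -/
theorem stage_step (hε : ε = 1 ∨ ε = -1) (hT : TF E β ε t J T)
    (hS : IsStage E β t J T s ζ θ) (hI : StepIn E ε t s ζ θ τ t2 J2 Φ B)
    (hN : IsNu E β t J ζ τ t2 J2 Φ ν1 ν2) (hG : Good τ t2 ν2)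
    (hO : StepOut E β ε t J T s ζ τ t2 J2 Φ B ν1 ν2 D κ1) :
    IsStage E β (Sum.elim t t2) (Matrix.fromBlocks J 0 0 J2)
      (Matrix.fromBlocks T (-B) (-sharp β ε J J2 B) D) (Sum.elim s (fun _ : q => !τ))
      (Matrix.fromBlocks ζ (-Φ) ν1 ν2) (Matrix.fromBlocks θ 0 κ1 0) := by
  have hs := sharp_left (β := β) (J := J) hI.hJ2 hI.B_e
  have hν1 : ν1 * eT A G t (!τ) = ν1 := step_right hN.on1
  have hν2 : ν2 * eT A G t2 (!τ) = ν2 := step_right hN.on2
  have hΦΦ : Φ * (J2 * adj β Φ) = 0 := S5_iso hI.hJ2 hI.Φ_e hI.Φ_e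
  have hνν1 : ν1 * (J * adj β ν1) = 0 := S5_iso hT.hJ hν1 hν1
  have hνν2 : ν2 * (J2 * adj β ν2) = 0 := S5_iso hI.hJ2 hν2 hν2
  have hpa : ζ * (J * adj β ν1) = Φ * (J2 * adj β ν2) :=
    S5_perp_adj hε hT.hJ hI.hJ2 hN.perp
  have hblk : Matrix.fromBlocks J 0 0 J2 * adj β (Matrix.fromBlocks ζ (-Φ) ν1 ν2) =
      Matrix.fromBlocks (J * adj β ζ) (J * adj β ν1) (-(J2 * adj β Φ)) (J2 * adj β ν2) := by
    rw [adj_fromBlocks, Matrix.fromBlocks_multiply]
    simp only [Matrix.zero_mul, add_zero, zero_add, adj_neg, Matrix.mul_neg, neg_zero]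
  refine ⟨OnT.blocks hS.ζ_on hI.Φ_on.neg hN.on1 hN.on2,
    OnT.blocks hS.θ_on OnT.zero hO.κ_on OnT.zero, ?_, ?_, ?_⟩
  · rw [Matrix.fromBlocks_multiply, Matrix.fromBlocks_multiply]
    have e1 : Φ * sharp β ε J J2 B = 0 := step_mul_zero t2 τ hI.Φ_e hs
    have e2 : Φ * D = 0 := step_mul_zero t2 τ hI.Φ_e hO.D_left
    simp only [Matrix.mul_neg, Matrix.neg_mul, Matrix.zero_mul, add_zero, e1, e2, neg_zero]
    rw [hS.comm, hI.eq]
    congr 1
    · have := hO.eq1
      rw [← this]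
      abel
    · have := hO.eq2
      rw [← this]
      abel
  · rw [hblk, Matrix.fromBlocks_multiply]
    simp only [Matrix.mul_neg, Matrix.neg_mul, neg_neg]
    rw [hS.lag.1, hΦΦ, hpa, hN.perp, hνν1, hνν2]
    simp
  · intro x hx
    obtain ⟨x1, x2, rfl⟩ : ∃ (x1 : Matrix Unit K (MonoidAlgebra A G))
        (x2 : Matrix Unit L (MonoidAlgebra A G)), x = Matrix.fromCols x1 x2 :=
      ⟨x.toCols₁, x.toCols₂, (Matrix.fromCols_toCols x).symm⟩
    rw [hblk, Matrix.fromCols_mul_fromBlocks, ← Matrix.fromCols_zero] at hx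
    obtain ⟨hx1, hx2⟩ := Matrix.fromCols_inj hx
    rw [Matrix.mul_neg, ← sub_eq_add_neg, sub_eq_zero] at hx1
    have a1 : x1 = x1 * eT A G t τ + x1 * eT A G t (!τ) := by
      rw [← Matrix.mul_add, eT_add, Matrix.mul_one]
    have a2 : x2 = x2 * eT A G t2 τ + x2 * eT A G t2 (!τ) := by
      rw [← Matrix.mul_add, eT_add, Matrix.mul_one]
    -- the part of type `!τ`
    obtain ⟨κ, hκ1, hκ2⟩ := hN.gen (x1 * eT A G t (!τ)) (x2 * eT A G t2 (!τ))
      (by rw [Matrix.mul_assoc, eT_mul_self]) (by rw [Matrix.mul_assoc, eT_mul_self])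
      (by
        rw [Matrix.mul_assoc x1, Matrix.mul_assoc x2, S5_type hT.hJ hS.ζ_on,
          S5_type hI.hJ2 hI.Φ_on, ← Matrix.mul_assoc x1, ← Matrix.mul_assoc x2, hx1])
    -- the part of type `τ`
    have b1 : eT A G t2 τ * (J2 * adj β Φ) = 0 := by
      have h1 := hI.hJ2.left_of_right (step_adj_left β hI.Φ_e)
      rw [← h1, ← Matrix.mul_assoc, eT_mul_not, Matrix.zero_mul]
    have b2 : x1 * eT A G t τ * (J * adj β ζ) = 0 := by
      have h1 := S5_type (β := β) hT.hJ hS.ζ_on (!τ)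
      have h2 := S5_type (β := β) hI.hJ2 hI.Φ_on (!τ)
      rw [Bool.not_not] at h1 h2
      rw [Matrix.mul_assoc x1, h1, ← Matrix.mul_assoc x1, hx1, Matrix.mul_assoc x2, ← h2, b1,
        Matrix.mul_zero]
    obtain ⟨κ', hκ'⟩ := hS.lag.2 _ b2
    have c1 : x1 * eT A G t (!τ) * (J * adj β ν1) = 0 :=
      S5_iso hT.hJ (by rw [Matrix.mul_assoc, eT_mul_self]) hν1
    have c2 : x2 * eT A G t2 (!τ) * (J2 * adj β ν2) = 0 :=
      S5_iso hI.hJ2 (by rw [Matrix.mul_assoc, eT_mul_self]) hν2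
    have c3 : (x2 * eT A G t2 τ + κ' * Φ) * (J2 * adj β ν2) = 0 := by
      have h1 : x1 * (J * adj β ν1) = κ' * Φ * (J2 * adj β ν2) := by
        conv_lhs => rw [a1]
        rw [Matrix.add_mul, c1, add_zero, hκ', Matrix.mul_assoc, hpa, Matrix.mul_assoc]
      have h2 : x2 * (J2 * adj β ν2) = x2 * eT A G t2 τ * (J2 * adj β ν2) := by
        conv_lhs => rw [a2]
        rw [Matrix.add_mul, c2, add_zero]
      rw [h1, h2] at hx2
      rw [Matrix.add_mul, add_comm]
      exact hx2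
    have c4 : x2 * eT A G t2 τ + κ' * Φ = 0 := by
      generalize hy : x2 * eT A G t2 τ + κ' * Φ = y at c3
      have hye : y * eT A G t2 τ = y := by
        rw [← hy, Matrix.add_mul, Matrix.mul_assoc, eT_mul_self, Matrix.mul_assoc, hI.Φ_e]
      have h1 := congrArg (adj β) c3
      rw [adj_mul, adj_mul, adj_adj, hI.hJ2.adj β hε, adj_zero, Matrix.mul_smul,
        Matrix.smul_mul, Matrix.mul_assoc] at h1
      have h2 : ν2 * (J2 * adj β y) = 0 := by
        have h3 := congrArg (fun M => ε • M) h1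
        simp only [step_epseps hε, smul_zero] at h3
        exact h3
      have h4 := hG.inj _ (hI.hJ2.left_of_right (step_adj_left β hye)) h2
      have h5 : adj β y = 0 := by
        have h6 := congrArg (fun M => J2 * M) h4
        simp only [← Matrix.mul_assoc, hI.hJ2.sq hε, Matrix.mul_zero, Matrix.smul_mul,
          Matrix.one_mul] at h6
        have h7 := congrArg (fun M => ε • M) h6
        simp only [step_epseps hε, smul_zero] at h7
        exact h7
      exact adj_eq_zero β h5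
    refine ⟨Matrix.fromCols κ' κ, ?_⟩
    rw [Matrix.fromCols_mul_fromBlocks, Matrix.mul_neg]
    congr 1
    · conv_lhs => rw [a1]
      rw [hκ1, hκ']
    · conv_lhs => rw [a2]
      rw [hκ2]
      rw [eq_neg_of_add_eq_zero_left c4]

end Pool.Agent.Lib.MP_98022b_UN
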