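import Mathlib
import Pool.Agent.Lib.MP_98022b_UN.Defs2
import Pool.Agent.Lib.MP_98022b_UN.CosL


open MonoidAlgebra

namespace Pool.Agent.Lib.MP_98022b_UN

universe u v
variable {A : Type u} {G : Type v} [CommRing A] [IsDomain A] [Group G]
  {E : EdgeSys G} {β : BarStr A G} {ε : ℤ}
  {K r L q : Type} [Fintype K] [DecidableEq K] [Fintype r] [DecidableEq r] [Fintype L]
  [DecidableEq L] [Fintype q] [DecidableEq q]
  {t : K → Bool} {J T : Matrix K K (MonoidAlgebra A G)} {s : r → Bool}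
  {ζ : Matrix r K (MonoidAlgebra A G)} {θ : Matrix r r (MonoidAlgebra A G)}
  {τ : Bool} {t2 : L → Bool} {J2 : Matrix L L (MonoidAlgebra A G)}
  {Φ : Matrix r L (MonoidAlgebra A G)} {B : Matrix K L (MonoidAlgebra A G)}
  {ν1 : Matrix q K (MonoidAlgebra A G)} {ν2 : Matrix q L (MonoidAlgebra A G)}
  {D : Matrix L L (MonoidAlgebra A G)} {κ1 : Matrix q r (MonoidAlgebra A G)}

/-- S6 -/
theorem repNew (hε : ε = 1 ∨ ε = -1) (hJ : HJ ε t J)
    (hS : IsStage E β t J T s ζ θ) (hI : StepIn E ε t s ζ θ τ t2 J2 Φ B)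
    (hN : IsNu E β t J ζ τ t2 J2 Φ ν1 ν2) (hG : Good τ t2 ν2)
    {f : Matrix (r ⊕ q) Unit (MonoidAlgebra A G)}
    (hf : Fnl (Matrix.fromBlocks ζ (-Φ) ν1 ν2) f)
    (h : ∃ (p : Matrix K Unit (MonoidAlgebra A G)) (l : Matrix L Unit (MonoidAlgebra A G)),
      f.toRows₁ = ζ * p + Φ * l) :
    Rep (Matrix.fromBlocks ζ (-Φ) ν1 ν2) f := by
  obtain ⟨p, l, hpl⟩ := h
  have hef : f = Matrix.fromRows f.toRows₁ f.toRows₂ := (Matrix.fromRows_toRows f).symm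
  have hΦ0 : Φ * eT A G t2 (!τ) = 0 := by
    rw [← hI.Φ_e, Matrix.mul_assoc, eT_mul_not, Matrix.mul_zero]
  have hν1 : ν1 * eT A G t (!τ) = ν1 := by
    rw [← hN.on1.eT_mul (!τ)]
    have : (eT A G (fun _ : q => !τ) (!τ) : Matrix q q (MonoidAlgebra A G)) = 1 := by
      unfold eT
      simp
    rw [this, Matrix.one_mul]
  have key : ∀ κ : Matrix Unit q (MonoidAlgebra A G), κ * ν2 = 0 →
      κ * (f.toRows₂ - ν1 * p + ν2 * l) = 0 := by
    intro κ hκ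
    have h1 : (κ * ν1) * (J * adj β ζ) = 0 := by
      rw [Matrix.mul_assoc, hN.perp, ← Matrix.mul_assoc, hκ, Matrix.zero_mul]
    obtain ⟨lam0, hlam0⟩ := hS.lag.2 _ h1
    set lam := lam0 * eT A G s (!τ) with hlam
    have h2 : lam * ζ = κ * ν1 := by
      rw [hlam, Matrix.mul_assoc, hS.ζ_on.eT_mul, ← Matrix.mul_assoc, ← hlam0,
        Matrix.mul_assoc, hν1]
    have h3 : lam * Φ = 0 := by
      rw [hlam, Matrix.mul_assoc, hI.Φ_on.eT_mul, hΦ0, Matrix.mul_zero]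
    have h4 : Matrix.fromCols (-lam) κ * Matrix.fromBlocks ζ (-Φ) ν1 ν2 = 0 := by
      rw [Matrix.fromCols_mul_fromBlocks, Matrix.neg_mul, Matrix.neg_mul, Matrix.mul_neg,
        h2, h3, hκ]
      simp
    have h5 := hf _ h4
    rw [hef, Matrix.fromCols_mul_fromRows, hpl, Matrix.neg_mul, Matrix.mul_add,
      ← Matrix.mul_assoc, ← Matrix.mul_assoc, h2, h3, Matrix.zero_mul, add_zero] at h5
    rw [Matrix.mul_add, Matrix.mul_sub, ← Matrix.mul_assoc κ ν1, ← Matrix.mul_assoc κ ν2, hκ,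
      Matrix.zero_mul, add_zero, sub_eq_zero]
    exact (neg_add_eq_zero.mp h5).symm
  obtain ⟨η, hη, hη2⟩ := hG.ext _ key
  refine ⟨Matrix.fromRows p (-l + η), ?_⟩
  have hΦη : Φ * η = 0 := by
    rw [← hη, ← Matrix.mul_assoc, hΦ0, Matrix.zero_mul]
  conv_lhs => rw [hef]
  rw [Matrix.fromBlocks_mul_fromRows]
  refine Matrix.fromRows_ext_iff _ _ _ _ |>.mpr ⟨?_, ?_⟩
  · rw [hpl, Matrix.mul_add, Matrix.neg_mul, Matrix.neg_mul, Matrix.mul_neg, hΦη]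
    simp
  · rw [Matrix.mul_add, Matrix.mul_neg, ← hη2]
    abel

end Pool.Agent.Lib.MP_98022b_UN
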