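import Mathlib
import Pool.Agent.Lib.MP_98022b_UN.Defs2
import Pool.Agent.Lib.MP_98022b_UN.CosL
import Pool.Agent.Lib.MP_98022b_UN.S6


open MonoidAlgebra

namespace Pool.Agent.Lib.MP_98022b_UN

universe u v
variable {A : Type u} {G : Type v} [CommRing A] [IsDomain A] [Group G]
  {E : EdgeSys G} {β : BarStr A G} {ε : ℤ}
  {K r L q : Type} [Fintype K] [DecidableEq K] [Fintype r] [DecidableEq r] [Fintype L]
  [DecidableEq L] [Fintype q] [DecidableEq q]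
  {t : K → Bool} {J T : Matrix K K (MonoidAlgebra A G)} {s : r → Bool}
  {ζ : Matrix r K (MonoidAlgebra A G)} {θ : Matrix r r (MonoidAlgebra A G)}
  {τ : Bool} {t2 : L → Bool} {J2 : Matrix L L (MonoidAlgebra A G)}
  {Φ : Matrix r L (MonoidAlgebra A G)} {B : Matrix K L (MonoidAlgebra A G)}
  {ν1 : Matrix q K (MonoidAlgebra A G)} {ν2 : Matrix q L (MonoidAlgebra A G)}
  {D : Matrix L L (MonoidAlgebra A G)} {κ1 : Matrix q r (MonoidAlgebra A G)}

set_option linter.unusedSectionVars false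
set_option linter.unusedVariables false

theorem S7.comm_pow {K r : Type} [Fintype K] [DecidableEq K] [Fintype r] [DecidableEq r]
    {T : Matrix K K (MonoidAlgebra A G)}
    {ζ : Matrix r K (MonoidAlgebra A G)} {θ : Matrix r r (MonoidAlgebra A G)}
    (h : ζ * T = θ * ζ) (n : ℕ) : θ ^ n * ζ = ζ * T ^ n := by
  induction n with
  | zero => simp
  | succ n ih => rw [pow_succ', Matrix.mul_assoc, ih, ← Matrix.mul_assoc, ← h, pow_succ',
      Matrix.mul_assoc]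

theorem S7.fnl {K r c : Type} [Fintype K] [DecidableEq K] [Fintype r] [DecidableEq r]
    {t : K → Bool} {s : r → Bool}
    {T : Matrix K K (MonoidAlgebra A G)}
    {ζ : Matrix r K (MonoidAlgebra A G)} {θ : Matrix r r (MonoidAlgebra A G)}
    (hζ : OnT E s t 0 ζ) (h : ζ * T = θ * ζ) (n : ℕ) (τ : Bool)
    {f : Matrix r c (MonoidAlgebra A G)} (hf : Fnl ζ f) :
    Fnl ζ ((eT A G s τ : Matrix r r (MonoidAlgebra A G)) * (θ ^ n * f)) := by
  intro κ hκ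
  rw [← Matrix.mul_assoc, ← Matrix.mul_assoc]
  apply hf
  rw [Matrix.mul_assoc, S7.comm_pow h, Matrix.mul_assoc, ← Matrix.mul_assoc _ ζ, hζ.eT_mul,
    ← Matrix.mul_assoc, ← Matrix.mul_assoc, hκ, Matrix.zero_mul, Matrix.zero_mul]

theorem S7.rows_eT (s : r → Bool) (s' : q → Bool) (σ : Bool)
    (x : Matrix (r ⊕ q) Unit (MonoidAlgebra A G)) :
    ((eT A G (Sum.elim s s') σ : Matrix (r ⊕ q) (r ⊕ q) (MonoidAlgebra A G)) * x).toRows₁ =
      (eT A G s σ : Matrix r r (MonoidAlgebra A G)) * x.toRows₁ := by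
  funext i j
  rw [eT_mul_apply]
  change ((eT A G (Sum.elim s s') σ : Matrix (r ⊕ q) (r ⊕ q) (MonoidAlgebra A G)) * x)
    (Sum.inl i) j = _
  rw [eT_mul_apply]
  rfl

theorem S7.rows_pow (m : ℕ) (x : Matrix (r ⊕ q) Unit (MonoidAlgebra A G)) :
    ((Matrix.fromBlocks θ 0 κ1 0 : Matrix (r ⊕ q) (r ⊕ q) (MonoidAlgebra A G)) ^ m * x).toRows₁ =
      θ ^ m * x.toRows₁ := by
  induction m with
  | zero => rw [pow_zero, pow_zero, Matrix.one_mul, Matrix.one_mul]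
  | succ m ih =>
    rw [pow_succ', pow_succ', Matrix.mul_assoc, Matrix.mul_assoc, ← ih]
    generalize (Matrix.fromBlocks θ 0 κ1 0 : Matrix (r ⊕ q) (r ⊕ q) (MonoidAlgebra A G)) ^ m * x
      = y
    conv_lhs => rw [← Matrix.fromRows_toRows y, Matrix.fromBlocks_mul_fromRows]
    rw [Matrix.toRows₁_fromRows, Matrix.zero_mul, add_zero]

/-- the first part of a functional is a functional -/
theorem S7.first (hΦ : Fnl ζ Φ) {f : Matrix (r ⊕ q) Unit (MonoidAlgebra A G)}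
    (hf : Fnl (Matrix.fromBlocks ζ (-Φ) ν1 ν2) f) : Fnl ζ f.toRows₁ := by
  intro κ hκ
  have h1 : Matrix.fromCols κ (0 : Matrix Unit q (MonoidAlgebra A G)) *
      Matrix.fromBlocks ζ (-Φ) ν1 ν2 = 0 := by
    rw [Matrix.fromCols_mul_fromBlocks, hκ, Matrix.mul_neg, hΦ κ hκ, Matrix.zero_mul,
      Matrix.zero_mul, neg_zero, add_zero, add_zero]
    funext i j
    rcases j with j | j <;> rfl
  have h2 := hf _ h1
  conv_lhs at h2 => rw [← Matrix.fromRows_toRows f, Matrix.fromCols_mul_fromRows,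
    Matrix.zero_mul, add_zero]
  exact h2

/-- S7a -/
theorem pp_keep (hε : ε = 1 ∨ ε = -1) (hJ : HJ ε t J)
    (hS : IsStage E β t J T s ζ θ) (hI : StepIn E ε t s ζ θ τ t2 J2 Φ B)
    (hN : IsNu E β t J ζ τ t2 J2 Φ ν1 ν2) (hG : Good τ t2 ν2)
    (hO : StepOut E β ε t J T s ζ τ t2 J2 Φ B ν1 ν2 D κ1)
    (hS' : IsStage E β (Sum.elim t t2) (Matrix.fromBlocks J 0 0 J2)
      (Matrix.fromBlocks T (-B) (-sharp β ε J J2 B) D) (Sum.elim s (fun _ : q => !τ))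
      (Matrix.fromBlocks ζ (-Φ) ν1 ν2) (Matrix.fromBlocks θ 0 κ1 0))
    {m : ℕ} {σ : Bool} (hP : PP E s ζ θ m σ) :
    PP E (Sum.elim s (fun _ : q => !τ)) (Matrix.fromBlocks ζ (-Φ) ν1 ν2)
      (Matrix.fromBlocks θ 0 κ1 0) m σ := by
  intro τ' f hf hf'
  have hf1 : OnT E s (fun _ => τ') 0 f.toRows₁ := fun i j g hg => hf (Sum.inl i) j g hg
  obtain ⟨p, hp⟩ := hP τ' f.toRows₁ hf1 (S7.first hI.fnl hf')
  refine repNew hε hJ hS hI hN hG (S7.fnl hS'.ζ_on hS'.comm m σ hf') ⟨p, 0, ?_⟩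
  rw [S7.rows_eT, S7.rows_pow, hp, Matrix.mul_zero, add_zero]

/-- S7b -/
theorem pp_gain (hε : ε = 1 ∨ ε = -1) (hJ : HJ ε t J)
    (hS : IsStage E β t J T s ζ θ) (hI : StepIn E ε t s ζ θ τ t2 J2 Φ B)
    (hN : IsNu E β t J ζ τ t2 J2 Φ ν1 ν2) (hG : Good τ t2 ν2)
    (hO : StepOut E β ε t J T s ζ τ t2 J2 Φ B ν1 ν2 D κ1)
    (hS' : IsStage E β (Sum.elim t t2) (Matrix.fromBlocks J 0 0 J2)
      (Matrix.fromBlocks T (-B) (-sharp β ε J J2 B) D) (Sum.elim s (fun _ : q => !τ))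
      (Matrix.fromBlocks ζ (-Φ) ν1 ν2) (Matrix.fromBlocks θ 0 κ1 0))
    {n : ℕ} (hgen : ∀ (τ' : Bool) (f : Matrix r Unit (MonoidAlgebra A G)),
      OnT E s (fun _ => τ') 0 f → Fnl ζ f → ∃ l : Matrix L Unit (MonoidAlgebra A G),
        (eT A G s τ : Matrix r r (MonoidAlgebra A G)) * (θ ^ n * f) = Φ * l) :
    PP E (Sum.elim s (fun _ : q => !τ)) (Matrix.fromBlocks ζ (-Φ) ν1 ν2)
      (Matrix.fromBlocks θ 0 κ1 0) n τ := by
  intro τ' f hf hf'
  have hf1 : OnT E s (fun _ => τ') 0 f.toRows₁ := fun i j g hg => hf (Sum.inl i) j g hg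
  obtain ⟨l, hl⟩ := hgen τ' f.toRows₁ hf1 (S7.first hI.fnl hf')
  refine repNew hε hJ hS hI hN hG (S7.fnl hS'.ζ_on hS'.comm n τ hf') ⟨0, l, ?_⟩
  rw [S7.rows_eT, S7.rows_pow, hl, Matrix.mul_zero, zero_add]

end Pool.Agent.Lib.MP_98022b_UN
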