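import Mathlib
import Pool.Agent.Lib.MP_98022b_UN.Defs2
import Pool.Agent.Lib.MP_98022b_UN.OnL1
import Pool.Agent.Lib.MP_98022b_UN.OnL2
import Pool.Agent.Lib.MP_98022b_UN.W1


open MonoidAlgebra

namespace Pool.Agent.Lib.MP_98022b_UN

universe u v
variable {A : Type u} {G : Type v} [CommRing A] [IsDomain A] [Group G]
  {E : EdgeSys G} {β : BarStr A G} {ε : ℤ}

/-- W3: `T̃ ⊕ T⁻` is metabolic -/
theorem metab_step (hε : ε = 1 ∨ ε = -1) {K L : Type} [Fintype K] [DecidableEq K] [Fintype L]
    [DecidableEq L] {t : K → Bool} {J T : Matrix K K (MonoidAlgebra A G)}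
    (hT : TF E β ε t J T) {τ : Bool} {t2 : L → Bool} {J2 : Matrix L L (MonoidAlgebra A G)}
    (hJ2 : HJ ε t2 J2) {B : Matrix K L (MonoidAlgebra A G)} (hB : B * eT A G t2 τ = B)
    {D : Matrix L L (MonoidAlgebra A G)} (hD : eT A G t2 (!τ) * D = D) (hD' : D * eT A G t2 τ = D) :
    Metab E β (Sum.elim (Sum.elim t t2) t)
      (Matrix.fromBlocks (Matrix.fromBlocks J 0 0 J2) 0 0 J)
      (Matrix.fromBlocks (Matrix.fromBlocks T (-B) (-sharp β ε J J2 B) D) 0 0 (negT t T)) := by
  classical
  -- projectors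
  set e : Matrix K K (MonoidAlgebra A G) := eT A G t false with he
  set e' : Matrix K K (MonoidAlgebra A G) := eT A G t true with he'
  set f : Matrix L L (MonoidAlgebra A G) := eT A G t2 τ with hf
  have see : e * e = e := eT_mul_self t false
  have see' : e' * e' = e' := eT_mul_self t true
  have see1 : e * e' = 0 := eT_mul_not t false
  have see2 : e' * e = 0 := eT_mul_not t true
  have sum1 : e + e' = 1 := eT_add t false
  have sff : f * f = f := eT_mul_self t2 τ
  have eJ : e * J = J * e' := HJ.eT_mul hT.hJ false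
  have eJ' : e' * J = J * e := HJ.eT_mul hT.hJ true
  have fJ : f * J2 = J2 * eT A G t2 (!τ) := HJ.eT_mul hJ2 τ
  have fsum : f + eT A G t2 (!τ) = 1 := eT_add t2 τ
  have ade : adj β e = e := adj_eT β t false
  have ade' : adj β e' = e' := adj_eT β t true
  have adf : adj β f = f := adj_eT β t2 τ
  have fnot : f * eT A G t2 (!τ) = 0 := eT_mul_not t2 τ
  have notf : (eT A G t2 (!τ) * f : Matrix L L (MonoidAlgebra A G)) = 0 := eT_not_mul t2 τ
  have hsg : sgn A G t = e - e' := rfl
  have sg2 : (sgn A G t * sgn A G t : Matrix K K (MonoidAlgebra A G)) = 1 := by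
    rw [hsg, sub_mul, mul_sub, mul_sub, see, see', see1, see2, ← sum1]; abel
  have fD : f * D = 0 := by
    rw [← hD, ← Matrix.mul_assoc, fnot, Matrix.zero_mul]
  have fsharp : f * sharp β ε J J2 B = 0 := by
    have h1 : adj β B = f * adj β B := by
      conv_lhs => rw [← hB, adj_mul, adf]
    have h2 : f * (J2 * adj β B * J) = 0 := by
      rw [h1, ← Matrix.mul_assoc, ← Matrix.mul_assoc, fJ, Matrix.mul_assoc J2, ← Matrix.mul_assoc
        (eT A G t2 (!τ)), notf, Matrix.zero_mul, Matrix.mul_zero, Matrix.zero_mul]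
    unfold sharp
    rw [Matrix.mul_smul, h2, smul_zero]
  -- the factorization
  set R1 : Matrix (K ⊕ L) (K ⊕ L) (MonoidAlgebra A G) := Matrix.fromBlocks 1 0 0 f with hR1
  set R2 : Matrix (K ⊕ L) K (MonoidAlgebra A G) := Matrix.fromRows (sgn A G t) 0 with hR2
  set P1 : Matrix (K ⊕ L) (K ⊕ L) (MonoidAlgebra A G) := Matrix.fromBlocks e 0 0 f with hP1
  set P2 : Matrix K (K ⊕ L) (MonoidAlgebra A G) := Matrix.fromCols (-e') 0 with hP2
  set R : Matrix (K ⊕ L) ((K ⊕ L) ⊕ K) (MonoidAlgebra A G) := Matrix.fromCols R1 R2 with hR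
  set P : Matrix ((K ⊕ L) ⊕ K) (K ⊕ L) (MonoidAlgebra A G) := Matrix.fromRows P1 P2 with hP
  have sgm : (sgn A G t * -e' : Matrix K K (MonoidAlgebra A G)) = e' := by
    rw [hsg, Matrix.mul_neg, Matrix.sub_mul, see1, see']; abel
  have RP : R * P = R1 := by
    rw [hR, hP, Matrix.fromCols_mul_fromRows, hR1, hP1, hR2, hP2, Matrix.fromBlocks_multiply,
      Matrix.fromRows_mul_fromCols, Matrix.fromBlocks_add]
    congr 1
    · rw [Matrix.one_mul, Matrix.zero_mul, sgm, add_zero, sum1]
    · simp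
    · simp
    · rw [sff]; simp
  have R1R : R1 * R = R := by
    rw [hR, Matrix.mul_fromCols]
    congr 1
    · rw [hR1, Matrix.fromBlocks_multiply]
      congr 1 <;> simp [sff]
    · rw [hR1, hR2, Matrix.fromBlocks_mul_fromRows]
      congr 1 <;> simp
  have RPR : R * (P * R) = R := by rw [← Matrix.mul_assoc, RP, R1R]
  set Tt : Matrix (K ⊕ L) (K ⊕ L) (MonoidAlgebra A G) :=
    Matrix.fromBlocks T (-B) (-sharp β ε J J2 B) D with hTt
  have RT : R * Matrix.fromBlocks Tt 0 0 (negT t T) =
      Matrix.fromBlocks T (-B) 0 0 * R := by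
    rw [hR, Matrix.fromCols_mul_fromBlocks, Matrix.mul_fromCols]
    congr 1
    · rw [hR1, hTt, Matrix.mul_zero, add_zero, Matrix.fromBlocks_multiply,
        Matrix.fromBlocks_multiply]
      congr 1
      · simp
      · rw [Matrix.neg_mul, hB]; simp
      · rw [Matrix.mul_neg, fsharp]; simp
      · rw [fD]; simp
    · rw [hR2, Matrix.mul_zero, zero_add, Matrix.fromRows_mul, Matrix.fromBlocks_mul_fromRows]
      congr 1
      · unfold negT
        rw [← Matrix.mul_assoc, ← Matrix.mul_assoc, sg2, Matrix.one_mul]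
        simp
      · simp
  have hQ : P * R = Matrix.fromBlocks P1 (Matrix.fromRows e 0) P2 e' := by
    rw [hP, hR, Matrix.fromRows_mul_fromCols]
    congr 1
    · rw [hP1, hR1, Matrix.fromBlocks_multiply]
      congr 1 <;> simp [sff]
    · rw [hP1, hR2, Matrix.fromBlocks_mul_fromRows]
      congr 1
      · rw [hsg, Matrix.mul_sub, see, see1]; simp
      · simp
    · rw [hP2, hR1, Matrix.fromCols_mul_fromBlocks]
      congr 1 <;> simp
    · rw [hP2, hR2, Matrix.fromCols_mul_fromRows, hsg, Matrix.mul_sub, Matrix.neg_mul,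
        Matrix.neg_mul, see2, see']
      simp
  refine ⟨P * R, ?_, ?_, ?_, ?_⟩
  · rw [hQ]
    refine OnT.blocks ?_ ?_ ?_ ?_
    · exact OnT.blocks (OnT.eT false) OnT.zero OnT.zero (OnT.eT τ)
    · exact OnT.rows (OnT.eT false) OnT.zero
    · exact OnT.cols (OnT.neg (OnT.eT true)) OnT.zero
    · exact OnT.eT true
  · rw [Matrix.mul_assoc, RPR]
  · rw [Matrix.mul_assoc P R, RT, Matrix.mul_sub, Matrix.mul_one]
    rw [Matrix.mul_assoc P _ (P * R), Matrix.mul_assoc _ R (P * R), RPR, sub_self]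
  · rw [hQ]
    have h1 : adj β (Matrix.fromBlocks P1 (Matrix.fromRows e 0) P2 e') =
        Matrix.fromBlocks P1 (Matrix.fromRows (-e') 0) (Matrix.fromCols e 0) e' := by
      rw [adj_fromBlocks, hP1, adj_fromBlocks, hP2, adj_fromCols, adj_fromRows, adj_neg, ade, ade',
        adf]
      simp only [adj_zero]
    rw [h1, Matrix.mul_sub, Matrix.mul_one, eq_sub_iff_add_eq,
      Matrix.fromBlocks_multiply P1, Matrix.fromBlocks_multiply (Matrix.fromBlocks J 0 0 J2),
      Matrix.fromBlocks_add]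
    congr 1
    · rw [hP1, Matrix.mul_zero, Matrix.zero_mul, Matrix.fromBlocks_multiply,
        Matrix.fromBlocks_multiply, add_zero, add_zero, Matrix.fromBlocks_add]
      congr 1
      · rw [← eJ', Matrix.zero_mul, add_zero, add_zero, ← Matrix.add_mul, sum1, Matrix.one_mul]
      · simp
      · simp
      · rw [fJ, Matrix.zero_mul, zero_add, zero_add, ← Matrix.mul_add, add_comm, fsum,
          Matrix.mul_one]
    · rw [Matrix.mul_zero, zero_add, Matrix.zero_mul, add_zero, Matrix.fromRows_mul,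
        Matrix.fromBlocks_mul_fromRows, eJ, Matrix.mul_neg]
      funext i j
      rcases i with i | i <;> simp
    · rw [hP2, Matrix.mul_zero, add_zero, Matrix.zero_mul, zero_add,
        Matrix.fromCols_mul_fromBlocks, Matrix.mul_fromCols, Matrix.neg_mul, eJ']
      funext i j
      rcases j with j | j <;> simp
    · rw [Matrix.mul_zero, zero_add, Matrix.zero_mul, zero_add, ← eJ, ← Matrix.add_mul,
        add_comm, sum1, Matrix.one_mul]

end Pool.Agent.Lib.MP_98022b_UN
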