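import Mathlib
import Pool.Agent.Lib.MP_98022b_UN.Defs2
import Pool.Agent.Lib.MP_98022b_UN.OnL1
import Pool.Agent.Lib.MP_98022b_UN.OnL2
import Pool.Agent.Lib.MP_98022b_UN.W1


open MonoidAlgebra

namespace Pool.Agent.Lib.MP_98022b_UN

universe u v
variable {A : Type u} {G : Type v} [CommRing A] [IsDomain A] [Group G]
  {E : EdgeSys G} {β : BarStr A G} {ε : ℤ}

/-- W2: `T ⊕ T⁻` is metabolic -/
theorem metab_neg (hε : ε = 1 ∨ ε = -1) {K : Type} [Fintype K] [DecidableEq K] {t : K → Bool}
    {J T : Matrix K K (MonoidAlgebra A G)} (hT : TF E β ε t J T) :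
    Metab E β (Sum.elim t t) (Matrix.fromBlocks J 0 0 J)
      (Matrix.fromBlocks T 0 0 (negT t T)) := by
  have h1 : (eT A G t false * eT A G t false : Matrix K K (MonoidAlgebra A G)) =
    eT A G t false := eT_mul_self t false
  have h2 : (eT A G t true * eT A G t true : Matrix K K (MonoidAlgebra A G)) =
    eT A G t true := eT_mul_self t true
  have h3 : (eT A G t false * eT A G t true : Matrix K K (MonoidAlgebra A G)) = 0 :=
    eT_mul_not t false
  have h4 : (eT A G t true * eT A G t false : Matrix K K (MonoidAlgebra A G)) = 0 :=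
    eT_mul_not t true
  have h5 : (eT A G t false + eT A G t true : Matrix K K (MonoidAlgebra A G)) = 1 :=
    eT_add t false
  have h6 : eT A G t false * J = J * eT A G t true := hT.hJ.eT_mul false
  have h7 : eT A G t true * J = J * eT A G t false := hT.hJ.eT_mul true
  have a1 : adj β (eT A G t false : Matrix K K (MonoidAlgebra A G)) = eT A G t false :=
    adj_eT β t false
  have a2 : adj β (eT A G t true : Matrix K K (MonoidAlgebra A G)) = eT A G t true :=
    adj_eT β t true
  have o1 : OnT E t t 0 (eT A G t false : Matrix K K (MonoidAlgebra A G)) := OnT.eT false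
  have o2 : OnT E t t 0 (eT A G t true : Matrix K K (MonoidAlgebra A G)) := OnT.eT true
  unfold negT sgn
  generalize (eT A G t false : Matrix K K (MonoidAlgebra A G)) = X at *
  generalize (eT A G t true : Matrix K K (MonoidAlgebra A G)) = Y at *
  have h8 : ∀ M : Matrix K K (MonoidAlgebra A G), X * (X * M) = X * M := fun M => by
    rw [← Matrix.mul_assoc, h1]
  have h9 : ∀ M : Matrix K K (MonoidAlgebra A G), Y * (Y * M) = Y * M := fun M => by
    rw [← Matrix.mul_assoc, h2]
  have h10 : ∀ M : Matrix K K (MonoidAlgebra A G), X * (Y * M) = 0 := fun M => by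
    rw [← Matrix.mul_assoc, h3, Matrix.zero_mul]
  have h11 : ∀ M : Matrix K K (MonoidAlgebra A G), Y * (X * M) = 0 := fun M => by
    rw [← Matrix.mul_assoc, h4, Matrix.zero_mul]
  have hY : (1 : Matrix K K (MonoidAlgebra A G)) - X = Y := by rw [← h5]; abel
  have hX : (1 : Matrix K K (MonoidAlgebra A G)) - Y = X := by rw [← h5]; abel
  have hone : (1 : Matrix (K ⊕ K) (K ⊕ K) (MonoidAlgebra A G)) = Matrix.fromBlocks 1 0 0 1 :=
    Matrix.fromBlocks_one.symm
  refine ⟨Matrix.fromBlocks X X (-Y) Y, ?_, ?_, ?_, ?_⟩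
  · exact OnT.blocks o1 o1 o2.neg o2
  · rw [Matrix.fromBlocks_multiply]
    congr 1
    · rw [Matrix.mul_neg, h1, h3]; abel
    · rw [h1, h3]; abel
    · rw [Matrix.neg_mul, Matrix.mul_neg, h2, h4]; abel
    · rw [Matrix.neg_mul, h2, h4]; abel
  · have hs : (1 : Matrix (K ⊕ K) (K ⊕ K) (MonoidAlgebra A G)) - Matrix.fromBlocks X X (-Y) Y =
        Matrix.fromBlocks Y (-X) Y X := by
      rw [hone, sub_eq_add_neg, Matrix.fromBlocks_neg, Matrix.fromBlocks_add]
      congr 1
      · rw [← hY]; abel
      · abel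
      · abel
      · rw [← hX]; abel
    rw [hs, Matrix.fromBlocks_multiply, Matrix.fromBlocks_multiply]
    rw [← Matrix.fromBlocks_zero]
    congr 1 <;>
    · simp only [Matrix.mul_zero, Matrix.zero_mul, add_zero, zero_add, Matrix.neg_mul,
        Matrix.mul_neg, Matrix.sub_mul, Matrix.mul_sub, Matrix.mul_assoc, h8, h9, h10, h11,
        h1, h2, h3, h4]
      abel
  · have ha : adj β (Matrix.fromBlocks X X (-Y) Y) = Matrix.fromBlocks X (-Y) X Y := by
      rw [adj_fromBlocks, adj_neg, a1, a2]
    have hs : (1 : Matrix (K ⊕ K) (K ⊕ K) (MonoidAlgebra A G)) - Matrix.fromBlocks X (-Y) X Y =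
        Matrix.fromBlocks Y Y (-X) X := by
      rw [hone, sub_eq_add_neg, Matrix.fromBlocks_neg, Matrix.fromBlocks_add]
      congr 1
      · rw [← hY]; abel
      · abel
      · abel
      · rw [← hX]; abel
    rw [ha, hs, Matrix.fromBlocks_multiply, Matrix.fromBlocks_multiply]
    congr 1 <;>
    simp only [Matrix.mul_zero, Matrix.zero_mul, add_zero, zero_add, Matrix.neg_mul,
        Matrix.mul_neg, h6, h7, neg_zero]

end Pool.Agent.Lib.MP_98022b_UN
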