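import Mathlib
import Pool.Agent.Lib.MP_98022b_UN.Defs2
import Pool.Agent.Lib.MP_98022b_UN.OnL1
import Pool.Agent.Lib.MP_98022b_UN.OnL2
import Pool.Agent.Lib.MP_98022b_UN.W1
import Pool.Agent.Lib.MP_98022b_UN.W2


open MonoidAlgebra

namespace Pool.Agent.Lib.MP_98022b_UN

universe u v
variable {A : Type u} {G : Type v} [CommRing A] [IsDomain A] [Group G]
  {E : EdgeSys G} {β : BarStr A G} {ε : ℤ}

namespace W4

/-- The permutation of the summands. -/
def sh (K K' K'' : Type) : (K ⊕ K) ⊕ (K' ⊕ K'') ≃ K ⊕ ((K ⊕ K') ⊕ K'') where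
  toFun
    | Sum.inl (Sum.inl a) => Sum.inl a
    | Sum.inl (Sum.inr a) => Sum.inr (Sum.inl (Sum.inl a))
    | Sum.inr (Sum.inl a) => Sum.inr (Sum.inl (Sum.inr a))
    | Sum.inr (Sum.inr a) => Sum.inr (Sum.inr a)
  invFun
    | Sum.inl a => Sum.inl (Sum.inl a)
    | Sum.inr (Sum.inl (Sum.inl a)) => Sum.inl (Sum.inr a)
    | Sum.inr (Sum.inl (Sum.inr a)) => Sum.inr (Sum.inl a)
    | Sum.inr (Sum.inr a) => Sum.inr (Sum.inr a)
  left_inv := by rintro ((a | a) | (a | a)) <;> rfl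
  right_inv := by rintro (a | (a | a) | a) <;> rfl

theorem reindex_sh {K K' K'' R : Type*} [Zero R] (a : Matrix K K R) (b : Matrix K K R)
    (c : Matrix K' K' R) (d : Matrix K'' K'' R) (e : (K ⊕ K) ⊕ (K' ⊕ K'') ≃ K ⊕ ((K ⊕ K') ⊕ K''))
    (h1 : ∀ k, e.symm (Sum.inl k) = Sum.inl (Sum.inl k))
    (h2 : ∀ k, e.symm (Sum.inr (Sum.inl (Sum.inl k))) = Sum.inl (Sum.inr k))
    (h3 : ∀ k, e.symm (Sum.inr (Sum.inl (Sum.inr k))) = Sum.inr (Sum.inl k))
    (h4 : ∀ k, e.symm (Sum.inr (Sum.inr k)) = Sum.inr (Sum.inr k)) :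
    Matrix.reindex e e (Matrix.fromBlocks (Matrix.fromBlocks a 0 0 b) 0 0
      (Matrix.fromBlocks c 0 0 d)) = Matrix.fromBlocks a 0 0
      (Matrix.fromBlocks (Matrix.fromBlocks b 0 0 c) 0 0 d) := by
  ext i j
  rw [Matrix.reindex_apply, Matrix.submatrix_apply]
  rcases i with i | (i | i) | i <;> rcases j with j | (j | j) | j <;>
    simp only [h1, h2, h3, h4] <;> rfl

theorem reindex_swap {K K' R : Type*} [Zero R] (a : Matrix K K R) (b : Matrix K' K' R) :
    Matrix.reindex (Equiv.sumComm K K') (Equiv.sumComm K K') (Matrix.fromBlocks a 0 0 b) =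
      Matrix.fromBlocks b 0 0 a := by
  ext i j
  rw [Matrix.reindex_apply, Matrix.submatrix_apply]
  rcases i with i | i <;> rcases j with j | j <;> rfl

end W4

/-- W4: passing from `T̃` back to `T` -/
theorem smetab_of_step {K K' : Type} [Fintype K] [DecidableEq K] [Fintype K'] [DecidableEq K']
    (hε : ε = 1 ∨ ε = -1) {t : K → Bool} {J T : Matrix K K (MonoidAlgebra A G)}
    (hT : TF E β ε t J T) {t' : K' → Bool} {J' T' : Matrix K' K' (MonoidAlgebra A G)}
    (hT' : TF E β ε t' J' T')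
    (hm : Metab E β (Sum.elim t' t) (Matrix.fromBlocks J' 0 0 J)
      (Matrix.fromBlocks T' 0 0 (negT t T)))
    (h : SMetab E β ε t' J' T') : SMetab E β ε t J T := by
  obtain ⟨K'', f, d, t'', J'', T'', y1, y2, y3⟩ := h
  refine ⟨(K ⊕ K') ⊕ K'', inferInstance, inferInstance, Sum.elim (Sum.elim t t') t'',
    Matrix.fromBlocks (Matrix.fromBlocks J 0 0 J') 0 0 J'',
    Matrix.fromBlocks (Matrix.fromBlocks (negT t T) 0 0 T') 0 0 T'',
    tf_sum (tf_sum (tf_neg hT) hT') y1, metab_sum ?_ y2, ?_⟩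
  · have h1 := metab_reindex (Equiv.sumComm K' K) hm
    rw [W4.reindex_swap, W4.reindex_swap] at h1
    have h2 : (fun l => Sum.elim t' t ((Equiv.sumComm K' K).symm l)) = Sum.elim t t' := by
      funext l
      rcases l with l | l <;> rfl
    rw [h2] at h1
    exact h1
  · have h1 := metab_reindex (W4.sh K K' K'') (metab_sum (metab_neg hε hT) y3)
    rw [W4.reindex_sh _ _ _ _ _ (fun _ => rfl) (fun _ => rfl) (fun _ => rfl) (fun _ => rfl),
      W4.reindex_sh _ _ _ _ _ (fun _ => rfl) (fun _ => rfl) (fun _ => rfl) (fun _ => rfl)] at h1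
    have h2 : (fun l => Sum.elim (Sum.elim t t) (Sum.elim t' t'') ((W4.sh K K' K'').symm l)) =
        Sum.elim t (Sum.elim (Sum.elim t t') t'') := by
      funext l
      rcases l with l | (l | l) | l <;> rfl
    rw [h2] at h1
    exact h1

/-- a metabolic form is stably metabolic -/
theorem smetab_of_metab {K : Type} [Fintype K] [DecidableEq K] {t : K → Bool}
    {J T : Matrix K K (MonoidAlgebra A G)} (hT : TF E β ε t J T) (h : Metab E β t J T) :
    SMetab E β ε t J T := by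
  have e1 : Metab E β (fun _ : Empty => false) (0 : Matrix Empty Empty (MonoidAlgebra A G)) 0 :=
    ⟨0, OnT.zero, Subsingleton.elim _ _, Subsingleton.elim _ _, Subsingleton.elim _ _⟩
  exact ⟨Empty, inferInstance, inferInstance, fun _ => false, 0, 0,
    ⟨⟨fun x => x, fun k => k.elim, fun k => k.elim, fun i => i.elim⟩, OnT.zero,
      Subsingleton.elim _ _, 0, Subsingleton.elim _ _⟩, e1, metab_sum h e1⟩

end Pool.Agent.Lib.MP_98022b_UN
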