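import Mathlib
import Pool.Agent.Lib.MP_98022b_UN.P3
import Pool.Agent.Lib.MP_98022b_UN.K2
import Pool.Agent.Lib.MP_98022b_UN.K3
import Pool.Agent.Lib.MP_98022b_UN.H2
import Pool.Agent.Lib.MP_98022b_UN.S1
import Pool.Agent.Lib.MP_98022b_UN.S2
import Pool.Agent.Lib.MP_98022b_UN.S3
import Pool.Agent.Lib.MP_98022b_UN.S4
import Pool.Agent.Lib.MP_98022b_UN.S5
import Pool.Agent.Lib.MP_98022b_UN.S6
import Pool.Agent.Lib.MP_98022b_UN.S7
import Pool.Agent.Lib.MP_98022b_UN.W1
import Pool.Agent.Lib.MP_98022b_UN.W2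
import Pool.Agent.Lib.MP_98022b_UN.W3
import Pool.Agent.Lib.MP_98022b_UN.W4
import Pool.Agent.Lib.MP_98022b_UN.F1

/-! Assembly: every form is stably metabolic. -/

open MonoidAlgebra

namespace Pool.Agent.Lib.MP_98022b_UN

universe u v
variable {A : Type u} {G : Type v} [CommRing A] [IsDomain A] [UniqueFactorizationMonoid A]
  [Group G] {E : EdgeSys G} {β : BarStr A G} {ε : ℤ}

theorem one_step (hRF : RF A E.F) (hE : E.Geo) (hε : ε = 1 ∨ ε = -1) {K r : Type} [Fintype K]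
    [DecidableEq K] [Fintype r] [DecidableEq r] {t : K → Bool}
    {J T : Matrix K K (MonoidAlgebra A G)} {s : r → Bool} {ζ : Matrix r K (MonoidAlgebra A G)}
    {θ : Matrix r r (MonoidAlgebra A G)} (hT : TF E β ε t J T)
    (hS : IsStage E β t J T s ζ θ) (n : ℕ) (hP : ∀ σ, PP E s ζ θ (n + 1) σ) (τ : Bool) :
    ∃ (K' : Type) (_ : Fintype K') (_ : DecidableEq K') (r' : Type) (_ : Fintype r')
      (_ : DecidableEq r') (t' : K' → Bool) (J' T' : Matrix K' K' (MonoidAlgebra A G))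
      (s' : r' → Bool) (ζ' : Matrix r' K' (MonoidAlgebra A G))
      (θ' : Matrix r' r' (MonoidAlgebra A G)),
      TF E β ε t' J' T' ∧ IsStage E β t' J' T' s' ζ' θ' ∧ (∀ σ, PP E s' ζ' θ' (n + 1) σ) ∧
      PP E s' ζ' θ' n τ ∧ (∀ σ, PP E s ζ θ n σ → PP E s' ζ' θ' n σ) ∧
      (SMetab E β ε t' J' T' → SMetab E β ε t J T) := by
  obtain ⟨γ, _, _, ι, _, _, sγ, Gm, jx, tx, φ, hC⟩ := exists_compIdx hRF β hS n τ
  obtain ⟨hφ, hfnl, ⟨b, hb, heq⟩, hgen⟩ := comp_of_idx hE hS n hP τ hC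
  have havp := avp_of_idx hRF hT.hJ hS n τ hC
  obtain ⟨J2, hJ2⟩ : ∃ J2 : Matrix (ι ⊕ ι) (ι ⊕ ι) (MonoidAlgebra A G),
      HJ ε (Sum.elim (fun _ : ι => τ) (fun _ : ι => !τ)) J2 := ⟨_, HJ.std τ ε⟩
  have hI : StepIn E ε t s ζ θ τ (Sum.elim (fun _ : ι => τ) (fun _ : ι => !τ)) J2
      (Matrix.fromCols φ (0 : Matrix r ι (MonoidAlgebra A G)))
      (Matrix.fromCols b (0 : Matrix K ι (MonoidAlgebra A G))) := by
    refine ⟨hJ2, OnT.cols hφ OnT.zero, ?_, OnT.cols hb OnT.zero, ?_, ?_, ?_, ?_⟩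
    · ext i j : 2
      rw [mul_eT_apply]
      rcases j with j | j
      · simp
      · simp
    · ext i j : 2
      rw [mul_eT_apply]
      rcases j with j | j
      · simp
      · simp
    · intro κ hκ
      have h1 := hfnl κ hκ
      rw [Matrix.mul_fromCols, h1, Matrix.mul_zero]
      ext i j : 2
      rcases j with j | j <;> simp
    · rw [Matrix.mul_fromCols, Matrix.mul_fromCols, heq, Matrix.mul_zero, Matrix.mul_zero]
    · intro a ha h hh hdiv
      obtain ⟨h', hh'⟩ := havp a ha h.toCols₁ (by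
        intro l x hlx
        obtain ⟨y, hy⟩ := hdiv (Matrix.fromRows l 0) x (by
          rw [Matrix.fromCols_mul_fromRows, hlx]; simp)
        refine ⟨y, ?_⟩
        rw [← hy]
        conv_rhs => rw [← Matrix.fromCols_toCols h]
        rw [Matrix.fromCols_mul_fromRows]; simp)
      refine ⟨Matrix.fromCols h' 0, ?_⟩
      rw [← hh]
      ext i j : 2
      rw [mul_eT_apply]
      rcases j with j | j
      · have := congrFun (congrFun hh' i) j
        simp only [Matrix.toCols₁_apply, Matrix.smul_apply] at this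
        simp [this]
      · simp
  obtain ⟨q, _, _, ν1, ν2, hN⟩ := exists_nu (β := β) hRF hε hT.hJ hS.ζ_on hJ2 hI.Φ_on τ
  have hG := good_of_step hRF hε hT.hJ hS hI hN
  obtain ⟨D, κ1, hO⟩ := exists_stepOut hε hT hS hI hN hG
  have hT' := tf_step hε hT hI hO
  have hS' := stage_step hε hT hS hI hN hG hO
  refine ⟨_, inferInstance, inferInstance, _, inferInstance, inferInstance, _, _, _, _, _, _,
    hT', hS', fun σ => pp_keep hε hT.hJ hS hI hN hG hO hS' (hP σ), ?_,
    fun σ h => pp_keep hε hT.hJ hS hI hN hG hO hS' h, ?_⟩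
  · refine pp_gain hε hT.hJ hS hI hN hG hO hS' (fun τ' f hf hf' => ?_)
    obtain ⟨l, hl⟩ := hgen f hf.onF hf'
    refine ⟨Matrix.fromRows l 0, ?_⟩
    rw [hl, Matrix.fromCols_mul_fromRows]; simp
  · exact smetab_of_step hε hT hT' (metab_step hε hT hJ2 hI.B_e hO.D_left hO.D_right)

theorem smetab_aux (hRF : RF A E.F) (hE : E.Geo) (hε : ε = 1 ∨ ε = -1) (m : ℕ) :
    ∀ {K r : Type} [Fintype K] [DecidableEq K] [Fintype r] [DecidableEq r] {t : K → Bool}
      {J T : Matrix K K (MonoidAlgebra A G)} {s : r → Bool}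
      {ζ : Matrix r K (MonoidAlgebra A G)} {θ : Matrix r r (MonoidAlgebra A G)},
      TF E β ε t J T → IsStage E β t J T s ζ θ → (∀ σ, PP E s ζ θ m σ) →
      SMetab E β ε t J T := by
  induction m with
  | zero =>
    intro K r _ _ _ _ t J T s ζ θ hT hS hP
    exact smetab_of_metab hT (metab_of_stage hRF hε hT hS hP)
  | succ n ih =>
    intro K r _ _ _ _ t J T s ζ θ hT hS hP
    obtain ⟨K', _, _, r', _, _, t', J', T', s', ζ', θ', hT', hS', hP', hg, hk, hm⟩ :=
      one_step hRF hE hε hT hS n hP false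
    obtain ⟨K'', _, _, r'', _, _, t'', J'', T'', s'', ζ'', θ'', hT'', hS'', hP'', hg', hk', hm'⟩ :=
      one_step hRF hE hε hT' hS' n hP' true
    refine hm (hm' (ih hT'' hS'' ?_))
    intro σ
    rcases σ
    · exact hk' _ hg
    · exact hg'

/-- the main theorem in the abstract form -/
theorem smetab_of_tf (hRF : RF A E.F) (hE : E.Geo) (hε : ε = 1 ∨ ε = -1) {K : Type} [Fintype K]
    [DecidableEq K] {t : K → Bool} {J T : Matrix K K (MonoidAlgebra A G)}
    (hT : TF E β ε t J T) : SMetab E β ε t J T := by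
  obtain ⟨r, _, _, s, ζ, θ, hS⟩ := exists_stage hRF hE hε hT
  obtain ⟨N, hN⟩ := hT.nil
  refine smetab_aux hRF hE hε N hT hS (fun σ τ f hf hf' => ?_)
  have h1 : θ ^ N * ζ = 0 := by
    have h2 : ∀ m, ζ * T ^ m = θ ^ m * ζ := by
      intro m
      induction m with
      | zero => simp
      | succ m ih =>
        rw [pow_succ, ← Matrix.mul_assoc, ih, Matrix.mul_assoc, hS.comm, ← Matrix.mul_assoc,
          pow_succ]
    rw [← h2, hN, Matrix.mul_zero]
  refine ⟨0, ?_⟩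
  rw [hf'.mat _ h1, Matrix.mul_zero, Matrix.mul_zero]

end Pool.Agent.Lib.MP_98022b_UN
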